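import Pool.Agent.H35.P4I.Def

/-!
# P4I: the pieces of the cell side, statements

`PthStmt`, `CfrStmt`, `GoodS`, `FrP`, `TMStmt`, `err` are those of P4.
-/

set_option autoImplicit false

namespace Pool.P4I

open Finset Real MvPolynomial
open Pool.Agent.H49.Ent Pool.Agent.H32.Dense Pool.STK Pool.STAT Pool.MIC.Frm Pool.MIC7 Pool.FRM
open Pool.GSD
open Pool.BFL (Pb)
open Pool.P4 (t0 rt pp PthC FraC thd sl gr bb ze zt z0 be nn Dep LLC cl1 dg dgp Ry Rg cb nuv yv bev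
  Sv vv tv tq qh GoodS FrP err)

/-! ### Geometry -/

/-- The arithmetic of a place. -/
structure Plc (n : ℕ) (gam : ℕ → ℝ) (y r r' r'' a M i j : ℕ) : Prop where
  stp : Stp n gam y r r' r'' a
  y1 : 1 ≤ y
  a1 : a ≤ i
  i1 : r'' ≤ i
  i2 : i + r'' < M
  j1 : r ≤ j
  j2 : j + r < M

open Classical in
/-- **(LIN)** The lines over a closed frame, deterministic. -/
def LinStmt : Prop :=
  ∀ (n K K' : ℕ) (lam gam : ℕ → ℝ) (C₁ C : ℝ), 1 ≤ n → 1 ≤ C₁ → 0 ≤ C →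
    (∀ l, 1 ≤ l → l ≤ n → lam l = 1) → (∀ l, 0 ≤ gam l) → gam n < 1 + thd gam n →
    ∃ C' : ℝ, 1 ≤ C' ∧
    ∀ (y r r' r'' a M : ℕ), ∃ z₀ : ℕ, ∀ (J a₀ w₀ z i j : ℕ) (D : NDat2) (q : D.Ω → ℝ) (κ : ℝ),
      z₀ ≤ z → Plc n gam y r r' r'' a M i j → D.Ok2 n K J a₀ w₀ z M lam gam κ C₁ q →
      ∀ (P : ℕ → PN) (ω : D.Ω), 0 < q ω → GoodS D n K' w₀ z M C ω → FrP D n K' z i j r C P ω →
      (∀ l, 1 ≤ l → l ≤ n → |ze D i j r (fun _ => P) ω l| ≤ exp (C' * z)) ∧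
      (∀ w, w₀ + j * z ≤ w → w ≤ w₀ + (j + 1) * z →
        (∀ l, 1 ≤ l → l ≤ n → |z0 D J w i j r (fun _ => P) ω l| ≤ exp (C' * z) ∧
          |be D J w i j r (fun _ => P) ω l| ≤ exp (C' * z)) ∧
        (∀ l, sl gam n l → |ze D i j r (fun _ => P) ω l - z0 D J w i j r (fun _ => P) ω l| ≤
          exp (C' * z) / 2 ^ (y * z)) ∧
        (∀ l, gp gam n l → |ze D i j r (fun _ => P) ω l - (z0 D J w i j r (fun _ => P) ω l +
          rt D J w ω * be D J w i j r (fun _ => P) ω l)| ≤ exp (C' * z) / 2 ^ (y * z)) ∧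
        ∀ ω', 0 < q ω' → GoodS D n K' w₀ z M C ω' → bb D i j r ω = bb D i j r ω' →
          D.T ω / 2 ^ (J - w) = D.T ω' / 2 ^ (J - w) →
          (D.c (i + r') (j - r) ω = D.c (i + r') (j - r) ω' →
            (∀ l, sl gam n l → |z0 D J w i j r (fun _ => P) ω l -
              z0 D J w i j r (fun _ => P) ω' l| ≤ exp (C' * z) / 2 ^ (y * z)) ∧
            ∀ l, gp gam n l → |be D J w i j r (fun _ => P) ω l -
              be D J w i j r (fun _ => P) ω' l| ≤ exp (C' * z) / 2 ^ (y * z)) ∧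
          (D.c (i + (r + r')) (j - r) ω = D.c (i + (r + r')) (j - r) ω' →
            ∀ l, 1 ≤ l → l ≤ n → ¬ ab gam n l →
              |z0 D J w i j r (fun _ => P) ω l - z0 D J w i j r (fun _ => P) ω' l| ≤
                exp (C' * z) / 2 ^ (y * z) ∧
              |be D J w i j r (fun _ => P) ω l - be D J w i j r (fun _ => P) ω' l| ≤
                exp (C' * z) / 2 ^ (y * z)) ∧
          (D.c (i + r'') (j - r) ω = D.c (i + r'') (j - r) ω' →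
            ∀ l, 1 ≤ l → l ≤ n →
              |z0 D J w i j r (fun _ => P) ω l - z0 D J w i j r (fun _ => P) ω' l| ≤
                exp (C' * z) / 2 ^ (y * z) ∧
              |be D J w i j r (fun _ => P) ω l - be D J w i j r (fun _ => P) ω' l| ≤
                exp (C' * z) / 2 ^ (y * z)))

open Classical in
/-- **(OWN)** The own sheets over a closed frame, deterministic. -/
def OwnStmt : Prop :=
  ∀ (n K K' : ℕ) (lam gam : ℕ → ℝ) (C₁ C : ℝ), 1 ≤ n → 1 ≤ C₁ → 0 ≤ C →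
    (∀ l, 1 ≤ l → l ≤ n → lam l = 1) → (∀ l, 0 ≤ gam l) → ∃ C' : ℝ, 1 ≤ C' ∧
    ∀ (y r r' r'' a M : ℕ), ∃ z₀ : ℕ, ∀ (J a₀ w₀ z i j : ℕ) (D : NDat2) (q : D.Ω → ℝ) (κ : ℝ),
      z₀ ≤ z → Plc n gam y r r' r'' a M i j → D.Ok2 n K J a₀ w₀ z M lam gam κ C₁ q →
      ∀ (P : D.Γ × D.Γ → ℕ → PN) (E : D.Ω → Prop),
      (∀ ω, E ω → 0 < q ω ∧ GoodS D n K' w₀ z M C ω ∧ FrP D n K' z i j r C (P (bb D i j r ω)) ω) →
      ∃ S : D.Ω → ℕ → ℕ → ℝ, (∀ ω u k, |S ω u k| ≤ exp (C' * z)) ∧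
      (∀ ω u k, u ≤ k → S ω u k = 0) ∧
      (∀ ω, E ω → ∀ Bx : ℝ, 1 ≤ Bx → ∀ b : ℕ → ℝ, b 0 = D.X ω 0 →
        (∀ k, sl gam n k → |nat (D.g i j) (P (bb D i j r ω)) b k| ≤ exp (Bx * z)) →
        (∀ u, gr gam n u → b u = eval b (D.Ψ (i - r') (j + r) ω u)) →
        ∀ u, gr gam n u → |nat (D.g i j) (P (bb D i j r ω)) b u - (nn D n i j r gam P S ω u +
          ∑ k ∈ (range n).filter (sl gam n),
            S ω u k * nat (D.g i j) (P (bb D i j r ω)) b k)| ≤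
              exp (C' * Bx * z) / 2 ^ (y * z)) ∧
      ∀ ω ω', E ω → E ω' → bb D i j r ω = bb D i j r ω' → D.T ω = D.T ω' →
        (D.s (i - r') (j + r) ω = D.s (i - r') (j + r) ω' → ∀ u, gr gam n u →
          |nn D n i j r gam P S ω u - nn D n i j r gam P S ω' u| ≤
            exp (C' * z) / 2 ^ (y * z) ∧
          ∀ k, sl gam n k → |S ω u k - S ω' u k| ≤ exp (C' * z) / 2 ^ (y * z)) ∧
        (D.s (i - r'') (j + r) ω = D.s (i - r'') (j + r) ω' → ∀ u, gr gam n u →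
          ∀ k, sl gam n k → |S ω u k - S ω' u k| ≤ exp (C' * z) / 2 ^ (y * z))

/-- **(ABL)** The own sheets of the coordinates above, deterministic. -/
def AblStmt : Prop :=
  ∀ (n K K' : ℕ) (lam gam : ℕ → ℝ) (C₁ C : ℝ), 1 ≤ n → 1 ≤ C₁ → 0 ≤ C →
    (∀ l, 1 ≤ l → l ≤ n → lam l = 1) → (∀ l, 0 ≤ gam l) → gam n < 1 + thd gam n →
    ∃ C' : ℝ, 1 ≤ C' ∧
    ∀ (y r r' r'' a M : ℕ), ∃ z₀ : ℕ, ∀ (J a₀ w₀ z i j : ℕ) (D : NDat2) (q : D.Ω → ℝ) (κ : ℝ),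
      z₀ ≤ z → Plc n gam y r r' r'' a M i j → D.Ok2 n K J a₀ w₀ z M lam gam κ C₁ q →
      ∀ (P : D.Γ × D.Γ → ℕ → PN) (E : D.Ω → Prop),
      (∀ ω, E ω → 0 < q ω ∧ GoodS D n K' w₀ z M C ω ∧ FrP D n K' z i j r C (P (bb D i j r ω)) ω) →
      ∀ ω ω', E ω → E ω' → bb D i j r ω = bb D i j r ω' → D.T ω = D.T ω' →
        D.s (i - (r + r')) (j + r) ω = D.s (i - (r + r')) (j + r) ω' → ∀ δ : ℝ, 0 ≤ δ →
        (∀ k, 1 ≤ k → k < n → ¬ ab gam n k → |ze D i j r P ω k - ze D i j r P ω' k| ≤ δ) →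
        ∀ u, ab gam n u → |ze D i j r P ω u - ze D i j r P ω' u| ≤
          exp (C' * z) * (δ + exp (C' * z) / 2 ^ (y * z))

/-- **(DEP)** Deeper contexts, deterministic. -/
def DepStmt : Prop :=
  ∀ (n K K' : ℕ) (lam gam : ℕ → ℝ) (C₁ C : ℝ), 1 ≤ n → 1 ≤ C₁ → 0 ≤ C →
    (∀ l, 1 ≤ l → l ≤ n → lam l = 1) → (∀ l, 0 ≤ gam l) → ∃ C' : ℝ, 1 ≤ C' ∧
    ∀ (y r r' r'' a M : ℕ), ∃ z₀ : ℕ, ∀ (J a₀ w₀ z i j : ℕ) (D : NDat2) (q : D.Ω → ℝ) (κ : ℝ),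
      z₀ ≤ z → Plc n gam y r r' r'' a M i j → D.Ok2 n K J a₀ w₀ z M lam gam κ C₁ q →
      ∀ (P : D.Γ × D.Γ → ℕ → PN) (E : D.Ω → Prop),
      (∀ ω, E ω → 0 < q ω ∧ GoodS D n K' w₀ z M C ω ∧ FrP D n K' z i j r C (P (bb D i j r ω)) ω) →
      Dep D n J w₀ z M i j r C' q E P

/-- **(GEO)** -/
def GeoStmt : Prop :=
  ∀ (n K : ℕ) (lam gam : ℕ → ℝ) (C₁ : ℝ), 1 ≤ n → 1 ≤ C₁ → (∀ l, 1 ≤ l → l ≤ n → lam l = 1) →
    (∀ l, 0 ≤ gam l) → gam n < 1 + thd gam n → ∃ (K' : ℕ) (C : ℝ), 1 ≤ C ∧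
    ∀ (y r r' r'' a M : ℕ) (e : ℝ), 0 < e → ∃ (κ : ℝ) (z₀ : ℕ), 0 < κ ∧
    ∀ (J a₀ w₀ z i j : ℕ) (D : NDat2) (q : D.Ω → ℝ), z₀ ≤ z → Plc n gam y r r' r'' a M i j →
      D.Ok2 n K J a₀ w₀ z M lam gam κ C₁ q → D.TmU J w₀ z κ q →
      ∃ (E : D.Ω → Prop) (P : D.Γ × D.Γ → ℕ → PN) (S : D.Ω → ℕ → ℕ → ℝ),
        Pb q (fun ω => ¬ E ω) ≤ e ∧
        (∀ ω, E ω → 0 < q ω ∧ GoodS D n K' w₀ z M C ω ∧
          FrP D n K' z i j r C (P (bb D i j r ω)) ω) ∧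
        Geo D n K' J w₀ z i j r r' r'' gam C (exp (C * z) / 2 ^ (y * z)) q E P S ∧
        Dep D n J w₀ z M i j r C q E P

/-! ### Entropies: everything which is used, and the errors -/

/-- The hypotheses of the entropic pieces. -/
structure Hyp (D : NDat2) (n K K' J a₀ w₀ z M w i j r r' r'' y X : ℕ) (lam gam : ℕ → ℝ)
    (κ C₁ C : ℝ) (q : D.Ω → ℝ) (E : D.Ω → Prop) (P : D.Γ × D.Γ → ℕ → PN)
    (S : D.Ω → ℕ → ℕ → ℝ) {c k : ℕ} (ys : Fin k → ℕ) (gs : Fin c → ℕ) : Prop where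
  ok : D.Ok2 n K J a₀ w₀ z M lam gam κ C₁ q
  dma : D.DMA z M κ q
  llc : LLC D n z M C q
  tmu : D.TmU J w₀ z κ q
  n1 : 1 ≤ n
  C1 : 1 ≤ C₁
  Cg : 1 ≤ C
  κ0 : 0 ≤ κ
  z1 : 1 ≤ z
  lam1 : ∀ l, 1 ≤ l → l ≤ n → lam l = 1
  gam0 : ∀ l, 0 ≤ gam l
  gamn : gam n < 1 + thd gam n
  i0 : 1 ≤ i
  i1 : r'' ≤ i
  i2 : i + r'' < M
  j1 : r ≤ j
  j2 : j + r < M
  r1 : r' ≤ r''
  r2 : r + r' ≤ r''
  w1 : w₀ + j * z ≤ w
  w2 : w ≤ w₀ + (j + 1) * z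
  pE : 1 / 2 ≤ Pb q E
  geo : Geo D n K' J w₀ z i j r r' r'' gam C (exp (C * z) / 2 ^ (y * z)) q E P S
  gd : ∀ ω, E ω → 0 < q ω ∧ GoodS D n K' w₀ z M C ω ∧ FrP D n K' z i j r C (P (bb D i j r ω)) ω
  dep : Dep D n J w₀ z M i j r C q E P
  yX : exp (C * z) * 2 ^ X ≤ 2 ^ (y * z)
  Xz : ∃ x, X = x * z ∧ i + x + r'' < M
  Xr : ∀ x, X = x * z → j + x * r < M
  ys_sl : ∀ a, sl gam n (ys a)
  ys_in : Function.Injective ys
  ys_on : ∀ l, sl gam n l → ∃ a, ys a = l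
  gs_gp : ∀ u, gp gam n (gs u)
  gs_in : StrictMono gs
  gs_on : ∀ l, gp gam n l → ∃ u, gs u = l

/-- The common form of the entropic pieces: the constant `A` depends on `n, K, K', C₁, C, c, k`. -/
def EntOf (F : ∀ (D : NDat2) (n J a₀ w₀ z M w i j r X : ℕ) (gam : ℕ → ℝ) (q : D.Ω → ℝ) (C : ℝ)
    (P : D.Γ × D.Γ → ℕ → PN) (S : D.Ω → ℕ → ℕ → ℝ) (c k : ℕ) (ys : Fin k → ℕ) (gs : Fin c → ℕ)
    (d : ℝ), Prop) : Prop :=
  ∀ (n K K' c k : ℕ) (C₁ C : ℝ), ∃ A : ℝ, 0 ≤ A ∧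
    ∀ (D : NDat2) (J a₀ w₀ z M w i j r r' r'' y X : ℕ) (lam gam : ℕ → ℝ) (κ : ℝ) (q : D.Ω → ℝ)
      (E : D.Ω → Prop) (P : D.Γ × D.Γ → ℕ → PN) (S : D.Ω → ℕ → ℕ → ℝ) (ys : Fin k → ℕ)
      (gs : Fin c → ℕ),
      Hyp D n K K' J a₀ w₀ z M w i j r r' r'' y X lam gam κ C₁ C q E P S ys gs →
      F D n J a₀ w₀ z M w i j r X gam q C P S c k ys gs
        (err A κ z X (Pb q (fun ω => ¬ E ω)))

/-- **(H0)** The abstract time is almost independent of the line. -/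
def H0Stmt : Prop := EntOf fun D _ J _ _ z _ w i j r X _ q C P S c k ys gs d =>
  CH q (qh (c := c) (k := k) D J w z i j r X C P S ys gs q).th
      (qh (c := c) (k := k) D J w z i j r X C P S ys gs q).b ≤
    CH q (qh (c := c) (k := k) D J w z i j r X C P S ys gs q).th
      (qh (c := c) (k := k) D J w z i j r X C P S ys gs q).line + d

/-- **(H2)** The height over the own sheet is almost independent of the data of the line. -/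
def H2Stmt : Prop := EntOf fun D _ J _ _ z _ w i j r X _ q C P S c k ys gs d =>
  let H := qh (c := c) (k := k) D J w z i j r X C P S ys gs q
  CH q H.hgt (fun ω => (H.th ω, H.b ω)) ≤
    CH q H.hgt (fun ω => (H.v ω, (H.th ω, H.b ω))) + d

/-- **(YF)** The slow coordinates are full. -/
def YFStmt : Prop := EntOf fun D _ J _ _ z _ w i j r X _ q C P _ _ k ys _ d =>
  k * X * Real.log 2 ≤ CH q (yv (k := k) D J w z i j r X C P ys) (cb D J w i j r) + d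

/-- **(TF)** The time is full. -/
def TFStmt : Prop := EntOf fun D _ J _ _ _ _ w i j r X _ q _ _ _ _ _ _ _ d =>
  X * Real.log 2 ≤ CH q (fun ω => tq J w X (D.T ω)) (cb D J w i j r) + d

/-- **(NF)** The target is not full, given everything. -/
def NFStmt : Prop :=
  ∀ (n K K' c k B : ℕ) (C₁ C : ℝ), 1 ≤ B → ∃ A : ℝ, 0 ≤ A ∧
    ∀ (D : NDat2) (J a₀ w₀ z M w i j r r' r'' y U : ℕ) (lam gam : ℕ → ℝ) (κ h ϖ : ℝ)
      (q : D.Ω → ℝ) (E : D.Ω → Prop) (P : D.Γ × D.Γ → ℕ → PN) (S : D.Ω → ℕ → ℕ → ℝ)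
      (ys : Fin k → ℕ) (gs : Fin c → ℕ) (n₀ : Fin c),
      Hyp D n K K' J a₀ w₀ z M w i j r r' r'' y (B * U * z) lam gam κ C₁ C q E P S ys gs →
      D.NF n z M B gam h C₁ ϖ q → 0 < h → h ≤ 1 → ϖ ≤ 1 → gs n₀ = n → i + U ≤ M →
      (U : ℝ) ≤ gam n * (M - j) →
      CH q (fun ω => nuv D J w z i j r (B * U * z) C P gs ω n₀)
        (fun ω => ((fun u : {u : Fin c // u ≠ n₀} => nuv D J w z i j r (B * U * z) C P gs ω u),
          (vv D J w z i j r (B * U * z) C P ys gs ω,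
            (tv D J w z i j r (B * U * z) C S ys gs ω, cb D J w i j r ω)))) ≤
        (1 - h / B) * (B * U * z : ℕ) * Real.log 2 +
          err A κ z (B * U * z) (Pb q (fun ω => ¬ E ω))

/-- **(HS)** The group without the target is full below every depth, given everything. -/
def HsStmt : Prop := EntOf fun D n J _ _ z _ w i j r X _ q C P S c k ys gs d =>
  ∀ n₀ : Fin c, gs n₀ = n → ∀ x ≤ X,
    ((c : ℝ) - 1) * (((X : ℝ) - x) * Real.log 2) - d ≤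
      CH q (fun ω (u : {u : Fin c // u ≠ n₀}) => nuv D J w z i j r X C P gs ω u)
        (fun ω => ((fun u => nuv D J w z i j r X C P gs ω u / 2 ^ (X - x)),
          (vv D J w z i j r X C P ys gs ω, (tv D J w z i j r X C S ys gs ω, cb D J w i j r ω))))

end Pool.P4I
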