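import Pool.Agent.H35.P4I.Stm
import Pool.Agent.H89.P4.V8
import Pool.Agent.H25.P4.GfC
import Pool.Agent.H52.P4.Cons2
import Pool.Agent.H52.P4.Nbt

/-!
# P4I: the change of the chart and the coordinates above

`cM_small`: the coefficients of the change of the chart from a coordinate which is finer at
`(i - 1, j - r)`. `cM_ab`: the coordinates above do not enter into the others.
`Hyp.fxI`: the data of a place, all the coordinates which are not slow are in the group.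
-/

set_option autoImplicit false

namespace Pool.P4I

open Finset Real MvPolynomial
open Pool.Agent.H49.Ent Pool.Agent.H32.Dense Pool.STK Pool.STAT Pool.MIC.Frm Pool.MIC7 Pool.FRM
open Pool.GSD Pool.P4
open Pool.MIC.Fru (gw nat_gw nat_gw0 atT_tri atT_deg)
open Pool.BFL (Pb)

/-- **Small coefficients of the change of the chart.** -/
theorem cM_small (n K : ℕ) (C C₁ : ℝ) (hC : 0 ≤ C) (hC₁ : 0 ≤ C₁) :
    ∃ c' : ℝ, 0 ≤ c' ∧
    ∀ (D : NDat2) (K₁ K' J a₀ w₀ z M i j r r' a y : ℕ) (lam gam : ℕ → ℝ) (κ : ℝ)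
      (q : D.Ω → ℝ) (E : D.Ω → Prop) (P : D.Γ × D.Γ → ℕ → PN) (Sl Gr : ℕ → Prop),
      Fx D n K K₁ K' J a₀ w₀ z M i j r r' a y lam gam κ C₁ C q E P Sl Gr →
      exp (c' * z) ≤ 2 ^ (a * z) →
      ∀ ω, E ω → ∀ u, 1 ≤ u → u ≤ n → ∀ v, 1 ≤ v → v ≤ n → u ≠ v →
        gam u * r + y ≤ gam v * r →
        |cM D J a₀ z i j r a E P (bb D i j r ω) (rcd D i j r a ω) u v| ≤
          exp (c' * z) / 2 ^ (y * z) := by
  obtain ⟨c₀, h0, hR⟩ := rep_rly n K C C₁ C hC hC₁ hC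
  refine ⟨c₀, h0, ?_⟩
  intro D K₁ K' J a₀ w₀ z M i j r r' a y lam gam κ q E P Sl Gr hF haz ω hω u hu1 hun v hv1 hvn
    huv hg
  obtain ⟨-, hW⟩ := hR D K₁ K' J a₀ w₀ z M i j r r' a y lam gam κ q E P Sl Gr hF haz
  have hX : ((rcd D i j r a ω).1 : ℝ) / 2 ^ J = D.X ω 0 := (hF.ok.X_zero ω).symm
  have h1 := (hW ω hω).2.sm u hu1 hun v hv1 hvn hg
  unfold cM MM
  rw [hX, if_neg huv, zero_sub, abs_neg]
  exact h1

section

variable {D : NDat2} {n K K' J a₀ w₀ z M w i j r r' r'' y X : ℕ} {lam gam : ℕ → ℝ}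
  {κ C₁ C : ℝ} {q : D.Ω → ℝ} {E : D.Ω → Prop} {P : D.Γ × D.Γ → ℕ → PN}
  {S : D.Ω → ℕ → ℕ → ℝ} {c k : ℕ} {ys : Fin k → ℕ} {gs : Fin c → ℕ}
  (H : Hyp D n K K' J a₀ w₀ z M w i j r r' r'' y X lam gam κ C₁ C q E P S ys gs)

include H

theorem Hyp.gwX : w + X ≤ J := by
  obtain ⟨x, hx, hx'⟩ := H.Xz
  have h1 := H.ok.thin
  have h2 := H.ok.top
  have h3 := H.w2
  have h4 := H.j2
  have h5 : (j + 1) * z ≤ (M + 1) * z := Nat.mul_le_mul_right _ (by omega)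
  have h6 : x * z ≤ (M + 1) * z := Nat.mul_le_mul_right _ (by omega)
  rw [hx]
  omega

theorem Hyp.gys_n (a : Fin k) : 1 ≤ ys a ∧ ys a ≤ n :=
  ⟨(H.ys_sl a).1, (H.ys_sl a).2.1.le⟩

theorem Hyp.ggs_n (u : Fin c) : 1 ≤ gs u ∧ gs u ≤ n :=
  ⟨(H.gs_gp u).1.1, (H.gs_gp u).1.2.1⟩

/-- A coordinate of the group is in the proper group, or above. -/
theorem Hyp.gr_cs {u : ℕ} (hu : gr gam n u) : (∃ v, gs v = u) ∨ ab gam n u := by
  rcases gr_cases H.gamn hu with h | h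
  · exact Or.inl (H.gs_on u h)
  · exact Or.inr h

end

/-- The data of a place, from the cell. -/
theorem Hyp.fxI {D : NDat2} {n K K' J a₀ w₀ z M w i j r r' r'' y X a : ℕ} {lam gam : ℕ → ℝ}
    {κ C₁ C C₀ : ℝ} {q : D.Ω → ℝ} {E : D.Ω → Prop} {P : D.Γ × D.Γ → ℕ → PN}
    {S : D.Ω → ℕ → ℕ → ℝ} {c k : ℕ} {ys : Fin k → ℕ} {gs : Fin c → ℕ}
    (H : Hyp D n K K' J a₀ w₀ z M w i j r r' r'' y X lam gam κ C₁ C q E P S ys gs)
    (hp : Plc n gam y r r' r'' a M i j)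
    (hg : Geo D n K' J w₀ z i j r r' r'' gam C₀ (exp (C₀ * z) / 2 ^ (y * z)) q E P S)
    (gd : ∀ ω, E ω → 0 < q ω ∧ GoodS D n K' w₀ z M C₀ ω ∧
      FrP D n K' z i j r C₀ (P (bb D i j r ω)) ω) :
    Fx D n (max K K') K K' J a₀ w₀ z M i j r r' a y lam gam κ C₁ C₀ q E P (sl gam n)
      (gr gam n) where
  ok := H.ok
  k1 := le_max_left _ _
  k2 := le_max_right _ _
  z1 := H.z1
  lam1 := H.lam1
  num := {
    i1 := by
      have := H.i2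
      omega
    j1 := H.j2.le
    r1 := H.r1.trans H.i1
    s1 := fun l hl => by
      have h1 := hp.stp.s1 l hl
      have h2 : (0 : ℝ) ≤ y := Nat.cast_nonneg y
      linarith
    s2 := hp.stp.s2
    dic := fun l h1 h2 => sl_or_gr h1 h2 }
  iM := by
    have := H.i2
    omega
  jM := H.j2
  ai := hp.a1
  rj := H.j1
  ya := hp.stp.s6
  dic := {
    s1 := fun l hl => ⟨hl.1, hl.2.1⟩
    g1 := fun l hl => ⟨hl.1, hl.2.1⟩
    dis := fun l hl hl' => absurd hl'.2.2 (not_le.2 hl.2.2) }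
  fr := gd
  bz := fun ω hω l h1 h2 => hg.bz ω (gd ω hω).1 hω l h1 h2

/-- **The coordinates above do not enter into the others.** -/
theorem cM_ab (n K : ℕ) (C C₁ : ℝ) (hC : 0 ≤ C) (hC₁ : 0 ≤ C₁) :
    ∃ c' : ℝ, 0 ≤ c' ∧
    ∀ (D : NDat2) (K₁ K' J a₀ w₀ z M i j r r' r'' a y : ℕ) (lam gam : ℕ → ℝ) (κ : ℝ)
      (q : D.Ω → ℝ) (E : D.Ω → Prop) (P : D.Γ × D.Γ → ℕ → PN) (Sl Gr : ℕ → Prop),
      Fx D n K K₁ K' J a₀ w₀ z M i j r r' a y lam gam κ C₁ C q E P Sl Gr →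
      Stp n gam y r r' r'' a → gam n < 1 + thd gam n →
      exp (c' * z) ≤ 2 ^ (a * z) →
      ∀ ω, E ω → ∀ u, 1 ≤ u → u ≤ n → ¬ ab gam n u → ∀ v, ab gam n v →
        |cM D J a₀ z i j r a E P (bb D i j r ω) (rcd D i j r a ω) u v| ≤
          exp (c' * z) / 2 ^ (y * z) := by
  obtain ⟨c', h0, h⟩ := cM_small n K C C₁ hC hC₁
  refine ⟨c', h0, ?_⟩
  intro D K₁ K' J a₀ w₀ z M i j r r' r'' a y lam gam κ q E P Sl Gr hF hs hn haz ω hω u hu1 hun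
    hu v hv
  refine h D K₁ K' J a₀ w₀ z M i j r r' a y lam gam κ q E P Sl Gr hF haz ω hω u hu1 hun v hv.1
    hv.2.1.le (fun h => hu (h ▸ hv)) ?_
  have h1 := hs.t1 hu1 hun hn hu
  have h2 := hs.t2 hv
  have h3 : (0 : ℝ) ≤ y := Nat.cast_nonneg y
  linarith

end Pool.P4I
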