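import Pool.Agent.H35.P4I.Enum
import Pool.Agent.H35.P4I.Stm
import Pool.Agent.H21.P4.EndB

/-!
# P4I, the last assembly: the statements of the inputs

`VCellS`: in every cell there is a place with a visible chart. `GfS`: the known covectors
(`GfOut` is that of P4). `P4XT`: the conclusion.
-/

set_option autoImplicit false

namespace Pool.P4I

open Finset Real MvPolynomial Matrix
open Pool.Agent.H49.Ent Pool.Agent.H32.Dense Pool.STK Pool.STAT Pool.MIC.Frm Pool.MIC7 Pool.FRM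
open Pool.GSD
open Pool.BFL (Pb)
open Pool.POT (VCh)
open Pool.LBL (Ld covP)
open Pool.STAT.Glu (kN)
open Pool.P4 hiding Stp Plc Geo LinStmt OwnStmt DepStmt GeoStmt Hyp EntOf H0Stmt H2Stmt YFStmt
  TFStmt NFStmt HsStmt enum_ex VOutD VCellS GfS
  P4XT dig_cell p4x_of lab_cell

/-- The output of a cell. -/
structure VOutD (D : NDat2) (n K K' J a₀ w₀ z M w i j r r' r'' a y X : ℕ) (lam gam : ℕ → ℝ)
    (κ C₁ C₀ C : ℝ) (q : D.Ω → ℝ) (E : D.Ω → Prop) (P : D.Γ × D.Γ → ℕ → PN)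
    (S : D.Ω → ℕ → ℕ → ℝ) {c k : ℕ} (ys : Fin k → ℕ) (gs : Fin c → ℕ) (n₀ : Fin c) (B' : ℕ)
    (c0 io s η : ℝ) : Prop where
  hyp : Hyp D n K K' J a₀ w₀ z M w i j r r' r'' y X lam gam κ C₁ C q E P S ys gs
  plc : Plc n gam y r r' r'' a M i j
  geo : Geo D n K' J w₀ z i j r r' r'' gam C₀ (exp (C₀ * z) / 2 ^ (y * z)) q E P S
  gd : ∀ ω, E ω → 0 < q ω ∧ GoodS D n K' w₀ z M C₀ ω ∧
    FrP D n K' z i j r C₀ (P (bb D i j r ω)) ω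
  okn : ((qh (c := c) (k := k) D J w z i j r X C P S ys gs q).flag E).OkNS X (k + 4) (io * X)
  tm : ((qh (c := c) (k := k) D J w z i j r X C P S ys gs q).flag E).TM X s η
  vch : VCh ((qh (c := c) (k := k) D J w z i j r X C P S ys gs q).flag E) X B' n₀ c0 (io * X)
    (io * X) (2 ^ (io * X)) (fun ω => (E ω, rcd D i j r a ω))
    (yF E (yD z X C (zh D i j r a E P) ys))
    (nF E (nuD z X C (zh D i j r a E P) gs)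
      (qh (c := c) (k := k) D J w z i j r X C P S ys gs q).hgt)
    (MF i j r E (rcd D i j r a) (cMx D J a₀ z i j r a E P gs))

/-- **(VCELL)** In every cell there is a place with a visible chart. -/
def VCellS : Prop :=
  ∀ (n K B : ℕ) (gam : ℕ → ℝ) (C₁ CL h : ℝ) (c k : ℕ) (ys : Fin k → ℕ) (gs : Fin c → ℕ)
    (n₀ : Fin c), 1 ≤ n → 1 ≤ B → (∀ l, 0 ≤ gam l) →
    0 < gam n → gam n < 1 + thd gam n → 1 ≤ C₁ → 0 < h → h ≤ 1 →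
    (∀ a, sl gam n (ys a)) → Function.Injective ys → (∀ l, sl gam n l → ∃ a, ys a = l) →
    (∀ u, gp gam n (gs u)) → StrictMono gs → (∀ l, gp gam n l → ∃ u, gs u = l) →
    gs n₀ = n → ∀ F : ℕ → ℝ → ℝ,
    ∃ (K' : ℕ) (C₀ C : ℝ), 1 ≤ C₀ ∧ C₀ ≤ C ∧ F K' C₀ ≤ C ∧ ∀ η : ℝ, 0 < η → ∃ s : ℝ, 0 < s ∧
    ∀ (B' U₀ y₀ : ℕ) (io δ : ℝ), 1 ≤ B' → 0 < io → 0 < δ → 4 * δ ≤ io → 8 * B * δ ≤ h →
    ∃ U y r r' r'' a i j : ℕ, 1 ≤ U ∧ U₀ ≤ U ∧ y₀ ≤ y ∧ ∀ M₀ : ℕ, ∃ M : ℕ, M₀ ≤ M ∧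
    ∀ e : ℝ, 0 < e → ∃ (κ : ℝ) (z₀ : ℕ), 0 < κ ∧
    ∀ (lam : ℕ → ℝ) (J a₀ w₀ z : ℕ) (D : NDat2) (q : D.Ω → ℝ) (ϖ : ℝ),
      (∀ l, 1 ≤ l → l ≤ n → lam l = 1) → z₀ ≤ z → ϖ ≤ 1 →
      D.Ok2 n K J a₀ w₀ z M lam gam κ C₁ q → D.DMA z M κ q → LLC D n z M CL q →
      D.TmU J w₀ z κ q → D.NF n z M B gam h C₁ ϖ q → NFc D n z M B gam (h + δ) C₁ q →
      ∃ (w : ℕ) (E : D.Ω → Prop) (P : D.Γ × D.Γ → ℕ → PN) (S : D.Ω → ℕ → ℕ → ℝ),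
        Pb q (fun ω => ¬ E ω) ≤ e ∧
        VOutD D n K K' J a₀ w₀ z M w i j r r' r'' a y (B * U * z) lam gam κ C₁ C₀ C q E P S
          ys gs n₀ B' (h / (4 * B)) io s η

open Classical in
/-- **(GF)** -/
def GfS : Prop :=
  ∀ (n K K' c k : ℕ) (C₀ C₁ Cu : ℝ) (gam : ℕ → ℝ), 0 ≤ C₀ → 0 ≤ C₁ → 0 ≤ Cu →
    ∃ F : ℝ, 0 ≤ F ∧ ∀ C : ℝ, F ≤ C → ∃ C₂ : ℝ, 1 ≤ C₂ ∧
    ∀ (D : NDat2) (U : GnL D) (R : ℕ → Prop) (J a₀ w₀ z M w i j r r' r'' a y X Q : ℕ)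
      (lam : ℕ → ℝ) (κ : ℝ) (q : D.Ω → ℝ) (E : D.Ω → Prop) (P : D.Γ × D.Γ → ℕ → PN)
      (S : D.Ω → ℕ → ℕ → ℝ) (ys : Fin k → ℕ) (gs : Fin c → ℕ),
      Hyp D n K K' J a₀ w₀ z M w i j r r' r'' y X lam gam κ C₁ C q E P S ys gs →
      Plc n gam y r r' r'' a M i j →
      Geo D n K' J w₀ z i j r r' r'' gam C₀ (exp (C₀ * z) / 2 ^ (y * z)) q E P S →
      (∀ ω, E ω → 0 < q ω ∧ GoodS D n K' w₀ z M C₀ ω ∧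
        FrP D n K' z i j r C₀ (P (bb D i j r ω)) ω) →
      U.Ok n K J a₀ w₀ z M Q R C₁ q → ∀ Fz : Finset (Fin c),
      (∀ g, g ∈ Fz ↔ gs g < n ∧ ¬ R (gs g)) →
      ∃ (fD : D.Ξ → Fin c → Fin c → ℝ) (fL : LT D → Fin c → Fin c → ℝ)
        (p0 p1 : LT D → Fin c → Fin k → ℝ),
        GfOut D U n J a₀ w₀ z M w i j r a Q R C₂
          (exp (C₂ * z) * (1 / 2 ^ (y * z) + 1 / 2 ^ (Q * z))) q E
          (fun ω => E ω ∧ GoodU D U n J w₀ z M R Cu ω) P S ys gs Fz fD fL p0 p1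

/-- **P4**, in a cell with the additional laws. -/
def P4XT (n K A B : ℕ) (gam : ℕ → ℝ) (R : ℕ → Prop) (C₁ CL h δ : ℝ) : Prop :=
  ∃ (M Q K' : ℕ) (η' κ ϖ : ℝ) (z₀ : ℕ), 0 < η' ∧ 0 < κ ∧ 0 < ϖ ∧ ϖ ≤ 1 ∧
    ∀ (lam : ℕ → ℝ) (J a₀ w₀ z : ℕ) (D : NDat2) (q : D.Ω → ℝ) (U : GnL D),
      (∀ l, 1 ≤ l → l ≤ n → lam l = 1) → z₀ ≤ z →
      D.Ok2 n K J a₀ w₀ z M lam gam κ C₁ q → D.DMA z M κ q → LLC D n z M CL q →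
      D.TmU J w₀ z κ q → D.NF n z M B gam h C₁ ϖ q → NFc D n z M B gam (h + δ) C₁ q →
      U.Ok n K J a₀ w₀ z M Q R C₁ q →
      ∃ l, 1 ≤ l ∧ l ≤ n ∧ (l = n ∨ (R l ∧ gp gam n l)) ∧ ∃ i ≤ M, ∃ j ≤ M,
        NewLabT D U J a₀ w₀ z Q R i j l A K' η' q

end Pool.P4I
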