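import Pool.Agent.H35.P4I.H2
import Pool.Agent.H98.P4.NF

/-!
# P4I: the coordinates before the target are determined by the picture

`zab`: the digits of the coordinates above.
-/

set_option autoImplicit false

namespace Pool.P4I.N

open Pool.P4N

open Finset Real
open Pool.Agent.H49.Ent Pool.Agent.H32.Dense Pool.STK Pool.STAT Pool.MIC Pool.P4
open Pool.BFL (Pb)

variable {D : NDat2} {n K K' J a₀ w₀ z M w i j r r' r'' y X : ℕ} {lam gam : ℕ → ℝ}
  {κ C₁ C : ℝ} {q : D.Ω → ℝ} {E : D.Ω → Prop} {P : D.Γ × D.Γ → ℕ → PN}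
  {S : D.Ω → ℕ → ℕ → ℝ} {c k : ℕ} {ys : Fin k → ℕ} {gs : Fin c → ℕ}

theorem Ry_one (hC : 0 ≤ C) (z : ℕ) : 1 ≤ Ry z C := by
  unfold Ry
  exact Real.one_le_exp (by positivity)

theorem Rg_eq (z : ℕ) (C : ℝ) : Rg z C = 2 * (Ry z C * Ry z C) := by
  unfold Rg Ry
  rw [← Real.exp_add]
  congr 2
  ring

/-- **The coordinates before the target are determined by the picture.** -/
theorem ze_near0 (H : Hyp D n K K' J a₀ w₀ z M w i j r r' r'' y X lam gam κ C₁ C q E P S ys gs)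
    {ω ω' : D.Ω} (h1 : 0 < q ω) (h2 : 0 < q ω') (hE : E ω) (hE' : E ω') (hT : D.T ω = D.T ω')
    (hy : yv D J w z i j r X C P ys ω = yv D J w z i j r X C P ys ω')
    (hbe : bev D J w z i j r X C P gs ω = bev D J w z i j r X C P gs ω')
    (u₀ : ℕ) (hnu : ∀ u, gs u ≠ u₀ →
      nuv D J w z i j r X C P gs ω u = nuv D J w z i j r X C P gs ω' u)
    {l : ℕ} (hl1 : 1 ≤ l) (hln : l ≤ n) (hl0 : l ≠ u₀) (hla : ¬ ab gam n l) :
    |ze D i j r P ω l - ze D i j r P ω' l| ≤ 8 * Rg z C * ((2 : ℝ) ^ X)⁻¹ := by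
  have hC0 : 0 ≤ C := by linarith [H.Cg]
  have hRy := Ry_one hC0 z
  have hRg := Rg_eq z C
  have hp : (0 : ℝ) < 2 ^ X := by positivity
  have hi : (0 : ℝ) < ((2 : ℝ) ^ X)⁻¹ := by positivity
  have hRg1 : 2 * Ry z C ≤ Rg z C := by
    rw [hRg]
    nlinarith only [hRy]
  have hτ : exp (C * z) / 2 ^ (y * z) ≤ ((2 : ℝ) ^ X)⁻¹ := by
    rw [div_le_iff₀ (by positivity), inv_mul_eq_div, le_div_iff₀ hp]
    exact H.yX
  have hg := H.geo
  have hw := H.w1
  have hw' := H.w2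
  by_cases hs : sl gam n l
  · obtain ⟨a, ha⟩ := H.ys_on l hs
    have e1 := hg.slow ω h1 hE l hs w hw hw'
    have e2 := hg.slow ω' h2 hE' l hs w hw hw'
    have b1 := (hg.bt ω h1 hE l hl1 hln w hw hw').1
    have b2 := (hg.bt ω' h2 hE' l hl1 hln w hw hw').1
    change |z0 D J w i j r P ω l| ≤ Ry z C at b1
    change |z0 D J w i j r P ω' l| ≤ Ry z C at b2
    have hy' := congrFun hy a
    unfold yv at hy'
    rw [ha] at hy'
    have hR2 : 0 < 2 * Ry z C := by linarith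
    obtain ⟨c1, c2⟩ := abs_le.1 b1
    obtain ⟨d1, d2⟩ := abs_le.1 b2
    have e3 := dgp_eq (div_nonneg (by linarith) hR2.le) ((div_le_one hR2).2 (by linarith))
      (div_nonneg (by linarith) hR2.le) ((div_le_one hR2).2 (by linarith)) hy'
    rw [← sub_div, abs_div, abs_of_pos hR2, div_le_iff₀ hR2] at e3
    have e4 : z0 D J w i j r P ω l + Ry z C - (z0 D J w i j r P ω' l + Ry z C) =
      z0 D J w i j r P ω l - z0 D J w i j r P ω' l := by ring
    rw [e4] at e3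
    have e5 : |ze D i j r P ω l - ze D i j r P ω' l| ≤
        |ze D i j r P ω l - z0 D J w i j r P ω l| +
        |z0 D J w i j r P ω l - z0 D J w i j r P ω' l| +
        |ze D i j r P ω' l - z0 D J w i j r P ω' l| := by
      rw [abs_sub_comm (ze D i j r P ω' l) (z0 D J w i j r P ω' l)]
      calc |ze D i j r P ω l - ze D i j r P ω' l| =
          |(ze D i j r P ω l - z0 D J w i j r P ω l) +
            (z0 D J w i j r P ω l - z0 D J w i j r P ω' l) +
            (z0 D J w i j r P ω' l - ze D i j r P ω' l)| := by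
            congr 1
            ring
        _ ≤ _ := abs_add_three _ _ _
    nlinarith only [e5, e1, e2, e3, hτ, hRg1, hRy, hi]
  · have hg1 : gp gam n l := by
      rcases kinds H.gamn hl1 hln with h | h | h
      · exact absurd h hs
      · exact h
      · exact absurd h hla
    obtain ⟨u, hu⟩ := H.gs_on l hg1
    have e1 := hg.grp ω h1 hE l hg1 w hw hw'
    have e2 := hg.grp ω' h2 hE' l hg1 w hw hw'
    have b1 := (hg.bt ω h1 hE l hl1 hln w hw hw')
    have b2 := (hg.bt ω' h2 hE' l hl1 hln w hw hw')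
    obtain ⟨b1, b3⟩ := b1
    obtain ⟨b2, b4⟩ := b2
    change |z0 D J w i j r P ω l| ≤ Ry z C at b1
    change |z0 D J w i j r P ω' l| ≤ Ry z C at b2
    change |be D J w i j r P ω l| ≤ Ry z C at b3
    change |be D J w i j r P ω' l| ≤ Ry z C at b4
    have hRg0 : 0 < Rg z C := by linarith
    have n1 := hnu u (by rw [hu]; exact hl0)
    have n2 := congrFun hbe u
    unfold nuv at n1
    unfold bev at n2
    rw [hu] at n1 n2
    have hdiv : ∀ x : ℝ, |x| ≤ Ry z C → |x / Rg z C| ≤ 1 := by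
      intro x hx
      rw [abs_div, abs_of_pos hRg0, div_le_one hRg0]
      linarith
    have e3 := dg_eq (hdiv _ b1) (hdiv _ b2) n1
    have e4 := dg_eq (hdiv _ b3) (hdiv _ b4) n2
    rw [← sub_div, abs_div, abs_of_pos hRg0, div_le_iff₀ hRg0] at e3 e4
    have x1 := H.ok.X_zero ω
    have x2 := H.ok.X_zero ω'
    have hwJ : w ≤ J := by
      have := H.ok.thin
      have := H.ok.top
      have h3 : (j + 1) * z ≤ (M + 1) * z := Nat.mul_le_mul_right _ (by have := H.j2; omega)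
      omega
    obtain ⟨r0, r1⟩ := rt_bd hwJ x1
    have rr := rt_T (J := J) (w := w) x1 x2 hT
    rw [← rr] at e2
    have e6 : |rt D J w ω * be D J w i j r P ω l - rt D J w ω * be D J w i j r P ω' l| ≤
        ((2 : ℝ) ^ X)⁻¹ * Rg z C := by
      rw [← mul_sub, abs_mul, abs_of_nonneg r0]
      calc rt D J w ω * |be D J w i j r P ω l - be D J w i j r P ω' l| ≤
          1 * |be D J w i j r P ω l - be D J w i j r P ω' l| :=
            mul_le_mul_of_nonneg_right r1 (abs_nonneg _)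
        _ ≤ _ := by rw [one_mul]; exact e4
    obtain ⟨f1, f2⟩ := abs_le.1 e1
    obtain ⟨f3, f4⟩ := abs_le.1 e2
    obtain ⟨f5, f6⟩ := abs_le.1 e3
    obtain ⟨f7, f8⟩ := abs_le.1 e6
    have f9 : ((2 : ℝ) ^ X)⁻¹ ≤ ((2 : ℝ) ^ X)⁻¹ * Rg z C := by nlinarith only [hi, hRg1, hRy]
    rw [abs_le]
    constructor <;> nlinarith only [f1, f2, f3, f4, f5, f6, f7, f8, f9, hτ]

open Classical in
/-- The digits of the coordinates above. -/
noncomputable def zab (D : NDat2) (n z i j r X : ℕ) (C : ℝ) (gam : ℕ → ℝ)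
    (P : D.Γ × D.Γ → ℕ → PN) (ω : D.Ω) (l : Fin (n - 1)) : ℤ :=
  if ab gam n (l + 1) then dg X (ze D i j r P ω (l + 1) / Rg z C) else 0

/-- **The coordinates before the target are determined by the picture.** -/
theorem ze_near (H : Hyp D n K K' J a₀ w₀ z M w i j r r' r'' y X lam gam κ C₁ C q E P S ys gs)
    {ω ω' : D.Ω} (h1 : 0 < q ω) (h2 : 0 < q ω') (hE : E ω) (hE' : E ω') (hT : D.T ω = D.T ω')
    (hy : yv D J w z i j r X C P ys ω = yv D J w z i j r X C P ys ω')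
    (hbe : bev D J w z i j r X C P gs ω = bev D J w z i j r X C P gs ω')
    (u₀ : ℕ) (hnu : ∀ u, gs u ≠ u₀ →
      nuv D J w z i j r X C P gs ω u = nuv D J w z i j r X C P gs ω' u)
    (hza : zab D n z i j r X C gam P ω = zab D n z i j r X C gam P ω')
    {l : ℕ} (hl1 : 1 ≤ l) (hln : l ≤ n) (hl0 : l ≠ u₀) :
    |ze D i j r P ω l - ze D i j r P ω' l| ≤ 8 * Rg z C * ((2 : ℝ) ^ X)⁻¹ := by
  by_cases hla : ab gam n l
  · have hC0 : 0 ≤ C := by linarith [H.Cg]
    have hRy := Ry_one hC0 z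
    have hRg := Rg_eq z C
    have hRg1 : 2 * Ry z C ≤ Rg z C := by
      rw [hRg]
      nlinarith only [hRy]
    have hRg0 : 0 < Rg z C := by linarith
    have hi : (0 : ℝ) < ((2 : ℝ) ^ X)⁻¹ := by positivity
    have b1 := H.geo.bz ω h1 hE l hl1 hln
    have b2 := H.geo.bz ω' h2 hE' l hl1 hln
    change |ze D i j r P ω l| ≤ Ry z C at b1
    change |ze D i j r P ω' l| ≤ Ry z C at b2
    have hdiv : ∀ x : ℝ, |x| ≤ Ry z C → |x / Rg z C| ≤ 1 := by
      intro x hx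
      rw [abs_div, abs_of_pos hRg0, div_le_one hRg0]
      linarith
    have hlt := hla.2.1
    have e := congrFun hza ⟨l - 1, by omega⟩
    unfold zab at e
    simp only [Nat.sub_add_cancel hl1] at e
    have hl' : l - 1 + 1 = l := Nat.sub_add_cancel hl1
    rw [if_pos (show ab gam n (l - 1 + 1) by rw [hl']; exact hla),
      if_pos (show ab gam n (l - 1 + 1) by rw [hl']; exact hla)] at e
    have e3 := dg_eq (hdiv _ b1) (hdiv _ b2) e
    rw [← sub_div, abs_div, abs_of_pos hRg0, div_le_iff₀ hRg0] at e3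
    have f9 : 0 ≤ ((2 : ℝ) ^ X)⁻¹ * Rg z C := by positivity
    nlinarith only [e3, f9]
  · exact ze_near0 H h1 h2 hE hE' hT hy hbe u₀ hnu hl1 hln hl0 hla

/-- The heights of the base over the visible labels are determined by the picture. -/
theorem sh_near (H : Hyp D n K K' J a₀ w₀ z M w i j r r' r'' y X lam gam κ C₁ C q E P S ys gs)
    {ω ω' : D.Ω} (h1 : 0 < q ω) (h2 : 0 < q ω') (hE : E ω) (hE' : E ω')
    (hb : cb D J w i j r ω = cb D J w i j r ω') (hT : D.T ω = D.T ω')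
    (hy : yv D J w z i j r X C P ys ω = yv D J w z i j r X C P ys ω')
    (hbe : bev D J w z i j r X C P gs ω = bev D J w z i j r X C P gs ω')
    (hnu : ∀ u, gs u ≠ n →
      nuv D J w z i j r X C P gs ω u = nuv D J w z i j r X C P gs ω' u)
    (hza : zab D n z i j r X C gam P ω = zab D n z i j r X C gam P ω')
    {l : ℕ} (hl1 : 1 ≤ l) (hln : l < n) :
    |2 ^ D.g i j l * D.sh i j ω l - 2 ^ D.g i j l * D.sh i j ω' l| ≤
      Ry z C * (8 * Rg z C * ((2 : ℝ) ^ X)⁻¹) := by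
  have hC0 : 0 ≤ C := by linarith [H.Cg]
  have hRy := Ry_one hC0 z
  have hRg := Rg_eq z C
  have hbb : bb D i j r ω = bb D i j r ω' := (Prod.ext_iff.1 hb).1
  refine H.geo.toV ω ω' h1 h2 hE hE' hbb hT l hl1 hln.le _ (by
    rw [hRg]
    positivity) fun k hk1 hkl => ?_
  exact ze_near H h1 h2 hE hE' hT hy hbe n hnu hza hk1 (hkl.trans hln.le) (by omega)

/-- The height of the target is determined by the picture and by its height over the visible
label. -/
theorem nu_near (H : Hyp D n K K' J a₀ w₀ z M w i j r r' r'' y X lam gam κ C₁ C q E P S ys gs)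
    {ω ω' : D.Ω} (h1 : 0 < q ω) (h2 : 0 < q ω') (hE : E ω) (hE' : E ω')
    (hb : cb D J w i j r ω = cb D J w i j r ω') (hT : D.T ω = D.T ω')
    (hy : yv D J w z i j r X C P ys ω = yv D J w z i j r X C P ys ω')
    (hbe : bev D J w z i j r X C P gs ω = bev D J w z i j r X C P gs ω')
    (hnu : ∀ u, gs u ≠ n →
      nuv D J w z i j r X C P gs ω u = nuv D J w z i j r X C P gs ω' u)
    (hza : zab D n z i j r X C gam P ω = zab D n z i j r X C gam P ω') {n₀ : Fin c}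
    (hn : gs n₀ = n) (hnd : D.nd n i j X ω = D.nd n i j X ω') :
    |((nuv D J w z i j r X C P gs ω n₀ - nuv D J w z i j r X C P gs ω' n₀ : ℤ) : ℝ)| ≤
      12 * (Ry z C * Ry z C) := by
  have hC0 : 0 ≤ C := by linarith [H.Cg]
  have hRy := Ry_one hC0 z
  have hRg := Rg_eq z C
  have hp : (0 : ℝ) < 2 ^ X := by positivity
  have hi : (0 : ℝ) < ((2 : ℝ) ^ X)⁻¹ := by positivity
  have hpi : (2 : ℝ) ^ X * ((2 : ℝ) ^ X)⁻¹ = 1 := mul_inv_cancel₀ hp.ne'
  have hRg1 : 2 * Ry z C ≤ Rg z C := by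
    rw [hRg]
    nlinarith only [hRy]
  have hRg0 : 0 < Rg z C := by linarith
  have hgn : gp gam n n := hn ▸ H.gs_gp n₀
  have hn1 := H.n1
  have hg := H.geo
  have hw := H.w1
  have hw' := H.w2
  have hbb : bb D i j r ω = bb D i j r ω' := (Prod.ext_iff.1 hb).1
  have hτ : exp (C * z) / 2 ^ (y * z) ≤ ((2 : ℝ) ^ X)⁻¹ := by
    rw [div_le_iff₀ (by positivity), inv_mul_eq_div, le_div_iff₀ hp]
    exact H.yX
  have k1 : |ze D i j r P ω n - ze D i j r P ω' n| ≤
      Ry z C * (Ry z C * (8 * Rg z C * ((2 : ℝ) ^ X)⁻¹)) := by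
    refine hg.ofV ω ω' h1 h2 hE hE' hbb hT n hn1 le_rfl _ (by positivity) fun k hk1 hkn => ?_
    rcases lt_or_eq_of_le hkn with hk | hk
    · exact sh_near H h1 h2 hE hE' hb hT hy hbe hnu hza hk1 hk
    · subst hk
      unfold NDat2.nd at hnd
      have e1 := fl_eq hnd
      rw [pow_add] at e1
      have e2 : (2 : ℝ) ^ D.g i j k * 2 ^ X * D.sh i j ω k -
          2 ^ D.g i j k * 2 ^ X * D.sh i j ω' k =
          2 ^ X * (2 ^ D.g i j k * D.sh i j ω k - 2 ^ D.g i j k * D.sh i j ω' k) := by ring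
      rw [e2, abs_mul, abs_of_pos hp] at e1
      have e3 : |2 ^ D.g i j k * D.sh i j ω k - 2 ^ D.g i j k * D.sh i j ω' k| ≤
          ((2 : ℝ) ^ X)⁻¹ := by
        rw [← one_div, le_div_iff₀ hp]
        linarith
      refine e3.trans ?_
      have e4 : 1 ≤ Ry z C * (8 * Rg z C) := by nlinarith only [hRy, hRg1]
      calc ((2 : ℝ) ^ X)⁻¹ = 1 * ((2 : ℝ) ^ X)⁻¹ := by ring
        _ ≤ (Ry z C * (8 * Rg z C)) * ((2 : ℝ) ^ X)⁻¹ := mul_le_mul_of_nonneg_right e4 hi.le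
        _ = _ := by ring
  have e1 := hg.grp ω h1 hE n hgn w hw hw'
  have e2 := hg.grp ω' h2 hE' n hgn w hw hw'
  obtain ⟨b1, b3⟩ := hg.bt ω h1 hE n hn1 le_rfl w hw hw'
  obtain ⟨b2, b4⟩ := hg.bt ω' h2 hE' n hn1 le_rfl w hw hw'
  change |z0 D J w i j r P ω n| ≤ Ry z C at b1
  change |z0 D J w i j r P ω' n| ≤ Ry z C at b2
  change |be D J w i j r P ω n| ≤ Ry z C at b3
  change |be D J w i j r P ω' n| ≤ Ry z C at b4
  have n2 := congrFun hbe n₀
  unfold bev at n2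
  rw [hn] at n2
  have hdiv : ∀ x : ℝ, |x| ≤ Ry z C → |x / Rg z C| ≤ 1 := by
    intro x hx
    rw [abs_div, abs_of_pos hRg0, div_le_one hRg0]
    linarith
  have e4 := dg_eq (hdiv _ b3) (hdiv _ b4) n2
  rw [← sub_div, abs_div, abs_of_pos hRg0, div_le_iff₀ hRg0] at e4
  have x1 := H.ok.X_zero ω
  have x2 := H.ok.X_zero ω'
  have hwJ : w ≤ J := by
    have := H.ok.thin
    have := H.ok.top
    have h3 : (j + 1) * z ≤ (M + 1) * z := Nat.mul_le_mul_right _ (by have := H.j2; omega)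
    omega
  obtain ⟨r0, r1⟩ := rt_bd hwJ x1
  have rr := rt_T (J := J) (w := w) x1 x2 hT
  rw [← rr] at e2
  have e6 : |rt D J w ω * be D J w i j r P ω n - rt D J w ω * be D J w i j r P ω' n| ≤
      ((2 : ℝ) ^ X)⁻¹ * Rg z C := by
    rw [← mul_sub, abs_mul, abs_of_nonneg r0]
    calc rt D J w ω * |be D J w i j r P ω n - be D J w i j r P ω' n| ≤
        1 * |be D J w i j r P ω n - be D J w i j r P ω' n| :=
          mul_le_mul_of_nonneg_right r1 (abs_nonneg _)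
      _ ≤ _ := by rw [one_mul]; exact e4
  have e7 : |z0 D J w i j r P ω n - z0 D J w i j r P ω' n| ≤
      Ry z C * (Ry z C * (8 * Rg z C * ((2 : ℝ) ^ X)⁻¹)) + 2 * ((2 : ℝ) ^ X)⁻¹ +
        ((2 : ℝ) ^ X)⁻¹ * Rg z C := by
    obtain ⟨f1, f2⟩ := abs_le.1 e1
    obtain ⟨f3, f4⟩ := abs_le.1 e2
    obtain ⟨f5, f6⟩ := abs_le.1 k1
    obtain ⟨f7, f8⟩ := abs_le.1 e6
    rw [abs_le]
    constructor <;> linarith
  have e8 := dg_sub (X := X) (hdiv _ b1) (hdiv _ b2)
  rw [← sub_div, abs_div, abs_of_pos hRg0] at e8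
  unfold nuv
  rw [hn]
  refine e8.trans ?_
  have e9 : (2 : ℝ) ^ X * (|z0 D J w i j r P ω n - z0 D J w i j r P ω' n| / Rg z C) ≤
      8 * (Ry z C * Ry z C) + 2 + 1 := by
    rw [← mul_div_assoc, div_le_iff₀ hRg0]
    calc (2 : ℝ) ^ X * |z0 D J w i j r P ω n - z0 D J w i j r P ω' n| ≤
        2 ^ X * (Ry z C * (Ry z C * (8 * Rg z C * ((2 : ℝ) ^ X)⁻¹)) + 2 * ((2 : ℝ) ^ X)⁻¹ +
        ((2 : ℝ) ^ X)⁻¹ * Rg z C) := mul_le_mul_of_nonneg_left e7 hp.le
      _ = (2 ^ X * ((2 : ℝ) ^ X)⁻¹) * (8 * (Ry z C * Ry z C) * Rg z C + 2 + Rg z C) := by ring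
      _ = 8 * (Ry z C * Ry z C) * Rg z C + 2 + Rg z C := by rw [hpi, one_mul]
      _ ≤ (8 * (Ry z C * Ry z C) + 2 + 1) * Rg z C := by nlinarith only [hRy, hRg1]
  nlinarith only [e9, hRy]

end Pool.P4I.N
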