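import Pool.Agent.H35.P4I.Num
import Pool.Agent.H35.P4I.Mono
import Pool.Agent.H35.P4I.Cell
import Pool.Agent.H66.P4.CellF

/-!
# P4I: the assembly, with a larger constant
-/

set_option autoImplicit false

namespace Pool.P4I

open Finset Real MvPolynomial
open Pool.Agent.H49.Ent Pool.Agent.H32.Dense Pool.STK Pool.STAT Pool.MIC.Frm Pool.MIC7 Pool.FRM
open Pool.GSD
open Pool.BFL (Pb)
open Pool.P4 (thd sl gr bb Dep LLC qh GoodS FrP err TMStmt exp_mz err_mono err_le pic_ok)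

/-- **(CELLF)** `CellStmt` where the constant `C` of the picture is at least `F K' C₀` for a given
`F`, and the geometry holds at the constant `C₀`. -/
def CellFStmt : Prop :=
  ∀ (n K B : ℕ) (lam gam : ℕ → ℝ) (C₁ h : ℝ) (c k : ℕ) (ys : Fin k → ℕ) (gs : Fin c → ℕ)
    (n₀ : Fin c), 1 ≤ n → 1 ≤ B → (∀ l, 1 ≤ l → l ≤ n → lam l = 1) → (∀ l, 0 ≤ gam l) →
    0 < gam n → gam n < 1 + thd gam n → 1 ≤ C₁ → 0 < h → h ≤ 1 →
    (∀ a, sl gam n (ys a)) → Function.Injective ys → (∀ l, sl gam n l → ∃ a, ys a = l) →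
    (∀ u, gp gam n (gs u)) → StrictMono gs → (∀ l, gp gam n l → ∃ u, gs u = l) →
    gs n₀ = n → ∀ (CL : ℝ) (F : ℕ → ℝ → ℝ),
    ∃ (K' : ℕ) (C₀ C : ℝ), 1 ≤ C₀ ∧ C₀ ≤ C ∧ F K' C₀ ≤ C ∧ ∀ η : ℝ, 0 < η → ∃ s : ℝ, 0 < s ∧
    ∀ (B' U₀ y₀ : ℕ) (io : ℝ), 1 ≤ B' → 0 < io →
    ∃ U y r r' r'' a i j : ℕ, 1 ≤ U ∧ U₀ ≤ U ∧ y₀ ≤ y ∧ ∀ M₀ : ℕ, ∃ M : ℕ, M₀ ≤ M ∧
      Plc n gam y r r' r'' a M i j ∧
    ∀ e : ℝ, 0 < e → ∃ (κ : ℝ) (z₀ : ℕ), 0 < κ ∧ κ ≤ 1 ∧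
    ∀ (J a₀ w₀ z : ℕ) (D : NDat2) (q : D.Ω → ℝ) (ϖ : ℝ), z₀ ≤ z → ϖ ≤ 1 →
      D.Ok2 n K J a₀ w₀ z M lam gam κ C₁ q → D.DMA z M κ q → LLC D n z M CL q →
      D.TmU J w₀ z κ q → D.NF n z M B gam h C₁ ϖ q →
      ∃ (w : ℕ) (E : D.Ω → Prop) (P : D.Γ × D.Γ → ℕ → PN) (S : D.Ω → ℕ → ℕ → ℝ),
        Pb q (fun ω => ¬ E ω) ≤ e ∧
        Hyp D n K K' J a₀ w₀ z M w i j r r' r'' y (B * U * z) lam gam κ C₁ C q E P S ys gs ∧
        Geo D n K' J w₀ z i j r r' r'' gam C₀ (exp (C₀ * z) / 2 ^ (y * z)) q E P S ∧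
        (∀ ω, E ω → 0 < q ω ∧ GoodS D n K' w₀ z M C₀ ω ∧
          FrP D n K' z i j r C₀ (P (bb D i j r ω)) ω) ∧
        Dep D n J w₀ z M i j r C₀ q E P ∧
        (qh (c := c) (k := k) D J w z i j r (B * U * z) C P S ys gs q).Ok0S n₀ (B * U * z) B'
          (k + 4) (h / (2 * B)) (io * (B * U * z : ℕ)) ∧
        (qh (c := c) (k := k) D J w z i j r (B * U * z) C P S ys gs q).TM (B * U * z) s η

/-- **The assembly of the cell side, with a larger constant.** -/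
theorem cellF_of (hG : GeoStmt) (h0 : H0Stmt) (h2 : H2Stmt) (hy : YFStmt) (ht : TFStmt)
    (hn : NFStmt) (hs : HsStmt) (hT : TMStmt) : CellFStmt := by
  intro n K B lam gam C₁ h c k ys gs n₀ n1 B1 lam1 gam0 gamn ggr C1 hh0 hh1 y1 y2 y3 g1 g2 g3 g4
    CL F
  obtain ⟨K', C₀, hC₀, HG⟩ := hG n K lam gam C₁ n1 C1 lam1 gam0 ggr
  obtain ⟨C, hCd⟩ : ∃ C : ℝ, C = max (max C₀ (F K' C₀)) CL := ⟨_, rfl⟩
  have hCC : C₀ ≤ C := by rw [hCd]; exact (le_max_left _ _).trans (le_max_left _ _)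
  have hCF : F K' C₀ ≤ C := by rw [hCd]; exact (le_max_right _ _).trans (le_max_left _ _)
  have hCL : CL ≤ C := by rw [hCd]; exact le_max_right _ _
  have hC : 1 ≤ C := hC₀.trans hCC
  refine ⟨K', C₀, C, hC₀, hCC, hCF, fun η hη => ?_⟩
  obtain ⟨s, hs0, HT⟩ := hT η hη
  refine ⟨s, hs0, fun B' U₀ y₀ io hB' hio => ?_⟩
  obtain ⟨A0, a0, H0⟩ := h0 n K K' c k C₁ C
  obtain ⟨A2, a2, H2⟩ := h2 n K K' c k C₁ C
  obtain ⟨Ay, ay, Hy⟩ := hy n K K' c k C₁ C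
  obtain ⟨At, at', Ht⟩ := ht n K K' c k C₁ C
  obtain ⟨As, as, Hs⟩ := hs n K K' c k C₁ C
  obtain ⟨An, an, Hn⟩ := hn n K K' c k B C₁ C B1
  obtain ⟨A, hA⟩ : ∃ A : ℝ, A = A0 + A2 + Ay + At + As + An := ⟨_, rfl⟩
  have hA0 : 0 ≤ A := by rw [hA]; positivity
  have l0 : A0 ≤ A := by rw [hA]; linarith
  have l2 : A2 ≤ A := by rw [hA]; linarith
  have ly : Ay ≤ A := by rw [hA]; linarith
  have lt : At ≤ A := by rw [hA]; linarith
  have ls : As ≤ A := by rw [hA]; linarith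
  have ln : An ≤ A := by rw [hA]; linarith
  have hBr : (1 : ℝ) ≤ B := by exact_mod_cast B1
  have hB0 : (0 : ℝ) < B := by linarith
  have hlog : 0 < Real.log 2 := Real.log_pos (by norm_num)
  obtain ⟨δ₁, hδ₁⟩ : ∃ δ₁ : ℝ, δ₁ = h / (2 * B) * Real.log 2 / (1 + B') := ⟨_, rfl⟩
  have hδ₁0 : 0 < δ₁ := by rw [hδ₁]; positivity
  obtain ⟨δ, hδ⟩ : ∃ δ : ℝ, δ = min io δ₁ := ⟨_, rfl⟩
  have hδ0 : 0 < δ := by rw [hδ]; exact lt_min hio hδ₁0
  have hδio : δ ≤ io := by rw [hδ]; exact min_le_left _ _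
  have hδδ : δ ≤ δ₁ := by rw [hδ]; exact min_le_right _ _
  obtain ⟨U, hU⟩ : ∃ U : ℕ, U = max (max U₀ 1) ⌈4 * A / δ⌉₊ := ⟨_, rfl⟩
  have hU0 : U₀ ≤ U := by rw [hU]; exact (le_max_left _ _).trans (le_max_left _ _)
  have hU1 : 1 ≤ U := by rw [hU]; exact (le_max_right _ _).trans (le_max_left _ _)
  have hU2 : 4 * A / δ ≤ U := (Nat.le_ceil _).trans (by
    rw [hU]
    exact_mod_cast le_max_right _ _)
  obtain ⟨y, hyd⟩ : ∃ y : ℕ, y = max (max y₀ 1) (B * U + ⌈C / Real.log 2⌉₊) := ⟨_, rfl⟩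
  have hy0 : y₀ ≤ y := by rw [hyd]; exact (le_max_left _ _).trans (le_max_left _ _)
  have hy1 : 1 ≤ y := by rw [hyd]; exact (le_max_right _ _).trans (le_max_left _ _)
  have hy2 : B * U + ⌈C / Real.log 2⌉₊ ≤ y := by rw [hyd]; exact le_max_right _ _
  obtain ⟨r, r', r'', hStp⟩ := stp_ex gamn gam0 y
  refine ⟨U, y, r, r', r'', y, r'' + y, r, hU1, hU0, hy0, fun M₀ => ?_⟩
  obtain ⟨m1, hm1⟩ := exists_nat_ge ((U : ℝ) / gam n)
  obtain ⟨M, hM⟩ : ∃ M : ℕ, M = M₀ + (r'' + y + B * U + r'' + r + r + U + m1 + 1 +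
    B * U * r) := ⟨_, rfl⟩
  have hPlc : Plc n gam y r r' r'' y M (r'' + y) r := by
    refine ⟨hStp, hy1, by omega, by omega, ?_, le_rfl, ?_⟩
    · rw [hM]
      omega
    · rw [hM]
      omega
  refine ⟨M, by rw [hM]; omega, hPlc, fun e he => ?_⟩
  obtain ⟨e₂, he₂⟩ : ∃ e₂ : ℝ, e₂ = min e (min (δ / (2 * (A + 1))) (1 / 2)) := ⟨_, rfl⟩
  have he₂0 : 0 < e₂ := by
    rw [he₂]
    exact lt_min he (lt_min (by positivity) (by norm_num))
  obtain ⟨κ₁, z₁, k1, HG2⟩ := HG y r r' r'' y M e₂ he₂0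
  obtain ⟨κ₂, z₂, k2, HT2⟩ := HT n K K' M c k C₁ C
  refine ⟨min (min κ₁ κ₂) 1, max (max z₁ z₂) 1, lt_min (lt_min k1 k2) one_pos, min_le_right _ _,
    ?_⟩
  intro J a₀ w₀ z D q ϖ hz hϖ hO hDM hLLC hTm hNF
  obtain ⟨κ, hκ⟩ : ∃ κ : ℝ, κ = min (min κ₁ κ₂) 1 := ⟨_, rfl⟩
  rw [← hκ] at hO hDM hTm
  have c1 : κ ≤ κ₁ := by rw [hκ]; exact (min_le_left _ _).trans (min_le_left _ _)
  have c2 : κ ≤ κ₂ := by rw [hκ]; exact (min_le_left _ _).trans (min_le_right _ _)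
  have c3 : κ ≤ 1 := by rw [hκ]; exact min_le_right _ _
  have c4 : 0 < κ := by rw [hκ]; exact lt_min (lt_min k1 k2) one_pos
  have z1 : z₁ ≤ z := (le_max_left _ _).trans ((le_max_left _ _).trans hz)
  have z2 : z₂ ≤ z := (le_max_right _ _).trans ((le_max_left _ _).trans hz)
  have z3 : 1 ≤ z := (le_max_right _ _).trans hz
  have hTmono : ∀ κ' : ℝ, κ ≤ κ' → D.TmU J w₀ z κ' q := by
    intro κ' h'
    unfold NDat2.TmU at hTm ⊢
    have : κ * z ≤ κ' * z := mul_le_mul_of_nonneg_right h' (Nat.cast_nonneg z)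
    linarith
  obtain ⟨E, P, S, hE, hgd, hgeo, hdep⟩ := HG2 J a₀ w₀ z (r'' + y) r D q z1 hPlc
    (hO.mono_κ c1) (hTmono _ c1)
  have hBU1 : 1 ≤ B * U := Nat.one_le_iff_ne_zero.2 (by positivity)
  have hX1 : z ≤ B * U * z := Nat.le_mul_of_pos_left z hBU1
  have hX2 : U * z ≤ B * U * z := Nat.mul_le_mul_right z (Nat.le_mul_of_pos_left U B1)
  obtain ⟨w, w1, w2, hTM⟩ := HT2 D J a₀ w₀ z (r'' + y) r r (B * U * z) lam gam κ q P S ys gs
    c2 z2 hX1 (Nat.mul_le_mul_right z (by rw [hM]; omega)) (by rw [hM]; omega) le_rfl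
    (by rw [hM]; omega) hO hTm
  have hq := hO.isLaw
  have hb0 : 0 ≤ Pb q (fun ω => ¬ E ω) := Pool.MIC.Pb_nonneg hq.nonneg _
  have hb1 : Pb q (fun ω => ¬ E ω) ≤ δ / (2 * (A + 1)) :=
    hE.trans (by rw [he₂]; exact (min_le_right _ _).trans (min_le_left _ _))
  have hb2 : Pb q (fun ω => ¬ E ω) ≤ 1 / 2 :=
    hE.trans (by rw [he₂]; exact (min_le_right _ _).trans (min_le_right _ _))
  have hyX : exp (C * z) * 2 ^ (B * U * z) ≤ (2 : ℝ) ^ (y * z) := by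
    have e1 : exp (C * z) ≤ (2 : ℝ) ^ (⌈C / Real.log 2⌉₊ * z) := by
      have f1 : (2 : ℝ) ^ (⌈C / Real.log 2⌉₊ * z) =
          exp (((⌈C / Real.log 2⌉₊ * z : ℕ) : ℝ) * Real.log 2) := by
        rw [← Real.rpow_natCast, Real.rpow_def_of_pos (by norm_num)]
        ring_nf
      rw [f1]
      refine Real.exp_le_exp.2 ?_
      have f2 := Nat.le_ceil (C / Real.log 2)
      rw [div_le_iff₀ hlog] at f2
      push_cast
      have := mul_le_mul_of_nonneg_right f2 (Nat.cast_nonneg (α := ℝ) z)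
      nlinarith
    calc exp (C * z) * 2 ^ (B * U * z) ≤ (2 : ℝ) ^ (⌈C / Real.log 2⌉₊ * z) * 2 ^ (B * U * z) :=
          mul_le_mul_of_nonneg_right e1 (by positivity)
      _ = (2 : ℝ) ^ ((B * U + ⌈C / Real.log 2⌉₊) * z) := by
          rw [← pow_add]
          congr 1
          ring
      _ ≤ 2 ^ (y * z) := pow_le_pow_right₀ (by norm_num) (Nat.mul_le_mul_right z hy2)
  have hHyp : Hyp D n K K' J a₀ w₀ z M w (r'' + y) r r r' r'' y (B * U * z) lam gam κ C₁ C q E P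
      S ys gs := by
    refine
      { ok := hO
        dma := hDM
        llc := hLLC.mono hCL
        tmu := hTm
        n1 := n1
        C1 := C1
        Cg := hC
        κ0 := c4.le
        z1 := z3
        lam1 := lam1
        gam0 := gam0
        gamn := ggr
        i0 := by omega
        i1 := by omega
        i2 := by rw [hM]; omega
        j1 := le_rfl
        j2 := by rw [hM]; omega
        r1 := hStp.s5
        r2 := hStp.s7
        w1 := w1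
        w2 := w2
        pE := ?_
        geo := hgeo.mono hCC (by positivity)
          (div_le_div_of_nonneg_right (exp_mz hCC z) (by positivity))
        gd := fun ω hω => ⟨(hgd ω hω).1, (hgd ω hω).2.1.mono hCC, (hgd ω hω).2.2.mono hCC⟩
        dep := hdep.mono hCC
        yX := hyX
        Xz := ⟨B * U, rfl, by rw [hM]; omega⟩
        Xr := fun x hx => by
          have e1 : B * U = x := Nat.eq_of_mul_eq_mul_right (by omega) hx
          rw [← e1, hM]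
          omega
        ys_sl := y1
        ys_in := y2
        ys_on := y3
        gs_gp := g1
        gs_in := g2
        gs_on := g3 }
    have := Pool.MIC.Pb_not hq.sum_one E
    linarith
  have herr : ∀ A' : ℝ, A' ≤ A →
      err A' κ z (B * U * z) (Pb q (fun ω => ¬ E ω)) ≤ δ * (B * U * z : ℕ) := fun A' hA' =>
    (err_mono hA' c4.le hb0).trans (err_le hA0 hδ0 c3 hU2 hX2 hb1)
  have hX0 : (0 : ℝ) ≤ ((B * U * z : ℕ) : ℝ) := Nat.cast_nonneg _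
  have hio' : ∀ A' : ℝ, A' ≤ A →
      err A' κ z (B * U * z) (Pb q (fun ω => ¬ E ω)) ≤ io * (B * U * z : ℕ) := fun A' hA' =>
    (herr A' hA').trans (mul_le_mul_of_nonneg_right hδio hX0)
  refine ⟨w, E, P, S, hE.trans (by rw [he₂]; exact min_le_left _ _), ?_, hgeo, hgd, hdep, ?_, hTM⟩
  · rw [← hκ]
    exact hHyp
  have q0 := H0 D J a₀ w₀ z M w (r'' + y) r r r' r'' y (B * U * z) lam gam κ q E P S ys gs hHyp
  have q2 := H2 D J a₀ w₀ z M w (r'' + y) r r r' r'' y (B * U * z) lam gam κ q E P S ys gs hHyp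
  have qy := Hy D J a₀ w₀ z M w (r'' + y) r r r' r'' y (B * U * z) lam gam κ q E P S ys gs hHyp
  have qt := Ht D J a₀ w₀ z M w (r'' + y) r r r' r'' y (B * U * z) lam gam κ q E P S ys gs hHyp
  have qs := Hs D J a₀ w₀ z M w (r'' + y) r r r' r'' y (B * U * z) lam gam κ q E P S ys gs hHyp
    n₀ g4
  have hMj : (U : ℝ) ≤ gam n * (M - r) := by
    have e1 : (m1 : ℝ) ≤ M - r := by
      rw [hM]
      push_cast
      have : (0 : ℝ) ≤ M₀ + (r'' + y + B * U + r'' + r + U + 1 + B * U * r) := by positivity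
      linarith
    rw [div_le_iff₀ gamn] at hm1
    have := mul_le_mul_of_nonneg_left e1 gamn.le
    linarith
  have qn := Hn D J a₀ w₀ z M w (r'' + y) r r r' r'' y U lam gam κ h ϖ q E P S ys gs n₀ hHyp hNF
    hh0 hh1 hϖ g4 (by rw [hM]; omega) hMj
  refine pic_ok hq (by omega) (c1 := h / B) (E0 := err An κ z (B * U * z) (Pb q (fun ω => ¬ E ω)))
    (E1 := err As κ z (B * U * z) (Pb q (fun ω => ¬ E ω)))
    (q0.trans (add_le_add le_rfl (hio' _ l0))) (q2.trans (add_le_add le_rfl (hio' _ l2)))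
    (qy.trans (add_le_add le_rfl (hio' _ ly))) (qt.trans (add_le_add le_rfl (hio' _ lt))) qn qs ?_
  have e1 := herr _ ln
  have e2 := herr _ ls
  have hB'0 : (0 : ℝ) ≤ B' := Nat.cast_nonneg _
  have e3 := mul_le_mul_of_nonneg_left e2 hB'0
  have e4 : (1 + (B' : ℝ)) * δ ≤ h / (2 * B) * Real.log 2 := by
    have := mul_le_mul_of_nonneg_left hδδ (by positivity : (0 : ℝ) ≤ 1 + B')
    rw [hδ₁] at this
    rwa [mul_div_assoc', mul_div_cancel_left₀ _ (by positivity)] at this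
  have e5 : (h / B - h / (2 * B)) = h / (2 * B) := by
    field_simp
    ring
  rw [e5]
  have e6 := mul_le_mul_of_nonneg_right e4 hX0
  nlinarith

end Pool.P4I
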