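import Pool.Agent.H35.P4I.Stm
import Pool.Agent.H14.P4.Dep2

/-!
# P4I: deeper contexts

`dep_stmt`: (DEP), the proof of `Pool.P4.dep_stmt`.
-/

set_option autoImplicit false

namespace Pool.P4I

open Finset Real MvPolynomial
open Pool.Agent.H49.Ent Pool.Agent.H32.Dense Pool.STK Pool.STAT Pool.MIC.Frm Pool.MIC7 Pool.FRM
open Pool.GSD
open Pool.P4 hiding Stp Plc Geo LinStmt OwnStmt DepStmt GeoStmt Hyp EntOf H0Stmt H2Stmt YFStmt TFStmt
  NFStmt HsStmt dep_stmt
open Pool.BFL (Pb)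

/-- **Deeper contexts.** -/
theorem dep_stmt : DepStmt := by
  intro n K K' lam gam C₁ C hn hC₁ hC hlam hgam
  obtain ⟨K₂, hK₂⟩ : ∃ K₂ : ℕ, K₂ = max K K' := ⟨_, rfl⟩
  have hKK : K ≤ K₂ := by rw [hK₂]; exact le_max_left _ _
  have hKK' : K' ≤ K₂ := by rw [hK₂]; exact le_max_right _ _
  obtain ⟨A₁, D₁, hA₁, hbox⟩ := near_box n K₂ (n + 1) le_rfl
  obtain ⟨A₂, D₂, hA₂, hchg⟩ := chg n K₂
  obtain ⟨A₃, hA₃, hev⟩ := near_of_ev n K₂
  obtain ⟨A₄, hA₄, hfz⟩ := near_fz n K₂
  -- the box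
  obtain ⟨r₁, hr₁⟩ : ∃ r₁ : ℝ, r₁ = A₁ + D₁ * (1 + C) := ⟨_, rfl⟩
  have hr₁0 : 1 ≤ r₁ := by
    have h1 : (0 : ℝ) ≤ D₁ * (1 + C) := by positivity
    rw [hr₁]
    linarith
  obtain ⟨r₂, hr₂⟩ : ∃ r₂ : ℝ, r₂ = r₁ + 2 * C₁ := ⟨_, rfl⟩
  have hr₂0 : 1 ≤ r₂ := by rw [hr₂]; linarith
  -- the change of the chart between `P` and `Q` at `(i, j)`
  obtain ⟨c₁, hc₁⟩ : ∃ c₁ : ℝ, c₁ = A₂ + D₂ * (r₂ + C) := ⟨_, rfl⟩
  have hc₁0 : 1 ≤ c₁ := by
    have h1 : (0 : ℝ) ≤ D₂ * (r₂ + C) := by positivity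
    rw [hc₁]
    linarith
  -- the change of the chart between `Q` and the visible labels at `(i', j)`
  obtain ⟨s₁, hs₁⟩ : ∃ s₁ : ℝ, s₁ = A₃ + A₄ + C := ⟨_, rfl⟩
  have hs₁0 : 1 ≤ s₁ := by rw [hs₁]; linarith
  obtain ⟨c₂, hc₂⟩ : ∃ c₂ : ℝ, c₂ = A₂ + D₂ * (r₁ + s₁) := ⟨_, rfl⟩
  have hc₂0 : 1 ≤ c₂ := by
    have h1 : (0 : ℝ) ≤ D₂ * (r₁ + s₁) := by positivity
    rw [hc₂]
    linarith
  refine ⟨c₁ + c₂ + 4 * C₁ + r₂ + 1, by linarith, ?_⟩
  intro y r r' r'' a M
  refine ⟨1, ?_⟩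
  intro J a₀ w₀ z i j D q κ hz hpl hO P E hE
  have hzr : (1 : ℝ) ≤ z := by exact_mod_cast hz
  have hjM : j < M := by have := hpl.j2; omega
  have hiM : i < M := by have := hpl.i2; omega
  have hq := hO.isLaw
  have hwJ : ∀ w, w ≤ w₀ + (j + 1) * z → w ≤ J := by
    intro w hw
    have h1 := hO.thin
    have h2 := hO.top
    have h3 : (j + 1) * z ≤ (M + 1) * z := Nat.mul_le_mul_right _ (by omega)
    omega
  -- degrees
  have dΦ : ∀ i j ω, ∀ l ≤ n, (D.Φ i j ω l).totalDegree ≤ K₂ := fun i j ω l _ =>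
    (hO.P_deg i j _ l).trans hKK
  have tΦ : ∀ i j ω, TriN (D.Φ i j ω) := fun i j ω => hO.P_tri i j _
  -- two points over `Q` and `P` in the box of `Φ (i', j)`
  have core : ∀ i', i ≤ i' → i' < M → ∀ ω, E ω → ∀ x x' : ℕ → ℝ, x 0 = x' 0 →
      (∀ l ≤ n, |nat (D.g i' j) (D.Φ i' j ω) x l| ≤ exp z) →
      (∀ l ≤ n, |nat (D.g i' j) (D.Φ i' j ω) x' l| ≤ exp z) →
      ∀ Q : ℕ → PN, TriN Q → (∀ l, (Q l).totalDegree ≤ K') →
      (∀ i < M, ∀ j < M, ∀ l ≤ n,
        nrm (D.g i j) (1 / 2) (chr Q (D.Φ i j ω l - Q l)) ≤ exp (C * z) / 2 ^ D.g i j l) →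
      (∀ k ≤ n, |nat (D.g i' j) Q x k| ≤ exp (r₁ * z) ∧ |nat (D.g i' j) Q x' k| ≤ exp (r₁ * z)) ∧
      (∀ k ≤ n, |nat (D.g i j) Q x k| ≤ exp (r₂ * z) ∧ |nat (D.g i j) Q x' k| ≤ exp (r₂ * z)) := by
    intro i' hi hi' ω hω x x' hx0 hx hx' Q hQ dQ nQ
    have b1 : ∀ y : ℕ → ℝ, (∀ l ≤ n, |nat (D.g i' j) (D.Φ i' j ω) y l| ≤ exp z) →
        ∀ k ≤ n, |nat (D.g i' j) Q y k| ≤ exp (r₁ * z) := by
      intro y hy k hk
      have := hbox (D.g i' j) Q (D.Φ i' j ω) (exp (C * z)) (exp z) hQ (tΦ _ _ _)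
        (fun i _ => (dQ i).trans hKK') (dΦ _ _ _) (nQ i' hi' j hjM)
        (Real.one_le_exp (by positivity)) (Real.one_le_exp (by positivity)) y
        (fun k hk => hy k (by omega)) k (by omega)
      refine this.trans ?_
      have e1 : exp (z : ℝ) * exp (C * z) = exp ((1 + C) * z) := by
        rw [← Real.exp_add]
        congr 1
        ring
      rw [e1, hr₁]
      exact abs_exp hA₁ D₁ hzr
    have b2 : ∀ y : ℕ → ℝ, (∀ l ≤ n, |nat (D.g i' j) (D.Φ i' j ω) y l| ≤ exp z) →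
        ∀ k ≤ n, |nat (D.g i j) Q y k| ≤ exp (r₂ * z) := by
      intro y hy k hk
      have h1 := b1 y hy k hk
      rcases Nat.eq_zero_or_pos k with k0 | k0
      · subst k0
        have e1 : nat (D.g i j) Q y 0 = nat (D.g i' j) Q y 0 := by
          unfold nat
          rw [hO.g_zero, hO.g_zero]
        rw [e1]
        refine h1.trans (Real.exp_le_exp.2 (mul_le_mul_of_nonneg_right ?_ (by linarith)))
        rw [hr₂]
        linarith
      · have h2 := (unit_ratio hO (by linarith) hlam hi hi'.le hjM.le k0 hk).2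
        have h3 : (2 : ℝ) ^ D.g i j k ≤ exp (2 * C₁ * z) * 2 ^ D.g i' j k := by
          refine le_trans ?_ h2
          exact pow_le_pow_right₀ one_le_two (by omega)
        have h4 : (2 : ℝ) ^ D.g i' j k * |nat (D.g i j) Q y k| =
            2 ^ D.g i j k * |nat (D.g i' j) Q y k| := by
          have h1 : (0 : ℝ) < 2 ^ D.g i j k := by positivity
          have h2 : (0 : ℝ) < 2 ^ D.g i' j k := by positivity
          have e1 : (2 : ℝ) ^ D.g i' j k * |nat (D.g i j) Q y k| =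
              |2 ^ D.g i' j k * nat (D.g i j) Q y k| := by rw [abs_mul, abs_of_pos h2]
          have e2 : (2 : ℝ) ^ D.g i j k * |nat (D.g i' j) Q y k| =
              |2 ^ D.g i j k * nat (D.g i' j) Q y k| := by rw [abs_mul, abs_of_pos h1]
          rw [e1, e2, nat_scale]
        have h5 : (0 : ℝ) < 2 ^ D.g i' j k := by positivity
        have h6 : (2 : ℝ) ^ D.g i' j k * |nat (D.g i j) Q y k| ≤
            2 ^ D.g i' j k * exp (r₂ * z) := by
          rw [h4]
          calc (2 : ℝ) ^ D.g i j k * |nat (D.g i' j) Q y k|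
              ≤ (exp (2 * C₁ * z) * 2 ^ D.g i' j k) * exp (r₁ * z) :=
                mul_le_mul h3 h1 (abs_nonneg _) (by positivity)
            _ = 2 ^ D.g i' j k * (exp (2 * C₁ * z) * exp (r₁ * z)) := by ring
            _ = 2 ^ D.g i' j k * exp (r₂ * z) := by
                rw [← Real.exp_add, hr₂]
                congr 2
                ring
        exact le_of_mul_le_mul_left h6 h5
    exact ⟨fun k hk => ⟨b1 x hx k hk, b1 x' hx' k hk⟩, fun k hk => ⟨b2 x hx k hk, b2 x' hx' k hk⟩⟩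
  -- from `A` to `B` at `(i, j)`
  have tr1 : ∀ (A B Φ : ℕ → PN) (x x' : ℕ → ℝ) (ε : ℝ) (l : ℕ), TriN A → TriN B → TriN Φ →
      (∀ i ≤ n, (A i).totalDegree ≤ K₂) → (∀ i ≤ n, (B i).totalDegree ≤ K₂) →
      (∀ i ≤ n, (Φ i).totalDegree ≤ K₂) → NearP n (D.g i j) A Φ (exp (C * z)) →
      NearP n (D.g i j) B Φ (exp (C * z)) → l ≤ n → 0 ≤ ε →
      (∀ k < l, |nat (D.g i j) A x k| ≤ exp (r₂ * z)) →
      (∀ k < l, |nat (D.g i j) A x' k| ≤ exp (r₂ * z)) →
      (∀ k ≤ l, |nat (D.g i j) A x k - nat (D.g i j) A x' k| ≤ ε) →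
      |nat (D.g i j) B x l - nat (D.g i j) B x' l| ≤ exp (c₁ * z) * ε := by
    intro A B Φ x x' ε l hA hB hΦ dA dB dΦ nA nB hl hε hx hx' hd
    have := hchg (D.g i j) A B Φ (exp (C * z)) (exp (r₂ * z)) ε x x' l hA hB hΦ dA dB dΦ
      (Real.one_le_exp (by positivity)) (Real.one_le_exp (by positivity)) hε nA nB hl hx hx' hd
    refine this.trans (mul_le_mul_of_nonneg_right ?_ hε)
    have e1 : exp (r₂ * z) * exp (C * z) = exp ((r₂ + C) * z) := by
      rw [← Real.exp_add]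
      congr 1
      ring
    rw [e1, hc₁]
    exact abs_exp hA₂ D₂ hzr
  -- the labels of two samples
  have same : ∀ ω ω', bb D i j r ω = bb D i j r ω' → D.Φ i j ω' = D.Φ i j ω := by
    intro ω ω' h
    unfold Pool.P4.bb at h
    unfold NDat2.Φ
    have h1 : D.c i j ω = D.c i j ω' := (Prod.ext_iff.1 h).1
    rw [h1]
  -- the box over the frame
  have boxP : ∀ ω, E ω → ∀ x : ℕ → ℝ, (∀ l ≤ n, |nat (D.g i j) (D.Φ i j ω) x l| ≤ exp z) →
      ∀ k ≤ n, |nat (D.g i j) (P (bb D i j r ω)) x k| ≤ exp (r₂ * z) := by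
    intro ω hω x hx k hk
    obtain ⟨hω0, hg, hf⟩ := hE ω hω
    have := hbox (D.g i j) (P (bb D i j r ω)) (D.Φ i j ω) (exp (C * z)) (exp z) hf.tri (tΦ _ _ _)
      (fun i _ => (hf.deg i).trans hKK') (dΦ _ _ _) (fun l hl => (hf.near i le_rfl l hl).1)
      (Real.one_le_exp (by positivity)) (Real.one_le_exp (by positivity)) x
      (fun k hk => hx k (by omega)) k (by omega)
    refine this.trans ?_
    have e1 : exp (z : ℝ) * exp (C * z) = exp ((1 + C) * z) := by
      rw [← Real.exp_add]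
      congr 1
      ring
    rw [e1]
    refine (abs_exp hA₁ D₁ hzr).trans ?_
    refine Real.exp_le_exp.2 (mul_le_mul_of_nonneg_right ?_ (by linarith))
    rw [hr₂, hr₁]
    linarith
  -- the own points
  have own : ∀ ω, 0 < q ω → ∀ i' ≤ M, ∀ l ≤ n, |nat (D.g i' j) (D.Φ i' j ω) (D.X ω) l| ≤
      exp z := by
    intro ω hω i' hi' l hl
    have h1 := hO.hgt i' hi' j hjM.le ω hω l hl
    have h2 : (1 : ℝ) ≤ exp z := Real.one_le_exp (by positivity)
    refine le_trans ?_ h2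
    unfold nat
    rw [abs_mul, abs_of_pos (by positivity)]
    rw [le_div_iff₀ (by positivity)] at h1
    unfold NDat2.rh at h1
    linarith
  -- the visible labels
  have vis : ∀ i', i ≤ i' → i' < M → ∀ ω ω', 0 < q ω → 0 < q ω' → E ω → E ω' →
      bb D i j r ω = bb D i j r ω' → D.c i' j ω = D.c i' j ω' → D.T ω = D.T ω' →
      ∀ Q : ℕ → PN, TriN Q → (∀ l, (Q l).totalDegree ≤ K') →
      (∀ l ≤ n, eval (D.X ω) (Q l) = D.X ω l) →
      (∀ i < M, ∀ j < M, ∀ l ≤ n,
        nrm (D.g i j) (1 / 2) (chr Q (D.Φ i j ω l - Q l)) ≤ exp (C * z) / 2 ^ D.g i j l) →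
      (∀ k, 1 ≤ k → k ≤ n → ∀ x : ℕ → ℝ, x 0 = D.X ω 0 →
        nat (D.g i' j) (fz (D.X ω 0) Q) x k = nat (D.g i' j) Q x k) ∧
      NearP n (D.g i' j) (fz (D.X ω 0) Q) (fz (D.X ω 0) (D.Φ i' j ω)) (exp (s₁ * z)) ∧
      NearP n (D.g i' j) (fr D (i', j) ω) (fz (D.X ω 0) (D.Φ i' j ω)) (exp (s₁ * z)) ∧
      (∀ k, 1 ≤ k → k ≤ n → nat (D.g i' j) (fr D (i', j) ω) (D.X ω) k =
        2 ^ D.g i' j k * D.sh i' j ω k) ∧
      (∀ k, 1 ≤ k → k ≤ n → nat (D.g i' j) (fr D (i', j) ω) (D.X ω') k =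
        2 ^ D.g i' j k * D.sh i' j ω' k) := by
    intro i' hi hi' ω ω' hω hω' Eω Eω' hb hc hT Q hQ dQ qQ nQ
    have hX : D.X ω 0 = D.X ω' 0 := by rw [hO.X_zero, hO.X_zero, hT]
    have hΨ : D.Ψ i' j ω = D.Ψ i' j ω' := by
      unfold NDat2.Ψ
      rw [hO.s_c i' hi'.le j hjM.le ω ω' hω hω' (Prod.ext hc hT)]
    refine ⟨?_, ?_, ?_, ?_, ?_⟩
    · intro k hk _ x hx
      exact nat_fz' _ _ hx hk
    · have h0 : |D.X ω 0 - eval (fun _ => 0) (Q 0)| ≤ 1 / 2 ^ D.g i' j 0 := by
        have e1 : eval (fun _ => (0 : ℝ)) (Q 0) = eval (D.X ω) (Q 0) :=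
          Pool.SYS35.eval_congr (hQ 0) fun i hi => absurd hi (Nat.not_lt_zero _)
        rw [e1, qQ 0 (Nat.zero_le _), sub_self, abs_zero]
        positivity
      have := hfz (D.g i' j) Q (D.Φ i' j ω) (exp (C * z)) 1 (D.X ω 0) hQ (tΦ _ _ _)
        (fun i _ => (dQ i).trans hKK') (dΦ _ _ _) le_rfl h0 (nQ i' hi' j hjM)
        (Real.exp_pos _).le
      refine this.mono ?_
      rw [one_pow, one_mul]
      have h1 : A₄ ≤ exp (A₄ * z) := by
        have := Real.add_one_le_exp (A₄ * z)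
        nlinarith
      calc A₄ * exp (C * z) ≤ exp (A₄ * z) * exp (C * z) :=
            mul_le_mul_of_nonneg_right h1 (by positivity)
        _ = exp ((A₄ + C) * z) := by
            rw [← Real.exp_add]
            congr 1
            ring
        _ ≤ exp (s₁ * z) := Real.exp_le_exp.2 (mul_le_mul_of_nonneg_right (by
            rw [hs₁]; linarith) (by linarith))
    · have h1 := hev (D.g i' j) (fr D (i', j) ω) (fz (D.X ω 0) (D.Φ i' j ω)) 1
        (tri_fz (hO.G_tri _ _ _) _) (tri_fz (tΦ _ _ _) _)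
        (fun k _ => (deg_fz (hO.G_deg _ _ _ _) _).trans hKK)
        (fun k _ => (deg_fz (hO.P_deg _ _ _ _) _).trans hKK)
        (fun l hl b hb => agr_fz hO hi'.le hjM.le hω hl fun k hk => hb k (by omega))
      refine h1.mono ?_
      rw [mul_one]
      have h1 : A₃ ≤ exp (A₃ * z) := by
        have := Real.add_one_le_exp (A₃ * z)
        nlinarith
      refine h1.trans (Real.exp_le_exp.2 (mul_le_mul_of_nonneg_right ?_ (by linarith)))
      rw [hs₁]
      linarith
    · intro k hk _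
      unfold fr
      rw [nat_fz' _ _ rfl hk]
      rfl
    · intro k hk _
      unfold fr
      rw [nat_fz' _ _ hX.symm hk, hΨ]
      rfl
  -- from `A` to `B` at `(i', j)`, at the exact time
  have tr2 : ∀ i', ∀ (A B Φ : ℕ → PN) (x x' : ℕ → ℝ) (ε : ℝ) (l : ℕ), TriN A → TriN B →
      TriN Φ → (∀ i ≤ n, (A i).totalDegree ≤ K₂) → (∀ i ≤ n, (B i).totalDegree ≤ K₂) →
      (∀ i ≤ n, (Φ i).totalDegree ≤ K₂) → NearP n (D.g i' j) A Φ (exp (s₁ * z)) →
      NearP n (D.g i' j) B Φ (exp (s₁ * z)) → l ≤ n → 0 ≤ ε →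
      (∀ k < l, |nat (D.g i' j) A x k| ≤ exp (r₁ * z)) →
      (∀ k < l, |nat (D.g i' j) A x' k| ≤ exp (r₁ * z)) →
      (∀ k ≤ l, |nat (D.g i' j) A x k - nat (D.g i' j) A x' k| ≤ ε) →
      |nat (D.g i' j) B x l - nat (D.g i' j) B x' l| ≤ exp (c₂ * z) * ε := by
    intro i' A B Φ x x' ε l hA hB hΦ dA dB dΦ nA nB hl hε hx hx' hd
    have := hchg (D.g i' j) A B Φ (exp (s₁ * z)) (exp (r₁ * z)) ε x x' l hA hB hΦ dA dB dΦ
      (Real.one_le_exp (by positivity)) (Real.one_le_exp (by positivity)) hε nA nB hl hx hx' hd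
    refine this.trans (mul_le_mul_of_nonneg_right ?_ hε)
    have e1 : exp (r₁ * z) * exp (s₁ * z) = exp ((r₁ + s₁) * z) := by
      rw [← Real.exp_add]
      congr 1
      ring
    rw [e1, hc₂]
    exact abs_exp hA₂ D₂ hzr
  refine ⟨?_, ?_, ?_⟩
  · -- the context
    intro i' hi hi' ω ω' hω hω' Eω Eω' hb hc w hw1 hw2 hwT l hl1 hln
    obtain ⟨-, hg, hf⟩ := hE ω Eω
    obtain ⟨-, hg', hf'⟩ := hE ω' Eω'
    obtain ⟨Q, hQ, dQ, qQ, nQ⟩ := hg.fc
    have hP := same ω ω' hb
    have hΦ' : D.Φ i' j ω' = D.Φ i' j ω := by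
      unfold NDat2.Φ
      rw [hc]
    have pt : ∀ t : ℝ, |t - D.X ω 0| ≤ 1 / 2 ^ (w₀ + j * z) → |t - D.X ω' 0| ≤
        1 / 2 ^ (w₀ + j * z) →
        |zt D i j r P t ω l - zt D i j r P t ω' l| ≤
          exp ((c₁ + r₂ + 1 + 2 * C₁) * z) / 2 ^ ((i' - i) * z) := by
      intro t ht ht'
      have hx : ∀ l ≤ n, |nat (D.g i' j) (D.Φ i' j ω) (pp D (D.ln ω) t) l| ≤ exp z := by
        intro l hl
        have := hg.pc i' hi'.le j hjM.le l hl t ht
        rwa [one_mul] at this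
      have hx' : ∀ l ≤ n, |nat (D.g i' j) (D.Φ i' j ω) (pp D (D.ln ω') t) l| ≤ exp z := by
        intro l hl
        have := hg'.pc i' hi'.le j hjM.le l hl t ht'
        rwa [one_mul, hΦ'] at this
      have h00 : pp D (D.ln ω) t 0 = pp D (D.ln ω') t 0 := by
        unfold pp
        rw [if_pos rfl, if_pos rfl]
      obtain ⟨b1, b2⟩ := core i' hi hi' ω Eω (pp D (D.ln ω) t) (pp D (D.ln ω') t) h00 hx hx' Q hQ
        dQ nQ
      -- the difference over `Q`
      have hd : ∀ k ≤ n, |nat (D.g i j) Q (pp D (D.ln ω) t) k -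
          nat (D.g i j) Q (pp D (D.ln ω') t) k| ≤
          exp ((r₁ + 1 + 2 * C₁) * z) / 2 ^ ((i' - i) * z) := by
        intro k hk
        rcases Nat.eq_zero_or_pos k with k0 | k0
        · subst k0
          have e0 : eval (pp D (D.ln ω) t) (Q 0) = eval (pp D (D.ln ω') t) (Q 0) :=
            Pool.SYS35.eval_congr (hQ 0) fun i hi => absurd hi (Nat.not_lt_zero _)
          unfold nat
          rw [h00, e0, sub_self, abs_zero]
          positivity
        · have h2 := (unit_ratio hO (by linarith) hlam hi hi'.le hjM.le k0 hk).2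
          have h3 := abs_nat_scale (D.g i j) (D.g i' j) Q (pp D (D.ln ω) t) (pp D (D.ln ω') t) k
          have h4 : |nat (D.g i' j) Q (pp D (D.ln ω) t) k -
              nat (D.g i' j) Q (pp D (D.ln ω') t) k| ≤ exp ((r₁ + 1) * z) := by
            refine (abs_sub _ _).trans ?_
            have h5 := b1 k hk
            have h6 : 2 * exp (r₁ * z) ≤ exp ((r₁ + 1) * z) := by
              rw [add_mul, Real.exp_add, one_mul, mul_comm]
              have : (2 : ℝ) ≤ exp z := by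
                have := Real.add_one_le_exp (z : ℝ)
                linarith
              exact mul_le_mul_of_nonneg_left this (by positivity)
            linarith [h5.1, h5.2]
          rw [le_div_iff₀ (by positivity)]
          have h5 : (0 : ℝ) < 2 ^ D.g i' j k := by positivity
          refine le_of_mul_le_mul_left ?_ h5
          calc (2 : ℝ) ^ D.g i' j k * (|nat (D.g i j) Q (pp D (D.ln ω) t) k -
                nat (D.g i j) Q (pp D (D.ln ω') t) k| * 2 ^ ((i' - i) * z))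
              = 2 ^ ((i' - i) * z + D.g i j k) * |nat (D.g i' j) Q (pp D (D.ln ω) t) k -
                nat (D.g i' j) Q (pp D (D.ln ω') t) k| := by
                rw [← mul_assoc, h3, pow_add]
                ring
            _ ≤ (exp (2 * C₁ * z) * 2 ^ D.g i' j k) * exp ((r₁ + 1) * z) :=
                mul_le_mul h2 h4 (abs_nonneg _) (by positivity)
            _ = 2 ^ D.g i' j k * (exp (2 * C₁ * z) * exp ((r₁ + 1) * z)) := by ring
            _ = 2 ^ D.g i' j k * exp ((r₁ + 1 + 2 * C₁) * z) := by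
                rw [← Real.exp_add]
                congr 2
                ring
      have key := tr1 Q (P (bb D i j r ω)) (D.Φ i j ω) (pp D (D.ln ω) t) (pp D (D.ln ω') t)
        (exp ((r₁ + 1 + 2 * C₁) * z) / 2 ^ ((i' - i) * z)) l hQ hf.tri (tΦ _ _ _)
        (fun i _ => (dQ i).trans hKK') (fun i _ => (hf.deg i).trans hKK') (dΦ _ _ _)
        (nQ i hiM j hjM) (fun l hl => (hf.near i le_rfl l hl).1) hln (by positivity)
        (fun k hk => (b2 k (by omega)).1) (fun k hk => (b2 k (by omega)).2)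
        (fun k hk => hd k (by omega))
      have e1 : zt D i j r P t ω l = nat (D.g i j) (P (bb D i j r ω)) (pp D (D.ln ω) t) l := rfl
      have e2 : zt D i j r P t ω' l = nat (D.g i j) (P (bb D i j r ω)) (pp D (D.ln ω') t) l := by
        rw [hb]
        rfl
      rw [e1, e2]
      refine key.trans ?_
      rw [← mul_div_assoc]
      refine div_le_div_of_nonneg_right ?_ (by positivity)
      rw [← Real.exp_add]
      refine Real.exp_le_exp.2 ?_
      rw [← add_mul]
      refine mul_le_mul_of_nonneg_right ?_ (by linarith)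
      rw [hr₂]
      linarith
    have ht := t0_abs D (J := J) (w := w) (v := w₀ + j * z) (hwJ w hw2) hw1 (hO.X_zero ω)
    have ht' := t0_abs D (J := J) (w := w) (v := w₀ + j * z) (hwJ w hw2) hw1 (hO.X_zero ω')
    have htt : t0 D J w ω' = t0 D J w ω := by
      unfold t0
      rw [hwT]
    rw [htt] at ht'
    have h1 := pt _ ht.1 ht'.1
    have h2 := pt _ ht.2 ht'.2
    have hfin : exp ((c₁ + r₂ + 1 + 2 * C₁) * z) / 2 ^ ((i' - i) * z) +
        exp ((c₁ + r₂ + 1 + 2 * C₁) * z) / 2 ^ ((i' - i) * z) ≤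
        exp ((c₁ + c₂ + 4 * C₁ + r₂ + 1) * z) / 2 ^ ((i' - i) * z) := by
      rw [← add_div]
      refine div_le_div_of_nonneg_right ?_ (by positivity)
      have e1 : exp ((c₁ + c₂ + 4 * C₁ + r₂ + 1) * z) =
          exp ((c₁ + r₂ + 1 + 2 * C₁) * z) * exp ((c₂ + 2 * C₁) * z) := by
        rw [← Real.exp_add]
        congr 1
        ring
      have e2 : (2 : ℝ) ≤ exp ((c₂ + 2 * C₁) * z) := by
        have := Real.add_one_le_exp ((c₂ + 2 * C₁) * (z : ℝ))
        nlinarith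
      rw [e1]
      nlinarith [Real.exp_pos ((c₁ + r₂ + 1 + 2 * C₁) * z)]
    have hpos : 0 ≤ exp ((c₁ + r₂ + 1 + 2 * C₁) * z) / 2 ^ ((i' - i) * z) := by positivity
    constructor
    · unfold z0
      rw [htt]
      linarith
    · unfold be z0
      rw [htt]
      have e1 : zt D i j r P (t0 D J w ω + 1 / 2 ^ w) ω l - zt D i j r P (t0 D J w ω) ω l -
          (zt D i j r P (t0 D J w ω + 1 / 2 ^ w) ω' l - zt D i j r P (t0 D J w ω) ω' l) =
          (zt D i j r P (t0 D J w ω + 1 / 2 ^ w) ω l -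
            zt D i j r P (t0 D J w ω + 1 / 2 ^ w) ω' l) -
          (zt D i j r P (t0 D J w ω) ω l - zt D i j r P (t0 D J w ω) ω' l) := by ring
      rw [e1]
      refine (abs_sub _ _).trans ?_
      linarith
  · -- to the visible labels
    intro i' hi hi' ω ω' hω hω' Eω Eω' hb hc hT l hl1 hln δ hδ hd
    obtain ⟨-, hg, hf⟩ := hE ω Eω
    obtain ⟨Q, hQ, dQ, qQ, nQ⟩ := hg.fc
    have hX : D.X ω 0 = D.X ω' 0 := by rw [hO.X_zero, hO.X_zero, hT]
    have hΦ' : D.Φ i' j ω' = D.Φ i' j ω := by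
      unfold NDat2.Φ
      rw [hc]
    obtain ⟨v1, v2, v3, v4, v5⟩ := vis i' hi hi' ω ω' hω hω' Eω Eω' hb hc hT Q hQ dQ qQ nQ
    obtain ⟨b1, b2⟩ := core i' hi hi' ω Eω (D.X ω) (D.X ω') hX (own ω hω i' hi'.le)
      (by rw [← hΦ']; exact own ω' hω' i' hi'.le) Q hQ dQ nQ
    -- over `Q`, units of `(i, j)`
    have s1 : ∀ k ≤ l, |nat (D.g i j) Q (D.X ω) k - nat (D.g i j) Q (D.X ω') k| ≤
        exp (c₁ * z) * δ := by
      intro k hk
      refine tr1 (P (bb D i j r ω)) Q (D.Φ i j ω) (D.X ω) (D.X ω') δ k hf.tri hQ (tΦ _ _ _)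
        (fun i _ => (hf.deg i).trans hKK') (fun i _ => (dQ i).trans hKK') (dΦ _ _ _)
        (fun l hl => (hf.near i le_rfl l hl).1) (nQ i hiM j hjM) (by omega) hδ
        (fun k hk => boxP ω Eω _ (own ω hω i hiM.le) k (by omega))
        (fun k hk => boxP ω Eω _ (by rw [← same ω ω' hb]; exact own ω' hω' i hiM.le) k
          (by omega)) ?_
      intro k' hk'
      rcases Nat.eq_zero_or_pos k' with k0 | k0
      · subst k0
        have e0 : eval (D.X ω) (P (bb D i j r ω) 0) = eval (D.X ω') (P (bb D i j r ω) 0) :=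
          Pool.SYS35.eval_congr (hf.tri 0) fun i hi => absurd hi (Nat.not_lt_zero _)
        unfold nat
        rw [hX, e0, sub_self, abs_zero]
        exact hδ
      · have := hd k' k0 (by omega)
        unfold ze at this
        rwa [← hb] at this
    -- over `Q`, units of `(i', j)`
    have s2 : ∀ k ≤ l, |nat (D.g i' j) (fz (D.X ω 0) Q) (D.X ω) k -
        nat (D.g i' j) (fz (D.X ω 0) Q) (D.X ω') k| ≤
        exp (2 * C₁ * z) * 2 ^ ((i' - i) * z) * (exp (c₁ * z) * δ) := by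
      intro k hk
      rcases Nat.eq_zero_or_pos k with k0 | k0
      · subst k0
        rw [nat_fz_zero, nat_fz_zero, hX, sub_self, abs_zero]
        positivity
      · rw [v1 k k0 (by omega) _ rfl, v1 k k0 (by omega) _ hX.symm]
        have h2 := (unit_ratio hO (by linarith) hlam hi hi'.le hjM.le k0 (by omega : k ≤ n)).1
        have h3 := abs_nat_scale (D.g i' j) (D.g i j) Q (D.X ω) (D.X ω') k
        have h5 : (0 : ℝ) < 2 ^ D.g i j k := by positivity
        refine le_of_mul_le_mul_left ?_ h5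
        rw [h3]
        calc (2 : ℝ) ^ D.g i' j k * |nat (D.g i j) Q (D.X ω) k - nat (D.g i j) Q (D.X ω') k|
            ≤ (exp (2 * C₁ * z) * 2 ^ ((i' - i) * z + D.g i j k)) * (exp (c₁ * z) * δ) :=
              mul_le_mul h2 (s1 k hk) (abs_nonneg _) (by positivity)
          _ = 2 ^ D.g i j k * (exp (2 * C₁ * z) * 2 ^ ((i' - i) * z) * (exp (c₁ * z) * δ)) := by
              rw [pow_add]
              ring
    have s3 := tr2 i' (fz (D.X ω 0) Q) (fr D (i', j) ω) (fz (D.X ω 0) (D.Φ i' j ω)) (D.X ω)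
      (D.X ω') _ l (tri_fz hQ _) (tri_fz (hO.G_tri _ _ _) _) (tri_fz (tΦ _ _ _) _)
      (fun k _ => deg_fz ((dQ k).trans hKK') _)
      (fun k _ => (deg_fz (hO.G_deg _ _ _ _) _).trans hKK)
      (fun k _ => (deg_fz (hO.P_deg _ _ _ _) _).trans hKK) v2 v3 hln (by positivity)
      (fun k hk => by
        rcases Nat.eq_zero_or_pos k with k0 | k0
        · subst k0
          rw [nat_fz_zero, sub_self, mul_zero, abs_zero]
          positivity
        · rw [v1 k k0 (by omega) _ rfl]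
          exact (b1 k (by omega)).1)
      (fun k hk => by
        rcases Nat.eq_zero_or_pos k with k0 | k0
        · subst k0
          rw [nat_fz_zero, hX, sub_self, mul_zero, abs_zero]
          positivity
        · rw [v1 k k0 (by omega) _ hX.symm]
          exact (b1 k (by omega)).2) s2
    rw [v4 l hl1 hln, v5 l hl1 hln] at s3
    have h2 := (unit_ratio hO (by linarith) hlam hi hi'.le hjM.le hl1 hln).2
    have h5 : (0 : ℝ) < 2 ^ ((i' - i) * z) := by positivity
    have e1 : 2 ^ ((i' - i) * z) * |2 ^ D.g i j l * D.sh i' j ω l -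
        2 ^ D.g i j l * D.sh i' j ω' l| = 2 ^ ((i' - i) * z + D.g i j l) *
        |D.sh i' j ω l - D.sh i' j ω' l| := by
      have p1 : (0 : ℝ) < 2 ^ D.g i j l := by positivity
      rw [← mul_sub, abs_mul, abs_of_pos p1, pow_add]
      ring
    have e2 : 2 ^ D.g i' j l * |D.sh i' j ω l - D.sh i' j ω' l| =
        |2 ^ D.g i' j l * D.sh i' j ω l - 2 ^ D.g i' j l * D.sh i' j ω' l| := by
      have p1 : (0 : ℝ) < 2 ^ D.g i' j l := by positivity
      rw [← mul_sub, abs_mul, abs_of_pos p1]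
    refine le_of_mul_le_mul_left ?_ h5
    rw [e1]
    calc 2 ^ ((i' - i) * z + D.g i j l) * |D.sh i' j ω l - D.sh i' j ω' l|
        ≤ (exp (2 * C₁ * z) * 2 ^ D.g i' j l) * |D.sh i' j ω l - D.sh i' j ω' l| :=
          mul_le_mul_of_nonneg_right h2 (abs_nonneg _)
      _ = exp (2 * C₁ * z) *
          |2 ^ D.g i' j l * D.sh i' j ω l - 2 ^ D.g i' j l * D.sh i' j ω' l| := by
          rw [← e2]
          ring
      _ ≤ exp (2 * C₁ * z) * (exp (c₂ * z) *
          (exp (2 * C₁ * z) * 2 ^ ((i' - i) * z) * (exp (c₁ * z) * δ))) :=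
          mul_le_mul_of_nonneg_left s3 (by positivity)
      _ = 2 ^ ((i' - i) * z) * (exp ((c₁ + c₂ + 4 * C₁) * z) * δ) := by
          rw [show (c₁ + c₂ + 4 * C₁) * (z : ℝ) = 2 * C₁ * z + c₂ * z + 2 * C₁ * z + c₁ * z by
            ring, Real.exp_add, Real.exp_add, Real.exp_add]
          ring
      _ ≤ 2 ^ ((i' - i) * z) * (exp ((c₁ + c₂ + 4 * C₁ + r₂ + 1) * z) * δ) := by
          refine mul_le_mul_of_nonneg_left (mul_le_mul_of_nonneg_right ?_ hδ) (by positivity)
          refine Real.exp_le_exp.2 (mul_le_mul_of_nonneg_right ?_ (by linarith))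
          linarith
  · -- from the visible labels
    intro i' hi hi' ω ω' hω hω' Eω Eω' hb hc hT l hl1 hln δ hδ hd
    obtain ⟨-, hg, hf⟩ := hE ω Eω
    obtain ⟨Q, hQ, dQ, qQ, nQ⟩ := hg.fc
    have hX : D.X ω 0 = D.X ω' 0 := by rw [hO.X_zero, hO.X_zero, hT]
    have hΦ' : D.Φ i' j ω' = D.Φ i' j ω := by
      unfold NDat2.Φ
      rw [hc]
    obtain ⟨v1, v2, v3, v4, v5⟩ := vis i' hi hi' ω ω' hω hω' Eω Eω' hb hc hT Q hQ dQ qQ nQ
    obtain ⟨b1, b2⟩ := core i' hi hi' ω Eω (D.X ω) (D.X ω') hX (own ω hω i' hi'.le)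
      (by rw [← hΦ']; exact own ω' hω' i' hi'.le) Q hQ dQ nQ
    have one : (1 : ℝ) ≤ exp (r₁ * z) := Real.one_le_exp (by positivity)
    -- over the visible labels, units of `(i', j)`
    have s1 : ∀ k ≤ l, |nat (D.g i' j) (fr D (i', j) ω) (D.X ω) k -
        nat (D.g i' j) (fr D (i', j) ω) (D.X ω') k| ≤
        exp (2 * C₁ * z) * 2 ^ ((i' - i) * z) * δ := by
      intro k hk
      rcases Nat.eq_zero_or_pos k with k0 | k0
      · subst k0
        unfold fr
        rw [nat_fz_zero, nat_fz_zero, hX, sub_self, abs_zero]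
        positivity
      · rw [v4 k k0 (by omega), v5 k k0 (by omega)]
        have h2 := (unit_ratio hO (by linarith) hlam hi hi'.le hjM.le k0 (by omega : k ≤ n)).1
        have h3 := hd k k0 hk
        rw [← mul_sub, abs_mul, abs_of_pos (by positivity)] at h3 ⊢
        calc 2 ^ D.g i' j k * |D.sh i' j ω k - D.sh i' j ω' k|
            ≤ (exp (2 * C₁ * z) * 2 ^ ((i' - i) * z + D.g i j k)) *
              |D.sh i' j ω k - D.sh i' j ω' k| := mul_le_mul_of_nonneg_right h2 (abs_nonneg _)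
          _ = exp (2 * C₁ * z) * 2 ^ ((i' - i) * z) *
              (2 ^ D.g i j k * |D.sh i' j ω k - D.sh i' j ω' k|) := by
              rw [pow_add]
              ring
          _ ≤ exp (2 * C₁ * z) * 2 ^ ((i' - i) * z) * δ :=
              mul_le_mul_of_nonneg_left h3 (by positivity)
    -- over `Q`, units of `(i, j)`
    have s2 : ∀ k ≤ l, |nat (D.g i j) Q (D.X ω) k - nat (D.g i j) Q (D.X ω') k| ≤
        exp ((c₂ + 4 * C₁) * z) * δ := by
      intro k hk
      rcases Nat.eq_zero_or_pos k with k0 | k0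
      · subst k0
        have e0 : eval (D.X ω) (Q 0) = eval (D.X ω') (Q 0) :=
          Pool.SYS35.eval_congr (hQ 0) fun i hi => absurd hi (Nat.not_lt_zero _)
        unfold nat
        rw [hX, e0, sub_self, abs_zero]
        positivity
      have s3 := tr2 i' (fr D (i', j) ω) (fz (D.X ω 0) Q) (fz (D.X ω 0) (D.Φ i' j ω)) (D.X ω)
        (D.X ω') _ k (tri_fz (hO.G_tri _ _ _) _) (tri_fz hQ _) (tri_fz (tΦ _ _ _) _)
        (fun k _ => (deg_fz (hO.G_deg _ _ _ _) _).trans hKK)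
        (fun k _ => deg_fz ((dQ k).trans hKK') _)
        (fun k _ => (deg_fz (hO.P_deg _ _ _ _) _).trans hKK) v3 v2 (by omega) (by positivity)
        (fun k' hk' => by
          refine le_trans ?_ one
          rcases Nat.eq_zero_or_pos k' with k0 | k0
          · subst k0
            unfold fr
            rw [nat_fz_zero, sub_self, mul_zero, abs_zero]
            exact zero_le_one
          · rw [v4 k' k0 (by omega)]
            have := hO.pos i' hi'.le j hjM.le ω hω k' k0 (by omega)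
            rw [abs_mul, abs_of_pos (by positivity)]
            rw [le_div_iff₀ (by positivity)] at this
            linarith)
        (fun k' hk' => by
          refine le_trans ?_ one
          rcases Nat.eq_zero_or_pos k' with k0 | k0
          · subst k0
            unfold fr
            rw [nat_fz_zero, hX, sub_self, mul_zero, abs_zero]
            exact zero_le_one
          · rw [v5 k' k0 (by omega)]
            have := hO.pos i' hi'.le j hjM.le ω' hω' k' k0 (by omega)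
            rw [abs_mul, abs_of_pos (by positivity)]
            rw [le_div_iff₀ (by positivity)] at this
            linarith)
        (fun k' hk' => s1 k' (by omega))
      rw [v1 k k0 (by omega) _ rfl, v1 k k0 (by omega) _ hX.symm] at s3
      have h2 := (unit_ratio hO (by linarith) hlam hi hi'.le hjM.le k0 (by omega : k ≤ n)).2
      have h3 := abs_nat_scale (D.g i j) (D.g i' j) Q (D.X ω) (D.X ω') k
      have h5 : (0 : ℝ) < 2 ^ D.g i' j k := by positivity
      have h6 : (0 : ℝ) < 2 ^ ((i' - i) * z) := by positivity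
      refine le_of_mul_le_mul_left ?_ (mul_pos h5 h6)
      calc 2 ^ D.g i' j k * 2 ^ ((i' - i) * z) *
            |nat (D.g i j) Q (D.X ω) k - nat (D.g i j) Q (D.X ω') k|
          = 2 ^ ((i' - i) * z + D.g i j k) *
            |nat (D.g i' j) Q (D.X ω) k - nat (D.g i' j) Q (D.X ω') k| := by
            rw [pow_add]
            linear_combination (2 : ℝ) ^ ((i' - i) * z) * h3
        _ ≤ (exp (2 * C₁ * z) * 2 ^ D.g i' j k) * (exp (c₂ * z) *
            (exp (2 * C₁ * z) * 2 ^ ((i' - i) * z) * δ)) :=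
            mul_le_mul h2 s3 (abs_nonneg _) (by positivity)
        _ = 2 ^ D.g i' j k * 2 ^ ((i' - i) * z) * (exp ((c₂ + 4 * C₁) * z) * δ) := by
            rw [show (c₂ + 4 * C₁) * (z : ℝ) = 2 * C₁ * z + c₂ * z + 2 * C₁ * z by ring,
              Real.exp_add, Real.exp_add]
            ring
    have s3 := tr1 Q (P (bb D i j r ω)) (D.Φ i j ω) (D.X ω) (D.X ω') _ l hQ hf.tri (tΦ _ _ _)
      (fun i _ => (dQ i).trans hKK') (fun i _ => (hf.deg i).trans hKK') (dΦ _ _ _)
      (nQ i hiM j hjM) (fun l hl => (hf.near i le_rfl l hl).1) hln (by positivity)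
      (fun k hk => (b2 k (by omega)).1) (fun k hk => (b2 k (by omega)).2) s2
    unfold ze
    rw [← hb]
    refine s3.trans ?_
    rw [← mul_assoc, ← Real.exp_add]
    refine mul_le_mul_of_nonneg_right (Real.exp_le_exp.2 ?_) hδ
    rw [← add_mul]
    refine mul_le_mul_of_nonneg_right ?_ (by linarith)
    linarith

end Pool.P4I
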