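import Pool.Agent.H35.P4I.Stm
import Pool.Agent.H69.P4.Geo

/-!
# P4I: the geometry of a cell, from the pieces

`geo_of`: paths (`PthStmt`), closed frames (`CfrStmt`), lines over a closed frame (`LinStmt`),
own sheets (`OwnStmt`, `AblStmt`) and deeper contexts (`DepStmt`) give the geometry (`GeoStmt`).
-/

set_option autoImplicit false

namespace Pool.P4I

open Finset Real MvPolynomial
open Pool.Agent.H49.Ent Pool.Agent.H32.Dense Pool.STK Pool.STAT Pool.MIC.Frm Pool.MIC7 Pool.FRM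
open Pool.GSD
open Pool.BFL (Pb)
open Pool.P4 (t0 rt pp PthC FraC thd sl gr bb ze zt z0 be nn Dep LLC GoodS FrP err PthStmt CfrStmt
  pb_cover ok2_mono tmu_mono det_c)

/-- A place needs at least three places. -/
theorem Plc.two {n : ℕ} {gam : ℕ → ℝ} {y r r' r'' a M i j : ℕ} (hn : 1 ≤ n) (hg : ∀ l, 0 ≤ gam l)
    (h : Plc n gam y r r' r'' a M i j) : 2 ≤ M := by
  have h1 := h.stp.s4 1 le_rfl hn
  have h2 : (0 : ℝ) ≤ 2 * gam 1 * r := by
    have := hg 1
    positivity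
  have h3 : (1 : ℝ) ≤ y := by exact_mod_cast h.y1
  have h4 : (1 : ℝ) ≤ r'' := by linarith
  have h5 : 1 ≤ r'' := by exact_mod_cast h4
  have := h.i1
  have := h.i2
  omega

/-- **The geometry of a cell.** -/
theorem geo_of (h1 : PthStmt) (h2 : CfrStmt) (h3 : LinStmt) (h4 : OwnStmt) (h5 : DepStmt)
    (h6 : AblStmt) : GeoStmt := by
  classical
  intro n K lam gam C₁ hn hC₁ hlam hgam hgn
  obtain ⟨Kc, Cc, hKc, hCc, hcfr⟩ := h2 n K lam gam C₁ hn hC₁
  obtain ⟨Kf, Cf, hKf, hCf, hfra⟩ := frm_ev n K lam gam C₁ hC₁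
  obtain ⟨K', hK'⟩ : ∃ K', K' = max Kc Kf := ⟨_, rfl⟩
  obtain ⟨C, hC⟩ : ∃ C, C = max Cc Cf := ⟨_, rfl⟩
  have hC0 : 0 ≤ C := by rw [hC]; exact hCc.trans (le_max_left _ _)
  obtain ⟨C', hC', hlin⟩ := h3 n K K' lam gam C₁ C hn hC₁ hC0 hlam hgam hgn
  obtain ⟨C'', hC'', hown⟩ := h4 n K K' lam gam C₁ C hn hC₁ hC0 hlam hgam
  obtain ⟨Cd, hCd, hdep⟩ := h5 n K K' lam gam C₁ C hn hC₁ hC0 hlam hgam
  obtain ⟨Ca, hCa, habl⟩ := h6 n K K' lam gam C₁ C hn hC₁ hC0 hlam hgam hgn
  obtain ⟨Cg, hCg⟩ : ∃ Cg, Cg = max (max (max C Cd) (max C' C'')) Ca := ⟨_, rfl⟩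
  have hg1 : C ≤ Cg := by
    rw [hCg]; exact (le_max_left _ _).trans ((le_max_left _ _).trans (le_max_left _ _))
  have hg2 : C' ≤ Cg := by
    rw [hCg]; exact (le_max_left _ _).trans ((le_max_right _ _).trans (le_max_left _ _))
  have hg3 : C'' ≤ Cg := by
    rw [hCg]; exact (le_max_right _ _).trans ((le_max_right _ _).trans (le_max_left _ _))
  have hg4 : Cd ≤ Cg := by
    rw [hCg]; exact (le_max_right _ _).trans ((le_max_left _ _).trans (le_max_left _ _))
  have hg5 : Ca ≤ Cg := by rw [hCg]; exact le_max_right _ _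
  refine ⟨K', Cg, hC'.trans hg2, ?_⟩
  intro y r r' r'' a M e he
  rcases Nat.lt_or_ge M 2 with hM | hM
  · refine ⟨1, 0, one_pos, ?_⟩
    intro J a₀ w₀ z i j D q _ hP
    have := hP.two hn hgam
    omega
  obtain ⟨κ₁, z₁, hκ₁, hpth⟩ := h1 n K M lam gam C₁ (e / 3) hC₁ (by positivity)
  obtain ⟨κ₂, z₂, hκ₂, hcfr⟩ := hcfr M (e / 3) hM (by positivity)
  obtain ⟨κ₃, z₃, hκ₃, hfra⟩ := hfra M (e / 3) hM (by positivity)
  obtain ⟨z₄, hlin⟩ := hlin y r r' r'' a M
  obtain ⟨z₅, hown⟩ := hown y r r' r'' a M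
  obtain ⟨z₆, hdep⟩ := hdep y r r' r'' a M
  obtain ⟨z₇, habl⟩ := habl y r r' r'' a M
  refine ⟨min κ₁ (min κ₂ κ₃), max (max z₁ (max z₇ z₂)) (max z₃ (max z₄ (max z₅ z₆))),
    lt_min hκ₁ (lt_min hκ₂ hκ₃), ?_⟩
  intro J a₀ w₀ z i j D q hz hP hO hT
  obtain ⟨κ, hκ⟩ : ∃ κ, κ = min κ₁ (min κ₂ κ₃) := ⟨_, rfl⟩
  rw [← hκ] at hO hT
  have k1 : κ ≤ κ₁ := by rw [hκ]; exact min_le_left _ _
  have k2 : κ ≤ κ₂ := by rw [hκ]; exact (min_le_right _ _).trans (min_le_left _ _)
  have k3 : κ ≤ κ₃ := by rw [hκ]; exact (min_le_right _ _).trans (min_le_right _ _)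
  have hq := hO.isLaw
  have hpth := hpth J a₀ w₀ z D q (by omega) (ok2_mono hO k1) (tmu_mono hT k1)
  have hcfr := hcfr J a₀ w₀ z D q (by omega) (ok2_mono hO k2) (tmu_mono hT k2)
  have hfra := hfra J a₀ w₀ z κ D q (by omega) k3 hO
  have hi : i ≤ M := by have := hP.i2; omega
  have hi' : i < M := by have := hP.i2; omega
  have hj : j < M := by have := hP.j2; omega
  -- the good event
  obtain ⟨E, hE⟩ : ∃ E : D.Ω → Prop, E = fun ω => 0 < q ω ∧ GoodS D n K' w₀ z M C ω := ⟨_, rfl⟩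
  have hEd : ∀ ω, E ω → 0 < q ω ∧ GoodS D n K' w₀ z M C ω := fun ω h => by rwa [hE] at h
  -- the frames
  have hex : ∀ v : D.Γ × D.Γ, ∃ P : ℕ → PN, TriN P ∧ (∀ l, (P l).totalDegree ≤ K') ∧
      ∀ ω, E ω → bb D i j r ω = v → FrP D n K' z i j r C P ω := by
    intro v
    by_cases hv : ∃ ω, E ω ∧ bb D i j r ω = v
    · obtain ⟨ω₀, hω₀, hb₀⟩ := hv
      obtain ⟨P, p1, p2, _, p4⟩ := (hEd ω₀ hω₀).2.fc
      refine ⟨P, p1, p2, fun ω hω hb => ⟨p1, p2, fun i₁ hi₁ l hl => ?_⟩⟩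
      have hbb : bb D i j r ω = bb D i j r ω₀ := hb.trans hb₀.symm
      have e1 : D.c i j ω = D.c i j ω₀ := congrArg Prod.fst hbb
      have e2 : D.c (i - 1) (j - r) ω = D.c (i - 1) (j - r) ω₀ := congrArg Prod.snd hbb
      have e3 := det_c hO hi hj.le hi₁ ω ω₀ (hEd ω hω).1 (hEd ω₀ hω₀).1 e1
      have e4 := det_c hO (by omega : i - 1 ≤ M) (by omega : j - r ≤ M)
        (Nat.sub_le_sub_right hi₁ 1) ω ω₀ (hEd ω hω).1 (hEd ω₀ hω₀).1 e2
      have e5 : D.Φ i₁ j ω = D.Φ i₁ j ω₀ := by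
        unfold NDat2.Φ
        rw [e3]
      have e6 : D.Φ (i₁ - 1) (j - r) ω = D.Φ (i₁ - 1) (j - r) ω₀ := by
        unfold NDat2.Φ
        rw [e4]
      rw [e5, e6]
      exact ⟨p4 i₁ (by omega) j hj l hl, p4 (i₁ - 1) (by omega) (j - r) (by omega) l hl⟩
    · refine ⟨fun _ => 0, fun i => ?_, fun l => ?_, fun ω hω hb => absurd ⟨ω, hω, hb⟩ hv⟩
      · rw [vars_0]
        exact Finset.empty_subset _
      · rw [totalDegree_zero]
        exact Nat.zero_le _
  choose P hPt hPd hPf using hex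
  have hFr : ∀ ω, E ω → FrP D n K' z i j r C (P (bb D i j r ω)) ω := fun ω hω =>
    hPf _ ω hω rfl
  obtain ⟨S, hS, hS0, hsh, hpair⟩ := hown J a₀ w₀ z i j D q κ (by omega) hP hO P E
    (fun ω hω => ⟨(hEd ω hω).1, (hEd ω hω).2, hFr ω hω⟩)
  have hdep := hdep J a₀ w₀ z i j D q κ (by omega) hP hO P E
    (fun ω hω => ⟨(hEd ω hω).1, (hEd ω hω).2, hFr ω hω⟩)
  have habl := habl J a₀ w₀ z i j D q κ (by omega) hP hO P E
    (fun ω hω => ⟨(hEd ω hω).1, (hEd ω hω).2, hFr ω hω⟩)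
  have hlin : ∀ ω, E ω → _ := fun ω hω =>
    hlin J a₀ w₀ z i j D q κ (by omega) hP hO (P (bb D i j r ω)) ω (hEd ω hω).1 (hEd ω hω).2
      (hFr ω hω)
  -- constants
  have hz0 : (0 : ℝ) ≤ z := Nat.cast_nonneg z
  have x0 : exp (C * z) ≤ exp (Cg * z) := exp_le_exp.2 (mul_le_mul_of_nonneg_right hg1 hz0)
  have x1 : exp (C' * z) ≤ exp (Cg * z) := exp_le_exp.2 (mul_le_mul_of_nonneg_right hg2 hz0)
  have x2 : exp (C'' * z) ≤ exp (Cg * z) := exp_le_exp.2 (mul_le_mul_of_nonneg_right hg3 hz0)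
  have y1 : exp (C' * z) / 2 ^ (y * z) ≤ exp (Cg * z) / 2 ^ (y * z) :=
    div_le_div_of_nonneg_right x1 (by positivity)
  have y2 : exp (C'' * z) / 2 ^ (y * z) ≤ exp (Cg * z) / 2 ^ (y * z) :=
    div_le_div_of_nonneg_right x2 (by positivity)
  have x4 : exp (Cd * z) ≤ exp (Cg * z) := exp_le_exp.2 (mul_le_mul_of_nonneg_right hg4 hz0)
  have x5 : exp (Ca * z) ≤ exp (Cg * z) := exp_le_exp.2 (mul_le_mul_of_nonneg_right hg5 hz0)
  have hCg0 : 0 ≤ Cg := hC0.trans hg1
  refine ⟨E, P, S, ?_, fun ω hω => ⟨(hEd ω hω).1, (hEd ω hω).2.mono hg1, (hFr ω hω).mono hg1⟩,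
    ?_, hdep.mono hg4⟩
  · -- the probability
    have a1 : Pb q (fun ω => ¬ E ω) ≤ Pb q (fun ω => ¬ PthC D n w₀ z M 1 ω) +
        Pb q (fun ω => ¬ FraC D n Kc M z Cc ω) + Pb q (fun ω => ¬ Fra D n Kf M z Cf ω) := by
      refine pb_cover hq.nonneg fun ω b4 b5 => ?_
      by_contra hcon
      rw [not_or, not_or, not_not, not_not, not_not] at hcon
      obtain ⟨b1, b2, b3⟩ := hcon
      refine b5 ?_
      rw [hE]
      exact ⟨b4, ⟨b2.monoK (by rw [hK']; exact le_max_left _ _) (by rw [hC]; exact le_max_left _ _),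
        b3.mono (by rw [hK']; exact le_max_right _ _) (by rw [hC]; exact le_max_right _ _), b1⟩⟩
    linarith
  · exact
      { tri := hPt
        deg := hPd
        near := fun ω _ hω i₁ hi₁ l hl => by
          have := (hFr ω hω).near i₁ hi₁ l hl
          exact ⟨this.1.trans (div_le_div_of_nonneg_right x0 (by positivity)),
            this.2.trans (div_le_div_of_nonneg_right x0 (by positivity))⟩
        bz := fun ω _ hω l h1 hl => ((hlin ω hω).1 l h1 hl).trans x1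
        bt := fun ω _ hω l h1 hl w hw1 hw2 => by
          have := ((hlin ω hω).2 w hw1 hw2).1 l h1 hl
          exact ⟨this.1.trans x1, this.2.trans x1⟩
        bS := fun ω _ _ u k => (hS ω u k).trans x2
        tS := fun ω _ _ u k h => hS0 ω u k h
        slow := fun ω _ hω l hl w hw1 hw2 =>
          (((hlin ω hω).2 w hw1 hw2).2.1 l hl).trans y1
        grp := fun ω _ hω l hl w hw1 hw2 =>
          (((hlin ω hω).2 w hw1 hw2).2.2.1 l hl).trans y1
        left := fun ω ω' _ hq' hω hω' hbb hc w hw1 hw2 hT => by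
          have h5 := (((hlin ω hω).2 w hw1 hw2).2.2.2 ω' hq' (hEd ω' hω').2 hbb hT).1 hc
          have h6 : z0 D J w i j r P ω' = z0 D J w i j r (fun _ => P (bb D i j r ω)) ω' := by
            funext l
            unfold z0 zt
            rw [hbb]
          have h7 : be D J w i j r P ω' = be D J w i j r (fun _ => P (bb D i j r ω)) ω' := by
            funext l
            unfold be z0 zt
            rw [hbb]
          rw [h6, h7]
          exact ⟨fun l hl => (h5.1 l hl).trans y1, fun l hl => (h5.2 l hl).trans y1⟩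
        left2 := fun ω ω' _ hq' hω hω' hbb hc w hw1 hw2 hT l hl1 hl => by
          have h5 := (((hlin ω hω).2 w hw1 hw2).2.2.2 ω' hq' (hEd ω' hω').2 hbb hT).2.2 hc l hl1 hl
          have h6 : z0 D J w i j r P ω' = z0 D J w i j r (fun _ => P (bb D i j r ω)) ω' := by
            funext l
            unfold z0 zt
            rw [hbb]
          have h7 : be D J w i j r P ω' = be D J w i j r (fun _ => P (bb D i j r ω)) ω' := by
            funext l
            unfold be z0 zt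
            rw [hbb]
          rw [h6, h7]
          exact ⟨h5.1.trans y1, h5.2.trans y1⟩
        left3 := fun ω ω' _ hq' hω hω' hbb hc w hw1 hw2 hT l hl1 hl hab => by
          have h5 := (((hlin ω hω).2 w hw1 hw2).2.2.2 ω' hq' (hEd ω' hω').2 hbb hT).2.1 hc l hl1 hl hab
          have h6 : z0 D J w i j r P ω' = z0 D J w i j r (fun _ => P (bb D i j r ω)) ω' := by
            funext l
            unfold z0 zt
            rw [hbb]
          have h7 : be D J w i j r P ω' = be D J w i j r (fun _ => P (bb D i j r ω)) ω' := by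
            funext l
            unfold be z0 zt
            rw [hbb]
          rw [h6, h7]
          exact ⟨h5.1.trans y1, h5.2.trans y1⟩
        right := fun ω ω' _ _ hω hω' hbb hT hs u hu => by
          have h5 := (hpair ω ω' hω hω' hbb hT).1 hs u hu
          exact ⟨h5.1.trans y2, fun k hk => (h5.2 k hk).trans y2⟩
        right2 := fun ω ω' _ _ hω hω' hbb hT hs u hu k hk =>
          ((hpair ω ω' hω hω' hbb hT).2 hs u hu k hk).trans y2
        right3 := fun ω ω' _ _ hω hω' hbb hT hs δ hδ hd u hu => by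
          refine (habl ω ω' hω hω' hbb hT hs δ hδ hd u hu).trans ?_
          refine mul_le_mul x5 ?_ (by positivity) (exp_pos _).le
          exact add_le_add le_rfl (div_le_div_of_nonneg_right x5 (by positivity))
        sheet := fun ω _ hω Bx hBx b hb0 hb hbu u hu => by
          refine (hsh ω hω Bx hBx b hb0 hb hbu u hu).trans ?_
          have e1 : exp (C'' * Bx * z) ≤ exp (Cg * Bx * z) := exp_le_exp.2
            (mul_le_mul_of_nonneg_right (mul_le_mul_of_nonneg_right hg3 (by linarith)) hz0)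
          have e2 : (1 : ℝ) ≤ exp (Cg * z) := one_le_exp (by positivity)
          rw [← mul_div_assoc]
          refine div_le_div_of_nonneg_right (e1.trans ?_) (by positivity)
          exact le_mul_of_one_le_right (exp_pos _).le e2
        toV := fun ω ω' q1 q2 hω hω' hbb hT l hl1 hl δ hδ h =>
          (hdep.toV i le_rfl hi' ω ω' q1 q2 hω hω' hbb (congrArg Prod.fst hbb) hT l hl1 hl δ hδ
            h).trans (mul_le_mul_of_nonneg_right x4 hδ)
        ofV := fun ω ω' q1 q2 hω hω' hbb hT l hl1 hl δ hδ h =>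
          (hdep.ofV i le_rfl hi' ω ω' q1 q2 hω hω' hbb (congrArg Prod.fst hbb) hT l hl1 hl δ hδ
            h).trans (mul_le_mul_of_nonneg_right x4 hδ) }

end Pool.P4I
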