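import Pool.Agent.H35.P4I.Stm
import Pool.Agent.H89.P4.H2

/-!
# P4I: the height, the slopes and the data of the line, two samples
-/

set_option autoImplicit false

namespace Pool.P4I

open Finset Real MvPolynomial
open Pool.Agent.H49.Ent Pool.Agent.H32.Dense Pool.STK Pool.STAT Pool.MIC.Frm Pool.MIC7 Pool.FRM
open Pool.GSD Pool.POT
open Pool.BFL (Pb)
open Pool.P4

section geo

variable {D : NDat2} {n K K' J a₀ w₀ z M w i j r r' r'' y X : ℕ} {lam gam : ℕ → ℝ}
  {κ C₁ C : ℝ} {q : D.Ω → ℝ} {E : D.Ω → Prop} {P : D.Γ × D.Γ → ℕ → PN}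
  {S : D.Ω → ℕ → ℕ → ℝ} {c k : ℕ} {ys : Fin k → ℕ} {gs : Fin c → ℕ}

section

variable (H : Hyp D n K K' J a₀ w₀ z M w i j r r' r'' y X lam gam κ C₁ C q E P S ys gs)

include H

theorem Hyp.gs_gr (u : Fin c) : gr gam n (gs u) := (H.gs_gp u).1

theorem Hyp.e1 : 1 ≤ exp (C * z) := by
  have h1 : (1 : ℝ) ≤ z := by exact_mod_cast H.z1
  have h2 := H.Cg
  exact Real.one_le_exp (by nlinarith)

theorem Hyp.tau : 2 ^ X * (exp (C * z) / 2 ^ (y * z)) ≤ 1 := by
  have h0 : (0 : ℝ) < 2 ^ (y * z) := by positivity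
  rw [← mul_div_assoc, div_le_one h0, mul_comm]
  exact H.yX

theorem Hyp.wX : w + X ≤ J := by
  obtain ⟨x, hx, hx'⟩ := H.Xz
  have h1 := H.ok.thin
  have h2 := H.ok.top
  have h3 := H.w2
  have h4 := H.j2
  have h5 : (j + 1) * z ≤ (M + 1) * z := Nat.mul_le_mul_right _ (by omega)
  have h6 : x * z ≤ (M + 1) * z := Nat.mul_le_mul_right _ (by omega)
  rw [hx]
  omega

theorem Hyp.exp_le_Rg : exp (C * z) ≤ Rg z C := by
  have h1 := H.e1
  rw [Rg_eq]
  nlinarith

theorem Hyp.ys_n (a : Fin k) : 1 ≤ ys a ∧ ys a ≤ n :=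
  ⟨(H.ys_sl a).1, (H.ys_sl a).2.1.le⟩

theorem Hyp.gs_n (u : Fin c) : 1 ≤ gs u ∧ gs u ≤ n :=
  ⟨(H.gs_gr u).1, (H.gs_gr u).2.1⟩

/-- **The height of the picture is the height over the own sheet.** -/
theorem Hyp.hgt_nn {ω : D.Ω} (hω : 0 < q ω) (hE : E ω) (u : Fin c) :
    |((qh (c := c) (k := k) D J w z i j r X C P S ys gs q).hgt ω u : ℝ) -
      2 ^ X / Rg z C * nn D n i j r gam P S ω (gs u)| ≤ 6 + 5 * k := by
  obtain ⟨τ, hτ⟩ : ∃ τ, τ = exp (C * z) / 2 ^ (y * z) := ⟨_, rfl⟩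
  have hg := H.geo
  have e1 := H.e1
  have hR := Rg_pos z C
  have hRy := Ry_pos z C
  have hRe := H.exp_le_Rg
  have k0 : (0 : ℝ) ≤ k := Nat.cast_nonneg k
  have hτ0 : 0 ≤ τ := by
    rw [hτ]
    positivity
  obtain ⟨hr1, hr2⟩ := rt_near (D := D) (J := J) (w := w) (X := X) (ω := ω) (H.ok.X_zero ω) H.wX
  have bt := fun l h1 h2 => hg.bt ω hω hE l h1 h2 w H.w1 H.w2
  have main := hgt_arith (k := k) (X := X) (Rg := Rg z C) (Ry := Ry z C)
    (zu := z0 D J w i j r P ω (gs u)) (bu := be D J w i j r P ω (gs u)) (ρ := rt D J w ω)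
    (S := fun a => S ω (gs u) (ys a)) (z0 := fun a => z0 D J w i j r P ω (ys a))
    (tq := ((tq J w X (D.T ω) : ℕ) : ℤ)) hR hRy
    ((bt _ (H.gs_n u).1 (H.gs_n u).2).1.trans hRe) ((bt _ (H.gs_n u).1 (H.gs_n u).2).2.trans hRe)
    (by
      intro a
      have h1 := hg.bS ω hω hE (gs u) (ys a)
      rw [Rg_eq, abs_mul, abs_of_pos (by positivity : (0 : ℝ) < 2 * Ry z C)]
      unfold Ry
      have := Real.exp_pos (C * z)
      nlinarith)
    (fun a => (bt _ (H.ys_n a).1 (H.ys_n a).2).1) hr1 (by push_cast; exact hr2)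
  have eh : ((qh (c := c) (k := k) D J w z i j r X C P S ys gs q).hgt ω u : ℤ) =
      dg X (z0 D J w i j r P ω (gs u) / Rg z C) +
      ⌊(((tq J w X (D.T ω) : ℕ) : ℤ) : ℝ) * ((dg X (be D J w i j r P ω (gs u) / Rg z C) : ℝ) /
        2 ^ X) - ∑ a, (dg X (S ω (gs u) (ys a) * (2 * Ry z C) / Rg z C) : ℝ) / 2 ^ X *
        dgp X ((z0 D J w i j r P ω (ys a) + Ry z C) / (2 * Ry z C)) +
        ∑ a, (dg X (S ω (gs u) (ys a) * (2 * Ry z C) / Rg z C) : ℝ) / 2⌋ := by
    rw [Int.cast_natCast]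
    rfl
  rw [eh]
  have enn : nn D n i j r gam P S ω (gs u) = ze D i j r P ω (gs u) -
      ∑ a, S ω (gs u) (ys a) * ze D i j r P ω (ys a) := by
    unfold nn
    rw [sum_sl H.ys_sl H.ys_in H.ys_on (fun l => S ω (gs u) l * ze D i j r P ω l)]
  have hgr := hg.grp ω hω hE (gs u) (H.gs_gp u) w H.w1 H.w2
  have hsl : ∀ a, |S ω (gs u) (ys a) * ze D i j r P ω (ys a) -
      S ω (gs u) (ys a) * z0 D J w i j r P ω (ys a)| ≤ exp (C * z) * τ := by
    intro a
    rw [← mul_sub, abs_mul]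
    refine mul_le_mul (hg.bS ω hω hE _ _) ?_ (abs_nonneg _) (Real.exp_pos _).le
    rw [hτ]
    exact hg.slow ω hω hE (ys a) (H.ys_sl a) w H.w1 H.w2
  have hsum : |∑ a, S ω (gs u) (ys a) * ze D i j r P ω (ys a) -
      ∑ a, S ω (gs u) (ys a) * z0 D J w i j r P ω (ys a)| ≤ k * (exp (C * z) * τ) := by
    rw [← Finset.sum_sub_distrib]
    calc _ ≤ ∑ a : Fin k, exp (C * z) * τ := (Finset.abs_sum_le_sum_abs _ _).trans
          (Finset.sum_le_sum fun a _ => hsl a)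
      _ = _ := by rw [Finset.sum_const, Finset.card_univ, Fintype.card_fin, nsmul_eq_mul]
  rw [← hτ] at hgr
  have hd : |nn D n i j r gam P S ω (gs u) - (z0 D J w i j r P ω (gs u) +
      rt D J w ω * be D J w i j r P ω (gs u) -
      ∑ a, S ω (gs u) (ys a) * z0 D J w i j r P ω (ys a))| ≤
      (1 + k) * (exp (C * z) * τ) := by
    rw [enn]
    have h1 : τ ≤ exp (C * z) * τ := by nlinarith
    rw [abs_le] at hgr hsum ⊢
    constructor <;> nlinarith [hgr.1, hgr.2, hsum.1, hsum.2]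
  have hs : 2 ^ X / Rg z C * ((1 + k) * (exp (C * z) * τ)) ≤ 1 + k := by
    have h1 := H.tau
    rw [← hτ] at h1
    have h2 : exp (C * z) / Rg z C ≤ 1 := by
      rw [div_le_one hR]
      exact hRe
    have h3 : 2 ^ X / Rg z C * ((1 + k) * (exp (C * z) * τ)) =
        (1 + k) * ((2 ^ X * τ) * (exp (C * z) / Rg z C)) := by
      field_simp
    rw [h3]
    have h4 : (2 ^ X * τ) * (exp (C * z) / Rg z C) ≤ 1 :=
      mul_le_one₀ h1 (by positivity) h2
    nlinarith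
  have hp : 0 < 2 ^ X / Rg z C := by positivity
  have hd' : |2 ^ X / Rg z C * nn D n i j r gam P S ω (gs u) -
      2 ^ X / Rg z C * (z0 D J w i j r P ω (gs u) + rt D J w ω * be D J w i j r P ω (gs u) -
      ∑ a, S ω (gs u) (ys a) * z0 D J w i j r P ω (ys a))| ≤ 1 + k := by
    rw [← mul_sub, abs_mul, abs_of_pos hp]
    exact (mul_le_mul_of_nonneg_left hd hp.le).trans hs
  rw [abs_le] at main hd' ⊢
  constructor <;> linarith [main.1, main.2, hd'.1, hd'.2]

/-- The height, two samples with the same visible label at `R`. -/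
theorem Hyp.hgt_two {ω ω' : D.Ω} (hω : 0 < q ω) (hω' : 0 < q ω') (hE : E ω) (hE' : E ω')
    (hb : bb D i j r ω = bb D i j r ω') (hT : D.T ω = D.T ω')
    (hs : D.s (i - r') (j + r) ω = D.s (i - r') (j + r) ω') (u : Fin c) :
    |(qh (c := c) (k := k) D J w z i j r X C P S ys gs q).hgt ω u -
      (qh (c := c) (k := k) D J w z i j r X C P S ys gs q).hgt ω' u| ≤
        ((13 + 10 * k : ℕ) : ℤ) := by
  have h1 := H.hgt_nn hω hE u
  have h2 := H.hgt_nn hω' hE' u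
  have h3 := (H.geo.right ω ω' hω hω' hE hE' hb hT hs (gs u) (H.gs_gr u)).1
  have h4 := H.tau
  have hR := Rg_pos z C
  have hR1 : 1 ≤ Rg z C := H.e1.trans H.exp_le_Rg
  have h5 : |2 ^ X / Rg z C * nn D n i j r gam P S ω (gs u) -
      2 ^ X / Rg z C * nn D n i j r gam P S ω' (gs u)| ≤ 1 := by
    rw [← mul_sub, abs_mul, abs_of_pos (by positivity)]
    calc 2 ^ X / Rg z C * |nn D n i j r gam P S ω (gs u) - nn D n i j r gam P S ω' (gs u)| ≤
          2 ^ X / Rg z C * (exp (C * z) / 2 ^ (y * z)) :=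
          mul_le_mul_of_nonneg_left h3 (by positivity)
      _ = (2 ^ X * (exp (C * z) / 2 ^ (y * z))) / Rg z C := by ring
      _ ≤ 1 / 1 := div_le_div₀ (by norm_num) h4 (by norm_num) hR1
      _ = 1 := by norm_num
  have key : ((|(qh (c := c) (k := k) D J w z i j r X C P S ys gs q).hgt ω u -
      (qh (c := c) (k := k) D J w z i j r X C P S ys gs q).hgt ω' u| : ℤ) : ℝ) ≤
      (((13 + 10 * k : ℕ) : ℤ) : ℝ) := by
    push_cast
    rw [abs_le] at h1 h2 h5 ⊢
    constructor <;> linarith [h1.1, h1.2, h2.1, h2.2, h5.1, h5.2]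
  exact_mod_cast key

/-- The own slopes, two samples with the same visible label at `R`. -/
theorem Hyp.S_two {ω ω' : D.Ω} (hω : 0 < q ω) (hω' : 0 < q ω') (hE : E ω) (hE' : E ω')
    (hb : bb D i j r ω = bb D i j r ω') (hT : D.T ω = D.T ω')
    (hs : D.s (i - r') (j + r) ω = D.s (i - r') (j + r) ω') (u : Fin c) (a : Fin k) :
    |Sv (c := c) (k := k) D z X C S ys gs ω u a - Sv D z X C S ys gs ω' u a| ≤
      ((2 : ℕ) : ℤ) := by
  have h3 := (H.geo.right ω ω' hω hω' hE hE' hb hT hs (gs u) (H.gs_gr u)).2 (ys a) (H.ys_sl a)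
  have h4 := H.tau
  have hR := Rg_pos z C
  have hRy := Ry_pos z C
  refine dg_lip ?_
  have e1 : S ω (gs u) (ys a) * (2 * Ry z C) / Rg z C - S ω' (gs u) (ys a) * (2 * Ry z C) / Rg z C =
      (S ω (gs u) (ys a) - S ω' (gs u) (ys a)) * (2 * Ry z C / Rg z C) := by ring
  have e2 : 2 * Ry z C / Rg z C ≤ 1 := by
    rw [div_le_one hR, Rg_eq]
    unfold Ry
    have := H.e1
    nlinarith [Real.exp_pos (C * z)]
  rw [e1, abs_mul, abs_of_pos (by positivity : 0 < 2 * Ry z C / Rg z C)]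
  calc 2 ^ X * (|S ω (gs u) (ys a) - S ω' (gs u) (ys a)| * (2 * Ry z C / Rg z C)) ≤
        2 ^ X * ((exp (C * z) / 2 ^ (y * z)) * 1) := by
        refine mul_le_mul_of_nonneg_left ?_ (by positivity)
        exact mul_le_mul h3 e2 (by positivity) (by positivity)
    _ ≤ 1 := by rwa [mul_one]

/-- The data of the line, two samples with the same closed context at `L`. -/
theorem Hyp.v_two {ω ω' : D.Ω} (hω : 0 < q ω) (hω' : 0 < q ω') (hE : E ω) (hE' : E ω')
    (hb : bb D i j r ω = bb D i j r ω') (hc : D.c (i + r') (j - r) ω = D.c (i + r') (j - r) ω')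
    (hT : D.T ω / 2 ^ (J - w) = D.T ω' / 2 ^ (J - w)) :
    (∀ a, |yv (k := k) D J w z i j r X C P ys ω a - yv D J w z i j r X C P ys ω' a| ≤
      ((2 : ℕ) : ℤ)) ∧
    ∀ u, |bev (c := c) D J w z i j r X C P gs ω u - bev D J w z i j r X C P gs ω' u| ≤
      ((2 : ℕ) : ℤ) := by
  have h3 := H.geo.left ω ω' hω hω' hE hE' hb hc w H.w1 H.w2 hT
  have h4 := H.tau
  have hR := Rg_pos z C
  have hRy := Ry_pos z C
  have hR1 : 1 ≤ Rg z C := H.e1.trans H.exp_le_Rg
  have hRy1 : 1 ≤ 2 * Ry z C := by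
    have : 1 ≤ Ry z C := H.e1
    linarith
  have hτ0 : 0 ≤ exp (C * z) / 2 ^ (y * z) := by positivity
  constructor
  · intro a
    have h5 := h3.1 (ys a) (H.ys_sl a)
    refine dgp_lip ?_
    rw [← sub_div, abs_div, abs_of_pos (by positivity : (0 : ℝ) < 2 * Ry z C),
      add_sub_add_right_eq_sub]
    calc 2 ^ X * (|z0 D J w i j r P ω (ys a) - z0 D J w i j r P ω' (ys a)| / (2 * Ry z C)) ≤
          2 ^ X * ((exp (C * z) / 2 ^ (y * z)) / 1) := by
          refine mul_le_mul_of_nonneg_left ?_ (by positivity)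
          exact div_le_div₀ hτ0 h5 (by norm_num) hRy1
      _ ≤ 1 := by rwa [div_one]
  · intro u
    have h5 := h3.2 (gs u) (H.gs_gp u)
    refine dg_lip ?_
    rw [← sub_div, abs_div, abs_of_pos hR]
    calc 2 ^ X * (|be D J w i j r P ω (gs u) - be D J w i j r P ω' (gs u)| / Rg z C) ≤
          2 ^ X * ((exp (C * z) / 2 ^ (y * z)) / 1) := by
          refine mul_le_mul_of_nonneg_left ?_ (by positivity)
          exact div_le_div₀ hτ0 h5 (by norm_num) hR1
      _ ≤ 1 := by rwa [div_one]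

end

end geo

end Pool.P4I
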