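import Pool.Agent.H35.P4I.H2

/-!
# P4: (H2), the proof
-/

set_option autoImplicit false

namespace Pool.P4I

open Pool.P4

open Finset Real MvPolynomial
open Pool.Agent.H49.Ent Pool.Agent.H32.Dense Pool.STK Pool.STAT Pool.MIC.Frm Pool.MIC7 Pool.FRM
open Pool.GSD Pool.POT
open Pool.BFL (Pb)

/-- Contexts. -/
theorem ctx_th {D : NDat2} {c k : ℕ} (J w z i j r X : ℕ) (C : ℝ) (S : D.Ω → ℕ → ℕ → ℝ)
    (ys : Fin k → ℕ) (gs : Fin c → ℕ) (ω ω' : D.Ω) :
    ((tv D J w z i j r X C S ys gs ω, cb D J w i j r ω) =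
      (tv D J w z i j r X C S ys gs ω', cb D J w i j r ω')) ↔
    ((Sv D z X C S ys gs ω, (D.c (i - 1) (j - r) ω, (D.c i j ω, D.T ω))) =
      (Sv D z X C S ys gs ω', (D.c (i - 1) (j - r) ω', (D.c i j ω', D.T ω')))) := by
  unfold tv cb P4.bb
  constructor
  · intro h
    have h1 := (Prod.ext_iff.mp h).1
    have h2 := (Prod.ext_iff.mp h1).1
    have h3 := (Prod.ext_iff.mp h1).2
    have h4 := (Prod.ext_iff.mp h3).1
    have h5 := (Prod.ext_iff.mp h3).2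
    have h6 := (Prod.ext_iff.mp h2).1
    have h7 := (Prod.ext_iff.mp h6).1
    have h8 := (Prod.ext_iff.mp h6).2
    exact Prod.ext h5 (Prod.ext h8 (Prod.ext h7 h4))
  · intro h
    have h1 := (Prod.ext_iff.mp h).1
    have h2 := (Prod.ext_iff.mp h).2
    have h3 := (Prod.ext_iff.mp h2).1
    have h4 := (Prod.ext_iff.mp h2).2
    have h5 := (Prod.ext_iff.mp h4).1
    have h6 := (Prod.ext_iff.mp h4).2
    have h7 : D.T ω / 2 ^ (J - w) = D.T ω' / 2 ^ (J - w) := congrArg (· / 2 ^ (J - w)) h6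
    have h8 : ((D.c i j ω, D.c (i - 1) (j - r) ω), D.T ω / 2 ^ (J - w)) =
        ((D.c i j ω', D.c (i - 1) (j - r) ω'), D.T ω' / 2 ^ (J - w)) :=
      Prod.ext (Prod.ext h5 h3) h7
    exact Prod.ext (Prod.ext h8 (Prod.ext h6 h1)) h8

/-- Contexts. -/
theorem ctx_v {D : NDat2} {c k : ℕ} (J w z i j r X : ℕ) (C : ℝ) (P : D.Γ × D.Γ → ℕ → PN)
    (S : D.Ω → ℕ → ℕ → ℝ) (ys : Fin k → ℕ) (gs : Fin c → ℕ) (ω ω' : D.Ω) :
    ((vv D J w z i j r X C P ys gs ω, (tv D J w z i j r X C S ys gs ω, cb D J w i j r ω)) =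
      (vv D J w z i j r X C P ys gs ω', (tv D J w z i j r X C S ys gs ω', cb D J w i j r ω'))) ↔
    (((yv D J w z i j r X C P ys ω, bev D J w z i j r X C P gs ω),
        (Sv D z X C S ys gs ω, (D.c (i - 1) (j - r) ω, (D.c i j ω, D.T ω)))) =
      ((yv D J w z i j r X C P ys ω', bev D J w z i j r X C P gs ω'),
        (Sv D z X C S ys gs ω', (D.c (i - 1) (j - r) ω', (D.c i j ω', D.T ω'))))) := by
  constructor
  · intro h
    have h1 := (Prod.ext_iff.mp h).1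
    have h2 := (Prod.ext_iff.mp h).2
    exact Prod.ext (Prod.ext_iff.mp h1).2 ((ctx_th J w z i j r X C S ys gs ω ω').mp h2)
  · intro h
    have h1 := (Prod.ext_iff.mp h).1
    have h2 := (ctx_th J w z i j r X C S ys gs ω ω').mpr (Prod.ext_iff.mp h).2
    have h3 : cb D J w i j r ω = cb D J w i j r ω' := (Prod.ext_iff.mp h2).2
    exact Prod.ext (Prod.ext h3 h1) h2

/-- **(H2).** -/
theorem h2 : H2Stmt := by
  intro n K K' c k C₁ C
  obtain ⟨a1, ha1⟩ : ∃ a1, a1 = aC c (13 + 10 * k) (3 + 2 * k) := ⟨_, rfl⟩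
  obtain ⟨a2, ha2⟩ : ∃ a2, a2 = aC k 2 1 := ⟨_, rfl⟩
  obtain ⟨a3, ha3⟩ : ∃ a3, a3 = aC c 2 1 := ⟨_, rfl⟩
  have a10 : 0 ≤ a1 := by
    rw [ha1]
    exact aC_nonneg _ _ _
  have a20 : 0 ≤ a2 := by
    rw [ha2]
    exact aC_nonneg _ _ _
  have a30 : 0 ≤ a3 := by
    rw [ha3]
    exact aC_nonneg _ _ _
  have c0 : (0 : ℝ) ≤ c := Nat.cast_nonneg c
  refine ⟨1 + a1 + c * a2 + a2 + a3, by positivity, ?_⟩
  intro D J a₀ w₀ z M w i j r r' r'' y X lam gam κ q E P S ys gs H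
  have hq := H.ok.isLaw
  have h0 := hq.nonneg
  obtain ⟨b, hb⟩ : ∃ b, b = Pb q (fun ω => ¬ E ω) := ⟨_, rfl⟩
  have b0 : 0 ≤ b := by
    rw [hb]
    exact Pool.MIC.Pb_nonneg h0 _
  rw [← hb]
  change CH q (qh (c := c) (k := k) D J w z i j r X C P S ys gs q).hgt
      (fun ω => (tv D J w z i j r X C S ys gs ω, cb D J w i j r ω)) ≤
    CH q (qh (c := c) (k := k) D J w z i j r X C P S ys gs q).hgt
      (fun ω => (vv D J w z i j r X C P ys gs ω,
        (tv D J w z i j r X C S ys gs ω, cb D J w i j r ω))) + err (1 + a1 + c * a2 + a2 + a3)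
          κ z X b
  obtain ⟨hg, hhg⟩ : ∃ hg : D.Ω → Fin c → ℤ, hg =
    (qh (c := c) (k := k) D J w z i j r X C P S ys gs q).hgt := ⟨_, rfl⟩
  rw [← hhg]
  obtain ⟨W, hW⟩ : ∃ W : D.Ω → D.Γ × ℕ, W = fun ω => (D.c i j ω, D.T ω) := ⟨_, rfl⟩
  obtain ⟨β, hβ⟩ : ∃ β : D.Ω → D.Γ, β = D.c (i - 1) (j - r) := ⟨_, rfl⟩
  obtain ⟨L, hL⟩ : ∃ L, L = D.lft i j r' r 1 := ⟨_, rfl⟩
  obtain ⟨R, hR⟩ : ∃ R, R = D.rgt i j r' r 1 := ⟨_, rfl⟩
  obtain ⟨sv, hsv⟩ : ∃ sv, sv = Sv (c := c) (k := k) D z X C S ys gs := ⟨_, rfl⟩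
  obtain ⟨yy, hyy⟩ : ∃ yy, yy = yv (k := k) D J w z i j r X C P ys := ⟨_, rfl⟩
  obtain ⟨bb', hbb⟩ : ∃ bb', bb' = bev (c := c) D J w z i j r X C P gs := ⟨_, rfl⟩
  have i1 := H.i1
  have i2 := H.i2
  have j1 := H.j1
  have j2 := H.j2
  have r1 := H.r1
  -- the two sides
  have dL : Det q L β := by
    intro ω ω' hω hω' e
    rw [hL] at e
    have e1 := congrFun e (1 : Fin 2)
    simp only [NDat2.lft, Fin.val_one, one_mul] at e1
    rw [hβ]
    exact c_up1 H.ok (by omega) i r' (by omega) ω ω' hω hω' e1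
  have hMI : MI q L R W ≤ κ * z := by
    have := H.dma.lr (i := i) (j := j) (a := r') (b := r) (s := 1) (s' := 1) (by omega)
      (by omega) (by omega) (by omega)
    unfold MI
    rw [hL, hR, hW]
    linarith
  -- equalities of contexts
  have eqR : ∀ ω ω', 0 < q ω → 0 < q ω' → (R ω, (β ω, W ω)) = (R ω', (β ω', W ω')) →
      bb D i j r ω = bb D i j r ω' ∧ D.T ω = D.T ω' ∧
        D.s (i - r') (j + r) ω = D.s (i - r') (j + r) ω' := by
    intro ω ω' hω hω' e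
    rw [hR, hβ, hW] at e
    simp only [Prod.mk.injEq] at e
    obtain ⟨e1, e2, e3, e4⟩ := e
    have e5 := congrFun e1 (1 : Fin 2)
    simp only [NDat2.rgt, Fin.val_one, one_mul] at e5
    refine ⟨Prod.ext e3 e2, e4, ?_⟩
    exact H.ok.s_c (i - r') (by omega) (j + r) (by omega) ω ω' hω hω' (Prod.ext e5 e4)
  have eqL : ∀ ω ω', 0 < q ω → 0 < q ω' → (L ω, (β ω, W ω)) = (L ω', (β ω', W ω')) →
      bb D i j r ω = bb D i j r ω' ∧ D.T ω = D.T ω' ∧
        D.c (i + r') (j - r) ω = D.c (i + r') (j - r) ω' := by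
    intro ω ω' hω hω' e
    rw [hL, hβ, hW] at e
    simp only [Prod.mk.injEq] at e
    obtain ⟨e1, e2, e3, e4⟩ := e
    have e5 := congrFun e1 (1 : Fin 2)
    simp only [NDat2.lft, Fin.val_one, one_mul] at e5
    exact ⟨Prod.ext e3 e2, e4, e5⟩
  -- few values
  have k1 : CH q hg (fun ω => (R ω, (β ω, W ω))) ≤ a1 * (z + X * b) := by
    rw [ha1, hb]
    refine few_z hq hg _ E (13 + 10 * k) (3 + 2 * k) H.z1 ?_ ?_
    · intro ω ω' hω hω' hE hE' e u
      obtain ⟨e1, e2, e3⟩ := eqR ω ω' hω hω' e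
      rw [hhg]
      exact H.hgt_two hω hω' hE hE' e1 e2 e3 u
    · intro ω hω u
      have ht : |((tq J w X (D.T ω) : ℕ) : ℤ)| ≤ 2 ^ X := by
        rw [abs_of_nonneg (by positivity)]
        have h1 : tq J w X (D.T ω) < 2 ^ X := by
          unfold tq
          have h2 := H.wX
          rw [Nat.div_lt_iff_lt_mul (by positivity), ← pow_add,
            show X + (J - w - X) = J - w by omega]
          exact Nat.mod_lt _ (by positivity)
        exact_mod_cast h1.le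
      have := hgt_range (k := k) (X := X) (a := dg X (z0 D J w i j r P ω (gs u) / Rg z C))
        (b := dg X (be D J w i j r P ω (gs u) / Rg z C))
        (s := fun a => dg X (S ω (gs u) (ys a) * (2 * Ry z C) / Rg z C))
        (y := fun a => dgp X ((z0 D J w i j r P ω (ys a) + Ry z C) / (2 * Ry z C)))
        (tq := ((tq J w X (D.T ω) : ℕ) : ℤ)) (dg_abs _) (dg_abs _) (fun _ => dg_abs _)
        (fun _ => dgp_abs _) ht
      rw [Int.cast_natCast] at this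
      push_cast
      rw [hhg]
      exact this
  have k2 : CH q sv (fun ω => (R ω, (β ω, W ω))) ≤ c * (a2 * (z + X * b)) := by
    refine Pool.RC21.CH_fin_le h0 (fun ω => (R ω, (β ω, W ω))) c (fun u ω => sv ω u) fun u => ?_
    rw [ha2, hb]
    refine few_z hq (fun ω => sv ω u) _ E 2 1 H.z1 ?_ ?_
    · intro ω ω' hω hω' hE hE' e a
      obtain ⟨e1, e2, e3⟩ := eqR ω ω' hω hω' e
      rw [hsv]
      exact H.S_two hω hω' hE hE' e1 e2 e3 u a
    · intro ω hω a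
      rw [hsv, Nat.cast_one, one_mul]
      exact dg_abs _
  have k3 : CH q yy (fun ω => (L ω, (β ω, W ω))) ≤ a2 * (z + X * b) := by
    rw [ha2, hb]
    refine few_z hq yy _ E 2 1 H.z1 ?_ ?_
    · intro ω ω' hω hω' hE hE' e a
      obtain ⟨e1, e2, e3⟩ := eqL ω ω' hω hω' e
      rw [hyy]
      exact (H.v_two hω hω' hE hE' e1 e3 (by rw [e2])).1 a
    · intro ω hω a
      rw [hyy, Nat.cast_one, one_mul]
      exact dgp_abs _
  have k4 : CH q bb' (fun ω => (L ω, (β ω, W ω))) ≤ a3 * (z + X * b) := by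
    rw [ha3, hb]
    refine few_z hq bb' _ E 2 1 H.z1 ?_ ?_
    · intro ω ω' hω hω' hE hE' e a
      obtain ⟨e1, e2, e3⟩ := eqL ω ω' hω hω' e
      rw [hbb]
      exact (H.v_two hω hω' hE hE' e1 e3 (by rw [e2])).2 a
    · intro ω hω a
      rw [hbb, Nat.cast_one, one_mul]
      exact dg_abs _
  have k5 := CH_subadd h0 sv hg (fun ω => (R ω, (β ω, W ω)))
  have k6 := CH_subadd h0 yy bb' (fun ω => (L ω, (β ω, W ω)))
  have k7 := sides h0 (fun ω => (sv ω, hg ω)) (fun ω => (yy ω, bb' ω)) L R W β dL hMI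
    (k5.trans (add_le_add k2 k1)) (k6.trans (add_le_add k3 k4))
  have k8 := MI_inner h0 hg sv (fun ω => (yy ω, bb' ω)) (fun ω => (β ω, W ω))
  -- the literal form
  have l1 : CH q hg (fun ω => (tv D J w z i j r X C S ys gs ω, cb D J w i j r ω)) =
      CH q hg (fun ω => (sv ω, (β ω, W ω))) := by
    refine CH_congr h0 (fun _ _ _ _ h => (Prod.ext_iff.mp h).1)
      (fun _ _ _ _ h => (Prod.ext_iff.mp h).1) ?_ ?_
    · intro ω ω' _ _ h
      rw [hsv, hβ, hW]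
      exact (ctx_th J w z i j r X C S ys gs ω ω').mp h
    · intro ω ω' _ _ h
      rw [hsv, hβ, hW] at h
      exact (ctx_th J w z i j r X C S ys gs ω ω').mpr h
  have l2 : CH q hg (fun ω => (vv D J w z i j r X C P ys gs ω,
      (tv D J w z i j r X C S ys gs ω, cb D J w i j r ω))) =
      CH q hg (fun ω => ((yy ω, bb' ω), (sv ω, (β ω, W ω)))) := by
    refine CH_congr h0 (fun _ _ _ _ h => (Prod.ext_iff.mp h).1)
      (fun _ _ _ _ h => (Prod.ext_iff.mp h).1) ?_ ?_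
    · intro ω ω' _ _ h
      rw [hsv, hβ, hW, hyy, hbb]
      exact (ctx_v J w z i j r X C P S ys gs ω ω').mp h
    · intro ω ω' _ _ h
      rw [hsv, hβ, hW, hyy, hbb] at h
      exact (ctx_v J w z i j r X C P S ys gs ω ω').mpr h
  rw [l1, l2]
  unfold MI at k7 k8
  have z1 : (1 : ℝ) ≤ z := by exact_mod_cast H.z1
  have x0 : (0 : ℝ) ≤ X := Nat.cast_nonneg X
  have xb : 0 ≤ (X : ℝ) * b := mul_nonneg x0 b0
  have κ0 := H.κ0
  have m1 : κ * z + (c * (a2 * (z + X * b)) + a1 * (z + X * b)) +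
      (a2 * (z + X * b) + a3 * (z + X * b)) ≤
      err (1 + a1 + c * a2 + a2 + a3) κ z X b := by
    unfold err
    have ca : 0 ≤ (c : ℝ) * a2 := mul_nonneg c0 a20
    have n1 : 0 ≤ a1 + c * a2 + a2 + a3 := by positivity
    have n2 : 0 ≤ κ * z := mul_nonneg κ0 (by linarith)
    have n3 : 0 ≤ (a1 + c * a2 + a2 + a3) * (κ * z) := mul_nonneg n1 n2
    nlinarith
  linarith

end Pool.P4I
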