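import Pool.Agent.H35.P4I.Hs2
import Pool.Agent.H89.P4.Hs

/-!
# P4I: (HS), the proof. The coordinates above are at most full.
-/

set_option autoImplicit false

namespace Pool.P4I

open Finset Real MvPolynomial
open Pool.Agent.H49.Ent Pool.Agent.H32.Dense Pool.STK Pool.STAT Pool.MIC.Frm Pool.MIC7 Pool.FRM
open Pool.GSD Pool.POT
open Pool.BFL (Pb)
open Pool.P4

open Classical in
/-- The coordinates above. -/
noncomputable def abF (gam : ℕ → ℝ) (n : ℕ) : Finset ℕ := (Finset.range n).filter (ab gam n)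

theorem mem_abF {gam : ℕ → ℝ} {n l : ℕ} : l ∈ abF gam n ↔ ab gam n l := by
  classical
  unfold abF
  rw [Finset.mem_filter, Finset.mem_range]
  exact ⟨fun h => h.2, fun h => ⟨h.2.1, h⟩⟩

/-- The number of the coordinates. -/
theorem count_kca {k c n : ℕ} {gam : ℕ → ℝ} {ys : Fin k → ℕ} {gs : Fin c → ℕ}
    (hn : gam n < 1 + thd gam n)
    (h1 : ∀ a, sl gam n (ys a)) (h2 : Function.Injective ys) (h3 : ∀ l, sl gam n l → ∃ a, ys a = l)
    (g1 : ∀ u, gp gam n (gs u)) (g2 : Function.Injective gs)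
    (g3 : ∀ l, gp gam n l → ∃ u, gs u = l) : k + c + (abF gam n).card = n := by
  have e : (Finset.univ.image ys) ∪ (Finset.univ.image gs) ∪ abF gam n = Finset.Icc 1 n := by
    ext l
    rw [Finset.mem_union, Finset.mem_union, Finset.mem_image, Finset.mem_image, Finset.mem_Icc,
      mem_abF]
    constructor
    · rintro ((⟨a, _, ha⟩ | ⟨u, _, hu⟩) | h)
      · rw [← ha]
        exact ⟨(h1 a).1, (h1 a).2.1.le⟩
      · rw [← hu]
        exact ⟨(g1 u).1.1, (g1 u).1.2.1⟩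
      · exact ⟨h.1, h.2.1.le⟩
    · rintro ⟨a1, a2⟩
      rcases kinds hn a1 a2 with hs | hs | hs
      · obtain ⟨a, ha⟩ := h3 l hs
        exact Or.inl (Or.inl ⟨a, Finset.mem_univ _, ha⟩)
      · obtain ⟨u, hu⟩ := g3 l hs
        exact Or.inl (Or.inr ⟨u, Finset.mem_univ _, hu⟩)
      · exact Or.inr hs
  have d : Disjoint (Finset.univ.image ys) (Finset.univ.image gs) := by
    rw [Finset.disjoint_left]
    intro l hl hl'
    obtain ⟨a, _, ha⟩ := Finset.mem_image.1 hl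
    obtain ⟨u, _, hu⟩ := Finset.mem_image.1 hl'
    have b1 := h1 a
    have b2 := g1 u
    rw [ha] at b1
    rw [hu] at b2
    exact sl_gr b1 b2.1
  have d2 : Disjoint ((Finset.univ.image ys) ∪ (Finset.univ.image gs)) (abF gam n) := by
    rw [Finset.disjoint_left]
    intro l hl hl'
    have b3 := mem_abF.1 hl'
    rcases Finset.mem_union.1 hl with h | h
    · obtain ⟨a, _, ha⟩ := Finset.mem_image.1 h
      have b1 := h1 a
      rw [ha] at b1
      exact sl_ab b1 b3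
    · obtain ⟨u, _, hu⟩ := Finset.mem_image.1 h
      have b2 := g1 u
      rw [hu] at b2
      exact ab_gp b3 b2
  have f := congrArg Finset.card e
  rw [Finset.card_union_of_disjoint d2, Finset.card_union_of_disjoint d,
    Finset.card_image_of_injective _ h2,
    Finset.card_image_of_injective _ g2, Finset.card_univ, Finset.card_univ, Fintype.card_fin,
    Fintype.card_fin, Nat.card_Icc] at f
  omega

/-- **(HS).** -/
theorem hs : HsStmt := by
  intro n K K' c k C₁ C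
  obtain ⟨A1, hA1⟩ : ∃ A, A = aC c (13 + 10 * k) (3 + 2 * k) + c * aC k 2 1 + aC k 2 1 +
    aC c 2 1 := ⟨_, rfl⟩
  obtain ⟨A2, hA2⟩ : ∃ A, A = c * aC k 2 1 + aE (k + (c - 1)) 5 := ⟨_, rfl⟩
  obtain ⟨A3, hA3⟩ : ∃ A, A = aE (c - 1) (13 + 13 * k + |C|) := ⟨_, rfl⟩
  obtain ⟨A4, hA4⟩ : ∃ A, A = aE c 4 := ⟨_, rfl⟩
  obtain ⟨A5, hA5⟩ : ∃ A, A = aE k 4 := ⟨_, rfl⟩
  obtain ⟨A6, hA6⟩ : ∃ A, A = aE (n - 1) (5 + 2 * |C₁| + 3 * |C|) := ⟨_, rfl⟩
  obtain ⟨A7, hA7⟩ : ∃ A, A = aE (n - k - c) (3 + 2 * |C₁|) := ⟨_, rfl⟩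
  have b1 : 0 ≤ A1 := by
    rw [hA1]
    have := aC_nonneg c (13 + 10 * k) (3 + 2 * k)
    have := aC_nonneg k 2 1
    have := aC_nonneg c 2 1
    positivity
  have b2 : 0 ≤ A2 := by
    rw [hA2]
    have := aC_nonneg k 2 1
    have := aE_nonneg (k + (c - 1)) (by norm_num : (0 : ℝ) ≤ 5)
    positivity
  have b3 : 0 ≤ A3 := by
    rw [hA3]
    exact aE_nonneg _ (by positivity)
  have b4 : 0 ≤ A4 := by
    rw [hA4]
    exact aE_nonneg _ (by positivity)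
  have b5 : 0 ≤ A5 := by
    rw [hA5]
    exact aE_nonneg _ (by positivity)
  have b6 : 0 ≤ A6 := by
    rw [hA6]
    exact aE_nonneg _ (by positivity)
  have b7 : 0 ≤ A7 := by
    rw [hA7]
    exact aE_nonneg _ (by positivity)
  refine ⟨3 + |C| + (A1 + A2 + A3 + A4 + A5 + A6 + A7), by positivity, ?_⟩
  intro D J a₀ w₀ z M w i j r r' r'' y X lam gam κ q E P S ys gs H n₀ hn x hx
  have hq := H.ok.isLaw
  have h0 := hq.nonneg
  rw [abs_of_nonneg (by linarith [H.Cg] : 0 ≤ C)] at hA3 hA6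
  rw [abs_of_nonneg (by linarith [H.C1] : 0 ≤ C₁)] at hA6 hA7
  obtain ⟨b, hb⟩ : ∃ b, b = Pb q (fun ω => ¬ E ω) := ⟨_, rfl⟩
  have b0 : 0 ≤ b := by
    rw [hb]
    exact H.b0
  obtain ⟨ρ, hρ⟩ : ∃ ρ : ℝ, ρ = z + X * b := ⟨_, rfl⟩
  -- the deeper place
  have z1 := H.z1
  obtain ⟨x₀, hX, hxM⟩ := H.Xz
  obtain ⟨v, hv⟩ : ∃ v, v = x / z := ⟨_, rfl⟩
  have hv1 : v * z ≤ x := by
    rw [hv]
    exact Nat.div_mul_le_self _ _
  have hv2 : x < v * z + z := by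
    rw [hv]
    exact Nat.lt_div_mul_add (by omega)
  have hv3 : v ≤ x₀ := by
    have h1 : v * z ≤ x₀ * z := by
      rw [← hX]
      omega
    exact Nat.le_of_mul_le_mul_right h1 (by omega)
  obtain ⟨U, hU⟩ : ∃ U, x₀ = v + U := ⟨x₀ - v, by omega⟩
  have hUX : (v + U) * z = X := by rw [hX, hU]
  have hUX' : X - v * z = U * z := by
    rw [← hUX, Nat.add_mul]
    omega
  have hM : i + v + r'' < M := by omega
  have j1 := H.j1
  have j2 := H.j2
  -- the variables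
  obtain ⟨Z, hZ⟩ : ∃ Z : D.Ω → D.Γ × (D.Γ × ℕ), Z = fun ω =>
    (D.c (i - 1) (j - r) ω, (D.c (i + v) j ω, D.T ω)) := ⟨_, rfl⟩
  obtain ⟨N, hN⟩ : ∃ N : D.Ω → {u : Fin c // u ≠ n₀} → ℤ, N =
    fun ω (u : {u : Fin c // u ≠ n₀}) => nuv D J w z i j r X C P gs ω u := ⟨_, rfl⟩
  obtain ⟨F, hF⟩ : ∃ F : D.Ω → Fin c → ℤ, F = fun ω u =>
    nuv D J w z i j r X C P gs ω u / 2 ^ (X - x) := ⟨_, rfl⟩
  obtain ⟨V, hV⟩ : ∃ V : D.Ω → (Fin k → ℤ) × (Fin c → ℤ), V = fun ω =>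
    (yv (k := k) D J w z i j r X C P ys ω, bev (c := c) D J w z i j r X C P gs ω) := ⟨_, rfl⟩
  obtain ⟨sv, hsv⟩ : ∃ sv, sv = Sv (c := c) (k := k) D z X C S ys gs := ⟨_, rfl⟩
  obtain ⟨hg, hhg⟩ : ∃ hg : D.Ω → Fin c → ℤ, hg =
    (qh (c := c) (k := k) D J w z i j r X C P S ys gs q).hgt := ⟨_, rfl⟩
  obtain ⟨Ho, hHo⟩ : ∃ Ho : D.Ω → {u : Fin c // u ≠ n₀} → ℤ, Ho =
    fun ω (u : {u : Fin c // u ≠ n₀}) => hg ω u := ⟨_, rfl⟩
  obtain ⟨Zs, hZs⟩ : ∃ Zs, Zs = zg D z i j r X C P ys := ⟨_, rfl⟩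
  obtain ⟨Zo, hZo⟩ : ∃ Zo, Zo = zg D z i j r X C P (fun u : {u : Fin c // u ≠ n₀} => gs u) :=
    ⟨_, rfl⟩
  obtain ⟨g, hg'⟩ : ∃ g : Fin k ⊕ {u : Fin c // u ≠ n₀} → ℕ,
    g = Sum.elim ys (fun u : {u : Fin c // u ≠ n₀} => gs u) := ⟨_, rfl⟩
  obtain ⟨Za, hZa⟩ : ∃ Za, Za = zg D z i j r X C P g := ⟨_, rfl⟩
  -- the coordinates above
  obtain ⟨Zb, hZb⟩ : ∃ Zb, Zb = zg D z i j r X C P (fun u : ↥(abF gam n) => (u : ℕ)) := ⟨_, rfl⟩
  obtain ⟨g2, hg2⟩ : ∃ g2 : (Fin k ⊕ {u : Fin c // u ≠ n₀}) ⊕ ↥(abF gam n) → ℕ,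
    g2 = Sum.elim g (fun u : ↥(abF gam n) => (u : ℕ)) := ⟨_, rfl⟩
  obtain ⟨Zt, hZt⟩ : ∃ Zt, Zt = zg D z i j r X C P g2 := ⟨_, rfl⟩
  have hkc := count_kca H.gamn H.ys_sl H.ys_in H.ys_on H.gs_gp H.gs_in.injective H.gs_on
  have hcb : Fintype.card ↥(abF gam n) = n - k - c := by
    rw [Fintype.card_coe]
    omega
  -- equal data of the line and of the time
  have eZ : ∀ ω ω', 0 < q ω → 0 < q ω' → Z ω = Z ω' → V ω = V ω' → sv ω = sv ω' →
      vv D J w z i j r X C P ys gs ω = vv D J w z i j r X C P ys gs ω' ∧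
      tv D J w z i j r X C S ys gs ω = tv D J w z i j r X C S ys gs ω' ∧
      cb D J w i j r ω = cb D J w i j r ω' := by
    intro ω ω' hω hω' e1 e2 e3
    rw [hZ] at e1
    obtain ⟨f1, f2, f3⟩ := H.up (i' := i + v) (by omega) hM hω hω' e1
    have g1 : cb D J w i j r ω = cb D J w i j r ω' := Prod.ext f1 (by
      change D.T ω / 2 ^ (J - w) = D.T ω' / 2 ^ (J - w)
      rw [f3])
    rw [hV] at e2
    rw [hsv] at e3
    exact ⟨Prod.ext g1 e2, Prod.ext g1 (Prod.ext f3 e3), g1⟩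
  -- (1)
  have m1 : CH q N (fun ω => (F ω, (V ω, (sv ω, Z ω)))) ≤
      CH q N (fun ω => (F ω, (vv D J w z i j r X C P ys gs ω,
        (tv D J w z i j r X C S ys gs ω, cb D J w i j r ω)))) := by
    refine CH_mono_cond h0 fun ω ω' hω hω' e => ?_
    have e1 := (Prod.ext_iff.mp e).1
    have e2 := (Prod.ext_iff.mp e).2
    have e3 := (Prod.ext_iff.mp e2).1
    have e4 := (Prod.ext_iff.mp e2).2
    obtain ⟨f1, f2, f3⟩ := eZ ω ω' hω hω' (Prod.ext_iff.mp e4).2 e3 (Prod.ext_iff.mp e4).1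
    exact Prod.ext e1 (Prod.ext f1 (Prod.ext f2 f3))
  have m2 := CH_le_add h0 N F (fun ω => (V ω, (sv ω, Z ω)))
  have m3 : CH q F (fun ω => (V ω, (sv ω, Z ω))) ≤ A4 * ρ := by
    have h1 := H.few1 H.dep hx hv1 hv2 hM (fun ω => (V ω, sv ω))
    rw [← hF, ← hA4, ← hb, ← hρ] at h1
    refine le_trans (CH_mono_cond h0 fun ω ω' hω hω' e => ?_) h1
    have e3 := (Prod.ext_iff.mp e).1
    have e4 := (Prod.ext_iff.mp e).2
    have e5 := (Prod.ext_iff.mp e4).2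
    simp only at e5
    rw [hZ] at e5
    exact Prod.ext (Prod.ext e3 (Prod.ext_iff.mp e4).1) e5
  -- (2)
  have m4 : CH q N (fun ω => (V ω, (sv ω, Z ω))) = CH q Ho (fun ω => (V ω, (sv ω, Z ω))) := by
    have key : ∀ ω ω', 0 < q ω → 0 < q ω' → (V ω, (sv ω, Z ω)) = (V ω', (sv ω', Z ω')) →
        ∀ u, hg ω u - nuv D J w z i j r X C P gs ω u = hg ω' u -
          nuv D J w z i j r X C P gs ω' u := by
      intro ω ω' hω hω' e u
      have e4 := (Prod.ext_iff.mp e).2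
      obtain ⟨f1, f2, f3⟩ := eZ ω ω' hω hω' (Prod.ext_iff.mp e4).2 (Prod.ext_iff.mp e).1
        (Prod.ext_iff.mp e4).1
      obtain ⟨G, hG⟩ : ∃ G, G = (qh (c := c) (k := k) D J w z i j r X C P S ys gs q).g := ⟨_, rfl⟩
      have g1 : ∀ ω, hg ω u = nuv D J w z i j r X C P gs ω u +
          G (tv D J w z i j r X C S ys gs ω) (vv D J w z i j r X C P ys gs ω) u := by
        intro ω
        rw [hhg, hG]
        rfl
      rw [g1, g1, f1, f2]
      ring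
    refine CH_congr h0 ?_ ?_ (fun _ _ _ _ h => h) (fun _ _ _ _ h => h)
    · intro ω ω' hω hω' e
      have e1 : N ω = N ω' := (Prod.ext_iff.mp e).1
      have e2 := (Prod.ext_iff.mp e).2
      rw [hHo]
      funext u
      have h1 := key ω ω' hω hω' e2 u
      have h2 := congrFun e1 u
      rw [hN] at h2
      simp only at h2
      simp only
      linarith
    · intro ω ω' hω hω' e
      have e1 : Ho ω = Ho ω' := (Prod.ext_iff.mp e).1
      have e2 := (Prod.ext_iff.mp e).2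
      rw [hN]
      funext u
      have h1 := key ω ω' hω hω' e2 u
      have h2 := congrFun e1 u
      rw [hHo] at h2
      simp only at h2
      simp only
      linarith
  -- (3)
  have m5 := H.info1 (i' := i + v) (by omega) hM
  rw [← hhg, ← hsv, ← hA1, ← hb, ← hρ] at m5
  have m5' : MI q (fun ω => (sv ω, hg ω)) V Z ≤ κ * z + A1 * ρ := by
    rw [hV, hZ]
    exact m5
  have m6 := MI_inner h0 hg sv V Z
  have m7 : MI q Ho V (fun ω => (sv ω, Z ω)) ≤ MI q hg V (fun ω => (sv ω, Z ω)) :=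
    MI_le_left h0 fun ω ω' _ _ e => by
      have e1 : hg ω = hg ω' := (Prod.ext_iff.mp e).1
      rw [hHo]
      funext u
      exact congrFun e1 u
  -- (4)
  have m8 : CH q Ho (fun ω => (Zs ω, (sv ω, Z ω))) ≤ CH q Ho (fun ω => (sv ω, Z ω)) :=
    CH_mono_cond h0 fun ω ω' _ _ e => (Prod.ext_iff.mp e).2
  have m9 := CH_le_add h0 Zo Ho (fun ω => (Zs ω, (sv ω, Z ω)))
  have m10 : CH q Zo (fun ω => (Ho ω, (Zs ω, (sv ω, Z ω)))) ≤ A3 * ρ := by
    have h1 := H.few3 (fun u : {u : Fin c // u ≠ n₀} => (u : Fin c)) Z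
    rw [card_ne, ← hA3, ← hb, ← hρ, ← hhg, ← hZo, ← hZs, ← hsv] at h1
    rw [hHo]
    exact h1
  -- (5)
  have m11 := H.info2 (i' := i + v) (by omega) hM g (by
    intro u
    rw [hg']
    rcases u with a | u
    · exact ⟨(H.ys_n a).1, (H.ys_n a).2, sl_ab (H.ys_sl a)⟩
    · exact ⟨(H.gs_n u).1, (H.gs_n u).2, fun h => ab_gp h (H.gs_gp u)⟩)
  rw [Fintype.card_sum, Fintype.card_fin, card_ne, ← hA2, ← hb, ← hρ, ← hsv, ← hZa, ← hZ] at m11
  have m12 : MI q (fun ω => (Zs ω, Zo ω)) sv Z ≤ MI q sv Za Z := by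
    rw [MI_symm h0 sv Za Z]
    refine MI_le_left h0 fun ω ω' _ _ e => ?_
    have e1 : Za ω = Za ω' := (Prod.ext_iff.mp e).1
    rw [hZa] at e1
    rw [hZs, hZo]
    refine Prod.ext ?_ ?_
    · funext a
      have := congrFun e1 (Sum.inl a)
      rw [hg'] at this
      exact this
    · funext u
      have := congrFun e1 (Sum.inr u)
      rw [hg'] at this
      exact this
  have m13 := MI_inner h0 Zo Zs sv Z
  have m14 : CH q Zo (fun ω => (sv ω, (Zs ω, Z ω))) ≤ CH q Zo (fun ω => (Zs ω, (sv ω, Z ω))) :=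
    CH_mono_cond h0 fun ω ω' _ _ e => by
      have e1 := (Prod.ext_iff.mp e).1
      have e2 := (Prod.ext_iff.mp e).2
      exact Prod.ext (Prod.ext_iff.mp e2).1 (Prod.ext e1 (Prod.ext_iff.mp e2).2)
  -- (6)
  have m15 := CH_chain h0 Zo Zs Z
  have m15' : CH q (fun ω => (Zs ω, Zo ω)) Z = CH q (fun ω => (Zo ω, Zs ω)) Z := by
    refine CH_congr h0 ?_ ?_ (fun _ _ _ _ h => h) (fun _ _ _ _ h => h)
    · intro ω ω' _ _ e
      have e1 := (Prod.ext_iff.mp e).1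
      exact Prod.ext (Prod.ext_iff.mp e1).2 (Prod.ext_iff.mp e1).1
    · intro ω ω' _ _ e
      have e1 := (Prod.ext_iff.mp e).1
      exact Prod.ext (Prod.ext_iff.mp e1).2 (Prod.ext_iff.mp e1).1
  -- (7)
  have m16 := CH_le_add h0 (D.vd n (i + v) j (U * z)) (fun ω => ((Zs ω, Zo ω), Zb ω)) Z
  have m16' := CH_subadd h0 (fun ω => (Zs ω, Zo ω)) Zb Z
  have m17 : CH q (D.vd n (i + v) j (U * z)) (fun ω => (((Zs ω, Zo ω), Zb ω), Z ω)) ≤ A6 * ρ := by
    have h1 := H.few6 H.dep hUX hM g2 (by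
      intro l a1 a2
      rw [hg2, hg']
      rcases kinds H.gamn a1 a2.le with hs | hs | hs
      · obtain ⟨a, ha⟩ := H.ys_on l hs
        exact ⟨Sum.inl (Sum.inl a), ha⟩
      · obtain ⟨u, hu⟩ := H.gs_on l hs
        refine ⟨Sum.inl (Sum.inr ⟨u, ?_⟩), hu⟩
        intro e
        rw [e, hn] at hu
        omega
      · exact ⟨Sum.inr ⟨l, mem_abF.2 hs⟩, rfl⟩) (fun _ => ())
    rw [← hA6, ← hb, ← hρ, ← hZt] at h1
    refine le_trans (CH_mono_cond h0 fun ω ω' hω hω' e => ?_) h1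
    have e0 := (Prod.ext_iff.mp e).1
    have e1 := (Prod.ext_iff.mp e0).1
    have e2 : Z ω = Z ω' := (Prod.ext_iff.mp e).2
    have e3 : Zs ω = Zs ω' := (Prod.ext_iff.mp e1).1
    have e4 : Zo ω = Zo ω' := (Prod.ext_iff.mp e1).2
    have e5 : Zb ω = Zb ω' := (Prod.ext_iff.mp e0).2
    rw [hZ] at e2
    refine Prod.ext (Prod.ext rfl ?_) e2
    rw [hZs] at e3
    rw [hZo] at e4
    rw [hZb] at e5
    rw [hZt, hg2, hg']
    funext u
    rcases u with (a | u) | u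
    · exact congrFun e3 a
    · exact congrFun e4 u
    · exact congrFun e5 u
  have m18 : ((n - 1 : ℕ) : ℝ) * (U * z) * Real.log 2 - C * z ≤
      CH q (D.vd n (i + v) j (U * z)) Z := by
    have i0 := H.i0
    have hUr : U * r ≤ x₀ * r := Nat.mul_le_mul_right r (by omega)
    have hXr := H.Xr x₀ hX
    have h1 := H.llc (i + v) j r U (by omega) j1 (by omega) (by omega)
    refine h1.trans (CH_mono_cond h0 fun ω ω' hω hω' e => ?_)
    have e1 := (Prod.ext_iff.mp e).1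
    have e2 := (Prod.ext_iff.mp e).2
    rw [hZ]
    have h2 := c_up H.ok (j := j - r) (by omega) (i - 1) v (by omega)
    rw [show i - 1 + v = i + v - 1 by omega] at h2
    exact Prod.ext (h2 ω ω' hω hω' e1) e2
  -- (8)
  have m19 : CH q Zs Z ≤ k * ((U * z : ℕ) * Real.log 2) + A5 * ρ := by
    have h1 := H.few8 H.dep (v := v) (hv1.trans hx) hM
    rw [hUX', ← hA5, ← hb, ← hρ, ← hZs, ← hZ] at h1
    exact h1
  -- (9)
  have m23 : CH q Zb Z ≤ ((n - k - c : ℕ) : ℝ) * ((U * z : ℕ) * Real.log 2) + A7 * ρ := by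
    have h1 := H.few9 H.dep (v := v) (hv1.trans hx) hM (fun u : ↥(abF gam n) => (u : ℕ)) (by
      intro u
      have h := mem_abF.1 u.2
      exact ⟨h.1, h.2.1.le⟩)
    rw [hUX', hcb, ← hA7, ← hb, ← hρ, ← hZb, ← hZ] at h1
    exact h1
  -- the sum
  have c1 : 1 ≤ c := by
    have := n₀.2
    omega
  obtain ⟨m, hm⟩ : ∃ m, m = n - k - c := ⟨_, rfl⟩
  rw [← hm] at m23
  have n1 : ((n - 1 : ℕ) : ℝ) = k + (c - 1) + m := by
    have : n - 1 = k + (c - 1) + m := by omega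
    rw [this]
    push_cast [Nat.cast_sub c1]
    ring
  rw [n1] at m18
  have l2 : 0 ≤ Real.log 2 := Real.log_nonneg (by norm_num)
  have c1' : (1 : ℝ) ≤ c := by exact_mod_cast c1
  have hUz : ((U * z : ℕ) : ℝ) = X - v * z := by
    rw [← hUX']
    rw [Nat.cast_sub (hv1.trans hx)]
    push_cast
    ring
  have hxx : (X : ℝ) - x ≤ ((U * z : ℕ) : ℝ) := by
    rw [hUz]
    have : ((v * z : ℕ) : ℝ) ≤ x := by exact_mod_cast hv1
    push_cast at this
    linarith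
  have m20 : ((c : ℝ) - 1) * (((X : ℝ) - x) * Real.log 2) ≤
      ((c : ℝ) - 1) * (((U * z : ℕ) : ℝ) * Real.log 2) :=
    mul_le_mul_of_nonneg_left (mul_le_mul_of_nonneg_right hxx l2) (by linarith)
  have m21 : (k + ((c : ℝ) - 1) + m) * (U * z) * Real.log 2 =
      k * ((U * z : ℕ) * Real.log 2) + ((c : ℝ) - 1) * (((U * z : ℕ) : ℝ) * Real.log 2) +
        m * ((U * z : ℕ) * Real.log 2) := by
    push_cast
    ring
  rw [m21] at m18
  unfold MI at m5' m6 m7 m11 m12 m13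
  have κ0 := H.κ0
  have zr : (1 : ℝ) ≤ z := by exact_mod_cast z1
  have x0 : (0 : ℝ) ≤ X := Nat.cast_nonneg X
  have xb : 0 ≤ (X : ℝ) * b := mul_nonneg x0 b0
  have m22 : 3 * (κ * z) + C * z + (A1 + A2 + A3 + A4 + A5 + A6 + A7) * ρ ≤
      err (3 + |C| + (A1 + A2 + A3 + A4 + A5 + A6 + A7)) κ z X b := by
    unfold err
    rw [hρ]
    have n2 : 0 ≤ κ * z := mul_nonneg κ0 (by linarith)
    have n3 : 0 ≤ A1 + A2 + A3 + A4 + A5 + A6 + A7 := by positivity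
    have n4 := mul_nonneg n3 n2
    have n5 : C * z ≤ |C| * z := mul_le_mul_of_nonneg_right (le_abs_self C) (by linarith)
    have n6 : 0 ≤ |C| * (κ * z) := mul_nonneg (abs_nonneg C) n2
    have n7 : 0 ≤ |C| * (X * b) := mul_nonneg (abs_nonneg C) xb
    have n8 : (3 + |C| + (A1 + A2 + A3 + A4 + A5 + A6 + A7)) * ((1 + κ) * z + X * b) =
        3 * z + 3 * (κ * z) + 3 * (X * b) + (|C| * z + |C| * (κ * z) + |C| * (X * b)) +
        ((A1 + A2 + A3 + A4 + A5 + A6 + A7) * (z + X * b) +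
          (A1 + A2 + A3 + A4 + A5 + A6 + A7) * (κ * z)) := by
      ring
    rw [n8]
    linarith
  rw [← hb]
  have n2 : 0 ≤ κ * z := mul_nonneg κ0 (by linarith)
  have goal1 : ((c : ℝ) - 1) * (((X : ℝ) - x) * Real.log 2) -
      err (3 + |C| + (A1 + A2 + A3 + A4 + A5 + A6 + A7)) κ z X b ≤
      CH q N (fun ω => (F ω, (vv D J w z i j r X C P ys gs ω,
        (tv D J w z i j r X C S ys gs ω, cb D J w i j r ω)))) := by
    linarith
  rw [hN, hF] at goal1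
  exact goal1

end Pool.P4I
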