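import Pool.Agent.H35.P4I.Abv
import Pool.Agent.H98.P4.NF

/-!
# P4I: (NF), the target is not full, given everything

As `Pool.P4N`, with the digits of the coordinates above in the context, then `above`.
-/

set_option autoImplicit false

namespace Pool.P4I.N

open Pool.P4N

open Finset Real
open Pool.Agent.H49.Ent Pool.Agent.H32.Dense Pool.STK Pool.STAT Pool.MIC Pool.P4
open Pool.BFL (Pb)

variable {D : NDat2} {n K K' J a₀ w₀ z M w i j r r' r'' y X : ℕ} {lam gam : ℕ → ℝ}
  {κ C₁ C : ℝ} {q : D.Ω → ℝ} {E : D.Ω → Prop} {P : D.Γ × D.Γ → ℕ → PN}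
  {S : D.Ω → ℕ → ℕ → ℝ} {c k : ℕ} {ys : Fin k → ℕ} {gs : Fin c → ℕ}

/-- **(NF)** -/
theorem nf_stmt : NFStmt := by
  classical
  intro n K K' c k B C₁ C hB
  have hA0 : 0 ≤ n * (12 + 3 * |C|) + |C₁| + (20 + 3 * |C|) := by positivity
  refine ⟨(n * (12 + 3 * |C|) + |C₁| + (20 + 3 * |C|)) + aAb n c k C,
    add_nonneg hA0 (aAb_nonneg n c k C), ?_⟩
  intro D J a₀ w₀ z M w i j r r' r'' y U lam gam κ h ϖ q E P S ys gs n₀ H hNF hh hh1 hϖ hn₀ hU hU'
  obtain ⟨X, hX⟩ : ∃ X, X = B * U * z := ⟨_, rfl⟩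
  rw [← hX] at H ⊢
  have hp := H.ok.isLaw
  have h0 := hp.nonneg
  have hC0 : 0 ≤ C := by linarith [H.Cg]
  have hRy := Ry_one hC0 z
  have hRg := Rg_eq z C
  have hz := H.z1
  have hz1 : (1 : ℝ) ≤ z := by exact_mod_cast hz
  have hl : Real.log 2 < 0.6931471808 := Real.log_two_lt_d9
  have hl0 : 0 < Real.log 2 := Real.log_pos (by norm_num)
  have hpX : (0 : ℝ) < 2 ^ X := by positivity
  have hiM : i ≤ M := by have := H.i2; omega
  have hjM : j ≤ M := by have := H.j2; omega
  have hUX : U * z ≤ X := by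
    rw [hX]
    calc U * z = 1 * (U * z) := (one_mul _).symm
      _ ≤ B * (U * z) := Nat.mul_le_mul_right _ hB
      _ = B * U * z := (mul_assoc _ _ _).symm
  -- the context
  obtain ⟨W₁, hW₁⟩ : ∃ W₁ : D.Ω → ({u : Fin c // u ≠ n₀} → ℤ) × ((((D.Γ × D.Γ) × ℕ) ×
      ((Fin k → ℤ) × (Fin c → ℤ))) × ((((D.Γ × D.Γ) × ℕ) × (ℕ × (Fin c → Fin k → ℤ))) ×
      ((D.Γ × D.Γ) × ℕ))), W₁ = fun ω =>
      ((fun u : {u : Fin c // u ≠ n₀} => nuv D J w z i j r X C P gs ω u),
          (vv D J w z i j r X C P ys gs ω,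
            (tv D J w z i j r X C S ys gs ω, cb D J w i j r ω))) := ⟨_, rfl⟩
  have hab := above H hn₀ W₁ (by
      intro ω ω' e
      rw [hW₁] at e
      simp only [Prod.mk.injEq] at e
      obtain ⟨e1, e2, e3, e4⟩ := e
      unfold Pool.P4.vv at e2
      unfold tv at e3
      simp only [Prod.mk.injEq] at e2 e3
      exact ⟨e1, e2.2.1, e2.2.2, e3.2.1, e4⟩) (by
      intro ω ω' e1 e2 e3 e4 e5 e6
      rw [hW₁]
      unfold Pool.P4.vv tv
      simp only [Prod.mk.injEq]
      exact ⟨e1, ⟨e6, e2, e3⟩, ⟨e6, e5, e4⟩, e6⟩)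
  obtain ⟨W, hW⟩ : ∃ W : D.Ω → (Fin (n - 1) → ℤ) × (({u : Fin c // u ≠ n₀} → ℤ) ×
      ((((D.Γ × D.Γ) × ℕ) × ((Fin k → ℤ) × (Fin c → ℤ))) ×
      ((((D.Γ × D.Γ) × ℕ) × (ℕ × (Fin c → Fin k → ℤ))) × ((D.Γ × D.Γ) × ℕ)))), W = fun ω =>
      (zab D n z i j r X C gam P ω, W₁ ω) := ⟨_, rfl⟩
  have hWd : ∀ ω ω', W ω = W ω' → cb D J w i j r ω = cb D J w i j r ω' ∧ D.T ω = D.T ω' ∧
      yv D J w z i j r X C P ys ω = yv D J w z i j r X C P ys ω' ∧
      bev D J w z i j r X C P gs ω = bev D J w z i j r X C P gs ω' ∧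
      (∀ u, gs u ≠ n → nuv D J w z i j r X C P gs ω u = nuv D J w z i j r X C P gs ω' u) ∧
      zab D n z i j r X C gam P ω = zab D n z i j r X C gam P ω' := by
    intro ω ω' e
    rw [hW, hW₁] at e
    simp only [Prod.mk.injEq] at e
    obtain ⟨e0, e1, e2, e3, e4⟩ := e
    unfold Pool.P4.vv at e2
    unfold tv at e3
    simp only [Prod.mk.injEq] at e2 e3
    refine ⟨e4, e3.2.1, e2.2.1, e2.2.2, fun u hu => ?_, e0⟩
    have := congrFun e1 ⟨u, fun h => hu (by rw [h, hn₀])⟩
    exact this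
  have goal : CH q (fun ω => nuv D J w z i j r X C P gs ω n₀) W ≤
      (1 - h / B) * (X : ℕ) * Real.log 2 +
        err (n * (12 + 3 * |C|) + |C₁| + (20 + 3 * |C|)) κ z X (Pb q (fun ω => ¬ E ω)) := by
    obtain ⟨b, hb⟩ : ∃ b, b = Pb q (fun ω => ¬ E ω) := ⟨_, rfl⟩
    have hb0 : 0 ≤ b := hb ▸ Pb_nonneg h0 _
    have hb1 : b ≤ 1 := by
      have e1 := Pb_not hp.sum_one E
      have e2 := Pb_nonneg h0 E
      rw [hb]
      linarith
    have hbX : b * (3 + X) ≤ 3 + X * b := by nlinarith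
    have a1 := CH_le_add h0 (fun ω => nuv D J w z i j r X C P gs ω n₀) (D.nd n i j X) W
    have a2 := CH_le_add h0 (D.nd n i j X) (D.vd n i j X) W
    have a3 : CH q (D.nd n i j X) (fun ω => (D.vd n i j X ω, W ω)) ≤
        CH q (D.nd n i j X) (fun ω => (D.vd n i j X ω, (D.s i j ω, D.T ω))) := by
      refine CH_mono_cond h0 ?_
      intro ω ω' g1 g2 e
      simp only [Prod.mk.injEq] at e ⊢
      obtain ⟨e1, e2⟩ := e
      obtain ⟨d1, d2, -⟩ := hWd ω ω' e2
      have d3 : D.c i j ω = D.c i j ω' := (Prod.ext_iff.1 (Prod.ext_iff.1 d1).1).1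
      exact ⟨e1, H.ok.s_c i hiM j hjM ω ω' g1 g2 (Prod.ext d3 d2), d2⟩
    have a4 := CH_le_add h0 (D.nd n i j X) (D.nd n i j (U * z))
      (fun ω => (D.vd n i j X ω, (D.s i j ω, D.T ω)))
    have a5 : CH q (D.nd n i j X) (fun ω => (D.nd n i j (U * z) ω,
        (D.vd n i j X ω, (D.s i j ω, D.T ω)))) ≤ ((X - U * z : ℕ) : ℝ) * Real.log 2 := by
      have e1 := CH_one_low hp (D.nd n i j X) (X - U * z)
        (fun ω => (D.vd n i j X ω, (D.s i j ω, D.T ω)))
      have e2 : (fun ω => (D.nd n i j X ω / 2 ^ (X - U * z),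
          (D.vd n i j X ω, (D.s i j ω, D.T ω)))) = (fun ω => (D.nd n i j (U * z) ω,
          (D.vd n i j X ω, (D.s i j ω, D.T ω)))) := by
        funext ω
        have e3 := nd_div D n i j (U * z) (X - U * z) ω
        rw [Nat.add_sub_cancel' hUX] at e3
        rw [e3]
      rw [e2] at e1
      exact e1
    have a6 := CH_le_add h0 (D.nd n i j (U * z)) (D.nd n i j 0)
      (fun ω => (D.vd n i j X ω, (D.s i j ω, D.T ω)))
    have a7 : CH q (D.nd n i j (U * z)) (fun ω => (D.nd n i j 0 ω,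
        (D.vd n i j X ω, (D.s i j ω, D.T ω)))) ≤ (1 - h) * (U * z) * Real.log 2 + C₁ * z := by
      have e1 := hNF i hiM j hjM 0 U (by omega) (by push_cast; linarith) (fun _ => True) (by
        have : Pb q (fun _ : D.Ω => True) = 1 := by
          unfold Pb
          simp only [if_true]
          exact hp.sum_one
        rw [this]
        exact hϖ)
      rw [Pool.P4N.cond_true hp] at e1
      simp only [zero_add, zero_mul] at e1
      have e2 : B * (U * z) = X := by rw [hX, mul_assoc]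
      rw [e2] at e1
      exact e1
    have a8 : CH q (D.nd n i j 0) (fun ω => (D.vd n i j X ω, (D.s i j ω, D.T ω))) ≤ 2 := by
      have e1 := CH_le_card h0 hp.sum_one (D.nd n i j 0)
        (fun ω => (D.vd n i j X ω, (D.s i j ω, D.T ω))) (fun _ => Finset.Icc (-1 : ℤ) 1)
        (fun ω hω => by
          have e2 := sh_bd (H.ok.pos i hiM j hjM ω hω n H.n1 le_rfl) 0
          unfold NDat2.nd
          rw [pow_zero] at e2
          have e3 := abs_le.1 e2
          rw [Finset.mem_Icc]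
          constructor
          · exact_mod_cast e3.1
          · exact_mod_cast e3.2)
      refine e1.trans ?_
      rw [Ex_const hp.sum_one]
      have e4 : (Finset.Icc (-1 : ℤ) 1).card = 3 := by decide
      rw [e4]
      have e5 : Real.log ((3 : ℕ) : ℝ) ≤ Real.log (2 ^ 2) :=
        Real.log_le_log (by norm_num) (by norm_num)
      rw [Real.log_pow] at e5
      push_cast at e5 ⊢
      linarith
    have hnn : ((n - 1 : ℕ) : ℝ) ≤ n := by exact_mod_cast Nat.sub_le n 1
    have b1 : CH q (D.vd n i j X) W ≤ 1 + n * ((5 + 3 * C) * z + (3 + X * b)) := by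
      have e1 := few_ev hp E (D.vd n i j X) W (L := 8 * (Ry z C * Rg z C) + 1)
        (Q := 2 ^ X) (by
          rw [hRg]
          positivity) hpX.le (by
          intro ω ω' g1 g2 hE hE' e l
          obtain ⟨d1, d2, d3, d4, d5, d6⟩ := hWd ω ω' e
          have e2 := sh_near H g1 g2 hE hE' d1 d2 d3 d4 d5 d6 (l := l + 1) (by omega)
            (by have := l.2; omega)
          unfold NDat2.vd
          refine (fl_sub _ _).trans ?_
          rw [pow_add]
          have e3 : (2 : ℝ) ^ D.g i j (l + 1) * 2 ^ X * D.sh i j ω (l + 1) -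
              2 ^ D.g i j (l + 1) * 2 ^ X * D.sh i j ω' (l + 1) =
              2 ^ X * (2 ^ D.g i j (l + 1) * D.sh i j ω (l + 1) -
                2 ^ D.g i j (l + 1) * D.sh i j ω' (l + 1)) := by ring
          rw [e3, abs_mul, abs_of_pos hpX]
          have e4 := mul_le_mul_of_nonneg_left e2 hpX.le
          have e5 : (2 : ℝ) ^ X * (Ry z C * (8 * Rg z C * ((2 : ℝ) ^ X)⁻¹)) =
              8 * (Ry z C * Rg z C) := by
            field_simp
          rw [e5] at e4
          linarith) (by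
          intro ω hω l
          exact sh_bd (H.ok.pos i hiM j hjM ω hω (l + 1) (by omega)
            (by have := l.2; omega)) X)
      refine e1.trans ?_
      have e2 := log64 hC0 hz (t := 2 * (8 * (Ry z C * Rg z C) + 1) + 1) (by
        rw [hRg]
        positivity) (by
        rw [hRg]
        have : 1 ≤ Ry z C * (Ry z C * Ry z C) := by
          have : 1 ≤ Ry z C * Ry z C := by nlinarith only [hRy]
          nlinarith only [this, hRy]
        nlinarith only [this])
      have e3 := log_4X X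
      rw [← hb]
      have e4 : b * Real.log (4 * 2 ^ X + 1) ≤ 3 + X * b :=
        (mul_le_mul_of_nonneg_left e3 hb0).trans hbX
      have e5 : 0 ≤ (5 + 3 * C) * z + (3 + X * b) := by positivity
      have e6 : ((n - 1 : ℕ) : ℝ) * (Real.log (2 * (8 * (Ry z C * Rg z C) + 1) + 1) +
          b * Real.log (4 * 2 ^ X + 1)) ≤ n * ((5 + 3 * C) * z + (3 + X * b)) :=
        (mul_le_mul_of_nonneg_left (by linarith) (Nat.cast_nonneg _)).trans
          (mul_le_mul_of_nonneg_right hnn e5)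
      linarith
    have b2 : CH q (fun ω => nuv D J w z i j r X C P gs ω n₀)
        (fun ω => (D.nd n i j X ω, W ω)) ≤ 1 + ((5 + 3 * C) * z + (3 + X * b)) := by
      have e0 : CH q (fun ω => nuv D J w z i j r X C P gs ω n₀)
          (fun ω => (D.nd n i j X ω, W ω)) ≤
          CH q (fun ω (_ : Fin 1) => nuv D J w z i j r X C P gs ω n₀)
          (fun ω => (D.nd n i j X ω, W ω)) := by
        refine CH_mono_left h0 ?_
        intro ω ω' _ _ e
        simp only [Prod.mk.injEq] at e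
        exact congrFun e.1 0
      have e1 := few_ev hp E (fun ω (_ : Fin 1) => nuv D J w z i j r X C P gs ω n₀)
        (fun ω => (D.nd n i j X ω, W ω)) (L := 12 * (Ry z C * Ry z C)) (Q := 2 ^ X)
        (by positivity) hpX.le (by
          intro ω ω' g1 g2 hE hE' e _
          simp only [Prod.mk.injEq] at e
          obtain ⟨d1, d2, d3, d4, d5, d6⟩ := hWd ω ω' e.2
          exact nu_near H g1 g2 hE hE' d1 d2 d3 d4 d5 d6 hn₀ e.1) (by
          intro ω _ _
          exact dg_bd _ _)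
      refine e0.trans (e1.trans ?_)
      have e2 := log64 hC0 hz (t := 2 * (12 * (Ry z C * Ry z C)) + 1) (by positivity) (by
        have h5 : 1 ≤ Ry z C * Ry z C := by nlinarith only [hRy]
        have h6 : Ry z C * Ry z C ≤ Ry z C * (Ry z C * Ry z C) := by nlinarith only [h5, hRy]
        nlinarith only [h5, h6])
      have e3 := log_4X X
      rw [← hb]
      have e4 : b * Real.log (4 * 2 ^ X + 1) ≤ 3 + X * b :=
        (mul_le_mul_of_nonneg_left e3 hb0).trans hbX
      push_cast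
      linarith
    -- the numbers
    have hsub : ((X - U * z : ℕ) : ℝ) = X - U * z := by
      rw [Nat.cast_sub hUX]
      push_cast
      ring
    rw [hsub] at a5
    have hBr : (1 : ℝ) ≤ B := by exact_mod_cast hB
    have hXr : (X : ℝ) = B * (U * z) := by
      rw [hX]
      push_cast
      ring
    have hmain : (1 - h) * (U * z) * Real.log 2 + ((X : ℝ) - U * z) * Real.log 2 =
        (1 - h / B) * (X : ℝ) * Real.log 2 := by
      rw [hXr]
      field_simp
      ring
    have hκ := H.κ0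
    have hCC := le_abs_self C
    have hCC1 := le_abs_self C₁
    have hn0 : (0 : ℝ) ≤ n := Nat.cast_nonneg n
    have hn1 : (1 : ℝ) ≤ n := by exact_mod_cast H.n1
    unfold err
    rw [← hb]
    have hXb : 0 ≤ (X : ℝ) * b := by positivity
    obtain ⟨Ca, hCa⟩ : ∃ Ca, Ca = |C| := ⟨_, rfl⟩
    obtain ⟨Cb, hCb⟩ : ∃ Cb, Cb = |C₁| := ⟨_, rfl⟩
    have hCa0 : 0 ≤ Ca := hCa ▸ abs_nonneg _
    have hCb0 : 0 ≤ Cb := hCb ▸ abs_nonneg _
    rw [← hCa, ← hCb]
    rw [← hCa] at hCC
    rw [← hCb] at hCC1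
    obtain ⟨t, ht⟩ : ∃ t : ℝ, t = z + X * b := ⟨_, rfl⟩
    have ht1 : 1 ≤ t := by linarith
    have hzt : (z : ℝ) ≤ t := by linarith
    have c1 : (5 + 3 * C) * z + (3 + X * b) ≤ (8 + 3 * Ca) * t := by
      rw [ht]
      have e1 : C * z ≤ Ca * z := mul_le_mul_of_nonneg_right hCC (by linarith)
      have e2 : 0 ≤ Ca * (X * b) := by positivity
      nlinarith only [e1, e2, hz1, hXb]
    have c2 : (n : ℝ) * ((5 + 3 * C) * z + (3 + X * b)) ≤ n * ((8 + 3 * Ca) * t) :=
      mul_le_mul_of_nonneg_left c1 hn0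
    have c3 : C₁ * z ≤ Cb * t := (mul_le_mul_of_nonneg_right hCC1 (by linarith)).trans
      (mul_le_mul_of_nonneg_left hzt hCb0)
    have c4 : ((n : ℝ) * (12 + 3 * Ca) + Cb + (20 + 3 * Ca)) * t ≤
        ((n : ℝ) * (12 + 3 * Ca) + Cb + (20 + 3 * Ca)) * ((1 + κ) * z + X * b) := by
      refine mul_le_mul_of_nonneg_left ?_ (by positivity)
      rw [ht]
      have : 0 ≤ κ * z := by positivity
      linarith
    have c5 : 1 + n * ((8 + 3 * Ca) * t) + (1 + (8 + 3 * Ca) * t) + Cb * t + 2 ≤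
        ((n : ℝ) * (12 + 3 * Ca) + Cb + (20 + 3 * Ca)) * t := by
      have : 0 ≤ (n : ℝ) * t := by positivity
      nlinarith only [this, ht1]
    linarith
  rw [hW] at goal
  have e7 := hab.trans (add_le_add goal le_rfl)
  rw [hW₁] at e7
  refine e7.trans (le_of_eq ?_)
  unfold err
  ring

end Pool.P4I.N
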