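import Pool.Agent.H35.P4I.Abl
import Pool.Agent.H38.P4.Own

/-!
# P4I: own sheets over a closed frame

`own_stmt`: (OWN), helper38's proof over `mk_celG`.
-/

set_option autoImplicit false

namespace Pool.P4I

open Finset Real MvPolynomial
open Pool.Agent.H49.Ent Pool.Agent.H32.Dense Pool.STK Pool.STAT Pool.MIC.Frm Pool.MIC7 Pool.FRM
open Pool.GSD Pool.P4O
open Pool.P4 (t0 rt pp PthC FraC thd sl gr bb ze zt z0 be nn GoodS FrP)

/-- The numbers of a place for the slow coordinates. -/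
theorem Plc.stg {n : ℕ} {gam : ℕ → ℝ} {y r r' r'' a M i j : ℕ} (h : Plc n gam y r r' r'' a M i j) :
    StG M gam y r r' r'' i j n (sl gam n) :=
  ⟨fun l _ _ h1 => h.stp.s1 l h1, fun l h1 h2 h3 => h.stp.s2 l (gr_iff.2 ⟨h1, h2, h3⟩), h.stp.s5,
    h.stp.s6.trans h.a1, h.i1, h.i2, h.j1, h.j2⟩

open Classical in
/-- **(OWN)** -/
theorem own_stmt : OwnStmt := by
  intro n K K' lam gam C₁ C hn hC₁ hC hlam hgam
  obtain ⟨a, c₀, ha, h0⟩ := mk_celG n K K' C₁ C hC₁ hC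
  obtain ⟨aS, cS, hS⟩ := sS_le n (max K K') a
  obtain ⟨aB, cB, hB⟩ := cel_b n (max K K') a
  obtain ⟨aC, cC, hCC⟩ := cel_c n (max K K') a
  obtain ⟨aD, cD, hD⟩ := cel_d n (max K K') a
  obtain ⟨N, hN⟩ : ∃ N : ℕ, N = aS + aB + aC + aD + 1 := ⟨_, rfl⟩
  refine ⟨N, by rw [hN]; push_cast; have : (0 : ℝ) ≤ aS + aB + aC + aD := by positivity
                linarith, ?_⟩
  intro y r r' r'' aa M
  obtain ⟨z₀, hz₀⟩ := exists_nat_ge (max (max c₀ cS) (max cB (max cC cD)))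
  refine ⟨z₀, ?_⟩
  intro J a₀ w₀ z i j D q κ hz hpl hO P E hE
  have hzE : (z : ℝ) + 1 ≤ exp z := Real.add_one_le_exp _
  have hzz : (z₀ : ℝ) ≤ z := by exact_mod_cast hz
  have hcE : max (max c₀ cS) (max cB (max cC cD)) ≤ exp (z : ℝ) := by linarith
  obtain ⟨hA1, hA2⟩ := max_le_iff.1 hcE
  obtain ⟨hc0, hcS⟩ := max_le_iff.1 hA1
  obtain ⟨hcB, hA3⟩ := max_le_iff.1 hA2
  obtain ⟨hcC, hcD⟩ := max_le_iff.1 hA3
  have hE1 : 1 ≤ exp (z : ℝ) := Real.one_le_exp (Nat.cast_nonneg z)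
  -- the own frames
  have hfv : ∀ ω, E ω → ∃ V : ℕ → PN, TriN V ∧ (∀ l, (V l).totalDegree ≤ K') ∧
      (∀ l ≤ n, eval (D.X ω) (V l) = D.X ω l) ∧ ∀ i < M, ∀ j < M, ∀ l ≤ n,
        nrm (D.g i j) (1 / 2) (chr V (fr D (i, j) ω l - V l)) ≤ exp (C * z) / 2 ^ D.g i j l :=
    fun ω hω => (hE ω hω).2.1.fv
  choose! V hV using hfv
  have cel : ∀ ω, E ω → Cel n (max K K') a (exp z) (D.X ω 0) (2 ^ (i * z)) (2 ^ (y * z))
      (D.g i j) (D.g 0 j) (D.g (i - r') (j + r)) (D.g (i - r'') (j + r)) (sl gam n)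
      (fz (D.X ω 0) (P (bb D i j r ω))) (fz (D.X ω 0) (V ω)) (fr D (i - r', j + r) ω)
      (fr D (i - r'', j + r) ω) (D.X ω) := fun ω hω =>
    h0 lam gam y r r' r'' M J a₀ w₀ z i j n (sl gam n) D q κ (P (bb D i j r ω)) (V ω) ω hlam hc0
      hpl.stg le_rfl (fun l hl => ⟨hl.1, hl.2.1⟩) hO (hE ω hω).1 (hV ω hω) (hE ω hω).2.2
  have mN : ∀ {b : ℕ} {x : ℝ}, 0 ≤ x → b ≤ N → exp x ^ b ≤ exp (N * x) := by
    intro b x hx hb
    rw [← Real.exp_nat_mul]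
    refine Real.exp_le_exp.2 (mul_le_mul_of_nonneg_right ?_ hx)
    exact_mod_cast hb
  have z0 : (0 : ℝ) ≤ z := Nat.cast_nonneg z
  obtain ⟨S, hSdef⟩ : ∃ S : D.Ω → ℕ → ℕ → ℝ, S = fun ω u k => if E ω then
      sS n (sl gam n) (D.g i j) (fz (D.X ω 0) (P (bb D i j r ω))) (fz (D.X ω 0) (V ω)) u k
      else 0 := ⟨_, rfl⟩
  have hSE : ∀ ω, E ω → ∀ u k, S ω u k =
      sS n (sl gam n) (D.g i j) (fz (D.X ω 0) (P (bb D i j r ω))) (fz (D.X ω 0) (V ω)) u k := by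
    intro ω hω u k
    rw [hSdef]
    simp only
    rw [if_pos hω]
  have hnn : ∀ ω, E ω → ∀ u, 1 ≤ u → nn D n i j r gam P S ω u =
      sN n (sl gam n) (D.g i j) (fz (D.X ω 0) (P (bb D i j r ω))) (fz (D.X ω 0) (V ω))
        (D.X ω) u := by
    intro ω hω u hu
    unfold nn sN ze
    rw [nat_fz' _ _ rfl hu]
    congr 1
    refine Finset.sum_congr rfl fun k hk => ?_
    rw [hSE ω hω, nat_fz' _ _ rfl (Finset.mem_filter.1 hk).2.1]
  refine ⟨S, fun ω u k => ?_, fun ω u k huk => ?_, fun ω hω Bx hBx b hb0 hbs hbg u hu => ?_,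
    fun ω ω' hω hω' hbb hT => ⟨fun hs u hu => ?_, fun hs u hu k hk => ?_⟩⟩
  · by_cases hω : E ω
    · rw [hSE ω hω]
      exact (hS _ _ _ _ _ _ _ _ _ _ _ _ _ _ hE1 hcS (cel ω hω) u k).trans
        (mN z0 (by omega))
    · rw [hSdef]
      simp only
      rw [if_neg hω, abs_zero]
      positivity
  · by_cases hω : E ω
    · rw [hSE ω hω]
      exact SS_zero _ _ _ _ _ huk
    · rw [hSdef]
      simp only
      rw [if_neg hω]
  · obtain ⟨hu1, hun, hSu⟩ := gr_iff.1 hu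
    have hBz : (z : ℝ) ≤ Bx * z := le_mul_of_one_le_left z0 hBx
    have e1 := hB (exp z) (exp (Bx * z)) (D.X ω 0) _ _ _ _ _ _ _ _ _ _ _ (D.X ω) hE1 hcB
      (Real.exp_le_exp.2 hBz) (cel ω hω) b hb0 (fun l hl1 hln hl => by
        rw [nat_fz' _ _ hb0 hl1]
        refine (hbs l hl).trans ?_
        exact le_self_pow₀ (Real.one_le_exp (by positivity)) (by omega))
      (fun l hl1 hln hl => by
        have := hbg l (gr_iff.2 ⟨hl1, hln, hl⟩)
        unfold fr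
        rw [eval_fz' _ hb0 hl1]
        exact this) u hu1 hun hSu
    rw [nat_fz' _ _ hb0 hu1] at e1
    rw [hnn ω hω u hu1]
    have e2 : ∑ k ∈ (range n).filter (sl gam n),
        S ω u k * nat (D.g i j) (P (bb D i j r ω)) b k =
        ∑ k ∈ (range n).filter (sl gam n), sS n (sl gam n) (D.g i j)
          (fz (D.X ω 0) (P (bb D i j r ω))) (fz (D.X ω 0) (V ω)) u k *
          nat (D.g i j) (fz (D.X ω 0) (P (bb D i j r ω))) b k := by
      refine Finset.sum_congr rfl fun k hk => ?_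
      rw [hSE ω hω, nat_fz' _ _ hb0 (Finset.mem_filter.1 hk).2.1]
    rw [e2]
    refine e1.trans (div_le_div_of_nonneg_right ?_ (by positivity))
    rw [mul_assoc]
    exact mN (by positivity) (by omega)
  · obtain ⟨hu1, hun, hSu⟩ := gr_iff.1 hu
    have ht : D.X ω' 0 = D.X ω 0 := by rw [hO.X_zero, hO.X_zero, hT]
    have hA : fr D (i - r', j + r) ω' = fr D (i - r', j + r) ω := by
      unfold fr NDat2.Ψ
      rw [ht, hs]
    have c1 := cel ω hω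
    have c2 := cel ω' hω'
    rw [hA, ← hbb, ht] at c2
    have e1 := hCC _ _ _ _ _ _ _ _ _ _ _ _ _ _ _ _ _ hE1 hcC c1 c2 u hu1 hun hSu
    rw [hnn ω hω u hu1, hnn ω' hω' u hu1, ← hbb, ht]
    refine ⟨e1.1.trans (div_le_div_of_nonneg_right (mN z0 (by omega)) (by positivity)),
      fun k hk => ?_⟩
    rw [hSE ω hω, hSE ω' hω', ← hbb, ht]
    exact (e1.2 k hk).trans (div_le_div_of_nonneg_right (mN z0 (by omega)) (by positivity))
  · obtain ⟨hu1, hun, hSu⟩ := gr_iff.1 hu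
    have ht : D.X ω' 0 = D.X ω 0 := by rw [hO.X_zero, hO.X_zero, hT]
    have hA : fr D (i - r'', j + r) ω' = fr D (i - r'', j + r) ω := by
      unfold fr NDat2.Ψ
      rw [ht, hs]
    have c1 := cel ω hω
    have c2 := cel ω' hω'
    rw [hA, ← hbb, ht] at c2
    have e1 := hD _ _ _ _ _ _ _ _ _ _ _ _ _ _ _ _ _ hE1 hcD c1 c2 u hu1 hun hSu k hk
    rw [hSE ω hω, hSE ω' hω', ← hbb, ht]
    exact e1.trans (div_le_div_of_nonneg_right (mN z0 (by omega)) (by positivity))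

end Pool.P4I
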