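import Pool.Agent.H35.P4I.CellF
import Pool.Agent.H35.P4I.Geo
import Pool.Agent.H35.P4I.Own
import Pool.Agent.H35.P4I.Dep
import Pool.Agent.H35.P4I.Abl
import Pool.Agent.H35.P4I.H0
import Pool.Agent.H35.P4I.H2f
import Pool.Agent.H35.P4I.YF
import Pool.Agent.H35.P4I.Hs
import Pool.Agent.H35.P4I.Tf
import Pool.Agent.H35.P4I.NF
import Pool.Agent.H25.P4I.Lin
import Pool.Agent.H70.P4.Pth
import Pool.Agent.H14.P4.Cfr2

/-!
# P4I: the cell side
-/

set_option autoImplicit false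

namespace Pool.P4I

/-- **(GEO)** -/
theorem geo_thm : GeoStmt :=
  geo_of Pool.P4.pth_stmt Pool.P4.cfr_stmt Pool.P4IL.lin_stmt own_stmt dep_stmt abl_stmt

/-- **(CELLF)** -/
theorem cellF_thm : CellFStmt :=
  cellF_of geo_thm E.h0_stmt h2 yf_stmt tf_stmt N.nf_stmt hs Pool.P4T.tm_stmt

end Pool.P4I
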