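import Pool.Agent.H14.P4.Stm

/-!
# P4I: the cell side with coordinates above the target, definitions

As P4 (`Pool.Agent.H14.P4.Def`), all base slopes `lam = 1`, but some coordinates may have slopes
`gam l ≥ 1 + thd`, above the target. `sl`: slow coordinates, `gr`: all the others. `gp`: the
proper group, `gam l < 1 + thd`, affine on the line, it contains the target. `ab`: the coordinates
above: they are in the frames and in the labels, but in no data of the line and in no group.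

The places `L = (i + r', j - r)`, `R = (i - r', j + r)` as before. `L₃ = (i + (r + r'), j - r)` knows
all the coordinates which are not above, `R₃ = (i - (r + r'), j + r)` knows the own sheets of the
coordinates above.
-/

set_option autoImplicit false

namespace Pool.P4I

open Finset Real MvPolynomial
open Pool.Agent.H49.Ent Pool.Agent.H32.Dense Pool.STK Pool.STAT Pool.MIC.Frm Pool.MIC7 Pool.FRM
open Pool.GSD
open Pool.BFL (Pb)
open Pool.P4 (t0 rt pp PthC FraC thd sl gr bb ze zt z0 be nn)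

/-! ### The kinds of the coordinates and the steps -/

/-- The proper group. -/
def gp (gam : ℕ → ℝ) (n l : ℕ) : Prop := gr gam n l ∧ gam l < 1 + thd gam n

/-- The coordinates above. -/
def ab (gam : ℕ → ℝ) (n l : ℕ) : Prop := 1 ≤ l ∧ l < n ∧ 1 + thd gam n ≤ gam l

/-- The steps: `y` is the margin. -/
structure Stp (n : ℕ) (gam : ℕ → ℝ) (y r r' r'' a : ℕ) : Prop where
  s1 : ∀ l, sl gam n l → gam l * r + y ≤ r'
  s2 : ∀ l, gr gam n l → r' + y ≤ gam l * r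
  s2' : r' + y ≤ r
  s3 : ∀ l, gp gam n l → (gam l - 1) * r + y ≤ r'
  s4 : ∀ l, 1 ≤ l → l ≤ n → 2 * gam l * r + y ≤ r''
  s5 : r' ≤ r''
  s6 : y ≤ a
  s7 : r + r' ≤ r''

section Kinds

variable {gam : ℕ → ℝ} {n l : ℕ}

theorem gp_n (hn : 1 ≤ n) (h : gam n < 1 + thd gam n) : gp gam n n :=
  ⟨⟨hn, le_rfl, min_le_left _ _⟩, h⟩

theorem ab_gr (h : ab gam n l) : gr gam n l := by
  refine ⟨h.1, h.2.1.le, ?_⟩
  have := h.2.2
  linarith

theorem ab_gp (h : ab gam n l) : ¬ gp gam n l := fun h1 => absurd h1.2 (not_lt.2 h.2.2)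

theorem sl_gr (h : sl gam n l) : ¬ gr gam n l := fun h1 => absurd h1.2.2 (not_le.2 h.2.2)

theorem sl_ab (h : sl gam n l) : ¬ ab gam n l := fun h1 => sl_gr h (ab_gr h1)

/-- The group: proper or above. -/
theorem gr_cases (h : gam n < 1 + thd gam n) (hl : gr gam n l) : gp gam n l ∨ ab gam n l := by
  by_cases h1 : gam l < 1 + thd gam n
  · exact Or.inl ⟨hl, h1⟩
  · refine Or.inr ⟨hl.1, lt_of_le_of_ne hl.2.1 ?_, not_lt.1 h1⟩
    rintro rfl
    exact h1 h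

/-- The three kinds. -/
theorem kinds (h : gam n < 1 + thd gam n) (h1 : 1 ≤ l) (h2 : l ≤ n) :
    sl gam n l ∨ gp gam n l ∨ ab gam n l := by
  by_cases h3 : gr gam n l
  · exact Or.inr (gr_cases h h3)
  · refine Or.inl ⟨h1, lt_of_le_of_ne h2 ?_, ?_⟩
    · rintro rfl
      exact h3 ⟨h1, le_rfl, min_le_left _ _⟩
    · by_contra h4
      exact h3 ⟨h1, h2, not_lt.1 h4⟩

end Kinds

namespace Stp

variable {n : ℕ} {gam : ℕ → ℝ} {y r r' r'' a : ℕ}

/-- The coordinates which are not above at `L₃`. -/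
theorem t1 (h : Stp n gam y r r' r'' a) {l : ℕ} (h1 : 1 ≤ l) (h2 : l ≤ n)
    (hn : gam n < 1 + thd gam n) (hl : ¬ ab gam n l) : gam l * r + y ≤ (r + r' : ℕ) := by
  push_cast
  have hr : (0 : ℝ) ≤ r := Nat.cast_nonneg r
  rcases kinds hn h1 h2 with h3 | h3 | h3
  · have := h.s1 l h3
    linarith
  · have := h.s3 l h3
    nlinarith
  · exact absurd h3 hl

/-- The coordinates above at `R₃`. -/
theorem t2 (h : Stp n gam y r r' r'' a) {l : ℕ} (hl : ab gam n l) :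
    ((r + r' : ℕ) : ℝ) + y ≤ gam l * r := by
  push_cast
  have hr : (0 : ℝ) ≤ r := Nat.cast_nonneg r
  have hn : 1 ≤ n := by
    have := hl.1
    have := hl.2.1
    omega
  have h1 := h.s2 n ⟨hn, le_rfl, min_le_left _ _⟩
  have h2 := h.s2'
  have h3 := hl.2.2
  have h4 : ((r' : ℝ) + y) ≤ thd gam n * r := by
    unfold thd
    rcases min_cases (gam n) (1 : ℝ) with h5 | h5
    · rw [h5.1]
      exact h1
    · rw [h5.1, one_mul]
      exact_mod_cast h2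
  nlinarith

end Stp

open Classical in
/-- **The geometry of a cell** in a context `bb`, on the event `E`. `S` are the own slopes. All
the windows of length `2 ^ (-w)`, `w₀ + j z ≤ w ≤ w₀ + (j + 1) z`. -/
structure Geo (D : NDat2) (n K' J w₀ z i j r r' r'' : ℕ) (gam : ℕ → ℝ) (C τ : ℝ) (q : D.Ω → ℝ)
    (E : D.Ω → Prop) (P : D.Γ × D.Γ → ℕ → PN) (S : D.Ω → ℕ → ℕ → ℝ) : Prop where
  -- the frame
  tri : ∀ v, TriN (P v)
  deg : ∀ v l, (P v l).totalDegree ≤ K'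
  near : ∀ ω, 0 < q ω → E ω → ∀ i' ≤ i, ∀ l ≤ n,
    nrm (D.g i' j) (1 / 2) (chr (P (bb D i j r ω)) (D.Φ i' j ω l - P (bb D i j r ω) l)) ≤
      exp (C * z) / 2 ^ D.g i' j l ∧
    nrm (D.g (i' - 1) (j - r)) (1 / 2)
      (chr (P (bb D i j r ω)) (D.Φ (i' - 1) (j - r) ω l - P (bb D i j r ω) l)) ≤
      exp (C * z) / 2 ^ D.g (i' - 1) (j - r) l
  -- bounds
  bz : ∀ ω, 0 < q ω → E ω → ∀ l, 1 ≤ l → l ≤ n → |ze D i j r P ω l| ≤ exp (C * z)
  bt : ∀ ω, 0 < q ω → E ω → ∀ l, 1 ≤ l → l ≤ n → ∀ w, w₀ + j * z ≤ w → w ≤ w₀ + (j + 1) * z →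
    |z0 D J w i j r P ω l| ≤ exp (C * z) ∧ |be D J w i j r P ω l| ≤ exp (C * z)
  bS : ∀ ω, 0 < q ω → E ω → ∀ u k, |S ω u k| ≤ exp (C * z)
  tS : ∀ ω, 0 < q ω → E ω → ∀ u k, u ≤ k → S ω u k = 0
  -- the line: slow coordinates are constant, the proper group is affine
  slow : ∀ ω, 0 < q ω → E ω → ∀ l, sl gam n l → ∀ w, w₀ + j * z ≤ w → w ≤ w₀ + (j + 1) * z →
    |ze D i j r P ω l - z0 D J w i j r P ω l| ≤ τ
  grp : ∀ ω, 0 < q ω → E ω → ∀ l, gp gam n l → ∀ w, w₀ + j * z ≤ w → w ≤ w₀ + (j + 1) * z →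
    |ze D i j r P ω l - (z0 D J w i j r P ω l + rt D J w ω * be D J w i j r P ω l)| ≤ τ
  -- the context at `L` knows the slow coordinates and the velocities of the proper group
  left : ∀ ω ω', 0 < q ω → 0 < q ω' → E ω → E ω' → bb D i j r ω = bb D i j r ω' →
    D.c (i + r') (j - r) ω = D.c (i + r') (j - r) ω' → ∀ w, w₀ + j * z ≤ w →
    w ≤ w₀ + (j + 1) * z → D.T ω / 2 ^ (J - w) = D.T ω' / 2 ^ (J - w) →
    (∀ l, sl gam n l → |z0 D J w i j r P ω l - z0 D J w i j r P ω' l| ≤ τ) ∧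
    ∀ l, gp gam n l → |be D J w i j r P ω l - be D J w i j r P ω' l| ≤ τ
  -- the context at `L''` knows the line
  left2 : ∀ ω ω', 0 < q ω → 0 < q ω' → E ω → E ω' → bb D i j r ω = bb D i j r ω' →
    D.c (i + r'') (j - r) ω = D.c (i + r'') (j - r) ω' → ∀ w, w₀ + j * z ≤ w →
    w ≤ w₀ + (j + 1) * z → D.T ω / 2 ^ (J - w) = D.T ω' / 2 ^ (J - w) →
    ∀ l, 1 ≤ l → l ≤ n → |z0 D J w i j r P ω l - z0 D J w i j r P ω' l| ≤ τ ∧
      |be D J w i j r P ω l - be D J w i j r P ω' l| ≤ τ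
  -- the context at `L₃` knows the line, without the coordinates above
  left3 : ∀ ω ω', 0 < q ω → 0 < q ω' → E ω → E ω' → bb D i j r ω = bb D i j r ω' →
    D.c (i + (r + r')) (j - r) ω = D.c (i + (r + r')) (j - r) ω' → ∀ w, w₀ + j * z ≤ w →
    w ≤ w₀ + (j + 1) * z → D.T ω / 2 ^ (J - w) = D.T ω' / 2 ^ (J - w) →
    ∀ l, 1 ≤ l → l ≤ n → ¬ ab gam n l → |z0 D J w i j r P ω l - z0 D J w i j r P ω' l| ≤ τ ∧
      |be D J w i j r P ω l - be D J w i j r P ω' l| ≤ τ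
  -- the label at `R` knows the own sheet
  right : ∀ ω ω', 0 < q ω → 0 < q ω' → E ω → E ω' → bb D i j r ω = bb D i j r ω' →
    D.T ω = D.T ω' → D.s (i - r') (j + r) ω = D.s (i - r') (j + r) ω' →
    ∀ u, gr gam n u → |nn D n i j r gam P S ω u - nn D n i j r gam P S ω' u| ≤ τ ∧
      ∀ k, sl gam n k → |S ω u k - S ω' u k| ≤ τ
  -- the label at `R''` knows the own slopes
  right2 : ∀ ω ω', 0 < q ω → 0 < q ω' → E ω → E ω' → bb D i j r ω = bb D i j r ω' →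
    D.T ω = D.T ω' → D.s (i - r'') (j + r) ω = D.s (i - r'') (j + r) ω' →
    ∀ u, gr gam n u → ∀ k, sl gam n k → |S ω u k - S ω' u k| ≤ τ
  -- the label at `R₃` knows the own sheets of the coordinates above
  right3 : ∀ ω ω', 0 < q ω → 0 < q ω' → E ω → E ω' → bb D i j r ω = bb D i j r ω' →
    D.T ω = D.T ω' → D.s (i - (r + r')) (j + r) ω = D.s (i - (r + r')) (j + r) ω' → ∀ δ : ℝ,
    0 ≤ δ → (∀ k, 1 ≤ k → k < n → ¬ ab gam n k → |ze D i j r P ω k - ze D i j r P ω' k| ≤ δ) →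
    ∀ u, ab gam n u → |ze D i j r P ω u - ze D i j r P ω' u| ≤ exp (C * z) * (δ + τ)
  -- the own sheet at `R` is affine over the slow coordinates
  sheet : ∀ ω, 0 < q ω → E ω → ∀ Bx : ℝ, 1 ≤ Bx → ∀ b : ℕ → ℝ, b 0 = D.X ω 0 →
    (∀ k, sl gam n k → |nat (D.g i j) (P (bb D i j r ω)) b k| ≤ exp (Bx * z)) →
    (∀ u, gr gam n u → b u = eval b (D.Ψ (i - r') (j + r) ω u)) →
    ∀ u, gr gam n u → |nat (D.g i j) (P (bb D i j r ω)) b u - (nn D n i j r gam P S ω u +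
      ∑ k ∈ (range n).filter (sl gam n), S ω u k * nat (D.g i j) (P (bb D i j r ω)) b k)| ≤
      exp (C * Bx * z) * τ
  -- the coordinates over the frame and over the visible labels at `(i, j)`
  toV : ∀ ω ω', 0 < q ω → 0 < q ω' → E ω → E ω' → bb D i j r ω = bb D i j r ω' →
    D.T ω = D.T ω' → ∀ l, 1 ≤ l → l ≤ n → ∀ δ : ℝ, 0 ≤ δ →
    (∀ k, 1 ≤ k → k ≤ l → |ze D i j r P ω k - ze D i j r P ω' k| ≤ δ) →
    |2 ^ D.g i j l * D.sh i j ω l - 2 ^ D.g i j l * D.sh i j ω' l| ≤ exp (C * z) * δ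
  ofV : ∀ ω ω', 0 < q ω → 0 < q ω' → E ω → E ω' → bb D i j r ω = bb D i j r ω' →
    D.T ω = D.T ω' → ∀ l, 1 ≤ l → l ≤ n → ∀ δ : ℝ, 0 ≤ δ →
    (∀ k, 1 ≤ k → k ≤ l →
      |2 ^ D.g i j k * D.sh i j ω k - 2 ^ D.g i j k * D.sh i j ω' k| ≤ δ) →
    |ze D i j r P ω l - ze D i j r P ω' l| ≤ exp (C * z) * δ

end Pool.P4I
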