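import Pool.Agent.H35.P4I.Glue1
import Pool.Agent.H52.P4.Glue

/-!
# P4I: the label of a cell

`lab_cell`: as `Pool.P4.lab_cell`, with covectors on the proper group. The coefficients of the
coordinates above in the change of the chart are small (`cM_ab`).
-/

set_option autoImplicit false

namespace Pool.P4I

open Finset Real MvPolynomial
open Pool.Agent.H49.Ent Pool.Agent.H32.Dense Pool.STK Pool.STAT Pool.MIC.Frm Pool.FRM
open Pool.MIC.Fru (gw nat_gw nat_gw0 atT_tri atT_deg)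
open Pool.STAT.Glu (kN)
open Pool.LBL (Ld)
open Pool.BFL (Pb)
open Pool.P4

/-- The change of the chart is unipotent. -/
theorem cMx_uni {D : NDat2} {n K K' J a₀ w₀ z M w i j r r' r'' y X a : ℕ} {lam gam : ℕ → ℝ}
    {κ C₁ C C₀ : ℝ} {q : D.Ω → ℝ} {E : D.Ω → Prop} {P : D.Γ × D.Γ → ℕ → PN}
    {S : D.Ω → ℕ → ℕ → ℝ} {c k : ℕ} {ys : Fin k → ℕ} {gs : Fin c → ℕ}
    (H : Hyp D n K K' J a₀ w₀ z M w i j r r' r'' y X lam gam κ C₁ C q E P S ys gs)
    (hF : Fx D n (max K K') K K' J a₀ w₀ z M i j r r' a y lam gam κ C₁ C₀ q E P (sl gam n)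
      (gr gam n)) {ω : D.Ω} (hω : E ω) :
    Pool.LBL.Uni (cMx D J a₀ z i j r a E P gs (bb D i j r ω) (rcd D i j r a ω)) := by
  have tP := (hF.fr ω hω).2.2.tri
  have tW : TriN (vfr D i j r a E P (rcd D i j r a ω)) := by
    obtain ⟨ω', h1, h2, h3⟩ := vfr_ex i j r a P hω
    rw [h3]
    exact (hF.fr ω' h1).2.2.tri
  refine ⟨fun u => ?_, fun u v huv => ?_⟩
  · unfold cMx
    rw [Matrix.of_apply]
    unfold cM MM
    rw [kap_zero (atT_tri tP _) (atT_tri tW _) le_rfl, if_pos rfl, sub_zero]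
  · have hlt : gs u < gs v := H.gs_in huv
    unfold cMx
    rw [Matrix.of_apply]
    unfold cM MM
    rw [kap_zero (atT_tri tP _) (atT_tri tW _) hlt.le, if_neg hlt.ne, sub_zero]

open Classical in
/-- **The label of a cell.** -/
theorem lab_cell (n K K' c k : ℕ) (C₀ C₁ : ℝ) (hC₀ : 0 ≤ C₀) (hC₁ : 0 ≤ C₁) :
    ∃ F : ℝ, 0 ≤ F ∧ ∀ (C C₂ : ℝ) (gam : ℕ → ℝ), F ≤ C → 0 ≤ C₂ → ∃ c' : ℝ, 1 ≤ c' ∧
    ∀ (D : NDat2) (U : GnL D) (R : ℕ → Prop) (J a₀ w₀ z M w i j r r' r'' y a X Q A : ℕ)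
      (lam : ℕ → ℝ) (κ : ℝ) (q : D.Ω → ℝ) (E : D.Ω → Prop) (P : D.Γ × D.Γ → ℕ → PN)
      (S : D.Ω → ℕ → ℕ → ℝ) (ys : Fin k → ℕ) (gs : Fin c → ℕ),
      Hyp D n K K' J a₀ w₀ z M w i j r r' r'' y X lam gam κ C₁ C q E P S ys gs →
      Plc n gam y r r' r'' a M i j →
      Geo D n K' J w₀ z i j r r' r'' gam C₀ (exp (C₀ * z) / 2 ^ (y * z)) q E P S →
      (∀ ω, E ω → 0 < q ω ∧ GoodS D n K' w₀ z M C₀ ω ∧
        FrP D n K' z i j r C₀ (P (bb D i j r ω)) ω) →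
      U.Ok n K J a₀ w₀ z M Q R C₁ q →
      ∀ (Fz : Finset (Fin c)) (l : Fin c) (N δ ε η' : ℝ) (nD : D.Ξ × NPt D c k → Fin c → ℝ)
        (nL : LT D → Fin c → ℝ) (e0 e1 : LT D → Fin k → ℝ) (fL : LT D → Fin c → Fin c → ℝ)
        (p0 p1 : LT D → Fin c → Fin k → ℝ) (Ev : D.Ω → Prop), l ∉ Fz → 1 ≤ N → 0 ≤ δ → 0 ≤ ε →
        (∀ x, Ld l (nD x) ∧ ∀ u, |nD x u| ≤ N) → (∀ x, Ld l (nL x) ∧ ∀ u, |nL x u| ≤ N) →
        (∀ x a, |e0 x a| ≤ N ∧ |e1 x a| * 2 ^ X ≤ N) →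
        (∀ x, ∀ g ∈ Fz, Ld g (fL x g) ∧ ∀ u, |fL x g u| ≤ exp (C₂ * z)) →
        (∀ x, ∀ g ∈ Fz, ∀ a, |p0 x g a| ≤ exp (C₂ * z) ∧ |p1 x g a| ≤ exp (C₂ * z) ∧
          (gs g < ys a → p0 x g a = 0 ∧ p1 x g a = 0)) →
        η' ≤ Pb q Ev → (∀ ω, Ev ω → E ω) →
        (∀ ω, Ev ω → ∃ rr : Fin c → ℝ, (∀ g, |rr g| ≤ N) ∧ ∀ u,
          |Matrix.vecMul (nD (ptx D J w z i j r a X C E P S ys gs q ω))
            (MF i j r E (rcd D i j r a) (cMx D J a₀ z i j r a E P gs) ω) u -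
            nL (Lt D J w i j r ω) u + ∑ g ∈ Fz, rr g * fL (Lt D J w i j r ω) g u| ≤ δ) →
        (∀ ω, Ev ω → ∀ a, |∑ u, nL (Lt D J w i j r ω) u *
            ((Sv (c := c) (k := k) D z X C S ys gs ω u a : ℝ) / 2 ^ X) -
          e0 (Lt D J w i j r ω) a - e1 (Lt D J w i j r ω) a * ((tq J w X (D.T ω) : ℤ) : ℝ)| ≤
          δ) →
        (∀ ω, Ev ω → ∀ g ∈ Fz, ∀ a, |∑ u, fL (Lt D J w i j r ω) g u * S ω (gs u) (ys a) -
          (p0 (Lt D J w i j r ω) g a + p1 (Lt D J w i j r ω) g a * rt D J w ω)| ≤ ε) →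
        (∀ ω, Ev ω → ∀ g ∈ Fz, gs g < gs l → ∀ b : ℕ → ℝ,
          NBT D U z Q R i (j + 1) (a₀ + i * z) (gs l) ω b →
          |∑ u, fL (Lt D J w i j r ω) g u * (nat (D.g i j) (P (bb D i j r ω)) b (gs u) -
              ze D i j r P ω (gs u)) -
            ∑ a, (p0 (Lt D J w i j r ω) g a + p1 (Lt D J w i j r ω) g a * rt D J w ω) *
              (nat (D.g i j) (P (bb D i j r ω)) b (ys a) - ze D i j r P ω (ys a))| ≤ ε) →
        exp (c' * z) * (N * (1 / 2 ^ (y * z) + 1 / 2 ^ X + ε) + δ) * 2 ^ (A * z) ≤ 1 →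
        j + 1 < M ∧
          NewLabT D U J a₀ w₀ z Q R i (j + 1) (gs l) A (kN (max K K') 2) η' q := by
  obtain ⟨c₂, h2, nb⟩ := nbt_box n (max K K') C₀ C₁ hC₀ hC₁
  obtain ⟨c₁, h1, cs⟩ := cons3 n (max K K') C₀ C₁ c₂ hC₀ hC₁ h2
  obtain ⟨c₄, h4, cab⟩ := cM_ab n (max K K') C₀ C₁ hC₀ hC₁
  refine ⟨c₁ + c₄, by linarith, ?_⟩
  intro C C₂ gam hcC hC₂
  have hC0 : 0 ≤ C := by linarith
  have hc0 : (0 : ℝ) ≤ c := Nat.cast_nonneg c
  have hk0 : (0 : ℝ) ≤ k := Nat.cast_nonneg k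
  obtain ⟨d₁, hd₁⟩ : ∃ d₁ : ℝ, d₁ = c + C + C₂ := ⟨_, rfl⟩
  obtain ⟨d₂, hd₂⟩ : ∃ d₂ : ℝ, d₂ = C + 2 * c + c * (c + C₂) + C₂ + c₄ := ⟨_, rfl⟩
  obtain ⟨d₃, hd₃⟩ : ∃ d₃ : ℝ, d₃ = c + k + C₀ + C₂ + c₂ := ⟨_, rfl⟩
  obtain ⟨gm, hgm⟩ : ∃ gm : ℝ, gm = ∑ l ∈ range (n + 1), |gam l| := ⟨_, rfl⟩
  have d10 : 0 ≤ d₁ := by rw [hd₁]; positivity
  have d20 : 0 ≤ d₂ := by rw [hd₂]; positivity
  have d30 : 0 ≤ d₃ := by rw [hd₃]; positivity
  have gm0 : 0 ≤ gm := by rw [hgm]; positivity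
  refine ⟨d₁ + d₂ + d₃ + c₁ + 9 + gm + 2 * C₁, by linarith, ?_⟩
  intro D U R J a₀ w₀ z M w i j r r' r'' y a X Q A lam κ q E P S ys gs H hp hg gd hU Fz l N δ ε
    η' nD nL e0 e1 fL p0 p1 Ev hlF hN hδ hε hnD hnL he hfL hpp hη hEE hc3 hc4 haf hbx hnum
  have hF := H.fxI hp hg gd
  have hO := H.ok
  have hzr : (1 : ℝ) ≤ z := by exact_mod_cast H.z1
  have hN0 : 0 ≤ N := by linarith
  have hX0 : (0 : ℝ) < 2 ^ X := by positivity
  have hX1 : (1 : ℝ) ≤ 2 ^ X := one_le_pow₀ (by norm_num)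
  have hy0 : (0 : ℝ) < 2 ^ (y * z) := by positivity
  -- the place
  have hr1 : 1 ≤ r := by
    have := hp.stp.s2'
    have := hp.y1
    omega
  have hj1 : j + 1 < M := by
    have := H.j2
    omega
  have hiM : i < M := hF.iM
  have hm := H.ggs_n l
  have hya : (2 : ℝ) ^ (y * z) ≤ 2 ^ (a * z) :=
    pow_le_pow_right₀ (by norm_num) (Nat.mul_le_mul_right z hF.ya)
  have haz4 : exp (c₄ * z) ≤ 2 ^ (a * z) := by
    calc exp (c₄ * z) ≤ exp (C * z) := ex_mono (by linarith) hzr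
      _ ≤ exp (C * z) * 2 ^ X := le_mul_of_one_le_right (exp_pos _).le hX1
      _ ≤ _ := H.yX.trans hya
  have haz : exp (c₁ * z) ≤ 2 ^ (a * z) := by
    calc exp (c₁ * z) ≤ exp (C * z) := ex_mono (by linarith) hzr
      _ ≤ exp (C * z) * 2 ^ X := le_mul_of_one_le_right (exp_pos _).le hX1
      _ ≤ _ := H.yX.trans hya
  have hρ : (2 : ℝ) ^ w / 2 ^ (a₀ + i * z) ≤ 1 / 2 ^ (y * z) := by
    rw [div_le_div_iff₀ (by positivity) hy0, ← pow_add, one_mul]
    refine pow_le_pow_right₀ (by norm_num) ?_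
    have t1 := hO.thin
    have t2 := H.w2
    have t3 : (j + 1) * z ≤ (M + 1) * z := Nat.mul_le_mul_right z (by omega)
    have t4 : y * z ≤ i * z := Nat.mul_le_mul_right z (hF.ya.trans hF.ai)
    omega
  -- the data
  obtain ⟨L, hL⟩ : ∃ L : D.Ω → LT D, L = Lt D J w i j r := ⟨_, rfl⟩
  rw [← hL] at hc3 hc4 haf hbx
  choose! rr hrN hr3 using hc3
  obtain ⟨G, hG⟩ : ∃ G : ℝ, G = exp (C₂ * z) := ⟨_, rfl⟩
  have hG1 : 1 ≤ G := by rw [hG]; exact ex_one hC₂ hzr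
  have hG0 : 0 ≤ G := by linarith
  rw [← hG] at hfL hpp
  obtain ⟨F, hFd⟩ : ∃ F : Finset (Fin c), F = Fz.filter (fun g => g < l) := ⟨_, rfl⟩
  have hFz : ∀ g ∈ F, g ∈ Fz ∧ g < l := fun g hg => by
    rw [hFd, mem_filter] at hg
    exact hg
  have hfF : ∀ x, ∀ g ∈ F, ∀ u, l < u → fL x g u = 0 := fun x g hg u hu =>
    (hfL x g (hFz g hg).1).1.2 u ((hFz g hg).2.trans hu)
  have eCz : 1 ≤ exp (C * z) := ex_one hC0 hzr
  have eC0 : 1 ≤ exp (C₀ * z) := ex_one hC₀ hzr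
  have ec2 : 1 ≤ exp (c₂ * z) := ex_one (by linarith) hzr
  have ecc := ex_c c hzr
  have eck := ex_c k hzr
  -- the functions
  obtain ⟨nDf, hnDf⟩ : ∃ f : D.Ω → ℕ → ℝ, f = fun ω =>
    ug gs (nD (ptx D J w z i j r a X C E P S ys gs q ω)) := ⟨_, rfl⟩
  obtain ⟨nv, hnv⟩ : ∃ f : D.Ω → ℕ → ℝ, f = fun ω => ug gs (nL (L ω)) := ⟨_, rfl⟩
  obtain ⟨b0, hb0⟩ : ∃ f : D.Ω → ℕ → ℝ, f = fun ω =>
    ug ys (fun a => exp (C * z) * e0 (L ω) a) := ⟨_, rfl⟩
  obtain ⟨b1, hb1⟩ : ∃ f : D.Ω → ℕ → ℝ, f = fun ω =>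
    ug ys (fun a => exp (C * z) * 2 ^ X * e1 (L ω) a) := ⟨_, rfl⟩
  obtain ⟨nvt, hnvt⟩ : ∃ f : D.Ω → ℕ → ℝ, f = fun ω =>
    ug gs (fun u => nL (L ω) u - ∑ g ∈ F, rr ω g * fL (L ω) g u) := ⟨_, rfl⟩
  obtain ⟨b0t, hb0t⟩ : ∃ f : D.Ω → ℕ → ℝ, f = fun ω =>
    ug ys (fun a => exp (C * z) * e0 (L ω) a - ∑ g ∈ F, rr ω g * p0 (L ω) g a) := ⟨_, rfl⟩
  obtain ⟨b1t, hb1t⟩ : ∃ f : D.Ω → ℕ → ℝ, f = fun ω =>
    ug ys (fun a => exp (C * z) * 2 ^ X * e1 (L ω) a - ∑ g ∈ F, rr ω g * p1 (L ω) g a) :=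
    ⟨_, rfl⟩
  -- the numbers
  obtain ⟨N₀, hN₀⟩ : ∃ N₀ : ℝ, N₀ = exp (d₁ * z) * N := ⟨_, rfl⟩
  obtain ⟨δ₀, hδ₀⟩ : ∃ δ₀ : ℝ, δ₀ = exp (d₂ * z) * (δ + N / 2 ^ X + N * ε +
    N * (1 / 2 ^ (y * z))) := ⟨_, rfl⟩
  obtain ⟨δT, hδT⟩ : ∃ δT : ℝ, δT = exp (d₃ * z) * (N * (ε + 1 / 2 ^ (y * z))) := ⟨_, rfl⟩
  have hδ₀0 : 0 ≤ δ₀ := by rw [hδ₀]; positivity
  have hδT0 : 0 ≤ δT := by rw [hδT]; positivity
  have ed1 : exp (d₁ * z) = exp (c * z) * exp (C * z) * G := by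
    rw [hd₁, hG, ← exp_add, ← exp_add]
    ring_nf
  have hNN₀ : N ≤ N₀ := by
    rw [hN₀]
    exact le_mul_of_one_le_left hN0 (ex_one d10 hzr)
  have hbN : ∀ x y : ℝ, |x| ≤ exp (C * z) * N → |y| ≤ c * (N * G) → |x - y| ≤ N₀ := by
    intro x y hx hy
    rw [hN₀, ed1]
    exact gl_N hN0 hG1 eCz hc0 ecc hx hy
  have hsum : ∀ ω, Ev ω → ∀ x : Fin c → ℝ, (∀ g ∈ F, |x g| ≤ G) →
      |∑ g ∈ F, rr ω g * x g| ≤ c * (N * G) := by
    intro ω hω x hx
    refine sum_le_c (by positivity) fun g hg => ?_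
    rw [abs_mul]
    exact mul_le_mul (hrN ω hω g) (hx g hg) (abs_nonneg _) hN0
  have he1 : ∀ x a, |2 ^ X * e1 x a| ≤ N := fun x a => by
    rw [abs_mul, abs_of_pos hX0, mul_comm]
    exact (he x a).2
  have gsi := H.gs_in.injective
  -- the time
  have hrt : ∀ ω, |rt D J w ω| ≤ 1 ∧ |(tq J w X (D.T ω) : ℝ) - 2 ^ X * rt D J w ω| ≤ 1 :=
    fun ω => rt_near (hO.X_zero ω) H.gwX
  -- the functional of the line on the slopes
  have line : ∀ ω, Ev ω → ∀ a, |∑ u, nL (L ω) u * S ω (gs u) (ys a) -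
      (exp (C * z) * e0 (L ω) a + exp (C * z) * 2 ^ X * e1 (L ω) a * rt D J w ω)| ≤
      exp (C * z) * (δ + (c + 1) * (N / 2 ^ X)) := by
    intro ω hω a
    have hEω := hEE ω hω
    have hqω := (gd ω hEω).1
    refine dig_fun (t := (tq J w X (D.T ω) : ℤ)) (s := fun u => S ω (gs u) (ys a))
      (f := nL (L ω)) hC0 (fun u => ?_) (hnL _).2 hN0 (he _ a).2 ?_ (hc4 ω hω a)
    · exact H.geo.bS ω hqω hEω (gs u) (ys a)
    · have := (hrt ω).2
      push_cast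
      exact this
  have hls : exp (C * z) * (δ + (c + 1) * (N / 2 ^ X)) ≤
      exp ((C + c) * z) * (δ + N / 2 ^ X) := by
    have t0 : exp ((C + c) * z) = exp (C * z) * exp (c * z) := by
      rw [← exp_add]
      ring_nf
    rw [t0, mul_assoc]
    refine mul_le_mul_of_nonneg_left ?_ (exp_pos _).le
    have t1 : δ ≤ exp (c * z) * δ := le_mul_of_one_le_left hδ (by linarith)
    have t2 : (c + 1) * (N / 2 ^ X) ≤ exp (c * z) * (N / 2 ^ X) :=
      mul_le_mul_of_nonneg_right ecc (by positivity)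
    linarith
  have hδa : exp ((C + c) * z) * (δ + N / 2 ^ X) + c * (N * ε) ≤ δ₀ := by
    rw [hδ₀]
    have t1 : exp ((C + c) * z) ≤ exp (d₂ * z) := ex_mono (by
      rw [hd₂]
      have : 0 ≤ c * (c + C₂) := by positivity
      linarith) hzr
    have t2 : (c : ℝ) ≤ exp (d₂ * z) := by
      have : exp (c * z) ≤ exp (d₂ * z) := ex_mono (by
        rw [hd₂]
        have : 0 ≤ c * (c + C₂) := by positivity
        linarith) hzr
      linarith
    have t3 := mul_le_mul_of_nonneg_right t1 (show 0 ≤ δ + N / 2 ^ X by positivity)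
    have t4 := mul_le_mul_of_nonneg_right t2 (show 0 ≤ N * ε by positivity)
    have t5 : 0 ≤ exp (d₂ * z) * (N * (1 / 2 ^ (y * z))) := by positivity
    linarith
  have hδb : exp (C * z) * (δ + (c + 1) * (N / 2 ^ X)) ≤ δ₀ := by
    have : 0 ≤ c * (N * ε) := by positivity
    linarith
  have hδc : δ + c * ((1 + c * G) ^ c * δ * G) ≤ δ₀ := by
    have t5 : δ + c * ((1 + c * G) ^ c * δ * G) ≤ exp (d₂ * z) * δ := by
      rw [hG]
      exact gl_d hzr hC₂ hδ (by rw [hd₂]; linarith)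
    refine t5.trans ?_
    rw [hδ₀]
    refine mul_le_mul_of_nonneg_left ?_ (exp_pos _).le
    have : 0 ≤ N / 2 ^ X + N * ε + N * (1 / 2 ^ (y * z)) := by positivity
    linarith
  have hδd : c * (N * (exp (c₄ * z) / 2 ^ (y * z))) ≤ δ₀ := by
    rw [hδ₀]
    have t1 : exp (c * z) * exp (c₄ * z) ≤ exp (d₂ * z) := by
      rw [← exp_add, ← add_mul]
      refine ex_mono ?_ hzr
      rw [hd₂]
      have : 0 ≤ c * (c + C₂) := by positivity
      linarith
    have t2 : (c : ℝ) * exp (c₄ * z) ≤ exp (d₂ * z) :=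
      (mul_le_mul_of_nonneg_right (by linarith) (exp_pos _).le).trans t1
    have t3 : 0 ≤ N * (1 / 2 ^ (y * z)) := by positivity
    have t4 := mul_le_mul_of_nonneg_right t2 t3
    have t5 : 0 ≤ exp (d₂ * z) * (δ + N / 2 ^ X + N * ε) := by positivity
    calc c * (N * (exp (c₄ * z) / 2 ^ (y * z))) =
          c * exp (c₄ * z) * (N * (1 / 2 ^ (y * z))) := by ring
      _ ≤ _ := by linarith
  -- the samples
  have hCvt : ∀ ω, Ev ω → Cvt D n J a₀ z i j r r' a y (gs l) w C₀ N₀ δ₀ E P (sl gam n)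
      (gr gam n) (nn D n i j r gam P S) S (t0 D J w) nDf nvt b0t b1t ω := by
    intro ω hω
    have hEω := hEE ω hω
    have hqω := (gd ω hEω).1
    refine
      { mem := hEω
        tS := hg.tS ω hqω hEω
        sheet := hg.sheet ω hqω hEω
        bn := ?_
        bv := ?_
        b0 := ?_
        b1 := ?_
        tm := (hrt ω).1
        c3 := ?_
        c4 := ?_ }
    · intro v
      rw [hnDf]
      exact ug_bd gsi (hN0.trans hNN₀) (fun u => ((hnD _).2 u).trans hNN₀) v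
    · intro v
      rw [hnvt]
      refine ug_bd gsi (hN0.trans hNN₀) (fun u => hbN _ _ ?_ ?_) v
      · exact ((hnL _).2 u).trans (le_mul_of_one_le_left hN0 eCz)
      · exact hsum ω hω _ fun g hg => (hfL _ g (hFz g hg).1).2 u
    · intro v
      rw [hb0t]
      refine ug_bd H.ys_in (hN0.trans hNN₀) (fun u => hbN _ _ ?_ ?_) v
      · rw [abs_mul, abs_of_pos (exp_pos _)]
        exact mul_le_mul_of_nonneg_left (he _ u).1 (exp_pos _).le
      · exact hsum ω hω _ fun g hg => (hpp _ g (hFz g hg).1 u).1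
    · intro v
      rw [hb1t]
      refine ug_bd H.ys_in (hN0.trans hNN₀) (fun u => hbN _ _ ?_ ?_) v
      · rw [mul_assoc, abs_mul, abs_of_pos (exp_pos _)]
        exact mul_le_mul_of_nonneg_left (he1 _ u) (exp_pos _).le
      · exact hsum ω hω _ fun g hg => (hpp _ g (hFz g hg).1 u).2.1
    · intro u hu hul
      rcases H.gr_cs hu with ⟨v, rfl⟩ | hab
      swap
      · -- above
        rw [hnDf, hnvt]
        simp only
        rw [H.sum_ug (l := l) (fun i hi => (hnD _).1.2 i hi) fun v' =>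
          cM D J a₀ z i j r a E P (bb D i j r ω) (rcd D i j r a ω) v' u,
          ug_off _ (fun ⟨i', hi'⟩ => ab_gp hab (hi' ▸ H.gs_gp i')), sub_zero]
        refine le_trans (sum_le_c (by positivity) fun g _ => ?_) hδd
        rw [abs_mul]
        refine mul_le_mul ((hnD _).2 g) ?_ (abs_nonneg _) hN0
        exact cab D K K' J a₀ w₀ z M i j r r' r'' a y lam gam κ q E P _ _ hF hp.stp H.gamn haz4 ω
          hEω (gs g) (H.ggs_n g).1 (H.ggs_n g).2 (fun h => ab_gp h (H.gs_gp g)) u hab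
      rw [hnDf, hnvt]
      simp only
      rw [H.sum_ug (l := l) (fun i hi => (hnD _).1.2 i hi) fun v' =>
        cM D J a₀ z i j r a E P (bb D i j r ω) (rcd D i j r a ω) v' (gs v), ug_gs gsi]
      have k1 := cut_sum (l := l) (r := rr ω) (f := fL (L ω)) (v := fun u =>
        Matrix.vecMul (nD (ptx D J w z i j r a X C E P S ys gs q ω))
          (MF i j r E (rcd D i j r a) (cMx D J a₀ z i j r a E P gs) ω) u - nL (L ω) u) hG0 hδ hlF
        (fun g hg => hfL _ g hg) (fun u hu => by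
          have hM : Pool.LBL.Uni (MF i j r E (rcd D i j r a) (cMx D J a₀ z i j r a E P gs) ω) := by
            unfold MF
            rw [if_pos hEω]
            exact cMx_uni H hF hEω
          rw [(hM.ld (hnD _).1).2 u hu, (hnL _).1.2 u hu, sub_zero]) (hr3 ω hω) v
      rw [← hFd] at k1
      have e2 : Matrix.vecMul (nD (ptx D J w z i j r a X C E P S ys gs q ω))
          (MF i j r E (rcd D i j r a) (cMx D J a₀ z i j r a E P gs) ω) v =
          ∑ u, nD (ptx D J w z i j r a X C E P S ys gs q ω) u *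
            cM D J a₀ z i j r a E P (bb D i j r ω) (rcd D i j r a ω) (gs u) (gs v) := by
        unfold MF
        rw [if_pos hEω]
        rfl
      rw [e2] at k1
      refine le_trans (le_of_eq ?_) (k1.trans hδc)
      congr 1
      ring
    · intro k' hk' hk'l
      obtain ⟨a', rfl⟩ := H.ys_on k' hk'
      rw [hnvt, hb0t, hb1t]
      simp only
      rw [H.sum_ug (l := l) (f := fun u => nL (L ω) u - ∑ g ∈ F, rr ω g * fL (L ω) g u)
        (fun u hu => by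
          rw [(hnL _).1.2 u hu, Finset.sum_eq_zero fun g hg => by
            rw [hfF _ g hg u hu, mul_zero], sub_zero]) fun u => S ω u (ys a'), ug_gs H.ys_in,
        ug_gs H.ys_in, lin_split]
      have k1 := line ω hω a'
      have k2 : |∑ g ∈ F, rr ω g * (∑ u, fL (L ω) g u * S ω (gs u) (ys a') -
          (p0 (L ω) g a' + p1 (L ω) g a' * rt D J w ω))| ≤ c * (N * ε) := by
        refine sum_le_c (by positivity) fun g hg => ?_
        rw [abs_mul]
        exact mul_le_mul (hrN ω hω g) (haf ω hω g (hFz g hg).1 a') (abs_nonneg _) hN0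
      have e2 : 2 ^ w * (D.X ω 0 - t0 D J w ω) = rt D J w ω := rfl
      rw [e2]
      have e3 : ∑ u, nL (L ω) u * S ω (gs u) (ys a') -
          ∑ g ∈ F, rr ω g * ∑ u, fL (L ω) g u * S ω (gs u) (ys a') -
          (exp (C * z) * e0 (L ω) a' - ∑ g ∈ F, rr ω g * p0 (L ω) g a' +
            (exp (C * z) * 2 ^ X * e1 (L ω) a' - ∑ g ∈ F, rr ω g * p1 (L ω) g a') *
              rt D J w ω) =
          (∑ u, nL (L ω) u * S ω (gs u) (ys a') -
            (exp (C * z) * e0 (L ω) a' + exp (C * z) * 2 ^ X * e1 (L ω) a' * rt D J w ω)) -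
          ∑ g ∈ F, rr ω g * (∑ u, fL (L ω) g u * S ω (gs u) (ys a') -
            (p0 (L ω) g a' + p1 (L ω) g a' * rt D J w ω)) := by
        have e4 : ∑ g ∈ F, rr ω g * (∑ u, fL (L ω) g u * S ω (gs u) (ys a') -
            (p0 (L ω) g a' + p1 (L ω) g a' * rt D J w ω)) =
            ∑ g ∈ F, rr ω g * ∑ u, fL (L ω) g u * S ω (gs u) (ys a') -
            (∑ g ∈ F, rr ω g * p0 (L ω) g a' +
              (∑ g ∈ F, rr ω g * p1 (L ω) g a') * rt D J w ω) := by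
          rw [Finset.sum_mul, ← Finset.sum_add_distrib, ← Finset.sum_sub_distrib]
          exact Finset.sum_congr rfl fun g _ => by ring
        rw [e4]
        ring
      rw [e3]
      refine (abs_sub _ _).trans ((add_le_add (k1.trans hls) k2).trans hδa)
  have hCv4 : ∀ ω, Ev ω → Cv4 D n z i j r r' y (gs l) w C₀ N₀ δ₀ E P (sl gam n)
      (gr gam n) (nn D n i j r gam P S) S (t0 D J w) nv b0 b1 ω := by
    intro ω hω
    have hEω := hEE ω hω
    have hqω := (gd ω hEω).1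
    have hN₀' : exp (C * z) * N ≤ N₀ := by
      have := hbN (exp (C * z) * N) 0 (le_of_eq (abs_of_nonneg (by positivity)))
        (by rw [abs_zero]; positivity)
      rw [sub_zero, abs_of_nonneg (by positivity)] at this
      exact this
    refine
      { mem := hEω
        tS := hg.tS ω hqω hEω
        sheet := hg.sheet ω hqω hEω
        bv := ?_
        b0 := ?_
        b1 := ?_
        c4 := ?_ }
    · intro v
      rw [hnv]
      exact ug_bd gsi (hN0.trans hNN₀) (fun u => ((hnL _).2 u).trans hNN₀) v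
    · intro v
      rw [hb0]
      refine ug_bd H.ys_in (hN0.trans hNN₀) (fun u => ?_) v
      rw [abs_mul, abs_of_pos (exp_pos _)]
      exact (mul_le_mul_of_nonneg_left (he _ u).1 (exp_pos _).le).trans hN₀'
    · intro v
      rw [hb1]
      refine ug_bd H.ys_in (hN0.trans hNN₀) (fun u => ?_) v
      rw [mul_assoc, abs_mul, abs_of_pos (exp_pos _)]
      exact (mul_le_mul_of_nonneg_left (he1 _ u) (exp_pos _).le).trans hN₀'
    · intro k' hk' hk'l
      obtain ⟨a', rfl⟩ := H.ys_on k' hk'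
      rw [hnv, hb0, hb1]
      simp only
      rw [H.sum_ug (l := l) (f := nL (L ω)) (fun u hu => (hnL _).1.2 u hu)
        fun u => S ω u (ys a'), ug_gs H.ys_in, ug_gs H.ys_in]
      exact (line ω hω a').trans hδb
  -- the thin box
  have hthin : ∀ ω, Ev ω → ∀ b, NBT D U z Q R i (j + 1) (a₀ + i * z) (gs l) ω b →
      |LM D i j r P (sl gam n) (gr gam n) (gs l) w (nn D n i j r gam P S) (t0 D J w) nvt b0t b1t
          ω b -
        LM D i j r P (sl gam n) (gr gam n) (gs l) w (nn D n i j r gam P S) (t0 D J w) nv b0 b1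
          ω b| ≤ δT := by
    intro ω hω b hb
    have hEω := hEE ω hω
    have hqω := (gd ω hEω).1
    have hbox := nb D K K' J a₀ w₀ z M i j r r' a y lam gam κ q E P (sl gam n) (gr gam n) hF hj1
      H.gam0 U R Q hU ω hEω (gs l) hm.2 b hb
    rw [H.dif_LM (l := l) (F := F) (v := nL (L ω)) (f := fL (L ω)) (rr := rr ω)
      (g0 := fun a => exp (C * z) * e0 (L ω) a)
      (g1 := fun a => exp (C * z) * 2 ^ X * e1 (L ω) a) (p0 := p0 (L ω)) (p1 := p1 (L ω))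
      (fun u hu => (hnL _).1.2 u hu) (hfF _) (by rw [hnv]) (by rw [hb0]) (by rw [hb1])
      (by rw [hnvt]) (by rw [hb0t]) (by rw [hb1t]) b, abs_neg]
    have k1 : |∑ g ∈ F, rr ω g * (∑ u, fL (L ω) g u *
        (nat (D.g i j) (P (bb D i j r ω)) b (gs u) - (ze D i j r P ω (gs u) -
          ∑ a, S ω (gs u) (ys a) * ze D i j r P ω (ys a))) -
        ∑ a ∈ univ.filter (fun a => ys a < gs l), (p0 (L ω) g a + p1 (L ω) g a *
          (2 ^ w * (b 0 - t0 D J w ω))) * nat (D.g i j) (P (bb D i j r ω)) b (ys a))| ≤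
        c * (N * (ε + k * (ε * exp (C₀ * z)) + k * (G * (1 / 2 ^ (y * z)) * exp (c₂ * z)))) := by
      refine sum_le_c (by positivity) fun g hgF => ?_
      rw [abs_mul]
      have hgl : gs g < gs l := H.gs_in (hFz g hgF).2
      refine mul_le_mul (hrN ω hω g) ?_ (abs_nonneg _) hN0
      refine brk_bd (A := univ.filter (fun a => ys a < gs l)) (f := fL (L ω) g)
        (s := fun u a => S ω (gs u) (ys a)) (P0 := p0 (L ω) g) (P1 := p1 (L ω) g)
        (xb := fun u => nat (D.g i j) (P (bb D i j r ω)) b (gs u))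
        (xe := fun u => ze D i j r P ω (gs u))
        (yb := fun a => nat (D.g i j) (P (bb D i j r ω)) b (ys a))
        (ye := fun a => ze D i j r P ω (ys a)) (t := rt D J w ω)
        (tb := 2 ^ w * (b 0 - t0 D J w ω)) (ρ := 1 / 2 ^ (y * z)) (ε := ε) (G := G)
        (B := exp (c₂ * z)) (B₀ := exp (C₀ * z)) hε (exp_pos _).le hG0 (exp_pos _).le
        (by positivity) ?_ ?_ ?_ ?_ ?_ ?_ ?_
      · intro a' ha'
        rw [mem_filter] at ha'
        push Not at ha'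
        have := ha' (mem_univ _)
        exact (hpp _ g (hFz g hgF).1 a').2.2 (by omega)
      · exact fun a' => (hpp _ g (hFz g hgF).1 a').2.1
      · intro a' ha'
        rw [mem_filter] at ha'
        exact hbox (ys a') ha'.2
      · exact fun a' => hg.bz ω hqω hEω (ys a') (H.gys_n a').1 (H.gys_n a').2
      · have e2 : rt D J w ω - 2 ^ w * (b 0 - t0 D J w ω) = - (2 ^ w * (b 0 - D.X ω 0)) := by
          unfold rt
          ring
        rw [e2, abs_neg, abs_mul, abs_of_pos (by positivity)]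
        calc (2 : ℝ) ^ w * |b 0 - D.X ω 0| ≤ 2 ^ w * (1 / 2 ^ (a₀ + i * z)) :=
              mul_le_mul_of_nonneg_left hb.1 (by positivity)
          _ = 2 ^ w / 2 ^ (a₀ + i * z) := by ring
          _ ≤ _ := hρ
      · exact haf ω hω g (hFz g hgF).1
      · exact hbx ω hω g (hFz g hgF).1 hgl b hb
    refine k1.trans ?_
    rw [hδT]
    obtain ⟨t, ht⟩ : ∃ t : ℝ, t = 1 / 2 ^ (y * z) := ⟨_, rfl⟩
    have ht0 : 0 ≤ t := by rw [ht]; positivity
    rw [← ht]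
    have s1 : ε + k * (ε * exp (C₀ * z)) + k * (G * t * exp (c₂ * z)) ≤
        (k + 1) * (exp (C₀ * z) * G * exp (c₂ * z) * (ε + t)) :=
      gl_t hε ht0 hk0 eC0 hG1 ec2
    have s2 : (k + 1) * (exp (C₀ * z) * G * exp (c₂ * z) * (ε + t)) ≤
        exp (k * z) * (exp (C₀ * z) * G * exp (c₂ * z) * (ε + t)) :=
      mul_le_mul_of_nonneg_right eck (by positivity)
    have s3 : exp (d₃ * z) = exp (c * z) * (exp (k * z) * (exp (C₀ * z) * G * exp (c₂ * z))) := by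
      rw [hd₃, hG, ← exp_add, ← exp_add, ← exp_add, ← exp_add]
      ring_nf
    have s4 : (c : ℝ) ≤ exp (c * z) := by linarith
    rw [s3]
    have s5 : 0 ≤ N * (exp (k * z) * (exp (C₀ * z) * G * exp (c₂ * z) * (ε + t))) := by
      positivity
    calc _ ≤ c * (N * (exp (k * z) * (exp (C₀ * z) * G * exp (c₂ * z) * (ε + t)))) :=
          mul_le_mul_of_nonneg_left (mul_le_mul_of_nonneg_left (s1.trans s2) hN0) hc0
      _ ≤ exp (c * z) * (N * (exp (k * z) * (exp (C₀ * z) * G * exp (c₂ * z) * (ε + t)))) :=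
          mul_le_mul_of_nonneg_right s4 s5
      _ = _ := by ring
  -- the conclusion
  refine ⟨hj1, ?_⟩
  have hiM' : i ≤ M := hiM.le
  have hjM : j + 1 ≤ M := hj1.le
  refine cs D K K' J a₀ w₀ z M i j r r' a y lam gam κ q E P (sl gam n) (gr gam n) hF haz hj1
    H.gam0 (gs l) w A N₀ δ₀ (1 / 2 ^ (y * z)) δT η' (nn D n i j r gam P S) S (t0 D J w) nDf nvt
    b0t b1t nv b0 b1 Ev (fun ω b => NBT D U z Q R i (j + 1) (a₀ + i * z) (gs l) ω b) hm.2
    (H.gs_gp l).1 H.w1 hδ₀0 hδT0 (hN.trans hNN₀) hρ hη hCvt hCv4 ?_ ?_ ?_ ?_ ?_ ?_ ?_ hthin ?_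
  · intro ω hω
    rw [hnv]
    simp only
    rw [ug_gs gsi]
    exact (hnL _).1.1
  · intro ω ω' hω hω' h
    rw [hnDf]
    simp only
    rw [ptx_eq hO hiM' (by omega) (fun ω h => (gd ω h).1) P S ys gs (hEE ω hω) (hEE ω' hω') h]
  · intro ω ω' hω hω' h
    have hbb := bb_wn hO hiM' hjM r ω ω' (gd ω (hEE ω hω)).1 (gd ω' (hEE ω' hω')).1 h
    have hw : D.wn J w ω = D.wn J w ω' := by
      simp only [NDat2.wn, Prod.mk.injEq] at h ⊢
      refine ⟨h.1, win_le H.w2 ?_ h.2⟩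
      have t1 := hO.thin
      have t2 := hO.top
      have t3 : (j + 1) * z ≤ (M + 1) * z := Nat.mul_le_mul_right z (by omega)
      omega
    have hLL : L ω = L ω' := by
      rw [hL]
      unfold Lt
      rw [hbb, hw]
    have hT : D.T ω / 2 ^ (J - w) = D.T ω' / 2 ^ (J - w) := (Prod.ext_iff.1 hw).2
    rw [hnv, hb0, hb1]
    simp only
    refine ⟨?_, by rw [hLL], by rw [hLL], by rw [hLL]⟩
    unfold t0
    rw [hT]
  · intro ω hω
    exact nbt_X hO hU hiM' hjM hm.2 (gd ω (hEE ω hω)).1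
  · intro ω b hω hb
    exact ⟨hb.1, nb D K K' J a₀ w₀ z M i j r r' a y lam gam κ q E P (sl gam n) (gr gam n) hF hj1
      H.gam0 U R Q hU ω (hEE ω hω) (gs l) hm.2 b hb⟩
  · intro ω b t hω hb
    exact nbt_up hO hU hm.1 hb t
  · intro ω ω' hω hω' h b hb
    exact nbt_pt hO hiM' hjM (gd ω (hEE ω hω)).1 (gd ω' (hEE ω' hω')).1 h hb
  · -- the numbers
    obtain ⟨W, hW⟩ : ∃ W : ℝ, W = N * (1 / 2 ^ (y * z) + 1 / 2 ^ X + ε) + δ := ⟨_, rfl⟩
    have hW0 : 0 ≤ W := by rw [hW]; positivity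
    rw [← hW] at hnum
    have a1 : δT ≤ exp (d₃ * z) * W := by
      rw [hδT]
      refine mul_le_mul_of_nonneg_left ?_ (exp_pos _).le
      have : 0 ≤ N * (1 / 2 ^ X) := by positivity
      rw [hW]
      nlinarith
    have a2 : N₀ * (1 / 2 ^ (y * z) + 1 / 2 ^ (y * z)) ≤ 2 * exp (d₁ * z) * W := by
      have : N * (1 / 2 ^ (y * z)) ≤ W := by
        have : 0 ≤ N * (1 / 2 ^ X) + N * ε := by positivity
        rw [hW]
        nlinarith
      have b1 := mul_le_mul_of_nonneg_left this (exp_pos (d₁ * z)).le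
      rw [hN₀]
      linarith
    have a3 : δ₀ ≤ exp (d₂ * z) * W := by
      rw [hδ₀]
      refine mul_le_mul_of_nonneg_left ?_ (exp_pos _).le
      have : 0 ≤ N * (1 / 2 ^ (y * z)) := by positivity
      have e2 : N / 2 ^ X = N * (1 / 2 ^ X) := by ring
      rw [hW, e2]
      nlinarith
    have a4 : 2 * (2 * δT + exp (c₁ * z) * (N₀ * (1 / 2 ^ (y * z) + 1 / 2 ^ (y * z)) + δ₀)) ≤
        exp ((d₁ + d₂ + d₃ + c₁ + 9) * z) * W := by
      have e2 : exp ((d₁ + d₂ + d₃ + c₁ + 9) * z) =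
          exp (d₁ * z) * exp (d₂ * z) * exp (d₃ * z) * exp (c₁ * z) * exp (9 * z) := by
        rw [← exp_add, ← exp_add, ← exp_add, ← exp_add]
        ring_nf
      rw [e2]
      exact gl_f hW0 (ex_one d10 hzr) (ex_one d20 hzr) (ex_one d30 hzr)
        (ex_one (by linarith) hzr) (by
          have := Real.add_one_le_exp (9 * (z : ℝ))
          linarith) a1 a2 a3
    have a5 := g_next hO hC₁ (i := i) (j := j) hiM' hjM hm.1 hm.2 (H.gam0 _)
    have a6 : exp ((gam (gs l) + 2 * C₁) * z) ≤ exp ((gm + 2 * C₁) * z) := by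
      refine ex_mono ?_ hzr
      have : |gam (gs l)| ≤ gm := by
        rw [hgm]
        exact Finset.single_le_sum (f := fun l => |gam l|) (fun _ _ => abs_nonneg _)
          (mem_range.2 (by omega))
      have := le_abs_self (gam (gs l))
      linarith
    have h2g : (0 : ℝ) < 2 ^ D.g i j (gs l) := by positivity
    have a7 : (2 : ℝ) ^ (D.g i (j + 1) (gs l) + A * z) ≤
        2 ^ D.g i j (gs l) * exp ((gm + 2 * C₁) * z) * 2 ^ (A * z) := by
      rw [pow_add]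
      refine mul_le_mul_of_nonneg_right (a5.trans ?_) (by positivity)
      exact mul_le_mul_of_nonneg_left a6 h2g.le
    have a8 : 0 ≤ 2 * (2 * δT + exp (c₁ * z) * (N₀ * (1 / 2 ^ (y * z) + 1 / 2 ^ (y * z)) +
        δ₀)) := by
      have : 0 ≤ N₀ := hN0.trans hNN₀
      positivity
    refine (mul_le_mul a4 a7 (by positivity) (by positivity)).trans ?_
    have e3 : exp ((d₁ + d₂ + d₃ + c₁ + 9 + gm + 2 * C₁) * z) =
        exp ((d₁ + d₂ + d₃ + c₁ + 9) * z) * exp ((gm + 2 * C₁) * z) := by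
      rw [← exp_add]
      ring_nf
    rw [e3] at hnum
    calc _ = 2 ^ D.g i j (gs l) * (exp ((d₁ + d₂ + d₃ + c₁ + 9) * z) *
          exp ((gm + 2 * C₁) * z) * W * 2 ^ (A * z)) := by ring
      _ ≤ 2 ^ D.g i j (gs l) * 1 := mul_le_mul_of_nonneg_left hnum h2g.le
      _ = _ := mul_one _

end Pool.P4I
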