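import Pool.Agent.H35.P4I.EndS
import Pool.Agent.H35.P4I.H2
import Pool.Agent.H35.P4I.Glue

/-!
# P4I, the last assembly: the theorem

The numbers, events and digits are those of P4 (`Pool.P4`).
-/

set_option autoImplicit false

namespace Pool.P4I

open Finset Real MvPolynomial Matrix
open Pool.Agent.H49.Ent Pool.Agent.H32.Dense Pool.STK Pool.STAT Pool.MIC.Frm Pool.MIC7 Pool.FRM
open Pool.GSD
open Pool.BFL (Pb)
open Pool.POT (VCh pw pw_pos pw_add pw_le pw_zero one_le_pw pw_inv ex_pw pb_mono)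
open Pool.LBL (Ld covP)
open Pool.STAT.Glu (kN)
open Pool.P4 hiding Stp Plc Geo LinStmt OwnStmt DepStmt GeoStmt Hyp EntOf H0Stmt H2Stmt YFStmt
  TFStmt NFStmt HsStmt enum_ex VOutD VCellS GfS P4XT dig_cell p4x_of lab_cell

/-- The digits of the slopes and of the time. -/
theorem dig_cell {D : NDat2} {n K K' J a₀ w₀ z M w i j r r' r'' y X : ℕ} {lam gam : ℕ → ℝ}
    {κ C₁ C : ℝ} {q : D.Ω → ℝ} {E : D.Ω → Prop} {P : D.Γ × D.Γ → ℕ → PN} {S : D.Ω → ℕ → ℕ → ℝ}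
    {c k : ℕ} {ys : Fin k → ℕ} {gs : Fin c → ℕ}
    (H : Hyp D n K K' J a₀ w₀ z M w i j r r' r'' y X lam gam κ C₁ C q E P S ys gs) {ω : D.Ω}
    (hω : E ω) : (∀ u a, |(Sv D z X C S ys gs ω u a : ℝ) / 2 ^ X -
      exp (-(C * z)) * S ω (gs u) (ys a)| ≤ 1 / 2 ^ X) ∧
      |(tq J w X (D.T ω) : ℝ) - 2 ^ X * rt D J w ω| ≤ 1 :=
  ⟨fun u a => dig_E (H.geo.bS ω (H.gd ω hω).1 hω (gs u) (ys a)),
    (rt_near (H.ok.X_zero ω) H.wX).2⟩

/-! ### The theorem -/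

set_option maxHeartbeats 4000000 in
/-- **The end of P4**, from its inputs. -/
theorem p4x_of (hV : VCellS) (hG : GfS) (n B : ℕ) (h₀ : ℝ) (hn : 1 ≤ n)
    (hB : 1 ≤ B) (hh₀ : 0 < h₀) : ∃ δ : ℝ, 0 < δ ∧ ∀ (K A : ℕ) (gam : ℕ → ℝ) (R : ℕ → Prop)
      (C₁ CL h : ℝ), h₀ ≤ h → h ≤ 1 → (∀ l, 0 ≤ gam l) → 0 < gam n →
      gam n < 1 + thd gam n → (∀ l, sl gam n l → R l) → 1 ≤ C₁ →
      P4XT n K A B gam R C₁ CL h δ := by
  classical
  have hBr : (1 : ℝ) ≤ B := by exact_mod_cast hB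
  have hc0 : 0 < h₀ / (4 * B) := by positivity
  have HC := fun c k : ℕ => covP (c + 1) k (Fin.last c) (fun i => Fin.le_last i) (h₀ / (4 * B))
    (1 / 2) (1 / 4) 2 hc0 (by norm_num) (by norm_num) (by norm_num) (by norm_num)
  choose fx2 fp2 fη fio hfx hfp hfη hfio HC using HC
  obtain ⟨δ, hδ, hδ'⟩ := min_pos n fio hfio
  obtain ⟨δ', hδd⟩ : ∃ δ' : ℝ, δ' = min (δ / 4) (h₀ / (8 * B)) := ⟨_, rfl⟩
  have hδ'0 : 0 < δ' := by rw [hδd]; exact lt_min (by positivity) (by positivity)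
  have hδ'1 : δ' ≤ δ / 4 := by rw [hδd]; exact min_le_left _ _
  have hδ'2 : 8 * B * δ' ≤ h₀ := by
    have h1 : δ' ≤ h₀ / (8 * B) := by rw [hδd]; exact min_le_right _ _
    rw [le_div_iff₀ (by positivity)] at h1
    linarith
  refine ⟨δ', hδ'0, ?_⟩
  intro K A gam R C₁ CL h hh hh1 gam0 gamn ggr gsl C1
  obtain ⟨c, k, ys, gs, hcn, hkn, y1, y2, y3, g1, g2, g3, g4⟩ := enum_ex n gam hn ggr
  have hδc : δ ≤ fio c k := hδ' c (by omega) k hkn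
  have HC := HC c k
  obtain ⟨x2, hx2⟩ : ∃ x2, x2 = fx2 c k := ⟨_, rfl⟩
  obtain ⟨p2, hp2⟩ : ∃ p2, p2 = fp2 c k := ⟨_, rfl⟩
  obtain ⟨η0, hη0⟩ : ∃ η0, η0 = fη c k := ⟨_, rfl⟩
  obtain ⟨io, hio⟩ : ∃ io, io = fio c k := ⟨_, rfl⟩
  have x20 : 0 < x2 := hx2 ▸ hfx c k
  have p20 : 0 < p2 := hp2 ▸ hfp c k
  have η00 : 0 < η0 := hη0 ▸ hfη c k
  have io0 : 0 < io := hio ▸ hfio c k
  rw [← hx2, ← hp2, ← hη0, ← hio] at HC
  rw [← hio] at hδc
  obtain ⟨x, hx⟩ : ∃ x, x = min x2 (1 / 16) := ⟨_, rfl⟩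
  have hx0 : 0 < x := by rw [hx]; exact lt_min x20 (by norm_num)
  have hxa : x ≤ x2 := by rw [hx]; exact min_le_left _ _
  have hxb : x ≤ 1 / 16 := by rw [hx]; exact min_le_right _ _
  obtain ⟨Cu, hCu, HU⟩ := gu_ev n K C₁ (by linarith)
  choose FG hFG0 HG using fun (K' : ℕ) (C₀ : ℝ) =>
    hG n K K' (c + 1) k (max C₀ 0) C₁ Cu gam (le_max_right _ _) (by linarith) hCu
  choose FL hFL0 HL using fun (K' : ℕ) (C₀ : ℝ) =>
    lab_cell n K K' (c + 1) k (max C₀ 0) C₁ (le_max_right _ _) (by linarith)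
  obtain ⟨K', C₀, C, hC₀, hCC, hF, HV⟩ := hV n K B gam C₁ CL h (c + 1) k ys gs (Fin.last c) hn hB
    gam0 gamn ggr C1 (lt_of_lt_of_le hh₀ hh) hh1 y1 y2 y3 g1 g2 g3 g4
    (fun K' C₀ => max (FG K' C₀) (FL K' C₀))
  have e0 : max C₀ 0 = C₀ := max_eq_left (by linarith)
  obtain ⟨C₂, hC₂, HG⟩ := HG K' C₀ C ((le_max_left _ _).trans hF)
  obtain ⟨c', hc', HL⟩ := HL K' C₀ C C₂ gam ((le_max_right _ _).trans hF) (by linarith)
  rw [e0] at HG HL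
  obtain ⟨s, hs, HV⟩ := HV η0 η00
  obtain ⟨X0, HC⟩ := HC (k + 4) (by
    have : (0 : ℝ) ≤ k := Nat.cast_nonneg k
    linarith) s hs
  obtain ⟨U1, hU1⟩ := ex_nat (c' + C₂ + A + 7) hx0
  obtain ⟨U2, hU2⟩ := ex_nat (C₂ + c + 6) (x := 1 / 4) (by norm_num)
  obtain ⟨U3, hU3⟩ := ex_nat C₂ io0
  obtain ⟨U, y, r, r', r'', a, i, j, hUp, hU, -, HV⟩ := HV 2 (max U1 (max U2 U3)) 0 io δ'
    (by norm_num) io0 hδ'0 (by linarith) (hδ'2.trans hh)
  have hU1 := hU1 U ((le_max_left _ _).trans hU)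
  have hU2 := hU2 U ((le_max_left _ _).trans ((le_max_right _ _).trans hU))
  have hU3 := hU3 U ((le_max_right _ _).trans ((le_max_right _ _).trans hU))
  obtain ⟨M, -, HV⟩ := HV 0
  obtain ⟨e, he⟩ : ∃ e, e = min η0 p2 / 4 := ⟨_, rfl⟩
  have hmin : 0 < min η0 p2 := lt_min η00 p20
  have he0 : 0 < e := by rw [he]; positivity
  have he1 : 2 * e ≤ η0 := by
    rw [he]
    have := min_le_left η0 p2
    linarith
  have he2 : 4 * e ≤ p2 := by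
    rw [he]
    have := min_le_right η0 p2
    linarith
  obtain ⟨κ₁, z₁, hκ₁, HV⟩ := HV e he0
  obtain ⟨κ₂, z₂, hκ₂, HU⟩ := HU M e he0
  refine ⟨M, B * U, kN (max K K') 2, p2 / 2, min κ₁ κ₂, 1, max (max z₁ z₂) (max X0 1),
    by positivity, lt_min hκ₁ hκ₂, one_pos, le_rfl, ?_⟩
  intro lam J a₀ w₀ z D q Ug lam1 hz hO hDM hLLC hTm hNF hNFc hUg
  have hz1 : z₁ ≤ z := (le_max_left _ _).trans ((le_max_left _ _).trans hz)
  have hz2 : z₂ ≤ z := (le_max_right _ _).trans ((le_max_left _ _).trans hz)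
  have hz3 : X0 ≤ z := (le_max_left _ _).trans ((le_max_right _ _).trans hz)
  have hz4 : 1 ≤ z := (le_max_right _ _).trans ((le_max_right _ _).trans hz)
  have hq := hO.isLaw
  have hTmono : D.TmU J w₀ z κ₁ q := by
    unfold NDat2.TmU at hTm ⊢
    have := mul_le_mul_of_nonneg_right (min_le_left κ₁ κ₂) (Nat.cast_nonneg (α := ℝ) z)
    linarith
  obtain ⟨w, E, P, S, hE, hO2⟩ := HV lam J a₀ w₀ z D q 1 lam1 hz1 le_rfl
    (hO.mono_κ (min_le_left _ _)) (hDM.mono (min_le_left _ _)) hLLC hTmono hNF hNFc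
  have hGu := HU D Ug R J a₀ w₀ z (B * U) lam gam (min κ₁ κ₂) (min κ₁ κ₂) q hz2
    (min_le_right _ _) hO hTm hUg
  obtain ⟨Fz, hFz⟩ : ∃ Fz : Finset (Fin (c + 1)),
      Fz = univ.filter (fun g => gs g < n ∧ ¬ R (gs g)) := ⟨_, rfl⟩
  have hFz' : ∀ g, g ∈ Fz ↔ gs g < n ∧ ¬ R (gs g) := by
    intro g
    rw [hFz, Finset.mem_filter]
    exact ⟨fun h => h.2, fun h => ⟨Finset.mem_univ _, h⟩⟩
  obtain ⟨fD, fL, p0, p1, hgf⟩ := HG D Ug R J a₀ w₀ z M w i j r r' r'' a y (B * U * z) (B * U)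
    lam κ₁ q E P S ys gs hO2.hyp hO2.plc hO2.geo hO2.gd hUg Fz hFz'
  -- numbers
  have hzr : (1 : ℝ) ≤ z := by exact_mod_cast hz4
  have hXX0 : X0 ≤ B * U * z := by
    have h1 : 1 * 1 * X0 ≤ B * U * z := Nat.mul_le_mul (Nat.mul_le_mul hB hUp) hz3
    omega
  have hCz : exp (-(C * z)) ≤ 1 := by
    rw [Real.exp_le_one_iff]
    have : 0 ≤ C * z := mul_nonneg (by linarith) (by linarith)
    linarith
  have hyX : (2 : ℝ) ^ (B * U * z) ≤ 2 ^ (y * z) := by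
    have h1 := hO2.hyp.yX
    have h2 : 1 ≤ exp (C * z) := Real.one_le_exp (mul_nonneg (by linarith) (by linarith))
    have h3 : (0 : ℝ) < 2 ^ (B * U * z) := by positivity
    nlinarith
  have hF0 : exp (C₂ * z) ≤ pw (B * U * z) io := exp_le_pw hB io0 hU3
  have heps := eps_le (C₂ := C₂) hyX
  have h34 : (2 : ℝ) ^ (-((1 / 2 + 1 / 4) * ((B * U * z : ℕ) : ℝ))) =
      pw (B * U * z) (-(3 / 4)) := by
    unfold pw
    congr 1
    ring
  have h34' : (2 : ℝ) ^ ((1 / 2 + 1 / 4) * ((B * U * z : ℕ) : ℝ)) = pw (B * U * z) (3 / 4) := by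
    unfold pw
    congr 1
    ring
  have hbig : (c + 4) * (exp (C₂ * z) * pw (B * U * z) (-1)) ≤ pw (B * U * z) (-(3 / 4)) := by
    have a1 : exp ((C₂ + c + 6) * z) ≤ pw (B * U * z) (1 / 4) :=
      exp_le_pw hB (by norm_num) hU2
    have a2 : ((c : ℝ) + 4) * exp (C₂ * z) ≤ exp ((C₂ + c + 6) * z) := by
      have b1 : (c : ℝ) + 4 ≤ exp ((c + 6) * z) := by
        have b2 := Real.add_one_le_exp (((c : ℝ) + 6) * z)
        have b3 : (0 : ℝ) ≤ c := Nat.cast_nonneg c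
        nlinarith
      calc ((c : ℝ) + 4) * exp (C₂ * z) ≤ exp ((c + 6) * z) * exp (C₂ * z) :=
            mul_le_mul_of_nonneg_right b1 (exp_pos _).le
        _ = exp ((C₂ + c + 6) * z) := by
            rw [← exp_add]
            congr 1
            ring
    calc ((c : ℝ) + 4) * (exp (C₂ * z) * pw (B * U * z) (-1)) =
          ((c : ℝ) + 4) * exp (C₂ * z) * pw (B * U * z) (-1) := by ring
      _ ≤ pw (B * U * z) (1 / 4) * pw (B * U * z) (-1) :=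
          mul_le_mul_of_nonneg_right (a2.trans a1) (pw_pos _ _).le
      _ = pw (B * U * z) (-(3 / 4)) := by
          rw [pw_add]
          norm_num
  have hcr : (0 : ℝ) ≤ c := Nat.cast_nonneg c
  have hEp : 0 < exp (C₂ * z) * pw (B * U * z) (-1) := mul_pos (exp_pos _) (pw_pos _ _)
  -- the event
  obtain ⟨Ev, hEv⟩ : ∃ Ev : D.Ω → Prop, Ev = fun ω => E ω ∧ GoodU D Ug n J w₀ z M R Cu ω :=
    ⟨_, rfl⟩
  have hEvE : ∀ ω, Ev ω → E ω := fun ω h => by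
    rw [hEv] at h
    exact h.1
  have hEvP : Pb q (fun ω => ¬ Ev ω) ≤ 2 * e := by
    rw [hEv]
    refine (pb_not_and hq.nonneg E (fun ω => GoodU D Ug n J w₀ z M R Cu ω)).trans ?_
    linarith
  rw [← hEv] at hgf
  have hlast : Fin.last c ∉ Fz := by
    rw [hFz', g4]
    rintro ⟨h1, -⟩
    exact lt_irrefl _ h1
  have h2X : (0 : ℝ) < 2 ^ (B * U * z) := by positivity
  have hinv : (1 : ℝ) / 2 ^ (B * U * z) = pw (B * U * z) (-1) := by
    rw [← pw_inv, pw_one, one_div]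
  -- the covector
  obtain ⟨l, nD, nL, e0', e1', hl, k1, k2, k3, k4⟩ := HC _ (B * U * z) hXX0 hO2.okn hO2.tm _ _ _ _
    (vch_c0 hO2.vch (by
      rw [div_le_div_iff_of_pos_right (by positivity)]
      exact hh)) (Lt D J w i j r)
    (fun ω => (D.pt ω, nP D J w z i j r a (B * U * z) C E P S ys gs q ω))
    (det_line D J w z i j r (B * U * z) C P S ys gs q E)
    (fun ω ω' _ _ h => (Prod.ext_iff.1 h).2) Fz (fun ξ => fD ξ.1) fL
    (fun x g u => p0 x g u * exp (-(C * z)))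
    (fun x g u => p1 x g u * exp (-(C * z)) / 2 ^ (B * U * z)) Ev hlast (hEvP.trans he1)
    (fun ξ g hg => ⟨(hgf.ldD ξ.1 g hg).1, fun v => ((hgf.ldD ξ.1 g hg).2 v).trans hF0⟩)
    (fun ω _ hω g hg v => by
      refine (hgf.cl ω hω g hg v).trans (heps.trans ?_)
      rw [h34]
      nlinarith)
    (fun ω _ hω g hg u => by
      obtain ⟨d1, d2⟩ := dig_cell hO2.hyp (hEvE ω hω)
      have d3 := dig_rel (f := fun v => fL (Lt D J w i j r ω) g v)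
        (S := fun v => S ω (gs v) (ys u)) (Sd := fun v =>
          (Sv D z (B * U * z) C S ys gs ω v u : ℝ) / 2 ^ (B * U * z)) h2X (exp_pos _).le hCz
        (fun v => d1 v u) d2 (fun v => (hgf.ldL _ g hg).2 v) (hgf.pb _ g hg u).2
        (hgf.af ω hω g hg u)
      refine le_trans d3 ?_
      have e6 : (((c + 1 : ℕ) : ℝ) + 1) * exp (C₂ * z) * (1 / 2 ^ (B * U * z)) =
          (c + 2) * (exp (C₂ * z) * pw (B * U * z) (-1)) := by
        rw [hinv]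
        push_cast
        ring
      rw [h34, e6]
      linarith)
    (fun x g hg u => by
      have b1 := hgf.pb x g hg u
      constructor
      · show |p0 x g u * exp (-(C * z))| ≤ _
        rw [abs_mul, abs_of_pos (exp_pos _)]
        calc |p0 x g u| * exp (-(C * z)) ≤ exp (C₂ * z) * 1 :=
              mul_le_mul b1.1 hCz (exp_pos _).le (exp_pos _).le
          _ ≤ _ := by rw [mul_one]; exact hF0
      · show |p1 x g u * exp (-(C * z)) / 2 ^ (B * U * z)| * 2 ^ (B * U * z) ≤ _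
        rw [abs_div, abs_mul, abs_of_pos (exp_pos _), abs_of_pos h2X,
          div_mul_cancel₀ _ h2X.ne']
        calc |p1 x g u| * exp (-(C * z)) ≤ exp (C₂ * z) * 1 :=
              mul_le_mul b1.2 hCz (exp_pos _).le (exp_pos _).le
          _ ≤ _ := by rw [mul_one]; exact hF0)
  -- the label
  have hlab := HL D Ug R J a₀ w₀ z M w i j r r' r'' y a (B * U * z) (B * U) A lam κ₁ q E P S ys gs
    hO2.hyp hO2.plc hO2.geo hO2.gd hUg Fz l (pw (B * U * z) (3 / 4)) (pw (B * U * z) (-x2))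
    (exp (C₂ * z) * (1 / 2 ^ (y * z) + 1 / 2 ^ (B * U * z))) (p2 / 2) nD nL e0' e1' fL p0 p1
    (fun ω => ((∃ rr : Fin (c + 1) → ℝ, (∀ g, |rr g| ≤ 2 ^ ((1 / 2 + 1 / 4) * ((B * U * z : ℕ) : ℝ))) ∧
      ∀ v, |(nD (D.pt ω, nP D J w z i j r a (B * U * z) C E P S ys gs q ω) ᵥ*
        MF i j r E (rcd D i j r a) (cMx D J a₀ z i j r a E P gs) ω) v -
        nL (Lt D J w i j r ω) v + ∑ g ∈ Fz, rr g * fL (Lt D J w i j r ω) g v| ≤
          2 ^ (-(x2 * ((B * U * z : ℕ) : ℝ)))) ∧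
      ∀ u, |∑ v, nL (Lt D J w i j r ω) v *
        ((Sv D z (B * U * z) C S ys gs ω v u : ℝ) / 2 ^ (B * U * z)) -
        e0' (Lt D J w i j r ω) u - e1' (Lt D J w i j r ω) u *
          (tq J w (B * U * z) (D.T ω) : ℝ)| ≤ 2 ^ (-(x2 * ((B * U * z : ℕ) : ℝ)))) ∧ Ev ω)
  have hN : ∀ ξ : ℝ, ξ ≤ 2 ^ ((1 / 2 + 1 / 4) * ((B * U * z : ℕ) : ℝ)) →
      ξ ≤ pw (B * U * z) (3 / 4) := fun ξ h => by
    rw [h34'] at h
    exact h
  have hd : ∀ ξ : ℝ, ξ ≤ 2 ^ (-(x2 * ((B * U * z : ℕ) : ℝ))) →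
      ξ ≤ pw (B * U * z) (-x2) := fun ξ h => by
    refine h.trans (le_of_eq ?_)
    unfold pw
    rw [neg_mul]
  have hres := hlab hl (one_le_pw (by norm_num)) (pw_pos _ _).le (by positivity)
    (fun ξ => ⟨(k1 ξ).1, fun v => hN _ ((k1 ξ).2.2 v)⟩)
    (fun ξ => ⟨(k2 ξ).1, fun v => hN _ ((k2 ξ).2 v)⟩)
    (fun ξ u => ⟨hN _ (k3 ξ u).1, hN _ (k3 ξ u).2⟩)
    hgf.ldL (fun x g hg a => ⟨(hgf.pb x g hg a).1, (hgf.pb x g hg a).2, hgf.pz x g hg a⟩) ?_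
    (fun ω h => hEvE ω h.2)
    (fun ω h => by
      obtain ⟨rr, r1, r2⟩ := h.1.1
      exact ⟨rr, fun g => hN _ (r1 g), fun v => hd _ (r2 v)⟩)
    (fun ω h u => by
      rw [Int.cast_natCast]
      exact hd _ (h.1.2 u))
    (fun ω h g hg b => hgf.af ω h.2 g hg b)
    (fun ω h g hg hgl b hb => hgf.bx ω h.2 l g hg hgl b hb)
    (num_le hB hx0 hxb hxa hz4 hC₂ hyX hU1)
  · have hi := hO2.hyp.i2
    refine ⟨gs l, (g1 l).1.1, (g1 l).1.2.1, ?_, i, by omega, j + 1, by omega, hres.2⟩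
    by_cases hln : gs l = n
    · exact Or.inl hln
    · right
      refine ⟨?_, g1 l⟩
      by_contra hR
      exact hl ((hFz' l).2 ⟨lt_of_le_of_ne (g1 l).1.2.1 hln, hR⟩)
  · have h1 := pb_and hq.nonneg (fun ω => ((∃ rr : Fin (c + 1) → ℝ,
        (∀ g, |rr g| ≤ 2 ^ ((1 / 2 + 1 / 4) * ((B * U * z : ℕ) : ℝ))) ∧
        ∀ v, |(nD (D.pt ω, nP D J w z i j r a (B * U * z) C E P S ys gs q ω) ᵥ*
          MF i j r E (rcd D i j r a) (cMx D J a₀ z i j r a E P gs) ω) v -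
          nL (Lt D J w i j r ω) v + ∑ g ∈ Fz, rr g * fL (Lt D J w i j r ω) g v| ≤
            2 ^ (-(x2 * ((B * U * z : ℕ) : ℝ)))) ∧
        ∀ u, |∑ v, nL (Lt D J w i j r ω) v *
          ((Sv D z (B * U * z) C S ys gs ω v u : ℝ) / 2 ^ (B * U * z)) -
          e0' (Lt D J w i j r ω) u - e1' (Lt D J w i j r ω) u *
            (tq J w (B * U * z) (D.T ω) : ℝ)| ≤ 2 ^ (-(x2 * ((B * U * z : ℕ) : ℝ))))) Ev
    have h2 : p2 ≤ Pb q (fun ω => ((∃ rr : Fin (c + 1) → ℝ,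
        (∀ g, |rr g| ≤ 2 ^ ((1 / 2 + 1 / 4) * ((B * U * z : ℕ) : ℝ))) ∧
        ∀ v, |(nD (D.pt ω, nP D J w z i j r a (B * U * z) C E P S ys gs q ω) ᵥ*
          MF i j r E (rcd D i j r a) (cMx D J a₀ z i j r a E P gs) ω) v -
          nL (Lt D J w i j r ω) v + ∑ g ∈ Fz, rr g * fL (Lt D J w i j r ω) g v| ≤
            2 ^ (-(x2 * ((B * U * z : ℕ) : ℝ)))) ∧
        ∀ u, |∑ v, nL (Lt D J w i j r ω) v *
          ((Sv D z (B * U * z) C S ys gs ω v u : ℝ) / 2 ^ (B * U * z)) -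
          e0' (Lt D J w i j r ω) u - e1' (Lt D J w i j r ω) u *
            (tq J w (B * U * z) (D.T ω) : ℝ)| ≤ 2 ^ (-(x2 * ((B * U * z : ℕ) : ℝ))))) := k4
    linarith

end Pool.P4I
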