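import Pool.Agent.H35.P4I.Cma
import Pool.Agent.H52.P4.Glue0

/-!
# P4I: sums over the proper group and over the slow coordinates
-/

set_option autoImplicit false

namespace Pool.P4I

open Finset Real MvPolynomial
open Pool.Agent.H49.Ent Pool.Agent.H32.Dense Pool.STK Pool.STAT Pool.MIC.Frm Pool.FRM
open Pool.MIC.Fru (gw nat_gw nat_gw0 atT_tri atT_deg)
open Pool.LBL (Ld)
open Pool.BFL (Pb)
open Pool.P4

/-- The extension vanishes off the image. -/
theorem ug_off {c : ℕ} {gs : Fin c → ℕ} (f : Fin c → ℝ) {u : ℕ} (hu : ¬ ∃ i, gs i = u) :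
    ug gs f u = 0 := by
  unfold ug
  rw [Function.extend_apply' _ _ _ hu, Pi.zero_apply]

section

variable {D : NDat2} {n K K' J a₀ w₀ z M w i j r r' r'' y X : ℕ} {lam gam : ℕ → ℝ}
  {κ C₁ C : ℝ} {q : D.Ω → ℝ} {E : D.Ω → Prop} {P : D.Γ × D.Γ → ℕ → PN}
  {S : D.Ω → ℕ → ℕ → ℝ} {c k : ℕ} {ys : Fin k → ℕ} {gs : Fin c → ℕ}
  (H : Hyp D n K K' J a₀ w₀ z M w i j r r' r'' y X lam gam κ C₁ C q E P S ys gs)

include H

open Classical in
/-- The sum over the group, for a function with leading coordinate `l`. -/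
theorem Hyp.sum_ug {l : Fin c} {f : Fin c → ℝ} (hf : ∀ i, l < i → f i = 0) (φ : ℕ → ℝ) :
    ∑ u ∈ (range (gs l + 1)).filter (gr gam n), ug gs f u * φ u = ∑ i, f i * φ (gs i) := by
  have e : ∀ i, ug gs f (gs i) = f i := fun i => ug_gs H.gs_in.injective f i
  have h1 : ∑ u ∈ ((univ.filter (fun i : Fin c => i ≤ l)).map ⟨gs, H.gs_in.injective⟩),
      ug gs f u * φ u = ∑ u ∈ (range (gs l + 1)).filter (gr gam n), ug gs f u * φ u := by
    refine Finset.sum_subset ?_ ?_
    · intro u hu
      simp only [mem_map, mem_filter, mem_univ, true_and, Function.Embedding.coeFn_mk] at hu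
      obtain ⟨i, hi, rfl⟩ := hu
      have := H.gs_in.le_iff_le.2 hi
      rw [mem_filter, mem_range]
      exact ⟨by omega, (H.gs_gp i).1⟩
    · intro u hu hu2
      rw [mem_filter, mem_range] at hu
      by_cases h : ∃ i, gs i = u
      · obtain ⟨i, rfl⟩ := h
        exfalso
        apply hu2
        simp only [mem_map, mem_filter, mem_univ, true_and, Function.Embedding.coeFn_mk]
        exact ⟨i, H.gs_in.le_iff_le.1 (by omega), rfl⟩
      · rw [ug_off f h, zero_mul]
  rw [← h1, Finset.sum_map]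
  simp only [Function.Embedding.coeFn_mk, e]
  refine Finset.sum_subset (Finset.filter_subset _ _) fun i _ hi => ?_
  rw [mem_filter] at hi
  push Not at hi
  rw [hf i (hi (mem_univ i)), zero_mul]

open Classical in
/-- The sum over the slow coordinates. -/
theorem Hyp.sum_ys (m : ℕ) (φ : ℕ → ℝ) :
    ∑ u ∈ (range m).filter (sl gam n), φ u = ∑ a ∈ univ.filter (fun a => ys a < m),
      φ (ys a) := by
  have h1 : (range m).filter (sl gam n) =
      (univ.filter (fun a : Fin k => ys a < m)).map ⟨ys, H.ys_in⟩ := by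
    ext u
    simp only [mem_filter, mem_range, mem_map, mem_univ, true_and, Function.Embedding.coeFn_mk]
    constructor
    · intro h
      obtain ⟨i, rfl⟩ := H.ys_on u h.2
      exact ⟨i, h.1, rfl⟩
    · rintro ⟨v, h, rfl⟩
      exact ⟨h, H.ys_sl v⟩
  rw [h1, Finset.sum_map]
  rfl

end

end Pool.P4I
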