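import Pool.Agent.H35.P4I.Glue0
import Pool.Agent.H52.P4.Glue1

/-!
# P4I: the functional of a covector of the proper group
-/

set_option autoImplicit false

namespace Pool.P4I

open Finset Real MvPolynomial
open Pool.Agent.H49.Ent Pool.Agent.H32.Dense Pool.STK Pool.STAT Pool.MIC.Frm Pool.FRM
open Pool.MIC.Fru (gw nat_gw nat_gw0 atT_tri atT_deg)
open Pool.LBL (Ld)
open Pool.BFL (Pb)
open Pool.P4

section

variable {D : NDat2} {n K K' J a₀ w₀ z M w i j r r' r'' y X : ℕ} {lam gam : ℕ → ℝ}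
  {κ C₁ C : ℝ} {q : D.Ω → ℝ} {E : D.Ω → Prop} {P : D.Γ × D.Γ → ℕ → PN}
  {S : D.Ω → ℕ → ℕ → ℝ} {c k : ℕ} {ys : Fin k → ℕ} {gs : Fin c → ℕ}
  (H : Hyp D n K K' J a₀ w₀ z M w i j r r' r'' y X lam gam κ C₁ C q E P S ys gs)

include H

open Classical in
/-- The height over the own sheet, over `Fin k`. -/
theorem Hyp.nn_eq (ω : D.Ω) (u : ℕ) : nn D n i j r gam P S ω u =
    ze D i j r P ω u - ∑ a, S ω u (ys a) * ze D i j r P ω (ys a) := by
  unfold nn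
  rw [H.sum_ys n fun k => S ω u k * ze D i j r P ω k]
  congr 1
  refine Finset.sum_congr ?_ fun _ _ => rfl
  refine Finset.filter_true_of_mem fun a _ => ?_
  exact (H.ys_sl a).2.1

open Classical in
/-- The functional of a covector with leading coordinate `l`. -/
theorem Hyp.LM_eq {l : Fin c} {f : Fin c → ℝ} (hf : ∀ i, l < i → f i = 0) (g0 g1 : Fin k → ℝ)
    {t₀ : D.Ω → ℝ} {nv e0 e1 : D.Ω → ℕ → ℝ} {ω : D.Ω} (h1 : nv ω = ug gs f)
    (h2 : e0 ω = ug ys g0) (h3 : e1 ω = ug ys g1) (x : ℕ → ℝ) :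
    LM D i j r P (sl gam n) (gr gam n) (gs l) w (nn D n i j r gam P S) t₀ nv e0 e1 ω x =
      ∑ u, f u * (nat (D.g i j) (P (bb D i j r ω)) x (gs u) -
        (ze D i j r P ω (gs u) - ∑ a, S ω (gs u) (ys a) * ze D i j r P ω (ys a))) -
      ∑ a ∈ univ.filter (fun a => ys a < gs l), (g0 a + g1 a * (2 ^ w * (x 0 - t₀ ω))) *
        nat (D.g i j) (P (bb D i j r ω)) x (ys a) := by
  unfold LM Lam lc
  rw [h1, h2, h3, H.sum_ug hf, H.sum_ug hf, H.sum_ys (gs l) fun k =>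
    (ug ys g0 k + ug ys g1 k * (2 ^ w * (x 0 - t₀ ω))) * nat (D.g i j) (P (bb D i j r ω)) x k]
  have e : ∀ (g : Fin k → ℝ) a, ug ys g (ys a) = g a := fun g a => ug_gs H.ys_in g a
  simp only [e]
  have e2 : ∑ u, f u * (nat (D.g i j) (P (bb D i j r ω)) x (gs u) -
      (ze D i j r P ω (gs u) - ∑ a, S ω (gs u) (ys a) * ze D i j r P ω (ys a))) =
      ∑ u, f u * nat (D.g i j) (P (bb D i j r ω)) x (gs u) -
      ∑ u, f u * nn D n i j r gam P S ω (gs u) := by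
    rw [← Finset.sum_sub_distrib]
    refine Finset.sum_congr rfl fun u _ => ?_
    rw [H.nn_eq ω (gs u)]
    ring
  rw [e2]
  ring

open Classical in
/-- **The difference of the total functional and of the functional of the line.** -/
theorem Hyp.dif_LM {l : Fin c} {F : Finset (Fin c)} {v : Fin c → ℝ} {f : Fin c → Fin c → ℝ}
    {rr : Fin c → ℝ} {g0 g1 : Fin k → ℝ} {p0 p1 : Fin c → Fin k → ℝ}
    (hv : ∀ i, l < i → v i = 0) (hf : ∀ g ∈ F, ∀ i, l < i → f g i = 0)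
    {t₀ : D.Ω → ℝ} {nv e0 e1 nvt e0t e1t : D.Ω → ℕ → ℝ} {ω : D.Ω} (h1 : nv ω = ug gs v)
    (h2 : e0 ω = ug ys g0) (h3 : e1 ω = ug ys g1)
    (h1t : nvt ω = ug gs (fun u => v u - ∑ g ∈ F, rr g * f g u))
    (h2t : e0t ω = ug ys (fun a => g0 a - ∑ g ∈ F, rr g * p0 g a))
    (h3t : e1t ω = ug ys (fun a => g1 a - ∑ g ∈ F, rr g * p1 g a)) (x : ℕ → ℝ) :
    LM D i j r P (sl gam n) (gr gam n) (gs l) w (nn D n i j r gam P S) t₀ nvt e0t e1t ω x -
      LM D i j r P (sl gam n) (gr gam n) (gs l) w (nn D n i j r gam P S) t₀ nv e0 e1 ω x =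
      - ∑ g ∈ F, rr g * (∑ u, f g u * (nat (D.g i j) (P (bb D i j r ω)) x (gs u) -
          (ze D i j r P ω (gs u) - ∑ a, S ω (gs u) (ys a) * ze D i j r P ω (ys a))) -
        ∑ a ∈ univ.filter (fun a => ys a < gs l), (p0 g a + p1 g a * (2 ^ w * (x 0 - t₀ ω))) *
          nat (D.g i j) (P (bb D i j r ω)) x (ys a)) := by
  rw [H.LM_eq hv g0 g1 h1 h2 h3 x, H.LM_eq (l := l) (f := fun u => v u - ∑ g ∈ F, rr g * f g u)
    (fun i hi => by
      rw [hv i hi, Finset.sum_eq_zero fun g hg => by rw [hf g hg i hi, mul_zero], sub_zero]) _ _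
    h1t h2t h3t x, lin_split]
  obtain ⟨A, hA⟩ : ∃ A : Finset (Fin k), A = univ.filter (fun a => ys a < gs l) := ⟨_, rfl⟩
  obtain ⟨T, hT⟩ : ∃ T : ℝ, T = 2 ^ w * (x 0 - t₀ ω) := ⟨_, rfl⟩
  obtain ⟨Y, hY⟩ : ∃ Y : Fin k → ℝ, Y = fun a => nat (D.g i j) (P (bb D i j r ω)) x (ys a) :=
    ⟨_, rfl⟩
  have eY : ∀ a, nat (D.g i j) (P (bb D i j r ω)) x (ys a) = Y a := fun a => by rw [hY]
  simp only [eY]
  rw [← hA, ← hT]
  have e1 : ∑ a ∈ A, (g0 a - ∑ g ∈ F, rr g * p0 g a + (g1 a - ∑ g ∈ F, rr g * p1 g a) * T) *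
      Y a = ∑ a ∈ A, (g0 a + g1 a * T) * Y a -
        ∑ g ∈ F, rr g * ∑ a ∈ A, (p0 g a + p1 g a * T) * Y a := by
    have f1 : ∀ a, (g0 a - ∑ g ∈ F, rr g * p0 g a + (g1 a - ∑ g ∈ F, rr g * p1 g a) * T) *
        Y a = (g0 a + g1 a * T) * Y a - ∑ g ∈ F, rr g * ((p0 g a + p1 g a * T) * Y a) := by
      intro a
      have f2 : ∑ g ∈ F, rr g * ((p0 g a + p1 g a * T) * Y a) =
          (∑ g ∈ F, rr g * p0 g a) * Y a + (∑ g ∈ F, rr g * p1 g a) * T * Y a := by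
        rw [Finset.sum_mul, mul_assoc, Finset.sum_mul, ← Finset.sum_add_distrib]
        exact Finset.sum_congr rfl fun g _ => by ring
      rw [f2]
      ring
    simp only [f1]
    rw [Finset.sum_sub_distrib, Finset.sum_comm]
    congr 1
    exact Finset.sum_congr rfl fun g _ => by rw [Finset.mul_sum]
  rw [e1]
  have e2 : ∀ (a b : Fin c → ℝ), ∑ g ∈ F, rr g * (a g - b g) =
      ∑ g ∈ F, rr g * a g - ∑ g ∈ F, rr g * b g := fun a b => by
    rw [← Finset.sum_sub_distrib]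
    exact Finset.sum_congr rfl fun g _ => by ring
  rw [e2]
  ring

end

end Pool.P4I
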