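import Pool.Agent.H35.P4I.NFvB

/-!
# P4I: the visible near point is almost independent of the context
-/

set_option autoImplicit false

namespace Pool.P4I.V

open Finset Real
open Pool.Agent.H49.Ent Pool.Agent.H32.Dense Pool.STK Pool.STAT Pool.MIC Pool.P4 Pool.P4N
open Pool.MIC.Frm
open Pool.POT
open Pool.BFL (Pb)

section

variable {D : NDat2} {n K K' J a₀ w₀ z M w i j r r' r'' y X : ℕ} {lam gam : ℕ → ℝ}
  {κ C₁ C : ℝ} {q : D.Ω → ℝ} {E : D.Ω → Prop} {P : D.Γ × D.Γ → ℕ → PN}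
  {S : D.Ω → ℕ → ℕ → ℝ} {c k : ℕ} {ys : Fin k → ℕ} {gs : Fin c → ℕ}
  {Sg σ : Type} {s : D.Ω → Sg} {zd : D.Ω → ℕ → ℝ} {Cd A₀ : ℝ}
  {N : D.Ω → Fin c → ℤ} {Y : D.Ω → Fin k → ℤ} {Sv : D.Ω → σ}
  (H : Hyp D n K K' J a₀ w₀ z M w i j r r' r'' y X lam gam κ C₁ C q E P S ys gs)
  (G : DchX D n z i j r X Cd q E P s zd) (V : VisD D z X Cd A₀ q E ys gs s zd N Y Sv)
  (hCd : 0 ≤ Cd)

include H G V hCd

/-- **The visible digits from the digits over the visible labels.** -/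
theorem few_YN {S' : Type} (B : D.Ω → S') (hA : 0 ≤ A₀) :
    CH q (fun ω => (Y ω, N ω))
      (fun ω => (B ω, ((D.vd n i j X ω, D.nd n i j X ω), Sv ω))) ≤
      (aE k (2 + A₀) + aE c (2 + A₀)) * (z + X * Pb q (fun ω => ¬ E ω)) := by
  have hz := H.z1
  have z1 : (1 : ℝ) ≤ z := by exact_mod_cast hz
  have x0 : (0 : ℝ) ≤ X := Nat.cast_nonneg X
  have h0 := H.ok.isLaw.nonneg
  have hpX : (0 : ℝ) < 2 ^ X := by positivity
  have hpi : (2 : ℝ) ^ X * ((2 : ℝ) ^ X)⁻¹ = 1 := mul_inv_cancel₀ hpX.ne'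
  obtain ⟨hRy, hRg1, hRg0, hRg⟩ := ry_rg hCd z
  have e2 : (2 : ℝ) ≤ exp ((2 + A₀) * z) := by
    have h1 := le_expz (a := 2) (by norm_num) hz
    exact h1.trans (Real.exp_le_exp.mpr (by nlinarith))
  have bd : exp (A₀ * (z + X)) ≤ exp ((2 + A₀) * (z + X)) := by
    refine Real.exp_le_exp.mpr ?_
    nlinarith
  have k1 := few_exp0 H.ok.isLaw Y
    (fun ω => (N ω, (B ω, ((D.vd n i j X ω, D.nd n i j X ω), Sv ω)))) E (A := 2 + A₀) (X := X)
    (by positivity) hz (by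
      intro ω ω' hω hω' hE hE' e a
      have f1 := (Prod.ext_iff.mp (Prod.ext_iff.mp (Prod.ext_iff.mp e).2).2)
      have f2 := Prod.ext_iff.mp f1.1
      have ha := H.ys_n a
      have g1 := zd_of_dig H G V hω hω' hE hE' f1.2 f2.1 f2.2 ha.1 ha.2
      have hR2 : 0 < 2 * Ry z Cd := by linarith
      rw [V.yY ω hω hE, V.yY ω' hω' hE']
      unfold yD
      have g2 := P4N.dgp_lipR (X := X) ((zd ω (ys a) + Ry z Cd) / (2 * Ry z Cd))
        ((zd ω' (ys a) + Ry z Cd) / (2 * Ry z Cd))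
      have g3 : (zd ω (ys a) + Ry z Cd) / (2 * Ry z Cd) -
          (zd ω' (ys a) + Ry z Cd) / (2 * Ry z Cd)
          = (zd ω (ys a) - zd ω' (ys a)) / (2 * Ry z Cd) := by
        rw [← sub_div]
        congr 1
        ring
      rw [g3, abs_div, abs_of_pos hR2] at g2
      have g4 : (2 : ℝ) ^ X * (|zd ω (ys a) - zd ω' (ys a)| / (2 * Ry z Cd)) ≤ 1 := by
        rw [← mul_div_assoc, div_le_one hR2]
        calc (2 : ℝ) ^ X * |zd ω (ys a) - zd ω' (ys a)| ≤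
            2 ^ X * (Ry z Cd * ((2 : ℝ) ^ X)⁻¹) := mul_le_mul_of_nonneg_left g1 hpX.le
          _ = (2 ^ X * ((2 : ℝ) ^ X)⁻¹) * Ry z Cd := by ring
          _ ≤ 2 * Ry z Cd := by rw [hpi]; linarith
      linarith) (by
      intro ω hω a
      exact (V.yB ω hω a).trans bd)
  have k2 := few_exp0 H.ok.isLaw N
    (fun ω => (B ω, ((D.vd n i j X ω, D.nd n i j X ω), Sv ω))) E (A := 2 + A₀) (X := X)
    (by positivity) hz (by
      intro ω ω' hω hω' hE hE' e u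
      have f1 := (Prod.ext_iff.mp (Prod.ext_iff.mp e).2)
      have f2 := Prod.ext_iff.mp f1.1
      have hu := H.gs_n u
      have g1 := zd_of_dig H G V hω hω' hE hE' f1.2 f2.1 f2.2 hu.1 hu.2
      rw [V.nN ω hω hE, V.nN ω' hω' hE']
      unfold nuD
      have g2 := dgR (X := X) (z := z) (C := Cd) (zd ω (gs u)) (zd ω' (gs u))
      have g4 : (2 : ℝ) ^ X / Rg z Cd * |zd ω (gs u) - zd ω' (gs u)| ≤ 1 := by
        rw [div_mul_eq_mul_div, div_le_one hRg0]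
        calc (2 : ℝ) ^ X * |zd ω (gs u) - zd ω' (gs u)| ≤
            2 ^ X * (Ry z Cd * ((2 : ℝ) ^ X)⁻¹) := mul_le_mul_of_nonneg_left g1 hpX.le
          _ = (2 ^ X * ((2 : ℝ) ^ X)⁻¹) * Ry z Cd := by ring
          _ ≤ Rg z Cd := by rw [hpi]; linarith
      linarith) (by
      intro ω hω u
      exact (V.nB ω hω u).trans bd)
  rw [Fintype.card_fin] at k1 k2
  have k3 := CH_chain h0 Y N (fun ω => (B ω, ((D.vd n i j X ω, D.nd n i j X ω), Sv ω)))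
  linarith

end

end Pool.P4I.V

namespace Pool.P4I

open Finset Real
open Pool.Agent.H49.Ent Pool.Agent.H32.Dense Pool.STK Pool.STAT Pool.MIC Pool.P4 Pool.P4N
open Pool.MIC.Frm
open Pool.POT
open Pool.P4I.V
open Pool.BFL (Pb)

/-- **(hF)** The visible near point is almost independent of the context. -/
theorem hf_vis (n K K' c k B : ℕ) (C₁ C Cd A₀ : ℝ) (hB : 1 ≤ B) (hCd : 0 ≤ Cd) (hA : 0 ≤ A₀) :
    ∃ A : ℝ, 0 ≤ A ∧
    ∀ (D : NDat2) (J a₀ w₀ z M w i j r r' r'' y U : ℕ) (lam gam : ℕ → ℝ) (κ h h' ϖ : ℝ)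
      (q : D.Ω → ℝ) (E : D.Ω → Prop) (P : D.Γ × D.Γ → ℕ → PN) (S : D.Ω → ℕ → ℕ → ℝ)
      (ys : Fin k → ℕ) (gs : Fin c → ℕ) {Sg σ ζ : Type} (s : D.Ω → Sg)
      (zd : D.Ω → ℕ → ℝ) (N : D.Ω → Fin c → ℤ) (Y : D.Ω → Fin k → ℤ) (Sv : D.Ω → σ)
      (Zc : D.Ω → ζ),
      Hyp D n K K' J a₀ w₀ z M w i j r r' r'' y (U * z) lam gam κ C₁ C q E P S ys gs →
      DchX D n z i j r (U * z) Cd q E P s zd →
      VisD D z (U * z) Cd A₀ q E ys gs s zd N Y Sv →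
      D.NF n z M B gam h C₁ ϖ q → ϖ ≤ 1 → i + U ≤ M → (U : ℝ) ≤ gam n * (M - j) →
      Det q Zc (fun ω => (bb D i j r ω, D.T ω)) →
      ((n - 1 : ℕ) : ℝ) * (B * (U * z) : ℕ) * Real.log 2 - C * z ≤
        CH q (D.vd n i j (B * (U * z))) Zc →
      (1 - h') * (U * z) * Real.log 2 - C₁ * z ≤
        CH q (D.nd n i j (U * z)) (fun ω => (D.nd n i j 0 ω,
          (D.vd n i j (B * (U * z)) ω, Zc ω))) →
      CH q (fun ω => (Y ω, N ω)) Sv ≤
        CH q (fun ω => (Y ω, N ω)) (fun ω => (cb D J w i j r ω, Sv ω)) +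
          ((h' - h) * (U * z : ℕ) * Real.log 2 +
            err A κ z (U * z) (Pb q (fun ω => ¬ E ω))) := by
  obtain ⟨A1, hA1⟩ : ∃ A, A = aE k (2 + A₀) + aE c (2 + A₀) := ⟨_, rfl⟩
  have b1 : 0 ≤ A1 := by
    rw [hA1]
    have h1 := aE_nonneg k (A := 2 + A₀) (by positivity)
    have h2 := aE_nonneg c (A := 2 + A₀) (by positivity)
    positivity
  refine ⟨A1 + |C| + 2 * |C₁| + 2 * n + 3, by positivity, ?_⟩
  intro D J a₀ w₀ z M w i j r r' r'' y U lam gam κ h h' ϖ q E P S ys gs Sg σ ζ s zd N Y Sv Zc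
    H G V hNF hϖ hU hU' hZc lo1 lo2
  obtain ⟨X, hX⟩ : ∃ X, X = U * z := ⟨_, rfl⟩
  have hXr : (X : ℝ) = U * z := by
    rw [hX]
    push_cast
    ring
  have hp := H.ok.isLaw
  have h0 := hp.nonneg
  have hiM : i ≤ M := by have := H.i2; omega
  have hjM : j ≤ M := by have := H.j2; omega
  have C0 : 0 ≤ C := by linarith [H.Cg]
  have C10 : 0 ≤ C₁ := by linarith [H.C1]
  have a7 : CH q (D.nd n i j (U * z)) (fun ω => (D.nd n i j 0 ω,
      (D.vd n i j (B * (U * z)) ω, (D.s i j ω, D.T ω)))) ≤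
      (1 - h) * (U * z) * Real.log 2 + C₁ * z := by
    have e1 := hNF i hiM j hjM 0 U (by omega) (by push_cast; linarith) (fun _ => True) (by
      have : Pb q (fun _ : D.Ω => True) = 1 := by
        unfold Pb
        simp only [if_true]
        exact hp.sum_one
      rw [this]
      exact hϖ)
    rw [P4N.cond_true hp] at e1
    simp only [zero_add, zero_mul] at e1
    exact e1
  rw [← hX] at H G V lo1 lo2 a7 ⊢
  rw [← hXr] at lo2 a7
  have hXB : X ≤ B * X := Nat.le_mul_of_pos_left X hB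
  obtain ⟨VB, hVB⟩ : ∃ VB, VB = D.vd n i j (B * X) := ⟨_, rfl⟩
  obtain ⟨NX, hNX⟩ : ∃ NX, NX = D.nd n i j X := ⟨_, rfl⟩
  obtain ⟨cbv, hcb⟩ : ∃ cbv : D.Ω → (D.Γ × D.Γ) × ℕ, cbv = cb D J w i j r := ⟨_, rfl⟩
  -- few
  have f1 : CH q (fun ω => (Y ω, N ω)) (fun ω => ((VB ω, NX ω), Sv ω)) ≤
      A1 * (z + X * Pb q (fun ω => ¬ E ω)) := by
    have e1 := few_YN H G V hCd (fun _ : D.Ω => ()) hA
    rw [← hA1] at e1
    refine le_trans (CH_mono_cond h0 fun ω ω' hω hω' e => ?_) e1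
    have e2 := Prod.ext_iff.mp e
    have e3 := Prod.ext_iff.mp e2.1
    have e4 : D.vd n i j X ω = D.vd n i j X ω' := vd_le D n i j hXB (by
      have := e3.1
      rw [hVB] at this
      exact this)
    have e5 : D.nd n i j X ω = D.nd n i j X ω' := by
      have := e3.2
      rw [hNX] at this
      exact this
    exact Prod.ext rfl (Prod.ext (Prod.ext e4 e5) e2.2)
  have f2 : MI q (fun ω => (Y ω, N ω)) cbv Sv ≤
      MI q (fun ω => ((VB ω, NX ω), (Y ω, N ω))) cbv Sv :=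
    MI_le_left h0 fun ω ω' _ _ e => (Prod.ext_iff.mp (Prod.ext_iff.mp e).1).2
  have f3 := MI_chain_left h0 (fun ω => (VB ω, NX ω)) (fun ω => (Y ω, N ω)) cbv Sv
  have f4 := MI_le_CH h0 (fun ω => (Y ω, N ω)) cbv (fun ω => ((VB ω, NX ω), Sv ω))
  -- from above
  have u1 : CH q (fun ω => (NX ω, VB ω)) Sv = CH q VB Sv + CH q NX (fun ω => (VB ω, Sv ω)) :=
    CH_chain h0 NX VB Sv
  have sw : ∀ {T : Type} (W : D.Ω → T), CH q (fun ω => (VB ω, NX ω)) W =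
      CH q (fun ω => (NX ω, VB ω)) W := by
    intro T W
    refine CH_congr h0 ?_ ?_ (fun _ _ _ _ h => h) (fun _ _ _ _ h => h)
    · intro ω ω' _ _ e
      have e1 := (Prod.ext_iff.mp e).1
      exact Prod.ext (Prod.ext_iff.mp e1).2 (Prod.ext_iff.mp e1).1
    · intro ω ω' _ _ e
      have e1 := (Prod.ext_iff.mp e).1
      exact Prod.ext (Prod.ext_iff.mp e1).2 (Prod.ext_iff.mp e1).1
  have u2 : CH q VB Sv ≤ ((n - 1 : ℕ) : ℝ) * ((B * X : ℕ) * Real.log 2 + 2) := by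
    rw [hVB]
    refine CH_ball hp _ _ (B * X) fun ω hω l => ?_
    have hl : (l : ℕ) + 1 < n := by
      have := l.2
      omega
    unfold NDat2.vd
    exact sh_bd (H.ok.pos i hiM j hjM ω hω (l + 1) (by omega) hl.le) (B * X)
  have u3 : CH q NX (fun ω => (VB ω, Sv ω)) ≤
      CH q NX (fun ω => (VB ω, (D.s i j ω, D.T ω))) := by
    refine CH_mono_cond h0 ?_
    intro ω ω' g1 g2 e
    have e1 := Prod.ext_iff.mp e
    obtain ⟨t1, t2⟩ := G.sT ω ω' g1 g2 (V.dS ω ω' g1 g2 e1.2)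
    exact Prod.ext e1.1 (Prod.ext t2 t1)
  have u4 := CH_le_add h0 NX (D.nd n i j 0) (fun ω => (VB ω, (D.s i j ω, D.T ω)))
  have u5 : CH q (D.nd n i j 0) (fun ω => (VB ω, (D.s i j ω, D.T ω))) ≤ 2 := by
    have e1 := CH_le_card h0 hp.sum_one (D.nd n i j 0)
      (fun ω => (VB ω, (D.s i j ω, D.T ω))) (fun _ => Finset.Icc (-1 : ℤ) 1)
      (fun ω hω => by
        have e2 := sh_bd (H.ok.pos i hiM j hjM ω hω n H.n1 le_rfl) 0
        unfold NDat2.nd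
        rw [pow_zero] at e2
        have e3 := abs_le.1 e2
        rw [Finset.mem_Icc]
        constructor
        · exact_mod_cast e3.1
        · exact_mod_cast e3.2)
    refine e1.trans ?_
    rw [Ex_const hp.sum_one]
    have e4 : (Finset.Icc (-1 : ℤ) 1).card = 3 := by decide
    rw [e4]
    have e5 : Real.log ((3 : ℕ) : ℝ) ≤ Real.log (2 ^ 2) :=
      Real.log_le_log (by norm_num) (by norm_num)
    rw [Real.log_pow] at e5
    have hl : Real.log 2 < 0.6931471808 := Real.log_two_lt_d9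
    push_cast at e5 ⊢
    linarith
  have u6 : CH q NX (fun ω => (D.nd n i j 0 ω, (VB ω, (D.s i j ω, D.T ω)))) ≤
      (1 - h) * X * Real.log 2 + C₁ * z := by
    rw [hNX, hVB]
    exact a7
  -- from below
  have l1 : CH q (fun ω => (VB ω, NX ω)) (fun ω => (E ω, Zc ω)) ≤
      CH q (fun ω => (VB ω, NX ω)) (fun ω => (cbv ω, Sv ω)) := by
    refine CH_mono_cond h0 fun ω ω' g1 g2 e => ?_
    have e1 := Prod.ext_iff.mp e
    have e2 := Prod.ext_iff.mp (hZc ω ω' g1 g2 e1.2)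
    have e3 : D.T ω = D.T ω' := e2.2
    have e4 : bb D i j r ω = bb D i j r ω' := e2.1
    refine Prod.ext ?_ (V.Sd ω ω' g1 g2 (Prod.ext e1.1 (G.bs ω ω' g1 g2 e4 e3)))
    rw [hcb]
    refine Prod.ext e4 ?_
    change D.T ω / 2 ^ (J - w) = D.T ω' / 2 ^ (J - w)
    rw [e3]
  have l2 := CH_le_add h0 (fun ω => (VB ω, NX ω)) E Zc
  have l3 := CH_prop_le h0 hp.sum_one E Zc
  have l4 : CH q (fun ω => (NX ω, VB ω)) Zc = CH q VB Zc + CH q NX (fun ω => (VB ω, Zc ω)) :=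
    CH_chain h0 NX VB Zc
  have l5 : CH q NX (fun ω => (D.nd n i j 0 ω, (VB ω, Zc ω))) ≤
      CH q NX (fun ω => (VB ω, Zc ω)) :=
    CH_mono_cond h0 fun ω ω' _ _ e => (Prod.ext_iff.mp e).2
  have l6 : ((n - 1 : ℕ) : ℝ) * (B * X : ℕ) * Real.log 2 - C * z ≤ CH q VB Zc := by
    rw [hVB]
    exact lo1
  have l7 : (1 - h') * X * Real.log 2 - C₁ * z ≤
      CH q NX (fun ω => (D.nd n i j 0 ω, (VB ω, Zc ω))) := by
    rw [hNX, hVB]
    exact lo2
  have s1 := sw Sv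
  have s2 := sw Zc
  -- the sum
  obtain ⟨b, hb⟩ : ∃ b, b = Pb q (fun ω => ¬ E ω) := ⟨_, rfl⟩
  have hb0 : 0 ≤ b := by
    rw [hb]
    exact H.b0
  rw [← hb] at f1 ⊢
  have z1 : (1 : ℝ) ≤ z := by exact_mod_cast H.z1
  have κ0 := H.κ0
  have x0 : (0 : ℝ) ≤ X := Nat.cast_nonneg X
  have xb : 0 ≤ (X : ℝ) * b := mul_nonneg x0 hb0
  have κz : 0 ≤ κ * z := mul_nonneg κ0 (by linarith)
  have hl : Real.log 2 < 0.6931471808 := Real.log_two_lt_d9
  have n1 : ((n - 1 : ℕ) : ℝ) ≤ n := by exact_mod_cast Nat.sub_le n 1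
  rw [abs_of_nonneg C0, abs_of_nonneg C10]
  unfold err
  unfold MI at f2 f3 f4
  rw [hcb] at f2 f3 f4 l1
  have m1 : A1 * (z + X * b) + 2 * ((n - 1 : ℕ) : ℝ) + 2 + C₁ * z + C * z + C₁ * z +
      Real.log 2 ≤ (A1 + C + 2 * C₁ + 2 * n + 3) * ((1 + κ) * z + X * b) := by
    have h1 : 0 ≤ A1 * (κ * z) := mul_nonneg b1 κz
    have h2 : 0 ≤ C₁ * (κ * z) := mul_nonneg C10 κz
    have h3 : 0 ≤ C₁ * (X * b) := mul_nonneg C10 xb
    have h4 : 0 ≤ C * (κ * z) := mul_nonneg C0 κz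
    have h5 : 0 ≤ C * (X * b) := mul_nonneg C0 xb
    have n0 : (0 : ℝ) ≤ n := Nat.cast_nonneg n
    have h6 : 0 ≤ (n : ℝ) * (κ * z) := mul_nonneg n0 κz
    have h7 : 0 ≤ (n : ℝ) * (X * b) := mul_nonneg n0 xb
    have h8 : (n : ℝ) ≤ n * z := by nlinarith only [n0, z1]
    have e : (A1 + C + 2 * C₁ + 2 * n + 3) * ((1 + κ) * z + X * b) =
        (A1 * (z + X * b) + C * z + 2 * (C₁ * z) + 2 * (n * z) + 3 * z) +
        (A1 * (κ * z) + C * (κ * z) + C * (X * b) + 2 * (C₁ * (κ * z)) + 2 * (C₁ * (X * b)) +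
          2 * (n * (κ * z)) + 2 * (n * (X * b)) + 3 * (κ * z) + 3 * (X * b)) := by ring
    rw [e]
    linarith only [h1, h2, h3, h4, h5, h6, h7, h8, κz, xb, z1, hl, n1]
  linarith

end Pool.P4I
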