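import Pool.Agent.H35.P4I.Hs1
import Pool.Agent.H89.P4.Hs2

/-!
# P4I: few values at the deeper place
-/

set_option autoImplicit false

namespace Pool.P4I

open Finset Real MvPolynomial
open Pool.Agent.H49.Ent Pool.Agent.H32.Dense Pool.STK Pool.STAT Pool.MIC.Frm Pool.MIC7 Pool.FRM
open Pool.GSD Pool.POT
open Pool.BFL (Pb)
open Pool.P4

section

variable {D : NDat2} {n K K' J a₀ w₀ z M w i j r r' r'' y X : ℕ} {lam gam : ℕ → ℝ}
  {κ C₁ C : ℝ} {q : D.Ω → ℝ} {E : D.Ω → Prop} {P : D.Γ × D.Γ → ℕ → PN}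
  {S : D.Ω → ℕ → ℕ → ℝ} {c k : ℕ} {ys : Fin k → ℕ} {gs : Fin c → ℕ}
  (H : Hyp D n K K' J a₀ w₀ z M w i j r r' r'' y X lam gam κ C₁ C q E P S ys gs)

include H

theorem Hyp.one_Rg : 1 ≤ Rg z C := H.e1.trans H.exp_le_Rg

/-- Equal digits of the exact point. -/
theorem Hyp.ze_dg {ω ω' : D.Ω} (hω : 0 < q ω) (hω' : 0 < q ω') (hE : E ω) (hE' : E ω') {l : ℕ}
    (h1 : 1 ≤ l) (h2 : l ≤ n)
    (h : dg X (ze D i j r P ω l / Rg z C) = dg X (ze D i j r P ω' l / Rg z C)) :
    2 ^ X / Rg z C * |ze D i j r P ω l - ze D i j r P ω' l| ≤ 2 := by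
  have hR := Rg_pos z C
  have b1 := (H.geo.bz ω hω hE l h1 h2).trans H.exp_le_Rg
  have b2 := (H.geo.bz ω' hω' hE' l h1 h2).trans H.exp_le_Rg
  have h3 := dg_inj (X := X) (x := ze D i j r P ω l / Rg z C) (y := ze D i j r P ω' l / Rg z C)
    (by
      rw [abs_div, abs_of_pos hR, div_le_one hR]
      exact b1)
    (by
      rw [abs_div, abs_of_pos hR, div_le_one hR]
      exact b2) h
  rw [← sub_div, abs_div, abs_of_pos hR] at h3
  calc _ = 2 ^ X * (|ze D i j r P ω l - ze D i j r P ω' l| / Rg z C) := by ring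
    _ ≤ 2 := h3

/-- **The exact point from the own sheet.** -/
theorem Hyp.zo_two {ω ω' : D.Ω} (hω : 0 < q ω) (hω' : 0 < q ω') (hE : E ω) (hE' : E ω')
    {u : Fin c}
    (hh : (qh (c := c) (k := k) D J w z i j r X C P S ys gs q).hgt ω u =
      (qh (c := c) (k := k) D J w z i j r X C P S ys gs q).hgt ω' u)
    (hS : Sv (c := c) (k := k) D z X C S ys gs ω = Sv D z X C S ys gs ω')
    (hy : zg D z i j r X C P ys ω = zg D z i j r X C P ys ω') :
    2 ^ X / Rg z C * |ze D i j r P ω (gs u) - ze D i j r P ω' (gs u)| ≤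
      (12 + 13 * k) * exp (C * z) := by
  have hR := Rg_pos z C
  have hRy := Ry_pos z C
  have e1 := H.e1
  have k0 : (0 : ℝ) ≤ k := Nat.cast_nonneg k
  obtain ⟨f, hf⟩ : ∃ f, f = 2 ^ X / Rg z C := ⟨_, rfl⟩
  have f0 : 0 < f := by
    rw [hf]
    positivity
  have h1 := H.hgt_nn hω hE u
  have h2 := H.hgt_nn hω' hE' u
  rw [hh] at h1
  have enn : ∀ ω : D.Ω, nn D n i j r gam P S ω (gs u) = ze D i j r P ω (gs u) -
      ∑ a, S ω (gs u) (ys a) * ze D i j r P ω (ys a) := by
    intro ω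
    unfold nn
    rw [sum_sl H.ys_sl H.ys_in H.ys_on (fun l => S ω (gs u) l * ze D i j r P ω l)]
  have h3 : f * |nn D n i j r gam P S ω (gs u) - nn D n i j r gam P S ω' (gs u)| ≤
      12 + 10 * k := by
    rw [← hf] at h1 h2
    have : |f * nn D n i j r gam P S ω (gs u) - f * nn D n i j r gam P S ω' (gs u)| ≤
        12 + 10 * k := by
      rw [abs_le] at h1 h2 ⊢
      constructor <;> linarith [h1.1, h1.2, h2.1, h2.2]
    rwa [← mul_sub, abs_mul, abs_of_pos f0] at this
  have h4 : ∀ a, f * |S ω (gs u) (ys a) * ze D i j r P ω (ys a) -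
      S ω' (gs u) (ys a) * ze D i j r P ω' (ys a)| ≤ 3 * exp (C * z) := by
    intro a
    have hya := H.ys_n a
    have a1 : f * |ze D i j r P ω (ys a) - ze D i j r P ω' (ys a)| ≤ 2 := by
      rw [hf]
      exact H.ze_dg hω hω' hE hE' hya.1 hya.2 (congrFun hy a)
    have a2 := H.geo.bz ω hω hE (ys a) hya.1 hya.2
    have a3 := H.geo.bS ω' hω' hE' (gs u) (ys a)
    have s0 : ∀ ω : D.Ω, 0 < q ω → E ω → |S ω (gs u) (ys a) * (2 * Ry z C) / Rg z C| ≤ 1 := by
      intro ω hω hE
      rw [abs_div, abs_of_pos hR, div_le_one hR]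
      have h1 := H.geo.bS ω hω hE (gs u) (ys a)
      rw [Rg_eq, abs_mul, abs_of_pos (by positivity : (0 : ℝ) < 2 * Ry z C)]
      unfold Ry
      have := Real.exp_pos (C * z)
      nlinarith
    have a4 := dg_inj (X := X) (s0 ω hω hE) (s0 ω' hω' hE') (congrFun (congrFun hS u) a)
    have a5 : f * |S ω (gs u) (ys a) - S ω' (gs u) (ys a)| * exp (C * z) ≤ 1 := by
      have e2 : S ω (gs u) (ys a) * (2 * Ry z C) / Rg z C -
          S ω' (gs u) (ys a) * (2 * Ry z C) / Rg z C =
          (S ω (gs u) (ys a) - S ω' (gs u) (ys a)) * (2 * Ry z C / Rg z C) := by ring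
      rw [e2, abs_mul, abs_of_pos (by positivity : 0 < 2 * Ry z C / Rg z C)] at a4
      have e3 : 2 ^ X * (|S ω (gs u) (ys a) - S ω' (gs u) (ys a)| * (2 * Ry z C / Rg z C)) =
          2 * (f * |S ω (gs u) (ys a) - S ω' (gs u) (ys a)| * Ry z C) := by
        rw [hf]
        ring
      rw [e3] at a4
      unfold Ry at a4
      linarith
    have e4 : S ω (gs u) (ys a) * ze D i j r P ω (ys a) -
        S ω' (gs u) (ys a) * ze D i j r P ω' (ys a) =
        (S ω (gs u) (ys a) - S ω' (gs u) (ys a)) * ze D i j r P ω (ys a) +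
        S ω' (gs u) (ys a) * (ze D i j r P ω (ys a) - ze D i j r P ω' (ys a)) := by ring
    have a6 : f * |(S ω (gs u) (ys a) - S ω' (gs u) (ys a)) * ze D i j r P ω (ys a)| ≤ 1 := by
      rw [abs_mul]
      calc _ ≤ f * (|S ω (gs u) (ys a) - S ω' (gs u) (ys a)| * exp (C * z)) :=
            mul_le_mul_of_nonneg_left (mul_le_mul_of_nonneg_left a2 (abs_nonneg _)) f0.le
        _ ≤ 1 := by
          rw [← mul_assoc]
          exact a5
    have a7 : f * |S ω' (gs u) (ys a) * (ze D i j r P ω (ys a) - ze D i j r P ω' (ys a))| ≤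
        2 * exp (C * z) := by
      rw [abs_mul]
      calc _ = |S ω' (gs u) (ys a)| * (f * |ze D i j r P ω (ys a) - ze D i j r P ω' (ys a)|) := by
            ring
        _ ≤ exp (C * z) * 2 := mul_le_mul a3 a1 (by positivity) (Real.exp_pos _).le
        _ = _ := by ring
    rw [e4]
    have a8 := abs_add_le ((S ω (gs u) (ys a) - S ω' (gs u) (ys a)) * ze D i j r P ω (ys a))
      (S ω' (gs u) (ys a) * (ze D i j r P ω (ys a) - ze D i j r P ω' (ys a)))
    have a9 := mul_le_mul_of_nonneg_left a8 f0.le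
    linarith
  have h5 : f * |∑ a, S ω (gs u) (ys a) * ze D i j r P ω (ys a) -
      ∑ a, S ω' (gs u) (ys a) * ze D i j r P ω' (ys a)| ≤ k * (3 * exp (C * z)) := by
    rw [← Finset.sum_sub_distrib]
    calc _ ≤ f * ∑ a, |S ω (gs u) (ys a) * ze D i j r P ω (ys a) -
          S ω' (gs u) (ys a) * ze D i j r P ω' (ys a)| :=
          mul_le_mul_of_nonneg_left (Finset.abs_sum_le_sum_abs _ _) f0.le
      _ = ∑ a, f * |S ω (gs u) (ys a) * ze D i j r P ω (ys a) -
          S ω' (gs u) (ys a) * ze D i j r P ω' (ys a)| := Finset.mul_sum _ _ _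
      _ ≤ ∑ a : Fin k, 3 * exp (C * z) := Finset.sum_le_sum fun a _ => h4 a
      _ = _ := by rw [Finset.sum_const, Finset.card_univ, Fintype.card_fin, nsmul_eq_mul]
  have e5 : ze D i j r P ω (gs u) - ze D i j r P ω' (gs u) =
      (nn D n i j r gam P S ω (gs u) - nn D n i j r gam P S ω' (gs u)) +
      (∑ a, S ω (gs u) (ys a) * ze D i j r P ω (ys a) -
        ∑ a, S ω' (gs u) (ys a) * ze D i j r P ω' (ys a)) := by
    rw [enn, enn]
    ring
  rw [← hf, e5]
  have a8 := abs_add_le (nn D n i j r gam P S ω (gs u) - nn D n i j r gam P S ω' (gs u))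
    (∑ a, S ω (gs u) (ys a) * ze D i j r P ω (ys a) -
        ∑ a, S ω' (gs u) (ys a) * ze D i j r P ω' (ys a))
  have a9 := mul_le_mul_of_nonneg_left a8 f0.le
  have a10 : (12 + 10 * k : ℝ) ≤ (12 + 10 * k) * exp (C * z) := by
    have : (0 : ℝ) ≤ 12 + 10 * k := by positivity
    nlinarith
  linarith

/-- **(few, 3)** -/
theorem Hyp.few3 {ι S' : Type} [Fintype ι] (g : ι → Fin c) (B : D.Ω → S') :
    CH q (zg D z i j r X C P (fun u => gs (g u)))
      (fun ω => ((fun u => (qh (c := c) (k := k) D J w z i j r X C P S ys gs q).hgt ω (g u)),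
        (zg D z i j r X C P ys ω, (Sv (c := c) (k := k) D z X C S ys gs ω, B ω)))) ≤
      aE (Fintype.card ι) (13 + 13 * k + C) * (z + X * Pb q (fun ω => ¬ E ω)) := by
  have C0 : 0 ≤ C := by linarith [H.Cg]
  refine few_exp0 H.ok.isLaw _ _ E (by positivity) H.z1 ?_ ?_
  · intro ω ω' hω hω' hE hE' e u
    have e1 := (Prod.ext_iff.mp e).1
    have e2 := (Prod.ext_iff.mp e).2
    have e3 := (Prod.ext_iff.mp e2).1
    have e4 := (Prod.ext_iff.mp (Prod.ext_iff.mp e2).2).1
    have h1 := H.zo_two hω hω' hE hE' (congrFun e1 u) e4 e3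
    have h2 := dgR (X := X) (z := z) (C := C) (ze D i j r P ω (gs (g u))) (ze D i j r P ω' (gs (g u)))
    have h3 := mul_expz (a := 13 + 13 * k) (b := C) (by positivity) H.z1
    have h4 := H.e1
    unfold zg
    linarith
  · intro ω hω u
    unfold zg
    refine (dg_absR _).trans ((Pool.P4.two_pow_exp X).trans (Real.exp_le_exp.mpr ?_))
    have x0 : (0 : ℝ) ≤ X := Nat.cast_nonneg X
    have z0 : (0 : ℝ) ≤ z := Nat.cast_nonneg z
    have k0 : (0 : ℝ) ≤ k := Nat.cast_nonneg k
    nlinarith [mul_nonneg (by positivity : (0 : ℝ) ≤ 12 + 13 * k + C) (add_nonneg z0 x0)]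

/-- **(few, 1)** The first digits of the group, given the deeper context. -/
theorem Hyp.few1 (hD : Dep D n J w₀ z M i j r C q E P) {x v : ℕ} (hx : x ≤ X)
    (hv : v * z ≤ x) (hv' : x < v * z + z) (hM : i + v + r'' < M) {S' : Type} (B : D.Ω → S') :
    CH q (fun ω (u : Fin c) => nuv D J w z i j r X C P gs ω u / 2 ^ (X - x))
      (fun ω => (B ω, (D.c (i - 1) (j - r) ω, (D.c (i + v) j ω, D.T ω)))) ≤
      aE c 4 * (z + X * Pb q (fun ω => ¬ E ω)) := by
  have hz := H.z1
  have z1 : (1 : ℝ) ≤ z := by exact_mod_cast hz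
  have x0 : (0 : ℝ) ≤ X := Nat.cast_nonneg X
  have key := few_exp0 H.ok.isLaw
    (fun ω (u : Fin c) => nuv D J w z i j r X C P gs ω u / 2 ^ (X - x))
    (fun ω => (B ω, (D.c (i - 1) (j - r) ω, (D.c (i + v) j ω, D.T ω)))) E (A := 4) (X := X)
    (by norm_num) hz ?_ ?_
  · rwa [Fintype.card_fin] at key
  · intro ω ω' hω hω' hE hE' e u
    have e1 := (Prod.ext_iff.mp e).2
    obtain ⟨f1, f2, f3⟩ := H.up (i' := i + v) (by omega) hM hω hω' e1
    have h1 := (hD.ctx (i + v) (by omega) (by omega) ω ω' hω hω' hE hE' f1 f2 w H.w1 H.w2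
      (by rw [f3]) (gs u) (H.gs_n u).1 (H.gs_n u).2).1
    rw [Nat.add_sub_cancel_left] at h1
    have h2 := dgR (X := X) (z := z) (C := C) (z0 D J w i j r P ω (gs u)) (z0 D J w i j r P ω' (gs u))
    have hR := Rg_pos z C
    have h3 : 2 ^ X / Rg z C * |z0 D J w i j r P ω (gs u) - z0 D J w i j r P ω' (gs u)| ≤
        2 ^ (X - v * z) := by
      calc _ ≤ 2 ^ X / Rg z C * (exp (C * z) / 2 ^ (v * z)) :=
            mul_le_mul_of_nonneg_left h1 (by positivity)
        _ = (2 ^ X / 2 ^ (v * z)) * (exp (C * z) / Rg z C) := by ring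
        _ ≤ (2 ^ X / 2 ^ (v * z)) * 1 := by
            refine mul_le_mul_of_nonneg_left ?_ (by positivity)
            rw [div_le_one hR]
            exact H.exp_le_Rg
        _ = 2 ^ (X - v * z) := by
            rw [mul_one, div_eq_iff (by positivity), ← pow_add]
            congr 1
            omega
    have h4 := div_lipR (m := X - x) (h2.trans (add_le_add_left h3 1))
    unfold nuv
    refine h4.trans ?_
    have h5 : (2 : ℝ) ^ (X - v * z) / 2 ^ (X - x) ≤ 2 ^ z := by
      rw [div_le_iff₀ (by positivity), ← pow_add]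
      exact pow_le_pow_right₀ (by norm_num) (by omega)
    have h6 : (1 : ℝ) / 2 ^ (X - x) ≤ 1 := by
      rw [div_le_one (by positivity)]
      exact one_le_pow₀ (by norm_num)
    have h7 := Pool.P4.two_pow_exp z
    have h8 := mul_expz (a := 3) (b := 1) (by norm_num) hz
    have h9 : (1 : ℝ) ≤ exp z := Real.one_le_exp (by linarith)
    rw [one_mul] at h8
    rw [add_div]
    norm_num at h8
    linarith
  · intro ω hω u
    have h1 := div_absR (m := X - x) (one_le_pow₀ (by norm_num : (1 : ℝ) ≤ 2))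
      (dg_absR (X := X) (z0 D J w i j r P ω (gs u) / Rg z C))
    unfold nuv
    have h2 := Pool.P4.two_pow_exp X
    have h3 : (2 : ℝ) * exp X ≤ exp (4 * (z + X)) := by
      have h4 : (2 : ℝ) ≤ exp 1 := by
        have := Real.add_one_le_exp (1 : ℝ)
        linarith
      calc (2 : ℝ) * exp X ≤ exp 1 * exp X := mul_le_mul_of_nonneg_right h4 (Real.exp_pos _).le
        _ = exp (1 + X) := (Real.exp_add _ _).symm
        _ ≤ _ := Real.exp_le_exp.mpr (by nlinarith)
    linarith

/-- **(few, 8)** The entropy of the slow coordinates, given the deeper context. -/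
theorem Hyp.few8 (hD : Dep D n J w₀ z M i j r C q E P) {v : ℕ} (hx : v * z ≤ X)
    (hM : i + v + r'' < M) :
    CH q (zg D z i j r X C P ys) (fun ω => (D.c (i - 1) (j - r) ω, (D.c (i + v) j ω, D.T ω))) ≤
      k * (((X - v * z : ℕ) : ℝ) * Real.log 2) + aE k 4 * (z + X * Pb q (fun ω => ¬ E ω)) := by
  have hz := H.z1
  have z1 : (1 : ℝ) ≤ z := by exact_mod_cast hz
  have x0 : (0 : ℝ) ≤ X := Nat.cast_nonneg X
  have key := few_exp H.ok.isLaw (zg D z i j r X C P ys)
    (fun ω => (D.c (i - 1) (j - r) ω, (D.c (i + v) j ω, D.T ω))) E (A := 4) (X := X)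
    (by norm_num) (X - v * z) hz ?_ ?_
  · rwa [Fintype.card_fin] at key
  · intro ω ω' hω hω' hE hE' e a
    obtain ⟨f1, f2, f3⟩ := H.up (i' := i + v) (by omega) hM hω hω' e
    have h1 := (hD.ctx (i + v) (by omega) (by omega) ω ω' hω hω' hE hE' f1 f2 w H.w1 H.w2
      (by rw [f3]) (ys a) (H.ys_n a).1 (H.ys_n a).2).1
    rw [Nat.add_sub_cancel_left] at h1
    have hR := Rg_pos z C
    have hR1 := H.one_Rg
    obtain ⟨τ, hτ⟩ : ∃ τ, τ = exp (C * z) / 2 ^ (y * z) := ⟨_, rfl⟩
    have ht := H.tau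
    have hg := H.geo
    rw [← hτ] at ht hg
    have a1 := hg.slow ω hω hE (ys a) (H.ys_sl a) w H.w1 H.w2
    have a2 := hg.slow ω' hω' hE' (ys a) (H.ys_sl a) w H.w1 H.w2
    have t0 : 0 ≤ τ := by
      rw [hτ]
      positivity
    have h2 := dgR (X := X) (z := z) (C := C) (ze D i j r P ω (ys a)) (ze D i j r P ω' (ys a))
    have h3 : |ze D i j r P ω (ys a) - ze D i j r P ω' (ys a)| ≤
        2 * τ + exp (C * z) / 2 ^ (v * z) := by
      rw [abs_le] at a1 a2 h1 ⊢
      constructor <;> linarith [a1.1, a1.2, a2.1, a2.2, h1.1, h1.2]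
    have h4 : 2 ^ X / Rg z C * |ze D i j r P ω (ys a) - ze D i j r P ω' (ys a)| ≤
        2 + 2 ^ (X - v * z) := by
      calc _ ≤ 2 ^ X / Rg z C * (2 * τ + exp (C * z) / 2 ^ (v * z)) :=
            mul_le_mul_of_nonneg_left h3 (by positivity)
        _ = 2 * ((2 ^ X * τ) / Rg z C) + (2 ^ X / 2 ^ (v * z)) * (exp (C * z) / Rg z C) := by ring
        _ ≤ 2 * 1 + (2 ^ X / 2 ^ (v * z)) * 1 := by
            refine add_le_add (mul_le_mul_of_nonneg_left ?_ (by norm_num)) ?_
            · rw [div_le_one hR]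
              linarith
            · refine mul_le_mul_of_nonneg_left ?_ (by positivity)
              rw [div_le_one hR]
              exact H.exp_le_Rg
        _ = 2 + 2 ^ (X - v * z) := by
            rw [mul_one, mul_one]
            congr 1
            rw [div_eq_iff (by positivity), ← pow_add]
            congr 1
            omega
    unfold zg
    have h5 : (1 : ℝ) ≤ 2 ^ (X - v * z) := one_le_pow₀ (by norm_num)
    have h6 : (4 : ℝ) ≤ exp (4 * z) := le_expz (by norm_num) hz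
    have h7 : 4 * (2 : ℝ) ^ (X - v * z) ≤ exp (4 * z) * 2 ^ (X - v * z) :=
      mul_le_mul_of_nonneg_right h6 (by positivity)
    linarith
  · intro ω hω u
    unfold zg
    refine (dg_absR _).trans ((Pool.P4.two_pow_exp X).trans (Real.exp_le_exp.mpr ?_))
    linarith

/-- **(few, 6)** The digits over the visible labels of the deeper place, from the digits over the
frame. -/
theorem Hyp.few6 (hD : Dep D n J w₀ z M i j r C q E P) {v U : ℕ} (hx : (v + U) * z = X)
    (hM : i + v + r'' < M) {ι S' : Type} (g : ι → ℕ) (hg : ∀ l, 1 ≤ l → l < n → ∃ u, g u = l)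
    (B : D.Ω → S') :
    CH q (D.vd n (i + v) j (U * z)) (fun ω => ((B ω, zg D z i j r X C P g ω),
        (D.c (i - 1) (j - r) ω, (D.c (i + v) j ω, D.T ω)))) ≤
      aE (n - 1) (5 + 2 * C₁ + 3 * C) * (z + X * Pb q (fun ω => ¬ E ω)) := by
  have hz := H.z1
  have z1 : (1 : ℝ) ≤ z := by exact_mod_cast hz
  have x0 : (0 : ℝ) ≤ X := Nat.cast_nonneg X
  have C0 : 0 ≤ C := by linarith [H.Cg]
  have C10 : 0 ≤ C₁ := by linarith [H.C1]
  have key := few_exp0 H.ok.isLaw (D.vd n (i + v) j (U * z))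
    (fun ω => ((B ω, zg D z i j r X C P g ω), (D.c (i - 1) (j - r) ω, (D.c (i + v) j ω, D.T ω)))) E
    (A := 5 + 2 * C₁ + 3 * C) (X := X) (by positivity) hz ?_ ?_
  · rwa [Fintype.card_fin] at key
  · intro ω ω' hω hω' hE hE' e l
    obtain ⟨f1, f2, f3⟩ := H.up (i' := i + v) (by omega) hM hω hω' (Prod.ext_iff.mp e).2
    have e2 : zg D z i j r X C P g ω = zg D z i j r X C P g ω' :=
      (Prod.ext_iff.mp (Prod.ext_iff.mp e).1).2
    have hR := Rg_pos z C
    have hl : (l : ℕ) + 1 < n := by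
      have := l.2
      omega
    have h1 := hD.toV (i + v) (by omega) (by omega) ω ω' hω hω' hE hE' f1 f2 f3 (l + 1)
      (by omega) hl.le (2 * Rg z C / 2 ^ X) (by positivity) (by
        intro k' hk1 hk2
        obtain ⟨u, hu⟩ := hg k' hk1 (by omega)
        have h2 := H.ze_dg hω hω' hE hE' hk1 (by omega) (l := k') (by
          have := congrFun e2 u
          unfold zg at this
          rw [hu] at this
          exact this)
        rw [div_mul_eq_mul_div, div_le_iff₀ hR] at h2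
        rw [le_div_iff₀ (by positivity)]
        linarith)
    rw [← mul_sub, abs_mul, abs_of_pos (by positivity : (0 : ℝ) < 2 ^ D.g i j (l + 1))] at h1
    obtain ⟨d, hd⟩ : ∃ d, d = |D.sh (i + v) j ω (l + 1) - D.sh (i + v) j ω' (l + 1)| := ⟨_, rfl⟩
    rw [← hd] at h1
    have hh1 := H.ok.hom (i + v) (by omega) j (by have := H.j2; omega) (l + 1) (by omega) hl.le
    have hh2 := H.ok.hom i (by omega) j (by have := H.j2; omega) (l + 1) (by omega) hl.le
    rw [H.lam1 _ (by omega) hl.le] at hh1 hh2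
    have hgg : ((D.g (i + v) j (l + 1) + U * z : ℕ) : ℝ) ≤
        D.g i j (l + 1) + X + 2 * C₁ * z := by
      have hX' : (X : ℝ) = (v + U) * z := by
        rw [← hx]
        push_cast
        ring
      rw [abs_le] at hh1 hh2
      push_cast at hh1 hh2 ⊢
      rw [hX']
      linarith [hh1.1, hh1.2, hh2.1, hh2.2]
    have h2 : (2 : ℝ) ^ (D.g (i + v) j (l + 1) + U * z) ≤
        2 ^ D.g i j (l + 1) * 2 ^ X * exp (2 * C₁ * z) := by
      have l2 : 0 ≤ Real.log 2 := Real.log_nonneg (by norm_num)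
      have l1 : Real.log 2 ≤ 1 := by
        have := Real.log_le_sub_one_of_pos (by norm_num : (0 : ℝ) < 2)
        linarith
      have g0 : 0 ≤ 2 * C₁ * z := by positivity
      have m1 := mul_le_mul_of_nonneg_right hgg l2
      have e0 : ∀ m : ℕ, (2 : ℝ) ^ m = exp (m * Real.log 2) := by
        intro m
        rw [← Real.log_pow, Real.exp_log (by positivity)]
      rw [e0, e0 (D.g i j (l + 1)), e0 X, ← Real.exp_add, ← Real.exp_add]
      refine Real.exp_le_exp.mpr (m1.trans ?_)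
      nlinarith
    have h3 : (2 : ℝ) ^ (D.g (i + v) j (l + 1) + U * z) * d ≤ 4 * exp ((2 * C₁ + 3 * C) * z) := by
      have d0 : 0 ≤ d := by
        rw [hd]
        exact abs_nonneg _
      calc _ ≤ 2 ^ D.g i j (l + 1) * 2 ^ X * exp (2 * C₁ * z) * d :=
            mul_le_mul_of_nonneg_right h2 d0
        _ = 2 ^ X * exp (2 * C₁ * z) * (2 ^ D.g i j (l + 1) * d) := by ring
        _ ≤ 2 ^ X * exp (2 * C₁ * z) * (exp (C * z) * (2 * Rg z C / 2 ^ X)) :=
            mul_le_mul_of_nonneg_left h1 (by positivity)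
        _ = exp (2 * C₁ * z) * exp (C * z) * (2 * Rg z C) := by
            field_simp
        _ = 4 * exp ((2 * C₁ + 3 * C) * z) := by
            unfold Rg
            rw [show (2 * C₁ + 3 * C) * z = 2 * C₁ * z + C * z + 2 * C * z by ring,
              Real.exp_add, Real.exp_add]
            ring
    have h4 : |(2 : ℝ) ^ (D.g (i + v) j (l + 1) + U * z) * D.sh (i + v) j ω (l + 1) -
        2 ^ (D.g (i + v) j (l + 1) + U * z) * D.sh (i + v) j ω' (l + 1)| ≤
        4 * exp ((2 * C₁ + 3 * C) * z) := by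
      rw [← mul_sub, abs_mul, abs_of_pos (by positivity), ← hd]
      exact h3
    have h5 := floor_near h4
    push_cast at h5
    unfold NDat2.vd
    have h6 : (1 : ℝ) ≤ exp ((2 * C₁ + 3 * C) * z) := Real.one_le_exp (by positivity)
    have h7 := mul_expz (a := 5) (b := 2 * C₁ + 3 * C) (by norm_num) hz
    rw [show 5 + 2 * C₁ + 3 * C = 5 + (2 * C₁ + 3 * C) by ring]
    linarith
  · intro ω hω l
    have hl : (l : ℕ) + 1 < n := by
      have := l.2
      omega
    have h1 := H.ok.pos (i + v) (by omega) j (by have := H.j2; omega) ω hω (l + 1) (by omega)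
      hl.le
    have h2 : |(2 : ℝ) ^ (D.g (i + v) j (l + 1) + U * z) * D.sh (i + v) j ω (l + 1) - 0| ≤
        2 ^ (U * z) := by
      rw [sub_zero, abs_mul, abs_of_pos (by positivity)]
      calc _ ≤ (2 : ℝ) ^ (D.g (i + v) j (l + 1) + U * z) * (1 / 2 ^ D.g (i + v) j (l + 1)) :=
            mul_le_mul_of_nonneg_left h1 (by positivity)
        _ = 2 ^ (U * z) := by
            rw [pow_add]
            field_simp
    have h3 := floor_near h2
    rw [Int.floor_zero, sub_zero] at h3
    unfold NDat2.vd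
    have h4 : (2 : ℝ) ^ (U * z) ≤ 2 ^ X := by
      refine pow_le_pow_right₀ (by norm_num) ?_
      rw [← hx]
      exact Nat.mul_le_mul_right _ (by omega)
    have h5 := Pool.P4.two_pow_exp X
    have h6 : (2 : ℝ) * exp X ≤ exp ((5 + 2 * C₁ + 3 * C) * (z + X)) := by
      have h4 : (2 : ℝ) ≤ exp 1 := by
        have := Real.add_one_le_exp (1 : ℝ)
        linarith
      calc (2 : ℝ) * exp X ≤ exp 1 * exp X := mul_le_mul_of_nonneg_right h4 (Real.exp_pos _).le
        _ = exp (1 + X) := (Real.exp_add _ _).symm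
        _ ≤ _ := Real.exp_le_exp.mpr (by
            nlinarith [mul_nonneg (by positivity : (0 : ℝ) ≤ 4 + 2 * C₁ + 3 * C)
              (by positivity : (0 : ℝ) ≤ (z : ℝ) + X)])
    have h7 : (1 : ℝ) ≤ exp X := Real.one_le_exp x0
    linarith

/-- **(few, 9)** The entropy of any coordinates, given the deeper context. -/
theorem Hyp.few9 (hD : Dep D n J w₀ z M i j r C q E P) {v : ℕ} (hx : v * z ≤ X)
    (hM : i + v + r'' < M) {ι : Type} [Fintype ι] (g : ι → ℕ) (hg : ∀ u, 1 ≤ g u ∧ g u ≤ n) :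
    CH q (zg D z i j r X C P g) (fun ω => (D.c (i - 1) (j - r) ω, (D.c (i + v) j ω, D.T ω))) ≤
      Fintype.card ι * (((X - v * z : ℕ) : ℝ) * Real.log 2) +
        aE (Fintype.card ι) (3 + 2 * C₁) * (z + X * Pb q (fun ω => ¬ E ω)) := by
  have hz := H.z1
  have z1 : (1 : ℝ) ≤ z := by exact_mod_cast hz
  have x0 : (0 : ℝ) ≤ X := Nat.cast_nonneg X
  have C10 : 0 ≤ C₁ := by linarith [H.C1]
  refine few_exp H.ok.isLaw (zg D z i j r X C P g)
    (fun ω => (D.c (i - 1) (j - r) ω, (D.c (i + v) j ω, D.T ω))) E (A := 3 + 2 * C₁) (X := X)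
    (by positivity) (X - v * z) hz ?_ ?_
  · intro ω ω' hω hω' hE hE' e u
    obtain ⟨f1, f2, f3⟩ := H.up (i' := i + v) (by omega) hM hω hω' e
    have hR := Rg_pos z C
    have l2 : 0 ≤ Real.log 2 := Real.log_nonneg (by norm_num)
    have l1 : Real.log 2 ≤ 1 := by
      have := Real.log_le_sub_one_of_pos (by norm_num : (0 : ℝ) < 2)
      linarith
    have h1 := hD.ofV (i + v) (by omega) (by omega) ω ω' hω hω' hE hE' f1 f2 f3 (g u) (hg u).1
      (hg u).2 (2 * exp (2 * C₁ * z) / 2 ^ (v * z)) (by positivity) (by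
        intro k' hk1 hk2
        have hk3 : k' ≤ n := hk2.trans (hg u).2
        have p1 := H.ok.pos (i + v) (by omega) j (by have := H.j2; omega) ω hω k' hk1 hk3
        have p2 := H.ok.pos (i + v) (by omega) j (by have := H.j2; omega) ω' hω' k' hk1 hk3
        have hh1 := H.ok.hom (i + v) (by omega) j (by have := H.j2; omega) k' hk1 hk3
        have hh2 := H.ok.hom i (by omega) j (by have := H.j2; omega) k' hk1 hk3
        rw [H.lam1 _ hk1 hk3] at hh1 hh2
        have hgg : ((D.g i j k' + v * z : ℕ) : ℝ) ≤ D.g (i + v) j k' + 2 * C₁ * z := by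
          rw [abs_le] at hh1 hh2
          push_cast at hh1 hh2 ⊢
          linarith [hh1.1, hh1.2, hh2.1, hh2.2]
        have h2 : (2 : ℝ) ^ (D.g i j k' + v * z) ≤ 2 ^ D.g (i + v) j k' * exp (2 * C₁ * z) := by
          have g0 : 0 ≤ 2 * C₁ * z := by positivity
          have m1 := mul_le_mul_of_nonneg_right hgg l2
          have e0 : ∀ m : ℕ, (2 : ℝ) ^ m = exp (m * Real.log 2) := by
            intro m
            rw [← Real.log_pow, Real.exp_log (by positivity)]
          rw [e0, e0 (D.g (i + v) j k'), ← Real.exp_add]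
          refine Real.exp_le_exp.mpr (m1.trans ?_)
          nlinarith
        have h3 : |D.sh (i + v) j ω k' - D.sh (i + v) j ω' k'| ≤ 2 / 2 ^ D.g (i + v) j k' := by
          have := abs_sub (D.sh (i + v) j ω k') (D.sh (i + v) j ω' k')
          calc _ ≤ _ := this
            _ ≤ 1 / 2 ^ D.g (i + v) j k' + 1 / 2 ^ D.g (i + v) j k' := add_le_add p1 p2
            _ = _ := by ring
        rw [← mul_sub, abs_mul, abs_of_pos (by positivity : (0 : ℝ) < 2 ^ D.g i j k')]
        rw [le_div_iff₀ (by positivity)]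
        calc 2 ^ D.g i j k' * |D.sh (i + v) j ω k' - D.sh (i + v) j ω' k'| * 2 ^ (v * z) =
              2 ^ (D.g i j k' + v * z) * |D.sh (i + v) j ω k' - D.sh (i + v) j ω' k'| := by
              rw [pow_add]
              ring
          _ ≤ (2 ^ D.g (i + v) j k' * exp (2 * C₁ * z)) * (2 / 2 ^ D.g (i + v) j k') :=
              mul_le_mul h2 h3 (abs_nonneg _) (by positivity)
          _ = 2 * exp (2 * C₁ * z) := by
              field_simp)
    have h2 := dgR (X := X) (z := z) (C := C) (ze D i j r P ω (g u)) (ze D i j r P ω' (g u))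
    have h4 : 2 ^ X / Rg z C * |ze D i j r P ω (g u) - ze D i j r P ω' (g u)| ≤
        2 * exp (2 * C₁ * z) * 2 ^ (X - v * z) := by
      calc _ ≤ 2 ^ X / Rg z C * (exp (C * z) * (2 * exp (2 * C₁ * z) / 2 ^ (v * z))) :=
            mul_le_mul_of_nonneg_left h1 (by positivity)
        _ = (2 ^ X / 2 ^ (v * z)) * (2 * exp (2 * C₁ * z)) * (exp (C * z) / Rg z C) := by ring
        _ ≤ (2 ^ X / 2 ^ (v * z)) * (2 * exp (2 * C₁ * z)) * 1 := by
            refine mul_le_mul_of_nonneg_left ?_ (by positivity)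
            rw [div_le_one hR]
            exact H.exp_le_Rg
        _ = _ := by
            have e1 : (2 : ℝ) ^ X / 2 ^ (v * z) = 2 ^ (X - v * z) := by
              rw [div_eq_iff (by positivity), ← pow_add]
              congr 1
              omega
            rw [e1]
            ring
    unfold zg
    have h5 : (1 : ℝ) ≤ 2 ^ (X - v * z) := one_le_pow₀ (by norm_num)
    have h6 := mul_expz (a := 3) (b := 2 * C₁) (by norm_num) hz
    have h7 : (1 : ℝ) ≤ exp (2 * C₁ * z) := Real.one_le_exp (by positivity)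
    have h8 := mul_le_mul_of_nonneg_right h6 (by positivity : (0 : ℝ) ≤ 2 ^ (X - v * z))
    have h9 : (1 : ℝ) ≤ exp (2 * C₁ * z) * 2 ^ (X - v * z) := by
      calc (1 : ℝ) = 1 * 1 := (one_mul 1).symm
        _ ≤ _ := mul_le_mul h7 h5 (by norm_num) (by positivity)
    linarith
  · intro ω hω u
    unfold zg
    refine (dg_absR _).trans ((Pool.P4.two_pow_exp X).trans (Real.exp_le_exp.mpr ?_))
    have z0 : (0 : ℝ) ≤ z := Nat.cast_nonneg z
    nlinarith [mul_nonneg (by positivity : (0 : ℝ) ≤ 2 + 2 * C₁) (add_nonneg z0 x0)]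

end

end Pool.P4I
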