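import Pool.Agent.H35.P4I.Hs2
import Pool.Agent.H98.P4.HF
import Pool.Agent.H89.P4.V2

/-!
# P4I, the visible digits: determinism

The visible digits `N, Y` (over the visible frame on the event `E`) of the proper group and of the
slow coordinates, and the visible record `Sv` (`VisD`). `DchX`: all the coordinates; `Cht`: the
coordinates which are not above, among themselves.
-/

set_option autoImplicit false

namespace Pool.P4I.V

open Finset Real
open Pool.Agent.H49.Ent Pool.Agent.H32.Dense Pool.STK Pool.STAT Pool.MIC Pool.P4 Pool.P4N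
open Pool.MIC.Frm
open Pool.BFL (Pb)

/-- Forward substitution, for the first coordinates. -/
theorem fsub {c : ℕ} {M : Matrix (Fin c) (Fin c) ℝ} (one : ∀ a, M a a = 1)
    (low : ∀ a b, a < b → M a b = 0) {G t : ℝ} (hG : 0 ≤ G) (ht : 0 ≤ t)
    (ent : ∀ a b, |M a b| ≤ G) {x d : Fin c → ℝ} (h : ∀ u, |x u - ∑ v, M u v * d v| ≤ t)
    (Q : Fin c → Prop) (hQ : ∀ u v, Q u → v < u → Q v) (hx : ∀ u, Q u → |x u| ≤ t) :
    ∀ u, Q u → |d u| ≤ 2 * t * (1 + c * G) ^ c := by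
  have h1 : (1 : ℝ) ≤ 1 + c * G := by
    have : 0 ≤ (c : ℝ) * G := by positivity
    linarith
  have key : ∀ m : ℕ, ∀ u : Fin c, u.1 < m → Q u → |d u| ≤ 2 * t * (1 + c * G) ^ m := by
    intro m
    induction m with
    | zero => exact fun u hu => absurd hu (Nat.not_lt_zero _)
    | succ m ih =>
      intro u hu hQu
      have e1 : ∑ v, M u v * d v = d u + ∑ v ∈ univ.erase u, M u v * d v := by
        rw [← Finset.add_sum_erase _ _ (mem_univ u), one, one_mul]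
      have p0 : (0 : ℝ) ≤ 2 * t * (1 + c * G) ^ m := by positivity
      have e2 : |∑ v ∈ univ.erase u, M u v * d v| ≤ c * (G * (2 * t * (1 + c * G) ^ m)) := by
        refine (Finset.abs_sum_le_sum_abs _ _).trans ?_
        have f1 : ∀ v ∈ univ.erase u, |M u v * d v| ≤ G * (2 * t * (1 + c * G) ^ m) := by
          intro v hv
          have hne : v ≠ u := (Finset.mem_erase.1 hv).1
          rcases lt_or_gt_of_ne hne with h2 | h2
          · rw [abs_mul]
            exact mul_le_mul (ent u v) (ih v (by have : v.1 < u.1 := h2; omega) (hQ u v hQu h2))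
              (abs_nonneg _) hG
          · rw [low u v h2, zero_mul, abs_zero]
            positivity
        refine (Finset.sum_le_sum f1).trans ?_
        rw [Finset.sum_const, nsmul_eq_mul]
        refine mul_le_mul_of_nonneg_right ?_ (by positivity)
        have : (univ.erase u).card ≤ c := by
          refine (Finset.card_le_univ _).trans ?_
          rw [Fintype.card_fin]
        exact_mod_cast this
      have e3 := h u
      have e4 := hx u hQu
      rw [e1] at e3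
      have e5 : |d u| ≤ 2 * t + c * (G * (2 * t * (1 + c * G) ^ m)) := by
        rw [abs_le] at e2 e3 e4 ⊢
        constructor <;> linarith [e2.1, e2.2, e3.1, e3.2, e4.1, e4.2]
      have e6 : 2 * t ≤ 2 * t * (1 + c * G) ^ m := by
        have := one_le_pow₀ h1 (n := m)
        nlinarith
      calc |d u| ≤ 2 * t + c * (G * (2 * t * (1 + c * G) ^ m)) := e5
        _ ≤ 2 * t * (1 + c * G) ^ m + c * (G * (2 * t * (1 + c * G) ^ m)) := by linarith
        _ = 2 * t * (1 + c * G) ^ (m + 1) := by ring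
  intro u hu
  exact key c u u.2 hu

/-- The constants. -/
noncomputable def kT (c : ℕ) (Cd : ℝ) : ℝ := 12 + 4 * Cd + c * (c + Cd)

noncomputable def kA (c : ℕ) (C Cd : ℝ) : ℝ := 5 + kT c Cd + 2 * C

theorem kT_nonneg (c : ℕ) {Cd : ℝ} (h : 0 ≤ Cd) : 0 ≤ kT c Cd := by
  unfold kT
  positivity

theorem kA_nonneg (c : ℕ) {C Cd : ℝ} (hC : 0 ≤ C) (h : 0 ≤ Cd) : 0 ≤ kA c C Cd := by
  unfold kA
  have := kT_nonneg c h
  positivity

section

variable {D : NDat2} {n K K' J a₀ w₀ z M w i j r r' r'' y X : ℕ} {lam gam : ℕ → ℝ}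
  {κ C₁ C : ℝ} {q : D.Ω → ℝ} {E : D.Ω → Prop} {P : D.Γ × D.Γ → ℕ → PN}
  {S : D.Ω → ℕ → ℕ → ℝ} {c k : ℕ} {ys : Fin k → ℕ} {gs : Fin c → ℕ}
  {Sg σ : Type} {s : D.Ω → Sg} {zd : D.Ω → ℕ → ℝ} {Cd A₀ : ℝ}
  {N : D.Ω → Fin c → ℤ} {Y : D.Ω → Fin k → ℤ} {Sv : D.Ω → σ}
  {Mx : D.Γ × D.Γ → Sg → Matrix (Fin c) (Fin c) ℝ}
  (H : Hyp D n K K' J a₀ w₀ z M w i j r r' r'' y X lam gam κ C₁ C q E P S ys gs)
  (G : DchX D n z i j r X Cd q E P s zd) (T : Cht D z i j r X Cd E P s zd ys gs Mx)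
  (V : VisD D z X Cd A₀ q E ys gs s zd N Y Sv) (hCd : 0 ≤ Cd)

include H G V hCd

/-- One coordinate of the group. -/
theorem zd_gr {ω ω' : D.Ω} (h1 : 0 < q ω) (h2 : 0 < q ω') (hE : E ω) (hE' : E ω') {u : Fin c}
    (e : N ω u = N ω' u) : |zd ω (gs u) - zd ω' (gs u)| ≤ Rg z Cd * ((2 : ℝ) ^ X)⁻¹ := by
  obtain ⟨hRy, hRg1, hRg0, hRg⟩ := ry_rg hCd z
  have hu := H.gs_n u
  have b1 : |zd ω (gs u)| ≤ Ry z Cd := G.bd ω h1 hE _ hu.1 hu.2
  have b2 : |zd ω' (gs u)| ≤ Ry z Cd := G.bd ω' h2 hE' _ hu.1 hu.2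
  rw [V.nN ω h1 hE, V.nN ω' h2 hE'] at e
  unfold nuD at e
  have hdiv : ∀ x : ℝ, |x| ≤ Ry z Cd → |x / Rg z Cd| ≤ 1 := by
    intro x hx
    rw [abs_div, abs_of_pos hRg0, div_le_one hRg0]
    linarith
  have e3 := dg_eq (hdiv _ b1) (hdiv _ b2) e
  rw [← sub_div, abs_div, abs_of_pos hRg0, div_le_iff₀ hRg0] at e3
  linarith

/-- The slow coordinates. -/
theorem zd_sl {ω ω' : D.Ω} (h1 : 0 < q ω) (h2 : 0 < q ω') (hE : E ω) (hE' : E ω') {a : Fin k}
    (e : Y ω a = Y ω' a) : |zd ω (ys a) - zd ω' (ys a)| ≤ Rg z Cd * ((2 : ℝ) ^ X)⁻¹ := by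
  obtain ⟨hRy, hRg1, hRg0, hRg⟩ := ry_rg hCd z
  have hi : (0 : ℝ) < ((2 : ℝ) ^ X)⁻¹ := by positivity
  have ha := H.ys_n a
  have b1 : |zd ω (ys a)| ≤ Ry z Cd := G.bd ω h1 hE _ ha.1 ha.2
  have b2 : |zd ω' (ys a)| ≤ Ry z Cd := G.bd ω' h2 hE' _ ha.1 ha.2
  rw [V.yY ω h1 hE, V.yY ω' h2 hE'] at e
  unfold yD at e
  have hR2 : 0 < 2 * Ry z Cd := by linarith
  obtain ⟨c1, c2⟩ := abs_le.1 b1
  obtain ⟨d1, d2⟩ := abs_le.1 b2
  have e3 := dgp_eq (div_nonneg (by linarith) hR2.le) ((div_le_one hR2).2 (by linarith))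
    (div_nonneg (by linarith) hR2.le) ((div_le_one hR2).2 (by linarith)) e
  rw [← sub_div, abs_div, abs_of_pos hR2, div_le_iff₀ hR2] at e3
  have e4 : zd ω (ys a) + Ry z Cd - (zd ω' (ys a) + Ry z Cd) = zd ω (ys a) - zd ω' (ys a) := by
    ring
  rw [e4] at e3
  nlinarith

include T

/-- **The exact point over the closed frame, from the visible digits**: the coordinates before the
target which are not above. -/
theorem ze_low {ω ω' : D.Ω} (h1 : 0 < q ω) (h2 : 0 < q ω') (hE : E ω) (hE' : E ω')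
    (hbb : bb D i j r ω = bb D i j r ω') (hT : D.T ω = D.T ω') {n₀ : Fin c}
    (hn : gs n₀ = n) (hN : ∀ u, u ≠ n₀ → N ω u = N ω' u) (hY : Y ω = Y ω') {l : ℕ}
    (hl1 : 1 ≤ l) (hln : l < n) (hab : ¬ ab gam n l) :
    |ze D i j r P ω l - ze D i j r P ω' l| ≤ exp (kT c Cd * z) * ((2 : ℝ) ^ X)⁻¹ := by
  obtain ⟨hRy, hRg1, hRg0, hRg⟩ := ry_rg hCd z
  obtain ⟨ι, hι⟩ : ∃ ι : ℝ, ι = ((2 : ℝ) ^ X)⁻¹ := ⟨_, rfl⟩
  have hi : 0 < ι := by
    rw [hι]
    positivity
  have hz := H.z1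
  have hzr : (1 : ℝ) ≤ z := by exact_mod_cast hz
  have c0 : (0 : ℝ) ≤ c := Nat.cast_nonneg c
  obtain ⟨R, hR⟩ : ∃ R, R = Ry z Cd := ⟨_, rfl⟩
  have hRe : R = exp (Cd * z) := hR
  -- the slow coordinates
  have s1 : ∀ a, |zd ω (ys a) - zd ω' (ys a)| ≤ Rg z Cd * ι := fun a => by
    rw [hι]
    exact zd_sl H G V hCd h1 h2 hE hE' (congrFun hY a)
  have s2 : ∀ a, |ze D i j r P ω (ys a) - ze D i j r P ω' (ys a)| ≤ 3 * R ^ 3 * ι := by
    intro a
    have := T.bw ω ω' hE hE' hbb hT (Rg z Cd * ι) (by positivity) s1 a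
    rw [← hι, ← hRe, hRg, ← hR] at this
    refine this.trans ?_
    have e1 : R ≤ R ^ 3 := by
      rw [← hR] at hRy
      nlinarith [mul_nonneg (show 0 ≤ R - 1 by linarith) (show 0 ≤ R by linarith)]
    calc R * (2 * (R * R) * ι + ι) = (2 * R ^ 3 + R) * ι := by ring
      _ ≤ (2 * R ^ 3 + R ^ 3) * ι := mul_le_mul_of_nonneg_right (by linarith) hi.le
      _ = _ := by ring
  have hR1 : 1 ≤ R := by rw [hR]; exact hRy
  have hR3 : 1 ≤ R ^ 3 := one_le_pow₀ hR1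
  -- the group
  have s3 := (T.fw ω ω' hE hE' hbb hT (3 * R ^ 3 * ι) (by positivity) s2).2
  have s4 : ∀ u, u ≠ n₀ → |zd ω (gs u) - zd ω' (gs u)| ≤ 4 * R ^ 4 * ι := by
    intro u hu
    refine (zd_gr H G V hCd h1 h2 hE hE' (hN u hu)).trans ?_
    rw [← hι, hRg, ← hR]
    have e1 : R * R ≤ R ^ 4 := by
      calc R * R = R ^ 2 := by ring
        _ ≤ R ^ 4 := pow_le_pow_right₀ hR1 (by norm_num)
    refine mul_le_mul_of_nonneg_right ?_ hi.le
    nlinarith
  have s5 := fsub (M := Mx (bb D i j r ω) (s ω)) (G := R) (t := 4 * R ^ 4 * ι)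
    (x := fun u => zd ω (gs u) - zd ω' (gs u))
    (d := fun v => ze D i j r P ω (gs v) - ze D i j r P ω' (gs v)) (T.one ω hE) (T.low ω hE)
    (by linarith) (by positivity) (fun a b => by
      rw [hRe]
      exact T.ent ω hE a b) (fun u => by
      refine (s3 u).trans ?_
      rw [← hι, ← hRe]
      calc R * (3 * R ^ 3 * ι + ι) = (3 * R ^ 4 + R) * ι := by ring
        _ ≤ (4 * R ^ 4) * ι := mul_le_mul_of_nonneg_right (by
            have : R ≤ R ^ 4 := by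
              calc R = R ^ 1 := (pow_one R).symm
                _ ≤ R ^ 4 := pow_le_pow_right₀ hR1 (by norm_num)
            linarith) hi.le
        _ = _ := by ring) (fun u => u ≠ n₀) (fun u v hu hv => by
      rintro rfl
      have h3 := H.gs_in hv
      have h4 := (H.gs_n u).2
      omega) s4
  have hc : (1 : ℝ) + c * R ≤ exp ((c + Cd) * z) := by
    have h5 := Real.add_one_le_exp ((c : ℝ) * z)
    have h6 : (c : ℝ) ≤ c * z := le_mul_of_one_le_right c0 hzr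
    have e1 : exp ((c + Cd) * z) = exp (c * z) * R := by
      rw [hRe, ← exp_add]
      ring_nf
    rw [e1]
    have h7 : (c : ℝ) + 1 ≤ exp (c * z) := by linarith
    calc (1 : ℝ) + c * R ≤ (c + 1) * R := by linarith
      _ ≤ _ := mul_le_mul_of_nonneg_right h7 (by linarith)
  have hcc : (1 + (c : ℝ) * R) ^ c ≤ exp ((c * (c + Cd)) * z) := by
    have h8 : (0 : ℝ) ≤ 1 + c * R := by positivity
    calc (1 + (c : ℝ) * R) ^ c ≤ exp ((c + Cd) * z) ^ c := pow_le_pow_left₀ h8 hc _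
      _ = _ := by
        rw [← Real.exp_nat_mul]
        ring_nf
  have hR4 : R ^ 4 = exp ((4 * Cd) * z) := by
    rw [hRe, ← Real.exp_nat_mul]
    congr 1
    push_cast
    ring
  have h12 := le_expz (a := 12) (by norm_num) hz
  have big : 12 * R ^ 4 * (1 + (c : ℝ) * R) ^ c ≤ exp (kT c Cd * z) := by
    have e1 : exp (kT c Cd * z) = exp (12 * z) * exp ((4 * Cd) * z) *
        exp ((c * (c + Cd)) * z) := by
      unfold kT
      rw [← exp_add, ← exp_add]
      ring_nf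
    rw [e1, hR4]
    refine mul_le_mul ?_ hcc (by positivity) (by positivity)
    exact mul_le_mul_of_nonneg_right h12 (exp_pos _).le
  have p1 : (1 : ℝ) ≤ (1 + (c : ℝ) * R) ^ c := one_le_pow₀ (by
    have : 0 ≤ (c : ℝ) * R := by positivity
    linarith)
  rw [← hι]
  rcases kinds H.gamn hl1 hln.le with hs | hs | hs
  · obtain ⟨a, ha⟩ := H.ys_on l hs
    have := s2 a
    rw [ha] at this
    refine this.trans (mul_le_mul_of_nonneg_right (le_trans ?_ big) hi.le)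
    have e2 : R ^ 3 ≤ R ^ 4 := pow_le_pow_right₀ hR1 (by norm_num)
    have e3 : R ^ 4 * 1 ≤ R ^ 4 * (1 + (c : ℝ) * R) ^ c :=
      mul_le_mul_of_nonneg_left p1 (by positivity)
    nlinarith
  · obtain ⟨u, hu⟩ := H.gs_on l hs
    have := s5 u (by
      rintro rfl
      rw [hn] at hu
      omega)
    rw [hu] at this
    refine this.trans ?_
    calc 2 * (4 * R ^ 4 * ι) * (1 + (c : ℝ) * R) ^ c =
        (8 * (R ^ 4 * (1 + (c : ℝ) * R) ^ c)) * ι := by ring
      _ ≤ (12 * R ^ 4 * (1 + (c : ℝ) * R) ^ c) * ι := mul_le_mul_of_nonneg_right (by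
          have : 0 ≤ R ^ 4 * (1 + (c : ℝ) * R) ^ c := by positivity
          nlinarith) hi.le
      _ ≤ _ := mul_le_mul_of_nonneg_right big hi.le
  · exact absurd hs hab

omit G V hCd in
/-- **The visible coordinates, from the exact point over the closed frame**: the coordinates which
are not above, among themselves. -/
theorem zd_of {ω ω' : D.Ω} (hE : E ω) (hE' : E ω')
    (hbb : bb D i j r ω = bb D i j r ω') (hT : D.T ω = D.T ω') {δ : ℝ}
    (hδ : ((2 : ℝ) ^ X)⁻¹ ≤ δ) (hd : ∀ l, 1 ≤ l → l ≤ n → ¬ ab gam n l →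
      |ze D i j r P ω l - ze D i j r P ω' l| ≤ δ) :
    (∀ a, |zd ω (ys a) - zd ω' (ys a)| ≤ (c + 2) * (Ry z Cd * δ)) ∧
      ∀ u, |zd ω (gs u) - zd ω' (gs u)| ≤ (c + 2) * (Ry z Cd * δ) := by
  have hi : (0 : ℝ) < ((2 : ℝ) ^ X)⁻¹ := by positivity
  have hδ0 : 0 < δ := lt_of_lt_of_le hi hδ
  have c0 : (0 : ℝ) ≤ c := Nat.cast_nonneg c
  obtain ⟨R, hR⟩ : ∃ R, R = Ry z Cd := ⟨_, rfl⟩
  have hRe : R = exp (Cd * z) := hR
  have hR0 : 0 < R := by
    rw [hRe]
    exact exp_pos _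
  have f := T.fw ω ω' hE hE' hbb hT δ hδ0.le fun a =>
    hd (ys a) (H.ys_n a).1 (H.ys_n a).2 (sl_ab (H.ys_sl a))
  rw [← hRe] at f
  have f0 : R * (δ + ((2 : ℝ) ^ X)⁻¹) ≤ 2 * (R * δ) := by nlinarith
  have g0 : 0 ≤ R * δ := by positivity
  rw [← hR]
  constructor
  · intro a
    refine ((f.1 a).trans f0).trans ?_
    nlinarith
  · intro u
    have f1 := (f.2 u).trans f0
    have f2 : |∑ v, Mx (bb D i j r ω) (s ω) u v *
        (ze D i j r P ω (gs v) - ze D i j r P ω' (gs v))| ≤ c * (R * δ) := by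
      refine (Finset.abs_sum_le_sum_abs _ _).trans ?_
      calc _ ≤ ∑ v : Fin c, R * δ := Finset.sum_le_sum fun v _ => by
            rw [abs_mul]
            refine mul_le_mul ?_ (hd (gs v) (H.gs_n v).1 (H.gs_n v).2 fun h =>
              ab_gp h (H.gs_gp v)) (abs_nonneg _) hR0.le
            rw [hRe]
            exact T.ent ω hE u v
        _ = _ := by rw [Finset.sum_const, Finset.card_univ, Fintype.card_fin, nsmul_eq_mul]
    rw [abs_le] at f1 f2 ⊢
    constructor <;> linarith [f1.1, f1.2, f2.1, f2.2]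

/-- All the coordinates before the target, with the digits of the coordinates above. -/
theorem ze_lowA {ω ω' : D.Ω} (h1 : 0 < q ω) (h2 : 0 < q ω') (hE : E ω) (hE' : E ω')
    (hbb : bb D i j r ω = bb D i j r ω') (hT : D.T ω = D.T ω') {n₀ : Fin c}
    (hn : gs n₀ = n) (hN : ∀ u, u ≠ n₀ → N ω u = N ω' u) (hY : Y ω = Y ω')
    {ι : Type} {g : ι → ℕ} (hg : ∀ l, ab gam n l → ∃ u, g u = l)
    (hA : zg D z i j r X C P g ω = zg D z i j r X C P g ω') {l : ℕ}
    (hl1 : 1 ≤ l) (hln : l < n) :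
    |ze D i j r P ω l - ze D i j r P ω' l| ≤ exp (kA c C Cd * z) * ((2 : ℝ) ^ X)⁻¹ := by
  have hz := H.z1
  have hi : (0 : ℝ) < ((2 : ℝ) ^ X)⁻¹ := by positivity
  have C0 : 0 ≤ C := by linarith [H.Cg]
  have hkT := kT_nonneg c hCd
  have z0 : (0 : ℝ) ≤ z := Nat.cast_nonneg z
  by_cases hab : ab gam n l
  · obtain ⟨u, hu⟩ := hg l hab
    have h3 := H.ze_dg h1 h2 hE hE' hl1 hln.le (by
      have := congrFun hA u
      unfold zg at this
      rw [hu] at this
      exact this)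
    have hR := Rg_pos z C
    rw [div_mul_eq_mul_div, div_le_iff₀ hR] at h3
    have h4 : |ze D i j r P ω l - ze D i j r P ω' l| ≤ 2 * Rg z C * ((2 : ℝ) ^ X)⁻¹ := by
      rw [← div_eq_mul_inv, le_div_iff₀ (by positivity)]
      linarith
    refine h4.trans (mul_le_mul_of_nonneg_right ?_ hi.le)
    have h5 : 2 * Rg z C = 4 * exp (2 * C * z) := by
      unfold Rg
      ring
    rw [h5]
    refine (mul_expz (a := 4) (b := 2 * C) (by norm_num) hz).trans ?_
    refine Real.exp_le_exp.mpr (mul_le_mul_of_nonneg_right ?_ z0)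
    unfold kA
    linarith
  · refine (ze_low H G T V hCd h1 h2 hE hE' hbb hT hn hN hY hl1 hln hab).trans
      (mul_le_mul_of_nonneg_right ?_ hi.le)
    refine Real.exp_le_exp.mpr (mul_le_mul_of_nonneg_right ?_ z0)
    unfold kA
    linarith

omit V hCd T G in
/-- The exact point over the closed frame, given the deeper context. -/
theorem ze_ctx {v : ℕ} (hM : i + v + r'' < M) {ω ω' : D.Ω} (h1 : 0 < q ω)
    (h2 : 0 < q ω') (hE : E ω) (hE' : E ω') (e : (D.c (i - 1) (j - r) ω, (D.c (i + v) j ω, D.T ω)) =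
      (D.c (i - 1) (j - r) ω', (D.c (i + v) j ω', D.T ω'))) {l : ℕ} (hl1 : 1 ≤ l) (hln : l ≤ n) :
    |ze D i j r P ω l - ze D i j r P ω' l| ≤
      exp (C * z) * (2 * exp (2 * C₁ * z) / 2 ^ (v * z)) := by
  obtain ⟨f1, f2, f3⟩ := H.up (i' := i + v) (by omega) hM h1 h2 e
  have l2 : 0 ≤ Real.log 2 := Real.log_nonneg (by norm_num)
  have l1 : Real.log 2 ≤ 1 := by
    have := Real.log_le_sub_one_of_pos (by norm_num : (0 : ℝ) < 2)
    linarith
  have C10 : 0 ≤ C₁ := by linarith [H.C1]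
  refine H.dep.ofV (i + v) (by omega) (by omega) ω ω' h1 h2 hE hE' f1 f2 f3 l hl1
      hln (2 * exp (2 * C₁ * z) / 2 ^ (v * z)) (by positivity) ?_
  intro k' hk1 hk2
  have hk3 : k' ≤ n := hk2.trans hln
  have p1 := H.ok.pos (i + v) (by omega) j (by have := H.j2; omega) ω h1 k' hk1 hk3
  have p2 := H.ok.pos (i + v) (by omega) j (by have := H.j2; omega) ω' h2 k' hk1 hk3
  have hh1 := H.ok.hom (i + v) (by omega) j (by have := H.j2; omega) k' hk1 hk3
  have hh2 := H.ok.hom i (by omega) j (by have := H.j2; omega) k' hk1 hk3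
  rw [H.lam1 _ hk1 hk3] at hh1 hh2
  have hgg : ((D.g i j k' + v * z : ℕ) : ℝ) ≤ D.g (i + v) j k' + 2 * C₁ * z := by
    rw [abs_le] at hh1 hh2
    push_cast at hh1 hh2 ⊢
    linarith [hh1.1, hh1.2, hh2.1, hh2.2]
  have h3 : (2 : ℝ) ^ (D.g i j k' + v * z) ≤ 2 ^ D.g (i + v) j k' * exp (2 * C₁ * z) := by
    have g0 : 0 ≤ 2 * C₁ * z := by positivity
    have m1 := mul_le_mul_of_nonneg_right hgg l2
    have e0 : ∀ m : ℕ, (2 : ℝ) ^ m = exp (m * Real.log 2) := by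
      intro m
      rw [← Real.log_pow, Real.exp_log (by positivity)]
    rw [e0, e0 (D.g (i + v) j k'), ← Real.exp_add]
    refine Real.exp_le_exp.mpr (m1.trans ?_)
    nlinarith
  have h4 : |D.sh (i + v) j ω k' - D.sh (i + v) j ω' k'| ≤ 2 / 2 ^ D.g (i + v) j k' := by
    have := abs_sub (D.sh (i + v) j ω k') (D.sh (i + v) j ω' k')
    calc _ ≤ _ := this
      _ ≤ 1 / 2 ^ D.g (i + v) j k' + 1 / 2 ^ D.g (i + v) j k' := add_le_add p1 p2
      _ = _ := by ring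
  rw [← mul_sub, abs_mul, abs_of_pos (by positivity : (0 : ℝ) < 2 ^ D.g i j k')]
  rw [le_div_iff₀ (by positivity)]
  calc 2 ^ D.g i j k' * |D.sh (i + v) j ω k' - D.sh (i + v) j ω' k'| * 2 ^ (v * z) =
        2 ^ (D.g i j k' + v * z) * |D.sh (i + v) j ω k' - D.sh (i + v) j ω' k'| := by
        rw [pow_add]
        ring
    _ ≤ (2 ^ D.g (i + v) j k' * exp (2 * C₁ * z)) * (2 / 2 ^ D.g (i + v) j k') :=
        mul_le_mul h3 h4 (abs_nonneg _) (by positivity)
    _ = 2 * exp (2 * C₁ * z) := by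
        field_simp

omit V hCd T in
/-- **The deeper context knows the exact point to its depth.** -/
theorem zd_ctx {v : ℕ} (hx : v * z ≤ X) (hM : i + v + r'' < M) {ω ω' : D.Ω} (h1 : 0 < q ω)
    (h2 : 0 < q ω') (hE : E ω) (hE' : E ω') (e : (D.c (i - 1) (j - r) ω, (D.c (i + v) j ω, D.T ω)) =
      (D.c (i - 1) (j - r) ω', (D.c (i + v) j ω', D.T ω'))) {l : ℕ} (hl1 : 1 ≤ l) (hln : l ≤ n) :
    |zd ω l - zd ω' l| ≤ Ry z Cd * (4 * (exp ((C + 2 * C₁) * z) / 2 ^ (v * z))) := by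
  obtain ⟨f1, f2, f3⟩ := H.up (i' := i + v) (by omega) hM h1 h2 e
  have C0 : 0 ≤ C := by linarith [H.Cg]
  have C10 : 0 ≤ C₁ := by linarith [H.C1]
  have he : 1 ≤ exp ((C + 2 * C₁) * z) := Real.one_le_exp (by positivity)
  have hpv : (0 : ℝ) < 2 ^ (v * z) := by positivity
  have hvX : ((2 : ℝ) ^ X)⁻¹ ≤ ((2 : ℝ) ^ (v * z))⁻¹ :=
    inv_anti₀ hpv (pow_le_pow_right₀ (by norm_num) hx)
  have hve : ((2 : ℝ) ^ (v * z))⁻¹ ≤ exp ((C + 2 * C₁) * z) / 2 ^ (v * z) := by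
    rw [← one_div]
    exact div_le_div_of_nonneg_right he hpv.le
  have e0 : exp (C * z) * (2 * exp (2 * C₁ * z) / 2 ^ (v * z)) =
      2 * (exp ((C + 2 * C₁) * z) / 2 ^ (v * z)) := by
    rw [add_mul, Real.exp_add]
    ring
  obtain ⟨ε, hε⟩ : ∃ ε, ε = exp ((C + 2 * C₁) * z) / 2 ^ (v * z) := ⟨_, rfl⟩
  have h3 : ∀ l, 1 ≤ l → l ≤ n → |ze D i j r P ω l - ze D i j r P ω' l| ≤ 2 * ε := by
    intro l hl1 hln
    rw [hε, ← e0]
    exact ze_ctx H hM h1 h2 hE hE' e hl1 hln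
  rw [← hε] at hve ⊢
  have hε0 : 0 < ε := lt_of_lt_of_le (by positivity) hve
  refine G.ofE ω ω' h1 h2 hE hE' f1 f3 l hl1 hln (4 * ε) ?_ ?_
  · linarith [hvX.trans hve]
  · intro k' hk1 hkl
    exact (h3 k' hk1 (hkl.trans hln)).trans (by linarith)

omit G V hCd T in
/-- The coordinates which are not above, two samples with the same closed context at `L₃`. -/
theorem ze_left3 {ω ω' : D.Ω} (hω : 0 < q ω) (hω' : 0 < q ω') (hE : E ω) (hE' : E ω')
    (hb : bb D i j r ω = bb D i j r ω')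
    (hc : D.c (i + (r + r')) (j - r) ω = D.c (i + (r + r')) (j - r) ω')
    (hT : D.T ω = D.T ω') {l : ℕ} (h1 : 1 ≤ l) (h2 : l ≤ n) (h3 : ¬ ab gam n l) :
    |ze D i j r P ω l - ze D i j r P ω' l| ≤ 4 * ((2 : ℝ) ^ X)⁻¹ := by
  obtain ⟨τ, hτ⟩ : ∃ τ, τ = exp (C * z) / 2 ^ (y * z) := ⟨_, rfl⟩
  have ht := H.tau
  have hg := H.geo
  have hl := hg.left3 ω ω' hω hω' hE hE' hb hc w H.w1 H.w2 (by rw [hT]) l h1 h2 h3
  rw [← hτ] at ht hl hg
  have hpX : (0 : ℝ) < 2 ^ X := by positivity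
  have hτ1 : τ ≤ ((2 : ℝ) ^ X)⁻¹ := by
    rw [← one_div, le_div_iff₀ hpX]
    linarith
  have key : |ze D i j r P ω l - ze D i j r P ω' l| ≤ 4 * τ := by
    rcases kinds H.gamn h1 h2 with hs | hs | hs
    · have a1 := hg.slow ω hω hE l hs w H.w1 H.w2
      have a2 := hg.slow ω' hω' hE' l hs w H.w1 H.w2
      have a3 := hl.1
      have a0 := (abs_nonneg _).trans a3
      rw [abs_le] at a1 a2 a3 ⊢
      constructor <;> linarith [a1.1, a1.2, a2.1, a2.2, a3.1, a3.2]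
    · have a1 := hg.grp ω hω hE l hs w H.w1 H.w2
      have a2 := hg.grp ω' hω' hE' l hs w H.w1 H.w2
      have a3 := hl.1
      have a4 := hl.2
      have hr := (rt_near (D := D) (J := J) (w := w) (X := X) (ω := ω) (H.ok.X_zero ω) H.wX).1
      have hrr : rt D J w ω' = rt D J w ω := by
        unfold rt t0
        rw [H.ok.X_zero, H.ok.X_zero, hT]
      rw [hrr] at a2
      have a5 : |rt D J w ω * be D J w i j r P ω l - rt D J w ω * be D J w i j r P ω' l| ≤ τ := by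
        rw [← mul_sub, abs_mul]
        have a0 := (abs_nonneg _).trans a4
        calc _ ≤ 1 * τ := mul_le_mul hr a4 (abs_nonneg _) (by norm_num)
          _ = τ := one_mul _
      rw [abs_le] at a1 a2 a3 a5 ⊢
      constructor <;> linarith [a1.1, a1.2, a2.1, a2.2, a3.1, a3.2, a5.1, a5.2]
    · exact absurd hs h3
  linarith

end

end Pool.P4I.V
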