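import Pool.Agent.H35.P4I.Def
import Pool.Agent.H65.NFC.One

/-!
# P4I: the local theorem with coordinates above the target, statements

`P4IT`, `P4IStmt`: as `P4T`, `P4Stmt`, without the condition `gam l < 1 + thd` for the
coordinates before the target. `P4IT1`, `P4IStmt1`: with `NFc1` in place of `NFc`.
-/

set_option autoImplicit false

namespace Pool.P4I

open Finset Real MvPolynomial
open Pool.Agent.H49.Ent Pool.Agent.H32.Dense Pool.STK Pool.STAT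
open Pool.BFL (Pb)
open Pool.P4 (thd sl gr GnL NBT NewLabT NFc NFc1)

/-- **P4I, the local theorem**: the base slopes are `1`, the coordinates before the target outside
`R` have labels with gain, the rows of the target have the rate `1 - h` given the visible labels
and at least `1 - (h + δ)` given the closed contexts: a new thin label of the target or of a
coordinate of the proper group in `R`. -/
def P4IT (n K A B : ℕ) (gam : ℕ → ℝ) (R : ℕ → Prop) (C₁ h δ : ℝ) : Prop :=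
  ∃ (M Q K' : ℕ) (η' κ ϖ : ℝ) (z₀ : ℕ), 0 < η' ∧ 0 < κ ∧ 0 < ϖ ∧ ϖ ≤ 1 ∧
    ∀ (lam : ℕ → ℝ) (J a₀ w₀ z : ℕ) (D : NDat2) (q : D.Ω → ℝ) (U : GnL D),
      (∀ l, 1 ≤ l → l ≤ n → lam l = 1) → z₀ ≤ z →
      D.Ok2 n K J a₀ w₀ z M lam gam κ C₁ q → D.NF n z M B gam h C₁ ϖ q →
      NFc D n z M B gam (h + δ) C₁ q → D.TmU J w₀ z κ q → U.Ok n K J a₀ w₀ z M Q R C₁ q →
      ∃ l, 1 ≤ l ∧ l ≤ n ∧ (l = n ∨ (R l ∧ gp gam n l)) ∧ ∃ i ≤ M, ∃ j ≤ M,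
        NewLabT D U J a₀ w₀ z Q R i j l A K' η' q

/-- **P4I**, all cells. `δ` depends only on `n`, `B` and on a lower bound of `h`. -/
def P4IStmt : Prop :=
  ∀ (n B : ℕ) (h₀ : ℝ), 1 ≤ n → 1 ≤ B → 0 < h₀ → ∃ δ : ℝ, 0 < δ ∧
    ∀ (K A : ℕ) (gam : ℕ → ℝ) (R : ℕ → Prop) (C₁ h : ℝ), h₀ ≤ h → h ≤ 1 → (∀ l, 0 ≤ gam l) →
    0 < gam n → gam n < 1 + thd gam n → (∀ l, sl gam n l → R l) → 1 ≤ C₁ →
    P4IT n K A B gam R C₁ h δ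

/-- **P4I, the local theorem**, one closed context. -/
def P4IT1 (n K A B : ℕ) (gam : ℕ → ℝ) (R : ℕ → Prop) (C₁ h δ : ℝ) : Prop :=
  ∃ (M Q K' : ℕ) (η' κ ϖ : ℝ) (z₀ : ℕ), 0 < η' ∧ 0 < κ ∧ 0 < ϖ ∧ ϖ ≤ 1 ∧
    ∀ (lam : ℕ → ℝ) (J a₀ w₀ z : ℕ) (D : NDat2) (q : D.Ω → ℝ) (U : GnL D),
      (∀ l, 1 ≤ l → l ≤ n → lam l = 1) → z₀ ≤ z →
      D.Ok2 n K J a₀ w₀ z M lam gam κ C₁ q → D.NF n z M B gam h C₁ ϖ q →
      NFc1 D n z M B gam (h + δ) C₁ q → D.TmU J w₀ z κ q → U.Ok n K J a₀ w₀ z M Q R C₁ q →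
      ∃ l, 1 ≤ l ∧ l ≤ n ∧ (l = n ∨ (R l ∧ gp gam n l)) ∧ ∃ i ≤ M, ∃ j ≤ M,
        NewLabT D U J a₀ w₀ z Q R i j l A K' η' q

/-- **P4I**, all cells, one closed context. -/
def P4IStmt1 : Prop :=
  ∀ (n B : ℕ) (h₀ : ℝ), 1 ≤ n → 1 ≤ B → 0 < h₀ → ∃ δ : ℝ, 0 < δ ∧
    ∀ (K A : ℕ) (gam : ℕ → ℝ) (R : ℕ → Prop) (C₁ h : ℝ), h₀ ≤ h → h ≤ 1 → (∀ l, 0 ≤ gam l) →
    0 < gam n → gam n < 1 + thd gam n → (∀ l, sl gam n l → R l) → 1 ≤ C₁ →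
    P4IT1 n K A B gam R C₁ h δ

/-- P4I contains P4. -/
theorem P4IStmt1.p4 (H : P4IStmt1) : Pool.P4.P4Stmt1 := by
  intro n B h₀ hn hB hh
  obtain ⟨δ, hδ, H⟩ := H n B h₀ hn hB hh
  refine ⟨δ, hδ, fun K A gam R C₁ h h1 h2 g0 gn gg gs hC => ?_⟩
  obtain ⟨M, Q, K', η', κ, ϖ, z₀, c1, c2, c3, c4, HH⟩ :=
    H K A gam R C₁ h h1 h2 g0 gn (gg n ⟨hn, le_rfl, min_le_left _ _⟩) gs hC
  refine ⟨M, Q, K', η', κ, ϖ, z₀, c1, c2, c3, c4, ?_⟩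
  intro lam J a₀ w₀ z D q U d1 d2 d3 d4 d5 d6 d7
  obtain ⟨l, e1, e2, e3, e4⟩ := HH lam J a₀ w₀ z D q U d1 d2 d3 d4 d5 d6 d7
  exact ⟨l, e1, e2, e3.imp id fun e => ⟨e.1, e.2.1⟩, e4⟩

end Pool.P4I
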