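import Pool.Agent.H35.P4I.VCell
import Pool.Agent.H35.P4I.CellT
import Pool.Agent.H35.P4I.EndB
import Pool.Agent.H35.P4I.Thin
import Pool.Agent.H25.P4I.GfJ
import Pool.Agent.H65.NFC.Red

/-!
# P4I: the local theorem with coordinates above the target

`p4i_1`: the local theorem `P4IStmt1` (one closed context). `p4i`: the local theorem `P4IStmt`.
-/

set_option autoImplicit false

namespace Pool.P4I

/-- **P4I**, one closed context. -/
theorem p4i_1 : P4IStmt1 := by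
  intro n B h₀ hn hB hh₀
  obtain ⟨δ, hδ, H⟩ := p4x_of (vcellS_of cellF_thm) gfS n B h₀ hn hB hh₀
  refine ⟨δ, hδ, fun K A gam R C₁ h h1 h2 g0 gn gg gs hC => ?_⟩
  exact Pool.NFC65.red3 (Cl := gp gam n) hn hB g0 hC fun C₂ hC₂ CL =>
    H K A gam R C₂ CL h h1 h2 g0 gn gg gs (hC.trans hC₂)

/-- **P4I**: the local theorem. -/
theorem p4i : P4IStmt := by
  intro n B h₀ hn hB hh₀
  obtain ⟨δ, hδ, H⟩ := p4i_1 n B h₀ hn hB hh₀
  refine ⟨δ, hδ, fun K A gam R C₁ h h1 h2 g0 gn gg gs hC => ?_⟩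
  obtain ⟨M, Q, K', η', κ, ϖ, z₀, c1, c2, c3, c4, HH⟩ := H K A gam R C₁ h h1 h2 g0 gn gg gs hC
  refine ⟨M, Q, K', η', κ, ϖ, z₀, c1, c2, c3, c4, ?_⟩
  intro lam J a₀ w₀ z D q U d1 d2 d3 d4 d5 d6 d7
  exact HH lam J a₀ w₀ z D q U d1 d2 d3 d4
    (Pool.P4.NFc1.of_two d3.isLaw.nonneg d5) d6 d7

end Pool.P4I
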