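import Pool.Agent.H35.P4I.Hs2
import Pool.Agent.H89.P4.V2

/-!
# P4I: the visible chart of the picture, two samples
-/

set_option autoImplicit false

namespace Pool.P4I

open Finset Real MvPolynomial
open Pool.Agent.H49.Ent Pool.Agent.H32.Dense Pool.STK Pool.STAT Pool.MIC.Frm Pool.MIC7 Pool.FRM
open Pool.GSD Pool.POT
open Pool.BFL (Pb)
open Pool.P4

section

variable {D : NDat2} {n K K' J a₀ w₀ z M w i j r r' r'' y X : ℕ} {lam gam : ℕ → ℝ}
  {κ C₁ C : ℝ} {q : D.Ω → ℝ} {E : D.Ω → Prop} {P : D.Γ × D.Γ → ℕ → PN}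
  {S : D.Ω → ℕ → ℕ → ℝ} {c k : ℕ} {ys : Fin k → ℕ} {gs : Fin c → ℕ}
  (H : Hyp D n K K' J a₀ w₀ z M w i j r r' r'' y X lam gam κ C₁ C q E P S ys gs)

include H

/-- Near slow coordinates of the exact point, from the data of the line. -/
theorem Hyp.y_ze {ω ω' : D.Ω} (hω : 0 < q ω) (hω' : 0 < q ω') (hE : E ω) (hE' : E ω')
    (h : yv (k := k) D J w z i j r X C P ys ω = yv D J w z i j r X C P ys ω') (a : Fin k) :
    2 ^ X * |ze D i j r P ω (ys a) - ze D i j r P ω' (ys a)| ≤ 6 * Ry z C := by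
  have hRy := Ry_pos z C
  have hRy1 : 1 ≤ Ry z C := H.e1
  obtain ⟨τ, hτ⟩ : ∃ τ, τ = exp (C * z) / 2 ^ (y * z) := ⟨_, rfl⟩
  have ht := H.tau
  have hg := H.geo
  have hya := H.ys_n a
  have b1 := (hg.bt ω hω hE (ys a) hya.1 hya.2 w H.w1 H.w2).1
  have b2 := (hg.bt ω' hω' hE' (ys a) hya.1 hya.2 w H.w1 H.w2).1
  rw [← hτ] at ht hg
  have a1 := hg.slow ω hω hE (ys a) (H.ys_sl a) w H.w1 H.w2
  have a2 := hg.slow ω' hω' hE' (ys a) (H.ys_sl a) w H.w1 H.w2
  have b1' : |z0 D J w i j r P ω (ys a)| ≤ Ry z C := b1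
  have b2' : |z0 D J w i j r P ω' (ys a)| ≤ Ry z C := b2
  rw [abs_le] at b1' b2'
  have h3 := dgp_inj (X := X) (x := (z0 D J w i j r P ω (ys a) + Ry z C) / (2 * Ry z C))
    (y := (z0 D J w i j r P ω' (ys a) + Ry z C) / (2 * Ry z C))
    (div_nonneg (by linarith) (by linarith)) (by rw [div_le_one (by linarith)]; linarith)
    (div_nonneg (by linarith) (by linarith)) (by rw [div_le_one (by linarith)]; linarith)
    (congrFun h a)
  rw [← sub_div, abs_div, abs_of_pos (by positivity : (0 : ℝ) < 2 * Ry z C),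
    add_sub_add_right_eq_sub, ← mul_div_assoc, div_le_iff₀ (by positivity)] at h3
  have hX : (0 : ℝ) < 2 ^ X := by positivity
  have h4 : |ze D i j r P ω (ys a) - ze D i j r P ω' (ys a)| ≤
      |z0 D J w i j r P ω (ys a) - z0 D J w i j r P ω' (ys a)| + 2 * τ := by
    have h5 : ze D i j r P ω (ys a) - ze D i j r P ω' (ys a) =
        (z0 D J w i j r P ω (ys a) - z0 D J w i j r P ω' (ys a)) +
        ((ze D i j r P ω (ys a) - z0 D J w i j r P ω (ys a)) -
          (ze D i j r P ω' (ys a) - z0 D J w i j r P ω' (ys a))) := by ring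
    rw [h5]
    refine (abs_add_le _ _).trans (add_le_add le_rfl ((abs_sub _ _).trans ?_))
    linarith
  calc _ ≤ 2 ^ X * (|z0 D J w i j r P ω (ys a) - z0 D J w i j r P ω' (ys a)| + 2 * τ) :=
        mul_le_mul_of_nonneg_left h4 hX.le
    _ = 2 ^ X * |z0 D J w i j r P ω (ys a) - z0 D J w i j r P ω' (ys a)| + 2 * (2 ^ X * τ) := by
        ring
    _ ≤ _ := by linarith

/-- The group at the left end and at the time. -/
theorem Hyp.z0_ze {ω ω' : D.Ω} (hω : 0 < q ω) (hω' : 0 < q ω') (hE : E ω) (hE' : E ω')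
    (hT : D.T ω = D.T ω')
    (h : bev (c := c) D J w z i j r X C P gs ω = bev D J w z i j r X C P gs ω') (u : Fin c) :
    |2 ^ X / Rg z C * (ze D i j r P ω (gs u) - ze D i j r P ω' (gs u)) -
      2 ^ X / Rg z C * (z0 D J w i j r P ω (gs u) - z0 D J w i j r P ω' (gs u))| ≤ 4 := by
  have hR := Rg_pos z C
  have hR1 := H.one_Rg
  obtain ⟨τ, hτ⟩ : ∃ τ, τ = exp (C * z) / 2 ^ (y * z) := ⟨_, rfl⟩
  have ht := H.tau
  have hg := H.geo
  have hgu := H.gs_n u
  have b1 := (hg.bt ω hω hE (gs u) hgu.1 hgu.2 w H.w1 H.w2).2.trans H.exp_le_Rg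
  have b2 := (hg.bt ω' hω' hE' (gs u) hgu.1 hgu.2 w H.w1 H.w2).2.trans H.exp_le_Rg
  rw [← hτ] at ht hg
  have a1 := hg.grp ω hω hE (gs u) (H.gs_gp u) w H.w1 H.w2
  have a2 := hg.grp ω' hω' hE' (gs u) (H.gs_gp u) w H.w1 H.w2
  have hr := (rt_near (D := D) (J := J) (w := w) (X := X) (ω := ω) (H.ok.X_zero ω) H.wX).1
  have hrr : rt D J w ω' = rt D J w ω := by
    unfold rt t0
    rw [H.ok.X_zero, H.ok.X_zero, hT]
  rw [hrr] at a2
  have h3 := dg_inj (X := X) (x := be D J w i j r P ω (gs u) / Rg z C)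
    (y := be D J w i j r P ω' (gs u) / Rg z C)
    (by rw [abs_div, abs_of_pos hR, div_le_one hR]; exact b1)
    (by rw [abs_div, abs_of_pos hR, div_le_one hR]; exact b2) (congrFun h u)
  rw [← sub_div, abs_div, abs_of_pos hR] at h3
  obtain ⟨f, hf⟩ : ∃ f, f = 2 ^ X / Rg z C := ⟨_, rfl⟩
  have f0 : 0 < f := by
    rw [hf]
    positivity
  have h3' : f * |be D J w i j r P ω (gs u) - be D J w i j r P ω' (gs u)| ≤ 2 := by
    rw [hf]
    calc _ = 2 ^ X * (|be D J w i j r P ω (gs u) - be D J w i j r P ω' (gs u)| / Rg z C) := by ring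
      _ ≤ 2 := h3
  have hfτ : f * τ ≤ 1 := by
    rw [hf, div_mul_eq_mul_div, div_le_one hR]
    linarith
  rw [← hf, ← mul_sub, abs_mul, abs_of_pos f0]
  have h5 : ze D i j r P ω (gs u) - ze D i j r P ω' (gs u) -
      (z0 D J w i j r P ω (gs u) - z0 D J w i j r P ω' (gs u)) =
      (ze D i j r P ω (gs u) - (z0 D J w i j r P ω (gs u) +
        rt D J w ω * be D J w i j r P ω (gs u))) -
      (ze D i j r P ω' (gs u) - (z0 D J w i j r P ω' (gs u) +
        rt D J w ω * be D J w i j r P ω' (gs u))) +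
      rt D J w ω * (be D J w i j r P ω (gs u) - be D J w i j r P ω' (gs u)) := by ring
  have h6 : |ze D i j r P ω (gs u) - ze D i j r P ω' (gs u) -
      (z0 D J w i j r P ω (gs u) - z0 D J w i j r P ω' (gs u))| ≤
      2 * τ + |be D J w i j r P ω (gs u) - be D J w i j r P ω' (gs u)| := by
    rw [h5]
    refine (abs_add_le _ _).trans (add_le_add ((abs_sub _ _).trans (by linarith)) ?_)
    rw [abs_mul]
    calc _ ≤ 1 * |be D J w i j r P ω (gs u) - be D J w i j r P ω' (gs u)| :=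
          mul_le_mul_of_nonneg_right hr (abs_nonneg _)
      _ = _ := one_mul _
  have h7 := mul_le_mul_of_nonneg_left h6 f0.le
  linarith

/-- **The height and the exact point.** -/
theorem Hyp.hgt_ze {ω ω' : D.Ω} (hω : 0 < q ω) (hω' : 0 < q ω') (hE : E ω) (hE' : E ω')
    (hS : Sv (c := c) (k := k) D z X C S ys gs ω = Sv D z X C S ys gs ω') {ρ : ℝ}
    (hy : ∀ a, 2 ^ X * |ze D i j r P ω (ys a) - ze D i j r P ω' (ys a)| ≤ ρ) (u : Fin c) :
    |2 ^ X / Rg z C * (ze D i j r P ω (gs u) - ze D i j r P ω' (gs u)) -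
      (((qh (c := c) (k := k) D J w z i j r X C P S ys gs q).hgt ω u : ℝ) -
        (qh (c := c) (k := k) D J w z i j r X C P S ys gs q).hgt ω' u)| ≤
      12 + 10 * k + k * (1 + ρ) := by
  have hR := Rg_pos z C
  have hRy := Ry_pos z C
  have e1 := H.e1
  have k0 : (0 : ℝ) ≤ k := Nat.cast_nonneg k
  obtain ⟨f, hf⟩ : ∃ f, f = 2 ^ X / Rg z C := ⟨_, rfl⟩
  have f0 : 0 < f := by
    rw [hf]
    positivity
  have h1 := H.hgt_nn hω hE u
  have h2 := H.hgt_nn hω' hE' u
  have enn : ∀ ω : D.Ω, nn D n i j r gam P S ω (gs u) = ze D i j r P ω (gs u) -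
      ∑ a, S ω (gs u) (ys a) * ze D i j r P ω (ys a) := by
    intro ω
    unfold nn
    rw [sum_sl H.ys_sl H.ys_in H.ys_on (fun l => S ω (gs u) l * ze D i j r P ω l)]
  have h4 : ∀ a, f * |S ω (gs u) (ys a) * ze D i j r P ω (ys a) -
      S ω' (gs u) (ys a) * ze D i j r P ω' (ys a)| ≤ 1 + ρ := by
    intro a
    have hya := H.ys_n a
    have a2 := H.geo.bz ω hω hE (ys a) hya.1 hya.2
    have a3 := H.geo.bS ω' hω' hE' (gs u) (ys a)
    have s0 : ∀ ω : D.Ω, 0 < q ω → E ω → |S ω (gs u) (ys a) * (2 * Ry z C) / Rg z C| ≤ 1 := by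
      intro ω hω hE
      rw [abs_div, abs_of_pos hR, div_le_one hR]
      have h1 := H.geo.bS ω hω hE (gs u) (ys a)
      rw [Rg_eq, abs_mul, abs_of_pos (by positivity : (0 : ℝ) < 2 * Ry z C)]
      unfold Ry
      have := Real.exp_pos (C * z)
      nlinarith
    have a4 := dg_inj (X := X) (s0 ω hω hE) (s0 ω' hω' hE') (congrFun (congrFun hS u) a)
    have a5 : f * |S ω (gs u) (ys a) - S ω' (gs u) (ys a)| * exp (C * z) ≤ 1 := by
      have e2 : S ω (gs u) (ys a) * (2 * Ry z C) / Rg z C -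
          S ω' (gs u) (ys a) * (2 * Ry z C) / Rg z C =
          (S ω (gs u) (ys a) - S ω' (gs u) (ys a)) * (2 * Ry z C / Rg z C) := by ring
      rw [e2, abs_mul, abs_of_pos (by positivity : 0 < 2 * Ry z C / Rg z C)] at a4
      have e3 : 2 ^ X * (|S ω (gs u) (ys a) - S ω' (gs u) (ys a)| * (2 * Ry z C / Rg z C)) =
          2 * (f * |S ω (gs u) (ys a) - S ω' (gs u) (ys a)| * Ry z C) := by
        rw [hf]
        ring
      rw [e3] at a4
      unfold Ry at a4
      linarith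
    have e4 : S ω (gs u) (ys a) * ze D i j r P ω (ys a) -
        S ω' (gs u) (ys a) * ze D i j r P ω' (ys a) =
        (S ω (gs u) (ys a) - S ω' (gs u) (ys a)) * ze D i j r P ω (ys a) +
        S ω' (gs u) (ys a) * (ze D i j r P ω (ys a) - ze D i j r P ω' (ys a)) := by ring
    have a6 : f * |(S ω (gs u) (ys a) - S ω' (gs u) (ys a)) * ze D i j r P ω (ys a)| ≤ 1 := by
      rw [abs_mul]
      calc _ ≤ f * (|S ω (gs u) (ys a) - S ω' (gs u) (ys a)| * exp (C * z)) :=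
            mul_le_mul_of_nonneg_left (mul_le_mul_of_nonneg_left a2 (abs_nonneg _)) f0.le
        _ ≤ 1 := by
          rw [← mul_assoc]
          exact a5
    have a7 : f * |S ω' (gs u) (ys a) * (ze D i j r P ω (ys a) - ze D i j r P ω' (ys a))| ≤
        ρ := by
      rw [abs_mul]
      have hρ0 : 0 ≤ ρ := le_trans (by positivity) (hy a)
      have e5 : exp (C * z) / Rg z C ≤ 1 := by
        rw [div_le_one hR]
        exact H.exp_le_Rg
      calc _ ≤ f * (exp (C * z) * |ze D i j r P ω (ys a) - ze D i j r P ω' (ys a)|) :=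
            mul_le_mul_of_nonneg_left (mul_le_mul_of_nonneg_right a3 (abs_nonneg _)) f0.le
        _ = (exp (C * z) / Rg z C) *
            (2 ^ X * |ze D i j r P ω (ys a) - ze D i j r P ω' (ys a)|) := by
            rw [hf]
            ring
        _ ≤ 1 * ρ := mul_le_mul e5 (hy a) (by positivity) (by norm_num)
        _ = ρ := one_mul _
    rw [e4]
    have a8 := abs_add_le ((S ω (gs u) (ys a) - S ω' (gs u) (ys a)) * ze D i j r P ω (ys a))
      (S ω' (gs u) (ys a) * (ze D i j r P ω (ys a) - ze D i j r P ω' (ys a)))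
    have a9 := mul_le_mul_of_nonneg_left a8 f0.le
    linarith
  obtain ⟨sg, hsg⟩ : ∃ sg : ℝ, sg = ∑ a, S ω (gs u) (ys a) * ze D i j r P ω (ys a) -
      ∑ a, S ω' (gs u) (ys a) * ze D i j r P ω' (ys a) := ⟨_, rfl⟩
  have h5 : f * |sg| ≤ k * (1 + ρ) := by
    rw [hsg, ← Finset.sum_sub_distrib]
    calc _ ≤ f * ∑ a, |S ω (gs u) (ys a) * ze D i j r P ω (ys a) -
          S ω' (gs u) (ys a) * ze D i j r P ω' (ys a)| :=
          mul_le_mul_of_nonneg_left (Finset.abs_sum_le_sum_abs _ _) f0.le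
      _ = ∑ a, f * |S ω (gs u) (ys a) * ze D i j r P ω (ys a) -
          S ω' (gs u) (ys a) * ze D i j r P ω' (ys a)| := Finset.mul_sum _ _ _
      _ ≤ ∑ a : Fin k, (1 + ρ) := Finset.sum_le_sum fun a _ => h4 a
      _ = _ := by rw [Finset.sum_const, Finset.card_univ, Fintype.card_fin, nsmul_eq_mul]
  have h6 : |f * sg| ≤ k * (1 + ρ) := by
    rw [abs_mul, abs_of_pos f0]
    exact h5
  rw [← hf] at h1 h2 ⊢
  rw [enn] at h1 h2
  have e6 : f * (ze D i j r P ω (gs u) - ze D i j r P ω' (gs u)) =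
      f * (ze D i j r P ω (gs u) - ∑ a, S ω (gs u) (ys a) * ze D i j r P ω (ys a)) -
      f * (ze D i j r P ω' (gs u) - ∑ a, S ω' (gs u) (ys a) * ze D i j r P ω' (ys a)) +
      f * sg := by
    rw [hsg]
    ring
  rw [e6]
  rw [abs_le] at h1 h2 h6 ⊢
  constructor <;> linarith [h1.1, h1.2, h2.1, h2.2, h6.1, h6.2]

end

end Pool.P4I
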