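import Pool.Agent.H35.P4I.V2
import Pool.Agent.H89.P4.V4

/-!
# P4I: the visible chart of the picture, the flag
-/

set_option autoImplicit false

namespace Pool.P4I

open Finset Real MvPolynomial
open Pool.Agent.H49.Ent Pool.Agent.H32.Dense Pool.STK Pool.STAT Pool.MIC.Frm Pool.MIC Pool.MIC7
open Pool.FRM Pool.GSD Pool.POT
open Pool.BFL (Pb)
open Pool.QC (nfb)
open Pool.QT64 (QH)
open Pool.P4

section

variable {D : NDat2} {n K K' J a₀ w₀ z M w i j r r' r'' y X : ℕ} {lam gam : ℕ → ℝ}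
  {κ C₁ C : ℝ} {q : D.Ω → ℝ} {E : D.Ω → Prop} {P : D.Γ × D.Γ → ℕ → PN}
  {S : D.Ω → ℕ → ℕ → ℝ} {c k : ℕ} {ys : Fin k → ℕ} {gs : Fin c → ℕ}

variable (H : Hyp D n K K' J a₀ w₀ z M w i j r r' r'' y X lam gam κ C₁ C q E P S ys gs)
  {Sg : Type} {s : D.Ω → Sg} {zd : D.Ω → ℕ → ℝ}

include H

theorem Hyp.b1 : Pb q (fun ω => ¬ E ω) ≤ 1 := by
  have h := H.ok.isLaw
  have := Pool.MIC.Pb_not h.sum_one E
  have := Pool.MIC.Pb_nonneg h.nonneg E
  linarith

/-- **(F)** for the flagged variables. -/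
theorem Hyp.hF_flag {Bt : Type} (bt : D.Ω → Bt) {δ0 : ℝ}
    (hF0 : CH q (fun ω => (yD z X C zd ys ω, nuD z X C zd gs ω)) s ≤
      CH q (fun ω => (yD z X C zd ys ω, nuD z X C zd gs ω)) (fun ω => (bt ω, s ω)) + δ0) :
    CH q (fun ω => (yF E (yD z X C zd ys) ω, nF E (nuD z X C zd gs)
        (qh (c := c) (k := k) D J w z i j r X C P S ys gs q).hgt ω)) (fun ω => (E ω, s ω)) ≤
      CH q (fun ω => (yF E (yD z X C zd ys) ω, nF E (nuD z X C zd gs)
        (qh (c := c) (k := k) D J w z i j r X C P S ys gs q).hgt ω))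
        (fun ω => (bt ω, (E ω, s ω))) +
      (δ0 + (1 + 2 * ((k + c : ℕ) * aW k)) * (z + X * Pb q (fun ω => ¬ E ω))) := by
  have hq := H.ok.isLaw
  obtain ⟨hg, hhg⟩ : ∃ hg : D.Ω → Fin c → ℤ, hg =
    (qh (c := c) (k := k) D J w z i j r X C P S ys gs q).hgt := ⟨_, rfl⟩
  rw [← hhg]
  obtain ⟨W, hW⟩ : ∃ W : ℕ, W = (3 + 2 * k) * 2 ^ X := ⟨_, rfl⟩
  obtain ⟨F, hF⟩ : ∃ F : Finset ((Fin k → ℤ) × (Fin c → ℤ)), F = vecF k W ×ˢ vecF c W :=
    ⟨_, rfl⟩
  have hWz : ∀ x : ℤ, |x| ≤ (3 + 2 * k) * 2 ^ X → |x| ≤ (W : ℤ) := by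
    intro x hx
    rw [hW]
    push_cast
    exact hx
  have hcard : Real.log F.card ≤ (k + c : ℕ) * (aW k - 1 + X) := by
    rw [hF, Finset.card_product, card_vecF, card_vecF, ← pow_add]
    push_cast
    rw [Real.log_pow, hW]
    have := log_rng k X
    push_cast at this ⊢
    exact mul_le_mul_of_nonneg_left this (by positivity)
  have m1 : ∀ ω, 0 < q ω → (yF E (yD z X C zd ys) ω, nF E (nuD z X C zd gs) hg ω) ∈ F := by
    intro ω _
    rw [hF, Finset.mem_product, hhg]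
    exact ⟨mem_vecF fun a => hWz _ (yF_bd ω a), mem_vecF fun u => hWz _ (nF_bd H.wX ω u)⟩
  have m2 : ∀ ω, 0 < q ω → (yD z X C zd ys ω, nuD z X C zd gs ω) ∈ F := by
    intro ω _
    rw [hF, Finset.mem_product]
    exact ⟨mem_vecF fun a => hWz _ (yD_bd ω a), mem_vecF fun u => hWz _ (nD_bd k ω u)⟩
  have onE : ∀ ω, E ω → (yF E (yD z X C zd ys) ω, nF E (nuD z X C zd gs) hg ω) =
      (yD z X C zd ys ω, nuD z X C zd gs ω) := by
    intro ω hω
    unfold yF nF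
    rw [if_pos hω, if_pos hω]
  have u1 := flag_up hq (f := fun ω => (yD z X C zd ys ω, nuD z X C zd gs ω)) (g := s)
    (f' := fun ω => (yF E (yD z X C zd ys) ω, nF E (nuD z X C zd gs) hg ω))
    (g' := fun ω => (E ω, s ω)) E (fun ω ω' e => iff_of_eq (Prod.ext_iff.mp e).1)
    (fun ω ω' h1 h2 e => by
      rw [onE ω h1, onE ω' h2]
      exact e) (fun ω ω' _ _ e => (Prod.ext_iff.mp e).2) F m1
  have u2 := flag_lo hq (f := fun ω => (yD z X C zd ys ω, nuD z X C zd gs ω))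
    (g := fun ω => (bt ω, s ω))
    (f' := fun ω => (yF E (yD z X C zd ys) ω, nF E (nuD z X C zd gs) hg ω))
    (g' := fun ω => (bt ω, (E ω, s ω))) E
    (fun ω ω' h1 h2 e => by
      simp only [onE ω h1, onE ω' h2] at e
      exact e) (fun ω ω' h1 h2 e => by
      have e1 := (Prod.ext_iff.mp e).1
      have e2 := (Prod.ext_iff.mp e).2
      exact Prod.ext e1 (Prod.ext (propext ⟨fun _ => h2, fun _ => h1⟩) e2)) F m2
  have b0 := H.b0
  have b1 := H.b1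
  have e1 := mul_le_mul_of_nonneg_left hcard b0
  have e2 := rng_err (m := k + c) (k := k) (X := X) H.z1 b0 b1
  have e3 := H.xb
  have z1 : (1 : ℝ) ≤ z := by exact_mod_cast H.z1
  have x0 : (0 : ℝ) ≤ X := Nat.cast_nonneg X
  have xb : 0 ≤ (X : ℝ) * Pb q (fun ω => ¬ E ω) := mul_nonneg x0 b0
  have l2 : Real.log 2 ≤ 1 := by
    have := Real.log_le_sub_one_of_pos (by norm_num : (0 : ℝ) < 2)
    linarith
  linarith

/-- **Nonfullness** for the flagged variables. -/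
theorem Hyp.nf_flag (n₀ : Fin c) {B : ℕ} {ν : ℝ}
    (h : nfb q (nuD z X C zd gs) (fun ω => (yD z X C zd ys ω, s ω)) n₀ X B ≤ ν) :
    nfb q (nF E (nuD z X C zd gs) (qh (c := c) (k := k) D J w z i j r X C P S ys gs q).hgt)
      (fun ω => (yF E (yD z X C zd ys) ω, (E ω, s ω))) n₀ X B ≤
      ν + B * (aW k * (z + X * Pb q (fun ω => ¬ E ω))) := by
  have hq := H.ok.isLaw
  obtain ⟨hg, hhg⟩ : ∃ hg : D.Ω → Fin c → ℤ, hg =
    (qh (c := c) (k := k) D J w z i j r X C P S ys gs q).hgt := ⟨_, rfl⟩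
  rw [← hhg]
  have hnb := fun ω u => nF_bd (E := E) (zd := zd) (S := S) (P := P) (ys := ys) (gs := gs)
    (q := q) (i := i) (j := j) (r := r) (z := z) (C := C) (c := c) (k := k) H.wX ω u
  rw [← hhg] at hnb
  have b0 := H.b0
  have b1 := H.b1
  refine le_trans ?_ (add_le_add h le_rfl)
  unfold nfb
  have hsum : (B : ℝ) * (aW k * (z + X * Pb q (fun ω => ¬ E ω))) =
      ∑ _j ∈ Finset.range B, aW k * (z + X * Pb q (fun ω => ¬ E ω)) := by
    rw [Finset.sum_const, Finset.card_range, nsmul_eq_mul]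
  rw [hsum, ← Finset.sum_add_distrib]
  refine Finset.sum_le_sum fun t _ => ?_
  obtain ⟨e1, he1⟩ : ∃ e, e = X - (t + 1) * X / B := ⟨_, rfl⟩
  obtain ⟨e0, he0⟩ : ∃ e, e = X - t * X / B := ⟨_, rfl⟩
  rw [← he1, ← he0]
  have onE : ∀ ω, E ω → nF E (nuD z X C zd gs) hg ω = nuD z X C zd gs ω := by
    intro ω hω
    unfold nF
    rw [if_pos hω]
  have onE' : ∀ ω, E ω → yF E (yD z X C zd ys) ω = yD z X C zd ys ω := by
    intro ω hω
    unfold yF
    rw [if_pos hω]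
  have u1 := flag_up hq
    (f := fun ω => nuD z X C zd gs ω n₀ / 2 ^ e1)
    (g := fun ω => (nuD z X C zd gs ω n₀ / 2 ^ e0,
      ((fun u : {u : Fin c // u ≠ n₀} => nuD z X C zd gs ω u / 2 ^ e1),
        (yD z X C zd ys ω, s ω))))
    (f' := fun ω => nF E (nuD z X C zd gs) hg ω n₀ / 2 ^ e1)
    (g' := fun ω => (nF E (nuD z X C zd gs) hg ω n₀ / 2 ^ e0,
      ((fun u : {u : Fin c // u ≠ n₀} => nF E (nuD z X C zd gs) hg ω u / 2 ^ e1),
        (yF E (yD z X C zd ys) ω, (E ω, s ω))))) E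
    (fun ω ω' e => by
      have f1 := (Prod.ext_iff.mp e).2
      have f2 := (Prod.ext_iff.mp f1).2
      have f3 := (Prod.ext_iff.mp f2).2
      exact iff_of_eq (Prod.ext_iff.mp f3).1)
    (fun ω ω' h1 h2 e => by
      simp only [onE ω h1, onE ω' h2]
      exact e)
    (fun ω ω' h1 h2 e => by
      simp only [onE ω h1, onE ω' h2, onE' ω h1, onE' ω' h2] at e
      have f0 := (Prod.ext_iff.mp e).1
      have f1 := (Prod.ext_iff.mp e).2
      have f2 := (Prod.ext_iff.mp f1).2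
      have f3 := (Prod.ext_iff.mp f2).2
      exact Prod.ext f0 (Prod.ext (Prod.ext_iff.mp f1).1 (Prod.ext (Prod.ext_iff.mp f2).1
        (Prod.ext_iff.mp f3).2)))
    (Finset.Icc (-(((3 + 2 * k) * 2 ^ X : ℕ) : ℤ)) (((3 + 2 * k) * 2 ^ X : ℕ) : ℤ))
    (fun ω _ => by
      rw [Finset.mem_Icc, ← abs_le]
      refine (Int.abs_ediv_le_abs _ _).trans ?_
      push_cast
      exact hnb ω n₀)
  have hc : ((Finset.Icc (-(((3 + 2 * k) * 2 ^ X : ℕ) : ℤ)) (((3 + 2 * k) * 2 ^ X : ℕ) : ℤ)).card)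
      = 2 * ((3 + 2 * k) * 2 ^ X) + 1 := by
    rw [Int.card_Icc]
    omega
  rw [hc] at u1
  refine u1.trans (add_le_add le_rfl ?_)
  have e2 := rng_err (m := 1) (k := k) (X := X) H.z1 b0 b1
  rw [Nat.cast_one, one_mul, one_mul] at e2
  exact (mul_le_mul_of_nonneg_left (log_rng k X) b0).trans e2

end

end Pool.P4I
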