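import Pool.Agent.H35.P4I.V4
import Pool.Agent.H89.P4.V5

/-!
# P4I: the visible chart of the picture, the instance
-/

set_option autoImplicit false

namespace Pool.P4I

open Finset Real MvPolynomial
open Pool.Agent.H49.Ent Pool.Agent.H32.Dense Pool.STK Pool.STAT Pool.MIC.Frm Pool.MIC Pool.MIC7
open Pool.FRM Pool.GSD Pool.POT
open Pool.BFL (Pb)
open Pool.QC (nfb)
open Pool.QT64 (QH)
open Pool.P4

section

variable {D : NDat2} {n K K' J a₀ w₀ z M w i j r r' r'' y X : ℕ} {lam gam : ℕ → ℝ}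
  {κ C₁ C : ℝ} {q : D.Ω → ℝ} {E : D.Ω → Prop} {P : D.Γ × D.Γ → ℕ → PN}
  {S : D.Ω → ℕ → ℕ → ℝ} {c k : ℕ} {ys : Fin k → ℕ} {gs : Fin c → ℕ}
  (H : Hyp D n K K' J a₀ w₀ z M w i j r r' r'' y X lam gam κ C₁ C q E P S ys gs)
  {Sg : Type} {s : D.Ω → Sg} {zd : D.Ω → ℕ → ℝ}
  (hD : Rcv D n z i j r C q E s zd)
  {Mx : D.Γ × D.Γ → Sg → Matrix (Fin c) (Fin c) ℝ}
  (hc : Cht D z i j r X C E P s zd ys gs Mx)

include H

theorem Hyp.posE {ω : D.Ω} (hE : E ω) : 0 < q ω := (H.gd ω hE).1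

include hc

omit H in
theorem cht_det {ω : D.Ω} (hE : E ω) : IsUnit (Mx (bb D i j r ω) (s ω)).det := by
  rw [det_low (hc.one ω hE) (hc.low ω hE)]
  exact isUnit_one

include hD

/-- The visible heights are the linear image of the closed ones. -/
theorem Hyp.nD_ze {ω ω' : D.Ω} (hE : E ω) (hE' : E ω') (hb : bb D i j r ω = bb D i j r ω')
    (hT : D.T ω = D.T ω') {ρ : ℝ} (hρ : 0 ≤ ρ)
    (hy : ∀ a, 2 ^ X * |ze D i j r P ω (ys a) - ze D i j r P ω' (ys a)| ≤ ρ) (u : Fin c) :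
    |dv (nuD z X C zd gs ω) (nuD z X C zd gs ω') u - ∑ v, Mx (bb D i j r ω) (s ω) u v *
      (2 ^ X / Rg z C * (ze D i j r P ω (gs v) - ze D i j r P ω' (gs v)))| ≤ 3 + ρ := by
  have hω := H.posE hE
  have hω' := H.posE hE'
  have hR := Rg_pos z C
  have hgu := H.gs_n u
  obtain ⟨f, hf⟩ : ∃ f, f = 2 ^ X / Rg z C := ⟨_, rfl⟩
  have f0 : 0 < f := by
    rw [hf]
    positivity
  have h1 := dg_f (X := X) (z := z) (C := C)
    ((hD.bd ω hω hE (gs u) hgu.1 hgu.2).trans H.exp_le_Rg)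
    ((hD.bd ω' hω' hE' (gs u) hgu.1 hgu.2).trans H.exp_le_Rg)
  have hX : (0 : ℝ) < 2 ^ X := by positivity
  have h2 := (hc.fw ω ω' hE hE' hb hT (ρ / 2 ^ X) (by positivity) (fun a => by
    rw [le_div_iff₀ hX, mul_comm]
    exact hy a)).2 u
  have h3 := mul_le_mul_of_nonneg_left h2 f0.le
  rw [← abs_of_pos f0, ← abs_mul, abs_of_pos f0] at h3
  have e1 : f * (zd ω (gs u) - zd ω' (gs u) - ∑ v, Mx (bb D i j r ω) (s ω) u v *
      (ze D i j r P ω (gs v) - ze D i j r P ω' (gs v))) =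
      f * (zd ω (gs u) - zd ω' (gs u)) - ∑ v, Mx (bb D i j r ω) (s ω) u v *
      (f * (ze D i j r P ω (gs v) - ze D i j r P ω' (gs v))) := by
    rw [mul_sub, Finset.mul_sum]
    congr 1
    refine Finset.sum_congr rfl fun v _ => ?_
    ring
  rw [e1] at h3
  have h4 : f * (exp (C * z) * (ρ / 2 ^ X + ((2 : ℝ) ^ X)⁻¹)) ≤ 1 + ρ := by
    have e2 : f * (exp (C * z) * (ρ / 2 ^ X + ((2 : ℝ) ^ X)⁻¹)) =
        (exp (C * z) / Rg z C) * (ρ + 1) := by
      rw [hf]
      field_simp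
    rw [e2]
    have e3 : exp (C * z) / Rg z C ≤ 1 := by
      rw [div_le_one hR]
      exact H.exp_le_Rg
    have := mul_le_mul_of_nonneg_right e3 (by linarith : (0 : ℝ) ≤ ρ + 1)
    linarith
  rw [← hf] at h1 ⊢
  have e4 : dv (nuD z X C zd gs ω) (nuD z X C zd gs ω') u =
      (dg X (zd ω (gs u) / Rg z C) : ℝ) - dg X (zd ω' (gs u) / Rg z C) := by
    unfold dv nuD
    push_cast
    rfl
  rw [e4]
  rw [abs_le] at h1 h3 ⊢
  constructor <;> linarith [h1.1, h1.2, h3.1, h3.2]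

/-- The relation at one time. -/
theorem Hyp.rel_E {ω ω' : D.Ω} (hE : E ω) (hE' : E ω')
    (hyD : yD z X C zd ys ω = yD z X C zd ys ω') (hb : bb D i j r ω = bb D i j r ω')
    (hT : D.T ω = D.T ω')
    (hS : Sv (c := c) (k := k) D z X C S ys gs ω = Sv D z X C S ys gs ω') (u : Fin c) :
    |((Mx (bb D i j r ω) (s ω))⁻¹.mulVec (dv (nuD z X C zd gs ω) (nuD z X C zd gs ω'))) u -
      dv ((qh (c := c) (k := k) D J w z i j r X C P S ys gs q).hgt ω)
        ((qh (c := c) (k := k) D J w z i j r X C P S ys gs q).hgt ω') u| ≤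
      (12 + 16 * k + 8 * c) * exp ((3 * C) * z) := by
  have hω := H.posE hE
  have hω' := H.posE hE'
  have hRy := Ry_pos z C
  have hX : (0 : ℝ) < 2 ^ X := by positivity
  have e1 := H.e1
  -- the slow coordinates
  have hs : ∀ a, 2 ^ X * |ze D i j r P ω (ys a) - ze D i j r P ω' (ys a)| ≤
      5 * exp ((2 * C) * z) := by
    intro a
    have h1 : ∀ a, |zd ω (ys a) - zd ω' (ys a)| ≤ 4 * Ry z C / 2 ^ X := by
      intro a
      have hya := H.ys_n a
      have b1 : |zd ω (ys a)| ≤ Ry z C := hD.bd ω hω hE (ys a) hya.1 hya.2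
      have b2 : |zd ω' (ys a)| ≤ Ry z C := hD.bd ω' hω' hE' (ys a) hya.1 hya.2
      rw [abs_le] at b1 b2
      have h3 := dgp_inj (X := X) (x := (zd ω (ys a) + Ry z C) / (2 * Ry z C))
        (y := (zd ω' (ys a) + Ry z C) / (2 * Ry z C))
        (div_nonneg (by linarith) (by linarith)) (by rw [div_le_one (by linarith)]; linarith)
        (div_nonneg (by linarith) (by linarith)) (by rw [div_le_one (by linarith)]; linarith)
        (congrFun hyD a)
      rw [← sub_div, abs_div, abs_of_pos (by positivity : (0 : ℝ) < 2 * Ry z C),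
        add_sub_add_right_eq_sub, ← mul_div_assoc, div_le_iff₀ (by positivity)] at h3
      rw [le_div_iff₀ hX]
      linarith
    have h2 := hc.bw ω ω' hE hE' hb hT (4 * Ry z C / 2 ^ X) (by positivity) h1 a
    have h3 := mul_le_mul_of_nonneg_left h2 hX.le
    refine h3.trans ?_
    have e2 : (2 : ℝ) ^ X * (exp (C * z) * (4 * Ry z C / 2 ^ X + ((2 : ℝ) ^ X)⁻¹)) =
        exp (C * z) * (4 * exp (C * z) + 1) := by
      unfold Ry
      field_simp
    rw [e2, show (2 * C) * z = C * z + C * z by ring, Real.exp_add]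
    nlinarith
  have h1 := H.hgt_ze hω hω' hE hE' hS hs u
  have hinv := inv_near (cht_det hc hE) (G := exp (C * z)) (Real.exp_pos _).le (hc.inv ω hE)
    (x := dv (nuD z X C zd gs ω) (nuD z X C zd gs ω'))
    (e := fun v => 2 ^ X / Rg z C * (ze D i j r P ω (gs v) - ze D i j r P ω' (gs v)))
    (t := 3 + 5 * exp ((2 * C) * z))
    (fun u => H.nD_ze hD hc hE hE' hb hT (by positivity) hs u) u
  have e3 : dv ((qh (c := c) (k := k) D J w z i j r X C P S ys gs q).hgt ω)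
        ((qh (c := c) (k := k) D J w z i j r X C P S ys gs q).hgt ω') u =
      ((qh (c := c) (k := k) D J w z i j r X C P S ys gs q).hgt ω u : ℝ) -
        (qh (c := c) (k := k) D J w z i j r X C P S ys gs q).hgt ω' u := by
    unfold dv
    push_cast
    rfl
  rw [e3]
  have k0 : (0 : ℝ) ≤ k := Nat.cast_nonneg k
  have c0 : (0 : ℝ) ≤ c := Nat.cast_nonneg c
  obtain ⟨x, hx⟩ : ∃ x, x = exp (C * z) := ⟨_, rfl⟩
  have e4 : exp ((2 * C) * z) = x * x := by
    rw [show (2 * C) * z = C * z + C * z by ring, Real.exp_add, hx]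
  have e5 : exp ((3 * C) * z) = x * (x * x) := by
    rw [show (3 * C) * z = C * z + (C * z + C * z) by ring, Real.exp_add, Real.exp_add, hx]
  rw [e4] at h1
  rw [e4, ← hx] at hinv
  rw [e5]
  rw [← hx] at e1
  have x2 : 1 ≤ x * x := by nlinarith
  have x3 : x * x ≤ x * (x * x) := by nlinarith
  have x4 : x ≤ x * (x * x) := by nlinarith
  have g1 : 12 + 10 * (k : ℝ) + k * (1 + 5 * (x * x)) ≤ (12 + 16 * k) * (x * (x * x)) := by
    have a1 : (12 : ℝ) ≤ 12 * (x * (x * x)) := by linarith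
    have a2 : (11 * k : ℝ) ≤ 11 * k * (x * (x * x)) := by
      have : (0 : ℝ) ≤ 11 * k := by positivity
      nlinarith
    have a3 : (5 * k : ℝ) * (x * x) ≤ 5 * k * (x * (x * x)) :=
      mul_le_mul_of_nonneg_left x3 (by positivity)
    linarith
  have g2 : (c : ℝ) * (x * (3 + 5 * (x * x))) ≤ 8 * c * (x * (x * x)) := by
    have a1 : x * (3 + 5 * (x * x)) ≤ 8 * (x * (x * x)) := by nlinarith
    have := mul_le_mul_of_nonneg_left a1 c0
    linarith
  rw [abs_le] at h1 hinv ⊢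
  constructor <;> linarith [h1.1, h1.2, hinv.1, hinv.2]

/-- The relation along the line. -/
theorem Hyp.tr_E {ω ω' : D.Ω} (hE : E ω) (hE' : E ω')
    (hyv : yv (k := k) D J w z i j r X C P ys ω = yv D J w z i j r X C P ys ω')
    (hbe : bev (c := c) D J w z i j r X C P gs ω = bev D J w z i j r X C P gs ω')
    (hb : bb D i j r ω = bb D i j r ω') (hT : D.T ω = D.T ω') (u : Fin c) :
    |((Mx (bb D i j r ω) (s ω))⁻¹.mulVec (dv (nuD z X C zd gs ω) (nuD z X C zd gs ω'))) u -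
      dv (nuv D J w z i j r X C P gs ω) (nuv D J w z i j r X C P gs ω') u| ≤
      (6 + 9 * c) * exp ((3 * C) * z) := by
  have hω := H.posE hE
  have hω' := H.posE hE'
  have e1 := H.e1
  have hs := H.y_ze hω hω' hE hE' hyv
  have h1 := H.z0_ze hω hω' hE hE' hT hbe u
  have hgu := H.gs_n u
  have h2 := dg_f (X := X) (z := z) (C := C)
    ((H.geo.bt ω hω hE (gs u) hgu.1 hgu.2 w H.w1 H.w2).1.trans H.exp_le_Rg)
    ((H.geo.bt ω' hω' hE' (gs u) hgu.1 hgu.2 w H.w1 H.w2).1.trans H.exp_le_Rg)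
  have hinv := inv_near (cht_det hc hE) (G := exp (C * z)) (Real.exp_pos _).le (hc.inv ω hE)
    (x := dv (nuD z X C zd gs ω) (nuD z X C zd gs ω'))
    (e := fun v => 2 ^ X / Rg z C * (ze D i j r P ω (gs v) - ze D i j r P ω' (gs v)))
    (t := 3 + 6 * Ry z C)
    (fun u => H.nD_ze hD hc hE hE' hb hT (by have := Ry_pos z C; positivity) hs u) u
  have e3 : dv (nuv D J w z i j r X C P gs ω) (nuv D J w z i j r X C P gs ω') u =
      (dg X (z0 D J w i j r P ω (gs u) / Rg z C) : ℝ) -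
        dg X (z0 D J w i j r P ω' (gs u) / Rg z C) := by
    unfold dv nuv
    push_cast
    rfl
  rw [e3]
  have c0 : (0 : ℝ) ≤ c := Nat.cast_nonneg c
  obtain ⟨x, hx⟩ : ∃ x, x = exp (C * z) := ⟨_, rfl⟩
  have e5 : exp ((3 * C) * z) = x * (x * x) := by
    rw [show (3 * C) * z = C * z + (C * z + C * z) by ring, Real.exp_add, Real.exp_add, hx]
  unfold Ry at hinv
  rw [← hx] at hinv
  rw [e5]
  rw [← hx] at e1
  have x2 : 1 ≤ x * x := by nlinarith
  have x3 : x * x ≤ x * (x * x) := by nlinarith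
  have x4 : x ≤ x * (x * x) := by nlinarith
  have g2 : (c : ℝ) * (x * (3 + 6 * x)) ≤ 9 * c * (x * (x * x)) := by
    have a1 : x * (3 + 6 * x) ≤ 9 * (x * (x * x)) := by nlinarith
    have := mul_le_mul_of_nonneg_left a1 c0
    linarith
  rw [abs_le] at h1 h2 hinv ⊢
  constructor <;> linarith [h1.1, h1.2, h2.1, h2.2, hinv.1, hinv.2]

end

end Pool.P4I
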